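import Pool.Agent.Lib.MP_acf82c_lc.Br.SpecE
import Pool.Agent.Lib.MP_acf82c_lc.Arith
import Pool.Agent.Lib.MP_acf82c_lc.S.ErrMono

/-!
# Networks with bridges: good moves in small networks, all data chosen
-/

set_option autoImplicit false

open Set MeasureTheory
open scoped NNReal ENNReal

namespace MPacf82c.Br

namespace BrG_aux

theorem goodMono {Q : Type} [MetricSpace Q] {n B : ℕ} {T0 err err' : ℝ}
    (h : GoodMoves Q n B T0 err) (he : err ≤ err') (hn : 1 ≤ n) : GoodMoves Q n B T0 err' := by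
  obtain ⟨x, P, mv, h1, h2, h3, h4, h5, h6, h7⟩ := h
  refine ⟨x, P, mv, h1, h2, h3, h4, h5, h6, fun S hS t0 => ?_⟩
  obtain ⟨L, hL1, hL2, z, hz0, hz1, hz2⟩ := h7 S hS t0
  refine ⟨L, hL1, hL2, z, hz0, hz1.trans ?_, hz2⟩
  have hn' : (1 : ℝ) ≤ n := by exact_mod_cast hn
  have h8 : (0 : ℝ) ≤ (n * (n - 1) : ℝ) := mul_nonneg (by linarith) (by linarith)
  exact mul_le_mul_of_nonneg_left he h8

/-- The parameters. -/
theorem params {μ μ' c h γ δ nn BB RR n2 : ℝ} (hμ : 0 < μ) (hμ' : μ ≤ μ') (hc : 0 ≤ c)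
    (hh : 0 < h) (hR : 3 ≤ RR) (hγ : 0 < γ) (hγR : γ ≤ 1 / (4 * RR)) (hδ : 0 < δ)
    (hδγ : δ ≤ γ ^ 4 / 13) (hn2 : 0 ≤ n2) (hB0 : 0 ≤ BB)
    (hl1 : h * (2 * n2) ≤ μ) (hl2 : h * (4 * (2 * c + 3 * RR)) ≤ μ) (hl3 : 3 * h ≤ γ * μ)
    (ha : nn * h ≤ μ') (hb : μ' ≤ (nn + 2 * c) * h) (hBR : BB * RR ≤ nn)
    (hBR' : nn ≤ (BB + 1) * RR) :
    n2 ≤ nn ∧ μ' / 2 ≤ nn * h ∧ h * BB - (2 * h + 12 * (δ * μ)) ≤ μ' / RR ∧
      μ' / (2 * RR) ≤ h * BB - (2 * h + 12 * (δ * μ)) ∧ 13 * (δ * μ) ≤ γ ^ 4 * μ' ∧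
      Real.sqrt (μ * (δ * μ)) ≤ γ ^ 2 * μ / 3 ∧
      Real.sqrt (μ * (δ * μ)) + 2 * (δ * μ) < γ * μ' ∧ γ * μ' < μ' / (2 * RR) := by
  have hR0 : 0 < RR := by linarith
  have hμ'0 : 0 < μ' := lt_of_lt_of_le hμ hμ'
  have hγR' : γ * (4 * RR) ≤ 1 := by rwa [le_div_iff₀ (by positivity)] at hγR
  have hγ12 : γ ≤ 1 / 12 := by
    have : γ * 12 ≤ γ * (4 * RR) := mul_le_mul_of_nonneg_left (by linarith) hγ.le
    linarith
  have hnh : μ' - μ / 4 ≤ nn * h := by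
    have h1 : h * (4 * (2 * c)) ≤ h * (4 * (2 * c + 3 * RR)) :=
      mul_le_mul_of_nonneg_left (by linarith) hh.le
    nlinarith
  have hγ2 : γ ^ 2 ≤ γ / 12 := by nlinarith
  have hγ3 : γ ^ 3 ≤ 1 / 12 := by
    calc γ ^ 3 ≤ (1 / 12) ^ 3 := by gcongr
      _ ≤ 1 / 12 := by norm_num
  have hγ4 : γ ^ 4 ≤ γ / 12 := by
    calc γ ^ 4 = γ * γ ^ 3 := by ring
      _ ≤ γ * (1 / 12) := by gcongr
      _ = γ / 12 := by ring
  have hδγ' : δ ≤ γ / 156 := by linarith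
  have hRδ : 24 * (RR * δ) ≤ 1 / 2 := by
    have h1 : RR * δ ≤ RR * (γ / 156) := mul_le_mul_of_nonneg_left hδγ' hR0.le
    nlinarith
  have hsq : Real.sqrt (μ * (δ * μ)) ≤ γ ^ 2 * μ / 3 := by
    rw [Real.sqrt_le_left (by positivity)]
    have h1 : δ * μ ^ 2 ≤ γ ^ 4 / 13 * μ ^ 2 := mul_le_mul_of_nonneg_right hδγ (by positivity)
    have h2 : 0 ≤ γ ^ 4 * μ ^ 2 := by positivity
    nlinarith
  refine ⟨?_, ?_, ?_, ?_, ?_, hsq, ?_, ?_⟩
  · by_contra hcon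
    push Not at hcon
    have h1 : nn * h ≤ n2 * h := mul_le_mul_of_nonneg_right hcon.le hh.le
    nlinarith
  · linarith
  · rw [le_div_iff₀ hR0]
    have h1 : h * (BB * RR) ≤ h * nn := mul_le_mul_of_nonneg_left hBR hh.le
    have h2 : 0 ≤ (2 * h + 12 * (δ * μ)) * RR := by positivity
    nlinarith
  · rw [div_le_iff₀ (by positivity)]
    have h1 : h * nn ≤ h * ((BB + 1) * RR) := mul_le_mul_of_nonneg_left hBR' hh.le
    have h2 : 24 * (RR * δ) * μ ≤ 1 / 2 * μ := mul_le_mul_of_nonneg_right hRδ hμ.le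
    nlinarith
  · have h1 : 13 * (δ * μ) ≤ γ ^ 4 * μ := by nlinarith
    have h2 : γ ^ 4 * μ ≤ γ ^ 4 * μ' := mul_le_mul_of_nonneg_left hμ' (by positivity)
    linarith
  · have h1 : γ ^ 2 * μ / 3 ≤ γ / 12 * μ / 3 := by
      have := mul_le_mul_of_nonneg_right hγ2 hμ.le
      linarith
    have h2 : δ * μ ≤ γ / 156 * μ := mul_le_mul_of_nonneg_right hδγ' hμ.le
    have h3 : γ * μ ≤ γ * μ' := mul_le_mul_of_nonneg_left hμ' hγ.le
    have h4 : 0 < γ * μ := by positivity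
    linarith
  · rw [lt_div_iff₀ (by positivity)]
    have h1 : γ * (4 * RR) * μ' ≤ 1 * μ' := mul_le_mul_of_nonneg_right hγR' hμ'0.le
    nlinarith

end BrG_aux

open BrG_aux in
theorem tBrG : S_BrG := by
  classical
  intro hPos hLab hNet R hR γ δ hγ hγR hδ hδγ Q _ N hD hμ n1
  have hne : Nonempty N.Arc := by
    by_contra h
    rw [not_nonempty_iff] at h
    have : N.length = 0 := by
      unfold Network.length
      simp
    linarith
  obtain ⟨e0, -, he0⟩ := Finset.exists_min_image (Finset.univ : Finset N.Arc) N.len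
    ⟨hne.some, Finset.mem_univ _⟩
  have hg0 : ∀ e, ∃ g : Q → ℝ, N.IsBridge e → IsPos N e g := by
    intro e
    by_cases h : N.IsBridge e
    · obtain ⟨g, hg⟩ := hPos Q N e h
      exact ⟨g, fun _ => hg⟩
    · exact ⟨fun _ => 0, fun h' => absurd h' h⟩
  choose g hg using hg0
  obtain ⟨E, hE⟩ : ∃ E : Finset N.Arc, E = Finset.univ.filter (fun e => N.IsBridge e) := ⟨_, rfl⟩
  have hEmem : ∀ e, e ∈ E ↔ N.IsBridge e := by
    intro e
    rw [hE, Finset.mem_filter]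
    simp
  have hEsum : ∑ e ∈ E, N.len e = N.bridgeLength := by
    rw [hE, Finset.sum_filter]
    unfold Network.bridgeLength
    exact Finset.sum_congr rfl fun e _ => by congr
  have hr : ∀ e, N.pt e0 0 ∉ N.openArc e := fun e =>
    nb_pt_notMem_openArc N (e := e0) (s := 0) ⟨le_rfl, (N.len_pos e0).le⟩ (by simp) e
  have hbl : 0 ≤ N.bridgeLength := by
    rw [← hEsum]
    exact Finset.sum_nonneg fun e _ => (N.len_pos e).le
  have hμ' : N.length ≤ N.length + N.bridgeLength := by linarith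
  obtain ⟨c, hc⟩ : ∃ c : ℝ, c = (Fintype.card N.Arc : ℝ) := ⟨_, rfl⟩
  have hc0 : 0 ≤ c := by rw [hc]; positivity
  have hRr : (3 : ℝ) ≤ R := by exact_mod_cast hR
  have hR0 : 0 < R := by omega
  have hR0r : (0 : ℝ) < R := by linarith
  obtain ⟨n2, hn2⟩ : ∃ n2 : ℕ, n2 = (n1 + 3) * (R + 1) := ⟨_, rfl⟩
  have hn2r : (n2 : ℝ) = (n1 + 3) * (R + 1) := by rw [hn2]; push_cast; ring
  have hn2pos : (0 : ℝ) < n2 := by rw [hn2r]; positivity
  refine ⟨min (N.len e0) (min (N.length / (2 * n2)) (min (N.length / (4 * (2 * c + 3 * R)))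
    (γ * N.length / 3))), ?_, ?_⟩
  · refine lt_min (N.len_pos e0) (lt_min (by positivity) (lt_min (by positivity) (by positivity)))
  intro h hh hle
  have hl0 : h ≤ N.len e0 := hle.trans (min_le_left _ _)
  have hl1 : h ≤ N.length / (2 * n2) := hle.trans ((min_le_right _ _).trans (min_le_left _ _))
  have hl2 : h ≤ N.length / (4 * (2 * c + 3 * R)) :=
    hle.trans ((min_le_right _ _).trans ((min_le_right _ _).trans (min_le_left _ _)))
  have hl3 : h ≤ γ * N.length / 3 :=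
    hle.trans ((min_le_right _ _).trans ((min_le_right _ _).trans (min_le_right _ _)))
  rw [le_div_iff₀ (by positivity)] at hl1 hl2
  have hl3' : 3 * h ≤ γ * N.length := by linarith
  have hlen : ∀ e, h ≤ N.len e := fun e => hl0.trans (he0 e (Finset.mem_univ _))
  obtain ⟨n, arcOf, pos, hlab, ha, hb⟩ := hLab Q N E g (N.pt e0 0) h hh hlen
    (fun e he => (hg e ((hEmem e).1 he)).off _ (hr e))
  rw [hEsum] at ha hb
  rw [← hc] at hb
  obtain ⟨B, hB⟩ : ∃ B : ℕ, B = n / R := ⟨_, rfl⟩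
  have hBR : B * R ≤ n := by rw [hB]; exact Nat.div_mul_le_self _ _
  have hBR' : n ≤ (B + 1) * R := by
    rw [hB]; have := Nat.lt_div_mul_add (a := n) hR0; nlinarith
  have hBRr : (B : ℝ) * R ≤ n := by exact_mod_cast hBR
  have hBRr' : (n : ℝ) ≤ (B + 1) * R := by exact_mod_cast hBR'
  obtain ⟨p1, p2, p3, p4, p5, p6, p7, p8⟩ := params (n2 := (n2 : ℝ)) hμ hμ' hc0 hh hRr hγ hγR hδ
    hδγ hn2pos.le (Nat.cast_nonneg B) hl1 hl2 hl3' ha hb hBRr hBRr'
  have hnn2 : n2 ≤ n := by exact_mod_cast p1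
  have hBn1 : n1 + 3 ≤ B := by
    rw [hB, Nat.le_div_iff_mul_le hR0]
    calc (n1 + 3) * R ≤ (n1 + 3) * (R + 1) := Nat.mul_le_mul le_rfl (by omega)
      _ = n2 := hn2.symm
      _ ≤ n := hnn2
  have hn1n : n1 + 3 ≤ n := by
    calc n1 + 3 ≤ B := hBn1
      _ ≤ n := by rw [hB]; exact Nat.div_le_self _ _
  have hnpos : (0 : ℝ) < n := by
    have : (3 : ℝ) ≤ n := by exact_mod_cast (by omega : 3 ≤ n)
    linarith
  have hμ'0 : 0 < N.length + N.bridgeLength := lt_of_lt_of_le hμ hμ'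
  have hT0 : 0 < h * (B : ℝ) - (2 * h + 12 * (δ * N.length)) :=
    lt_of_lt_of_le (by positivity) p4
  have hΓT : γ * (N.length + N.bridgeLength) < h * (B : ℝ) - (2 * h + 12 * (δ * N.length)) :=
    lt_of_lt_of_le p8 p4
  refine ⟨n, B, hB, by omega, by omega, ha, by rw [← hc]; exact hb, hT0, ?_⟩
  have hG := hNet Q N E g (N.pt e0 0) (δ * N.length) h γ (γ * (N.length + N.bridgeLength)) n B
    arcOf pos hD hh hlen hγ p7 (fun e he => hg e ((hEmem e).1 he)) (fun e _ => hr e) hlab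
    (by omega) (by omega) hΓT
  refine goodMono hG ?_ (by omega)
  have hmono := St.sErrMono n (h * (B : ℝ) - (2 * h + 12 * (δ * N.length))) h γ
    (γ * (N.length + N.bridgeLength)) (13 * (δ * N.length))
    (γ ^ 4 * (N.length + N.bridgeLength)) (2 * Real.sqrt (N.length * (δ * N.length)))
    (γ ^ 2 * (N.length + N.bridgeLength)) (by omega) hh hγ (by positivity) hΓT p5
    (by
      have h1 : γ ^ 2 * N.length ≤ γ ^ 2 * (N.length + N.bridgeLength) :=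
        mul_le_mul_of_nonneg_left hμ' (by positivity)
      have h2 : 0 < γ ^ 2 * N.length := by positivity
      linarith)
  refine hmono.trans ?_
  have herr := err_arith (T0 := h * (B : ℝ) - (2 * h + 12 * (δ * N.length))) hμ'0 hh
    (by linarith : (1 : ℝ) ≤ R) hγ hγR p4 p3
    (hl3'.trans (mul_le_mul_of_nonneg_left hμ' hγ.le)) p2 hnpos
  unfold errN
  exact herr

end MPacf82c.Br
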