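import Pool.Agent.Lib.MP_acf82c_lc.Br.SpecE
import Pool.Agent.Lib.MP_acf82c_lc.TwoSided

/-!
# Networks with bridges: the clover constant is at most `Cc`
-/

set_option autoImplicit false

namespace MPacf82c.Br

open Set MeasureTheory
open scoped NNReal ENNReal
open MPacf82c.St (Up CloverC S_UpPart S_CloverLow)

theorem tCLt : S_CLt := by
  intro hU hP hC c hc
  refine le_of_forall_pos_le_add fun ε' hε' => ?_
  obtain ⟨ε, hε⟩ : ∃ ε : ℝ, ε = min (ε' / 2) 1 := ⟨_, rfl⟩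
  have hε0 : 0 < ε := by rw [hε]; exact lt_min (by positivity) one_pos
  have hε1 : ε ≤ 1 := by rw [hε]; exact min_le_right _ _
  have hεε : ε ≤ ε' / 2 := by rw [hε]; exact min_le_left _ _
  obtain ⟨L, hL⟩ := exists_nat_ge (30 / ε)
  have hL30 : (30 : ℝ) ≤ L := by
    refine le_trans ?_ hL
    rw [le_div_iff₀ hε0]; linarith
  have hL1 : 1 ≤ L := by
    have : (1 : ℝ) ≤ L := by linarith
    exact_mod_cast this
  obtain ⟨K, hK1, hKup⟩ := hP ε hε0 hε1 L hL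
  obtain ⟨R0, hR0⟩ := hU K
  obtain ⟨R, hR⟩ : ∃ R : ℕ, R = max R0 3 := ⟨_, rfl⟩
  have hRR0 : R0 ≤ R := by rw [hR]; exact le_max_left _ _
  have hR3 : 3 ≤ R := by rw [hR]; exact le_max_right _ _
  obtain ⟨n2, hn2⟩ := hC c hc ε hε0
  obtain ⟨n3, hn3⟩ := exists_nat_ge (2 * (R : ℝ) * (3 + 12 / ε))
  obtain ⟨B, hB⟩ : ∃ B : ℕ, B = max (max R0 2) (max n2 n3) := ⟨_, rfl⟩
  have hBR0 : R0 ≤ B := by omega
  have hB2 : 2 ≤ B := by omega
  have hBn2 : n2 ≤ B := by omega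
  have hBn3 : n3 ≤ B := by omega
  obtain ⟨n, hn⟩ : ∃ n : ℕ, n = B * R := ⟨_, rfl⟩
  have hBn : B ≤ n := by
    rw [hn]; exact Nat.le_mul_of_pos_right B (by omega)
  have hdiv : B = n / R := by
    rw [hn, Nat.mul_div_cancel _ (by omega)]
  have h2Bn : 2 * B ≤ n := by
    have : B * 3 ≤ B * R := Nat.mul_le_mul_left _ hR3
    omega
  have hBpos : (0 : ℝ) < B := by
    have : 0 < B := by omega
    exact_mod_cast this
  have hnpos : (0 : ℝ) < n := by
    have : 0 < n := by omega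
    exact_mod_cast this
  obtain ⟨M, hM⟩ : ∃ M : ℕ, M = L * R := ⟨_, rfl⟩
  have hM0 : 0 < M := by
    rw [hM]; exact Nat.mul_pos (by omega) (by omega)
  have hnMB : n ≤ M * B := by
    rw [hn, hM, Nat.mul_comm B R, Nat.mul_assoc]
    exact Nat.le_mul_of_pos_left _ hL1
  obtain ⟨V, hV1, hVn, hSV, hHV⟩ := block_game n B M K hB2 h2Bn hM0
  have hstat : (n : ℝ) / (2 * B) ≤ V := stationary (by omega) (by omega) hnMB hSV
  have hnbig : 2 * (R : ℝ) * (3 + 12 / ε) ≤ n :=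
    hn3.trans (by exact_mod_cast hBn3.trans hBn)
  have hup := hKup R n B hR3 hdiv hnbig V (by rw [← hM]; exact hSV) hstat hVn
  have hVup : V ≤ Cc * ((n : ℝ) / B) :=
    hR0 R n B M V hRR0 hBR0 (by rw [hn]) (by rw [hn]; exact Nat.mul_le_mul_right _ (by omega)) hHV
  have hV0 : 0 ≤ V := by linarith
  have hx0 : 0 ≤ (B : ℝ) / n * V := by positivity
  have hlow : c - ε ≤ (B : ℝ) / n * V + ε :=
    hn2 n (hBn2.trans hBn) ((B : ℝ) / n * V + ε) (by linarith) hup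
  have hxle : (B : ℝ) / n * V ≤ Cc := by
    calc (B : ℝ) / n * V ≤ B / n * (Cc * ((n : ℝ) / B)) := by gcongr
      _ = Cc := by field_simp
  linarith

end MPacf82c.Br
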