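import Pool.Agent.Lib.MP_acf82c_lc.Br.SpecE

/-!
# Networks with bridges: coverage for the labels of a network with bridges

The labels outside of the bridges are counted by `S_CovN`.  Labels of a bridge with both end points
of the path on the root side are counted by `cntB` and `S_Crs`.  The other bridges have total length
at most `3 D + 3 D` by `S_Exc`.
-/

set_option autoImplicit false

open Set MeasureTheory
open scoped NNReal ENNReal

namespace MPacf82c.Br

private theorem Cov_time_nonneg {Q : Type} (S : ℝ → Q) (t0 t1 : ℝ) (A : Set Q) :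
    0 ≤ timeIn S t0 t1 A := by
  unfold timeIn
  exact ENNReal.toReal_nonneg

/-- The sum over a filter and its complement. -/
private theorem Cov_bad {E : Type} [DecidableEq E] (X0 X1 Y : Finset E) (l c : E → ℝ) (D : ℝ)
    (hl : ∀ e, 0 ≤ l e) (hY : ∀ e ∈ Y, e ∈ X0 ∨ e ∈ X1) (hc : ∀ e ∈ Y, c e ≤ 2 * l e)
    (h0 : ∑ e ∈ X0, l e ≤ 3 * D) (h1 : ∑ e ∈ X1, l e ≤ 3 * D) : ∑ e ∈ Y, c e ≤ 12 * D := by
  have h2 : ∑ e ∈ Y, c e ≤ ∑ e ∈ Y, 2 * l e := Finset.sum_le_sum hc
  have h3 : ∑ e ∈ Y, 2 * l e ≤ ∑ e ∈ X0 ∪ X1, 2 * l e := by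
    refine Finset.sum_le_sum_of_subset_of_nonneg ?_ fun e _ _ => by linarith [hl e]
    intro e he
    exact Finset.mem_union.2 (hY e he)
  have h4 : ∑ e ∈ X0 ∪ X1, 2 * l e ≤ ∑ e ∈ X0, 2 * l e + ∑ e ∈ X1, 2 * l e := by
    have h5 := Finset.sum_union_inter (s₁ := X0) (s₂ := X1) (f := fun e => 2 * l e)
    have h6 : 0 ≤ ∑ e ∈ X0 ∩ X1, 2 * l e := Finset.sum_nonneg fun e _ => by linarith [hl e]
    linarith
  have h7 : ∑ e ∈ X0, 2 * l e = 2 * ∑ e ∈ X0, l e := by rw [Finset.mul_sum]
  have h8 : ∑ e ∈ X1, 2 * l e = 2 * ∑ e ∈ X1, l e := by rw [Finset.mul_sum]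
  linarith

theorem tCov : S_Cov := by
  classical
  intro hLip hSum hCovN hCrs hExc Q _ N E g r h D n arcOf pos hh hlen hdist hpos hr hL S hS t0 t1
    ht A s hs
  -- the labels outside of the bridges
  have hN := hCovN Q N E g r h n arcOf pos hh hL S hS t0 t1 ht (A.filter fun e => e ∉ E)
    (s.filter fun i => arcOf i ∉ E)
    (fun i hi => by
      obtain ⟨h1, h2⟩ := Finset.mem_filter.1 hi
      exact ⟨Finset.mem_filter.2 ⟨(hs i h1).1, h2⟩, h2, (hs i h1).2⟩)
    (fun e he => (Finset.mem_filter.1 he).2)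
  -- the labels on the bridges
  have hcard1 : (s.card : ℝ) = ((s.filter fun i => arcOf i ∉ E).card : ℝ) +
      ((s.filter fun i => arcOf i ∈ E).card : ℝ) := by
    have h1 := Finset.card_filter_add_card_filter_not (s := s) (fun i => arcOf i ∈ E)
    have h2 : s.card = (s.filter fun i => arcOf i ∉ E).card +
        (s.filter fun i => arcOf i ∈ E).card := by omega
    exact_mod_cast h2
  have hcard2 : ((s.filter fun i => arcOf i ∈ E).card : ℝ) =
      ∑ e ∈ A.filter (fun e => e ∈ E), ((s.filter fun i => arcOf i = e).card : ℝ) := by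
    have h1 := Finset.card_eq_sum_card_fiberwise (s := s.filter fun i => arcOf i ∈ E)
      (t := A.filter fun e => e ∈ E) (f := arcOf) (fun i hi => by
        have hi' : i ∈ s.filter fun i => arcOf i ∈ E := hi
        obtain ⟨h1, h2⟩ := Finset.mem_filter.1 hi'
        exact Finset.mem_coe.2 (Finset.mem_filter.2 ⟨(hs i h1).1, h2⟩))
    rw [h1]
    push_cast
    refine Finset.sum_congr rfl fun e he => ?_
    have he2 := (Finset.mem_filter.1 he).2
    congr 2
    ext i
    simp only [Finset.mem_filter]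
    constructor
    · rintro ⟨⟨h3, _⟩, h4⟩
      exact ⟨h3, h4⟩
    · rintro ⟨h3, h4⟩
      exact ⟨⟨h3, by rw [h4]; exact he2⟩, h4⟩
  set c : N.Arc → ℝ := fun e => ((s.filter fun i => arcOf i = e).card : ℝ) * h with hc
  have hc2 : ∀ e ∈ E, c e ≤ 2 * N.len e := by
    intro e he
    by_cases hne : (s.filter fun i => arcOf i = e).Nonempty
    · have h1 := hL.cntB e he (s.filter fun i => arcOf i = e)
        (fun i hi => (Finset.mem_filter.1 hi).2) hne
      simp only [hc]
      linarith
    · rw [Finset.not_nonempty_iff_eq_empty] at hne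
      simp only [hc, hne, Finset.card_empty, Nat.cast_zero, zero_mul]
      linarith [hlen e]
  have hgood : ∀ e ∈ A.filter (fun e => e ∈ E), g e (S t0) = g e r → g e (S t1) = g e r →
      c e ≤ timeIn S t0 t1 (N.openArc e) := by
    intro e he hg0 hg1
    have he2 := (Finset.mem_filter.1 he).2
    by_cases hne : (s.filter fun i => arcOf i = e).Nonempty
    · have h1 := hL.cntB e he2 (s.filter fun i => arcOf i = e)
        (fun i hi => (Finset.mem_filter.1 hi).2) hne
      obtain ⟨i, hi⟩ := hne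
      obtain ⟨hi1, hi2⟩ := Finset.mem_filter.1 hi
      obtain ⟨_, t, htI, hSt⟩ := hs i hi1
      have hposi := hL.mem i
      rw [hi2] at hposi hSt
      have hgt : g e (S t) = pos i := by
        rw [hSt]
        exact (hpos e he2).on _ ⟨hposi.1.le, hposi.2.le⟩
      have hval : |g e (S t) - g e r| = N.len e - h / 2 := by
        rw [hgt]
        rcases (hpos e he2).off r (hr e he2) with h0 | h0
        · have h3 := hL.near i (by rw [hi2]; exact he2) (by rw [hi2]; exact h0)
          rw [hi2] at h3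
          rw [h0, h3, sub_zero, abs_of_nonneg]
          linarith [hlen e]
        · have h3 := hL.far i (by rw [hi2]; exact he2) (by rw [hi2]; exact h0)
          rw [h0, h3, abs_of_nonpos]
          · ring
          · linarith [hlen e]
      have h4 := hCrs hLip Q N e (g e) r h hh (hlen e) (hpos e he2) (hr e he2) S hS t0 t1 ht hg0
        hg1 ⟨t, htI, hval⟩
      simp only [hc]
      linarith
    · rw [Finset.not_nonempty_iff_eq_empty] at hne
      simp only [hc, hne, Finset.card_empty, Nat.cast_zero, zero_mul]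
      exact Cov_time_nonneg _ _ _ _
  -- split the bridges
  set P : N.Arc → Prop := fun e => g e (S t0) = g e r ∧ g e (S t1) = g e r with hP
  have hsplit : ∑ e ∈ A.filter (fun e => e ∈ E), c e =
      ∑ e ∈ (A.filter fun e => e ∈ E).filter P, c e +
        ∑ e ∈ (A.filter fun e => e ∈ E).filter (fun e => ¬ P e), c e :=
    (Finset.sum_filter_add_sum_filter_not _ P _).symm
  have hgoodsum : ∑ e ∈ (A.filter fun e => e ∈ E).filter P, c e ≤
      ∑ e ∈ A.filter (fun e => e ∈ E), timeIn S t0 t1 (N.openArc e) := by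
    refine (Finset.sum_le_sum fun e he => ?_).trans
      (Finset.sum_le_sum_of_subset_of_nonneg (Finset.filter_subset _ _) fun e _ _ =>
        Cov_time_nonneg _ _ _ _)
    obtain ⟨h1, h2⟩ := Finset.mem_filter.1 he
    exact hgood e h1 h2.1 h2.2
  have hbad : ∑ e ∈ (A.filter fun e => e ∈ E).filter (fun e => ¬ P e), c e ≤ 12 * D := by
    refine Cov_bad (E.filter fun e => g e (S t0) ≠ g e r) (E.filter fun e => g e (S t1) ≠ g e r)
      _ N.len c D (fun e => by linarith [hlen e]) ?_ ?_ ?_ ?_
    · intro e he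
      obtain ⟨h1, h2⟩ := Finset.mem_filter.1 he
      have he2 := (Finset.mem_filter.1 h1).2
      by_cases h3 : g e (S t0) = g e r
      · refine Or.inr (Finset.mem_filter.2 ⟨he2, fun h4 => h2 ⟨h3, h4⟩⟩)
      · exact Or.inl (Finset.mem_filter.2 ⟨he2, h3⟩)
    · intro e he
      obtain ⟨h1, _⟩ := Finset.mem_filter.1 he
      exact hc2 e (Finset.mem_filter.1 h1).2
    · exact hExc hLip hSum Q N E g r (S t0) D hdist hpos hr _ (Finset.filter_subset _ _)
        fun e he => (Finset.mem_filter.1 he).2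
    · exact hExc hLip hSum Q N E g r (S t1) D hdist hpos hr _ (Finset.filter_subset _ _)
        fun e he => (Finset.mem_filter.1 he).2
  have hT : ∑ e ∈ A, timeIn S t0 t1 (N.openArc e) =
      ∑ e ∈ A.filter (fun e => e ∈ E), timeIn S t0 t1 (N.openArc e) +
        ∑ e ∈ A.filter (fun e => ¬ e ∈ E), timeIn S t0 t1 (N.openArc e) :=
    (Finset.sum_filter_add_sum_filter_not _ _ _).symm
  have hB : h * ((s.filter fun i => arcOf i ∈ E).card : ℝ) =
      ∑ e ∈ A.filter (fun e => e ∈ E), c e := by
    rw [hcard2, Finset.mul_sum]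
    exact Finset.sum_congr rfl fun e _ => by simp only [hc]; ring
  rw [hT, hcard1, mul_add, hB, hsplit]
  linarith

end MPacf82c.Br
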