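import Pool.Agent.Lib.MP_acf82c_lc.Br.SpecE
import Pool.Agent.Lib.MP_acf82c_lc.Coverage

/-!
# Coverage for the labels which are not on bridges
-/

set_option autoImplicit false

open Set MeasureTheory
open scoped NNReal ENNReal

namespace MPacf82c.Br

theorem tCovN : S_CovN := by
  classical
  intro Q _ N E g r h n arcOf pos hh hL S hS t0 t1 ht A s hs hA
  let P := {i : Fin n // arcOf i ∉ E}
  let e := (Fintype.equivFin P).symm
  have hc := coverage_time N (n := Fintype.card P) hh
    (x := fun k => N.pt (arcOf (e k)) (pos (e k))) (arcOf := fun k => arcOf (e k))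
    (fun i j hij => hL.sep _ _ (fun h' => hij (e.injective (Subtype.ext h'))) (e i).2 (e j).2)
    (fun i z hz => hL.ball _ (e i).2 z hz) hS ht A
  have hcard : s.card ≤ (Finset.univ.filter fun k : Fin (Fintype.card P) =>
      arcOf (e k) ∈ A ∧ ∃ t ∈ Icc t0 t1, S t = N.pt (arcOf (e k)) (pos (e k))).card := by
    have : s ⊆ (Finset.univ.filter fun k : Fin (Fintype.card P) =>
        arcOf (e k) ∈ A ∧ ∃ t ∈ Icc t0 t1, S t = N.pt (arcOf (e k)) (pos (e k))).image
        (fun k => ((e k : P) : Fin n)) := by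
      intro i hi
      obtain ⟨h1, h2, h3⟩ := hs i hi
      refine Finset.mem_image.2 ⟨e.symm ⟨i, h2⟩, ?_, by simp⟩
      simpa using ⟨h1, h3⟩
    exact (Finset.card_le_card this).trans Finset.card_image_le
  have hcard' : (s.card : ℝ) ≤ ((Finset.univ.filter fun k : Fin (Fintype.card P) =>
      arcOf (e k) ∈ A ∧ ∃ t ∈ Icc t0 t1, S t = N.pt (arcOf (e k)) (pos (e k))).card : ℝ) := by
    exact_mod_cast hcard
  nlinarith [mul_le_mul_of_nonneg_left hcard' hh.le]

end MPacf82c.Br
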