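import Pool.Agent.Lib.MP_acf82c_lc.Br.SpecE

/-!
# The time spent in a bridge which is crossed back and forth
-/

set_option autoImplicit false

open Set MeasureTheory
open scoped NNReal ENNReal

namespace MPacf82c.Br

/-- A 1-Lipschitz function of the line does not increase the measure. -/
private theorem Crs_aux.vol_image {f : ℝ → ℝ} (hf : LipschitzWith 1 f) (U : Set ℝ) :
    volume (f '' U) ≤ volume U := by
  have h := hf.hausdorffMeasure_image_le (d := 1) zero_le_one U
  rw [hausdorffMeasure_real] at h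
  simpa using h

/-- A piece of time in which `f` takes all the values between `0` and `m`. -/
private theorem Crs_aux.piece {f : ℝ → ℝ} (hf : LipschitzWith 1 f) {a b m : ℝ}
    (h : Ioo 0 m ⊆ f '' Icc a b) :
    ENNReal.ofReal m ≤ volume {s : ℝ | s ∈ Icc a b ∧ 0 < f s ∧ f s < m} := by
  have h1 : Ioo 0 m ⊆ f '' {s : ℝ | s ∈ Icc a b ∧ 0 < f s ∧ f s < m} := by
    intro v hv
    obtain ⟨s, hs, rfl⟩ := h hv
    exact ⟨s, ⟨hs, hv.1, hv.2⟩, rfl⟩
  calc ENNReal.ofReal m = volume (Ioo 0 m) := by rw [Real.volume_Ioo, sub_zero]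
    _ ≤ volume (f '' {s : ℝ | s ∈ Icc a b ∧ 0 < f s ∧ f s < m}) := measure_mono h1
    _ ≤ _ := Crs_aux.vol_image hf _

/-- **Crs.**  Time in a bridge whose far part is visited. -/
theorem tCrs : S_Crs := by
  intro hLip Q _ N e g r h hh hle hg hr S hS t0 t1 ht01 h0 h1 hex
  obtain ⟨t, ht, htm⟩ := hex
  have hgl : ∀ x y, |g x - g y| ≤ dist x y := by
    apply hLip Q N g
    intro c s hs u hu
    by_cases hc : c = e
    · subst hc
      rw [hg.on s hs, hg.on u hu]
    · rw [hg.const c hc s hs u hu, sub_self, abs_zero]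
      exact abs_nonneg _
  set f : ℝ → ℝ := fun s => |g (S s) - g r| with hf
  have hfl : LipschitzWith 1 f := by
    refine LipschitzWith.of_dist_le_mul fun x y => ?_
    have h2 := hgl (S x) (S y)
    have h3 := hS.dist_le_mul x y
    have h4 : |f x - f y| ≤ |g (S x) - g (S y)| := by
      have h5 := abs_abs_sub_abs_le (g (S x) - g r) (g (S y) - g r)
      have h6 : g (S x) - g r - (g (S y) - g r) = g (S x) - g (S y) := by ring
      rw [h6] at h5
      exact h5
    rw [Real.dist_eq (f x) (f y)]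
    linarith
  have hfc : Continuous f := hfl.continuous
  set m : ℝ := N.len e - h / 2 with hmdef
  have hm : 0 < m := by rw [hmdef]; linarith
  have hml : m < N.len e := by rw [hmdef]; linarith
  have hf0 : f t0 = 0 := by simp [hf, h0]
  have hf1 : f t1 = 0 := by simp [hf, h1]
  have hft : f t = m := htm
  set A1 : Set ℝ := {s : ℝ | s ∈ Icc t0 t ∧ 0 < f s ∧ f s < m} with hA1
  set A2 : Set ℝ := {s : ℝ | s ∈ Icc t t1 ∧ 0 < f s ∧ f s < m} with hA2
  have hv1 : ENNReal.ofReal m ≤ volume A1 := by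
    apply Crs_aux.piece hfl
    intro v hv
    have h2 := intermediate_value_Icc ht.1 hfc.continuousOn
    rw [hf0, hft] at h2
    exact h2 ⟨hv.1.le, hv.2.le⟩
  have hv2 : ENNReal.ofReal m ≤ volume A2 := by
    apply Crs_aux.piece hfl
    intro v hv
    have h2 := intermediate_value_Icc' ht.2 hfc.continuousOn
    rw [hf1, hft] at h2
    exact h2 ⟨hv.1.le, hv.2.le⟩
  have hmeas : MeasurableSet A2 := by
    have h2 : A2 = Icc t t1 ∩ (f ⁻¹' Ioo 0 m) := by
      ext s
      simp only [hA2, mem_ofPred_eq, mem_inter_iff, mem_preimage, mem_Ioo]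
    rw [h2]
    exact measurableSet_Icc.inter (hfc.measurable measurableSet_Ioo)
  have hdisj : Disjoint A1 A2 := by
    rw [Set.disjoint_left]
    rintro s ⟨hs1, hs2, hs3⟩ ⟨hs4, _, _⟩
    have h2 : s = t := le_antisymm hs1.2 hs4.1
    rw [h2, hft] at hs3
    exact lt_irrefl _ hs3
  have hin : ∀ s, 0 < f s → f s < m → S s ∈ N.openArc e := by
    intro s hs1 hs2
    by_contra hn
    have hlen := N.len_pos e
    have hfs : f s = |g (S s) - g r| := rfl
    rcases hg.off (S s) hn with h' | h' <;> rcases hg.off r hr with h'' | h'' <;>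
      rw [h', h''] at hfs
    · rw [sub_self, abs_zero] at hfs
      linarith
    · rw [zero_sub, abs_neg, abs_of_pos hlen] at hfs
      linarith
    · rw [sub_zero, abs_of_pos hlen] at hfs
      linarith
    · rw [sub_self, abs_zero] at hfs
      linarith
  have hsub : A1 ∪ A2 ⊆ {s : ℝ | s ∈ Icc t0 t1 ∧ S s ∈ N.openArc e} := by
    rintro s (⟨hs1, hs2, hs3⟩ | ⟨hs1, hs2, hs3⟩)
    · exact ⟨⟨hs1.1, hs1.2.trans ht.2⟩, hin s hs2 hs3⟩
    · exact ⟨⟨ht.1.trans hs1.1, hs1.2⟩, hin s hs2 hs3⟩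
  have hfin : volume {s : ℝ | s ∈ Icc t0 t1 ∧ S s ∈ N.openArc e} ≠ ⊤ := by
    have h2 : volume {s : ℝ | s ∈ Icc t0 t1 ∧ S s ∈ N.openArc e} ≤ volume (Icc t0 t1) :=
      measure_mono fun s hs => hs.1
    have h3 : volume (Icc t0 t1) ≠ ⊤ := by
      rw [Real.volume_Icc]
      exact ENNReal.ofReal_ne_top
    exact ne_top_of_le_ne_top h3 h2
  have hkey : ENNReal.ofReal (2 * m) ≤
      volume {s : ℝ | s ∈ Icc t0 t1 ∧ S s ∈ N.openArc e} := by
    calc ENNReal.ofReal (2 * m) = ENNReal.ofReal m + ENNReal.ofReal m := by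
          rw [two_mul, ENNReal.ofReal_add hm.le hm.le]
      _ ≤ volume A1 + volume A2 := add_le_add hv1 hv2
      _ = volume (A1 ∪ A2) := (measure_union hdisj hmeas).symm
      _ ≤ _ := measure_mono hsub
  have h2 := (ENNReal.ofReal_le_iff_le_toReal hfin).1 hkey
  have h3 : 2 * m = 2 * N.len e - h := by rw [hmdef]; ring
  rw [h3] at h2
  exact h2

end MPacf82c.Br
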