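import Pool.Agent.Lib.MP_acf82c_lc.Br.SpecA

/-!
# A function which is constant on every arc of a network is constant
-/

set_option autoImplicit false

open Set

namespace MPacf82c.Br

/-- Along a walk the value does not change. -/
private theorem Cst_aux.walk {Q : Type} [MetricSpace Q] (N : Network Q) (k : Q → ℝ)
    (hk : ∀ c, ∀ s ∈ Icc 0 (N.len c), ∀ t ∈ Icc 0 (N.len c), k (N.pt c s) = k (N.pt c t))
    {x y : Q} {L : ℝ} (h : Walk N.len N.pt x y L) : k x = k y := by
  induction h with
  | nil x => rfl
  | cons e s t hs ht y L h ih => rw [hk e s hs t ht, ih]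

/-- **Cst.**  A function which is constant on every arc is constant. -/
theorem tCst : S_Cst := by
  intro Q _ N k hk x y
  exact Cst_aux.walk N k hk (N.walk x y)

end MPacf82c.Br
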