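import Pool.Agent.Lib.MP_acf82c_lc.HiderMix

/-!
# Isometric cycles

If a metric space contains an isometric cycle of length `l` and `g y` is a point of it, the hider
guarantees every `v < l / 2 + dist O (g y)`. (The hider uses the coin half tour of the princess
and monster game on the circle, Alpern 1974; helper file, not part of a hand-in.)
-/

set_option autoImplicit false

namespace MPacf82c.Br

open Set MeasureTheory
open scoped NNReal ENNReal

/-- An isometric cycle of length `l`: a closed curve of period `l` on which the distance of two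
points is the length of the shorter arc between them. -/
structure IsCycle {Q : Type} [MetricSpace Q] (g : ℝ → Q) (l : ℝ) : Prop where
  pos : 0 < l
  per : ∀ y, g (y + l) = g y
  iso : ∀ y z, |y - z| ≤ l / 2 → dist (g y) (g z) = |y - z|

namespace Cyc

variable {Q : Type} [MetricSpace Q] {g : ℝ → Q} {l : ℝ}

theorem lip (hg : IsCycle g l) (y z : ℝ) : dist (g y) (g z) ≤ |y - z| := by
  by_cases h : |y - z| ≤ l / 2
  · exact (hg.iso y z h).le
  · have hl := hg.pos
    have h1 : |(y - z) / l - round ((y - z) / l)| ≤ 1 / 2 := abs_sub_round _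
    generalize round ((y - z) / l) = n at h1
    have h2 : |y - (z + n * l)| ≤ l / 2 := by
      have e : y - (z + n * l) = l * ((y - z) / l - n) := by
        field_simp
        ring
      rw [e, abs_mul, abs_of_pos hl]
      nlinarith
    have hp : Function.Periodic g l := hg.per
    have h3 : g (z + n * l) = g z := (hp.int_mul n) z
    rw [← h3, hg.iso _ _ h2]
    linarith [not_le.1 h]

theorem arc (hg : IsCycle g l) (y d : ℝ) (h0 : 0 ≤ d) (h1 : d ≤ l) :
    min d (l - d) ≤ dist (g (y + d)) (g y) := by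
  by_cases h : d ≤ l / 2
  · have e : |y + d - y| = d := by
      rw [show y + d - y = d by ring, abs_of_nonneg h0]
    rw [hg.iso _ _ (by rw [e]; exact h), e]
    exact min_le_left _ _
  · have e : |y + d - (y + l)| = l - d := by
      rw [show y + d - (y + l) = -(l - d) by ring, abs_neg, abs_of_nonneg (by linarith)]
    rw [← hg.per y, hg.iso _ _ (by rw [e]; linarith), e]
    exact min_le_right _ _

/-- clamp -/
noncomputable def cl (h y : ℝ) : ℝ := max 0 (min y h)

theorem cl_mono (h : ℝ) {y z : ℝ} (hyz : y ≤ z) : cl h y ≤ cl h z :=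
  max_le_max le_rfl (min_le_min hyz le_rfl)

theorem cl_lip (h : ℝ) {y z : ℝ} (hyz : y ≤ z) : cl h z - cl h y ≤ z - y := by
  unfold cl
  rcases le_total z h with h1 | h1 <;> rcases le_total y h with h2 | h2 <;>
    simp only [min_eq_left, min_eq_right, h1, h2] <;>
    rcases le_total 0 y with h3 | h3 <;> rcases le_total 0 z with h4 | h4 <;>
    rcases le_total 0 h with h5 | h5 <;>
    simp only [max_eq_left, max_eq_right, h3, h4, h5] <;> linarith

theorem cl_sum {h : ℝ} (hh : 0 ≤ h) (K : ℕ) (y : ℝ) :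
    ∑ i ∈ Finset.range K, cl h (y - i * h) = cl (K * h) y := by
  induction K with
  | zero =>
    unfold cl
    simp
  | succ K ih =>
    rw [Finset.sum_range_succ, ih]
    have hK : 0 ≤ (K : ℝ) * h := by positivity
    have e : ((K + 1 : ℕ) : ℝ) * h = K * h + h := by push_cast; ring
    rw [e]
    generalize (K : ℝ) * h = b at hK
    unfold cl
    rcases le_total y b with h1 | h1 <;> rcases le_total y (b + h) with h2 | h2 <;>
      rcases le_total 0 y with h3 | h3 <;> rcases le_total (y - b) h with h4 | h4 <;>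
      rcases le_total 0 (y - b) with h5 | h5 <;>
      simp only [min_eq_left, min_eq_right, max_eq_left, max_eq_right, h1, h2, h3, h4, h5, hK, hh,
        add_nonneg] <;> linarith

/-- sign -/
def sg (b : Bool) : ℝ := if b then 1 else -1

theorem sg_abs (b : Bool) : |sg b| = 1 := by
  unfold sg
  split_ifs <;> simp

/-- the lifted path -/
noncomputable def pth (h t0 : ℝ) (K : ℕ) (σ : ℕ → Bool) (t : ℝ) : ℝ :=
  ∑ i ∈ Finset.range K, sg (σ i) * cl h (t - t0 - i * h)

theorem pth_lip {h : ℝ} (hh : 0 ≤ h) (t0 : ℝ) (K : ℕ) (σ : ℕ → Bool) {t t' : ℝ} (htt : t ≤ t') :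
    |pth h t0 K σ t' - pth h t0 K σ t| ≤ t' - t := by
  unfold pth
  rw [← Finset.sum_sub_distrib]
  refine (Finset.abs_sum_le_sum_abs _ _).trans ?_
  have h1 : ∀ i ∈ Finset.range K, |sg (σ i) * cl h (t' - t0 - i * h) -
      sg (σ i) * cl h (t - t0 - i * h)| = cl h (t' - t0 - i * h) - cl h (t - t0 - i * h) := by
    intro i _
    rw [← mul_sub, abs_mul, sg_abs, one_mul, abs_of_nonneg]
    exact sub_nonneg.2 (cl_mono h (by linarith))
  rw [Finset.sum_congr rfl h1, Finset.sum_sub_distrib, cl_sum hh, cl_sum hh]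
  have := cl_lip (K * h) (show t - t0 ≤ t' - t0 by linarith)
  linarith

theorem pth_early {h t0 t : ℝ} (hh : 0 ≤ h) (K : ℕ) (σ : ℕ → Bool) (ht : t ≤ t0) :
    pth h t0 K σ t = 0 := by
  unfold pth
  refine Finset.sum_eq_zero fun i _ => ?_
  have h1 : t - t0 - i * h ≤ 0 := by
    have : 0 ≤ (i : ℝ) * h := by positivity
    linarith
  have : cl h (t - t0 - i * h) = 0 := by
    unfold cl
    exact max_eq_left ((min_le_left _ _).trans h1)
  rw [this, mul_zero]

theorem sum_sg {h : ℝ} (σ : ℕ → Bool) (j : ℕ) :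
    ∃ m : ℕ, ∑ i ∈ Finset.range j, sg (σ i) * h = j * h - m * (2 * h) := by
  induction j with
  | zero => exact ⟨0, by simp⟩
  | succ j ih =>
    obtain ⟨m, hm⟩ := ih
    rw [Finset.sum_range_succ, hm]
    unfold sg
    split_ifs
    · exact ⟨m, by push_cast; ring⟩
    · exact ⟨m + 1, by push_cast; ring⟩

theorem pth_phase {h : ℝ} (hh : 0 ≤ h) (t0 : ℝ) (K : ℕ) (σ : ℕ → Bool) {j : ℕ} (hj : j < K)
    {s : ℝ} (hs0 : 0 ≤ s) (hs : s ≤ h) :
    ∃ m : ℕ, pth h t0 K σ (t0 + j * h + s) = j * h + sg (σ j) * s - m * (2 * h) := by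
  obtain ⟨m, hm⟩ := sum_sg (h := h) σ j
  refine ⟨m, ?_⟩
  obtain ⟨r, rfl⟩ : ∃ r, K = j + 1 + r := ⟨K - (j + 1), by omega⟩
  unfold pth
  rw [Finset.sum_range_add, Finset.sum_range_succ]
  have h1 : ∑ i ∈ Finset.range j, sg (σ i) * cl h (t0 + j * h + s - t0 - i * h) =
      ∑ i ∈ Finset.range j, sg (σ i) * h := by
    refine Finset.sum_congr rfl fun i hi => ?_
    have hi' : (i : ℝ) + 1 ≤ j := by exact_mod_cast Finset.mem_range.1 hi
    have h2 : h ≤ t0 + j * h + s - t0 - i * h := by nlinarith
    unfold cl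
    rw [min_eq_right h2, max_eq_right hh]
  have h3 : cl h (t0 + j * h + s - t0 - j * h) = s := by
    rw [show t0 + j * h + s - t0 - j * h = s by ring]
    unfold cl
    rw [min_eq_left hs, max_eq_right hs0]
  have h4 : ∑ i ∈ Finset.range r, sg (σ (j + 1 + i)) *
      cl h (t0 + j * h + s - t0 - ((j + 1 + i : ℕ) : ℝ) * h) = 0 := by
    refine Finset.sum_eq_zero fun i _ => ?_
    have h5 : t0 + j * h + s - t0 - ((j + 1 + i : ℕ) : ℝ) * h ≤ 0 := by
      have : 0 ≤ (i : ℝ) * h := by positivity
      push_cast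
      nlinarith
    have : cl h (t0 + j * h + s - t0 - ((j + 1 + i : ℕ) : ℝ) * h) = 0 := by
      unfold cl
      exact max_eq_left ((min_le_left _ _).trans h5)
    rw [this, mul_zero]
  rw [h1, h3, h4, hm]
  ring

/-- The counting of the coins. -/
theorem count (K k : ℕ) (hk : k < K) (d : ℕ → Bool) :
    ∑ σ : Fin K → Bool, (if ∀ i : Fin K, (i : ℕ) ≤ k → σ i = d i then (1 : ℝ) else 0) =
      2 ^ K * (1 / 2) ^ (k + 1) := by
  classical
  have h1 : ∀ σ : Fin K → Bool, (if ∀ i : Fin K, (i : ℕ) ≤ k → σ i = d i then (1 : ℝ) else 0) =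
      ∏ i : Fin K, (if (i : ℕ) ≤ k then (if σ i = d i then (1 : ℝ) else 0) else 1) := by
    intro σ
    by_cases h : ∀ i : Fin K, (i : ℕ) ≤ k → σ i = d i
    · rw [if_pos h]
      symm
      refine Finset.prod_eq_one fun i _ => ?_
      by_cases hi : (i : ℕ) ≤ k
      · rw [if_pos hi, if_pos (h i hi)]
      · rw [if_neg hi]
    · rw [if_neg h]
      push Not at h
      obtain ⟨i, hi, hne⟩ := h
      symm
      refine Finset.prod_eq_zero (Finset.mem_univ i) ?_
      rw [if_pos hi, if_neg hne]
  simp only [h1]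
  have h2 := Finset.prod_univ_sum (t := fun _ : Fin K => (Finset.univ : Finset Bool))
    (f := fun (i : Fin K) (b : Bool) =>
      (if (i : ℕ) ≤ k then (if b = d i then (1 : ℝ) else 0) else 1))
  rw [Fintype.piFinset_univ] at h2
  rw [← h2]
  have h3 : ∀ i : Fin K, ∑ b : Bool, (if (i : ℕ) ≤ k then (if b = d i then (1 : ℝ) else 0) else 1) =
      2 * (if (i : ℕ) ≤ k then (1 / 2 : ℝ) else 1) := by
    intro i
    by_cases hi : (i : ℕ) ≤ k
    · simp only [if_pos hi]
      cases d i <;> simp
    · simp only [if_neg hi]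
      simp
  rw [Finset.prod_congr rfl fun i _ => h3 i, Finset.prod_mul_distrib]
  congr 1
  · simp
  · rw [Fin.prod_univ_eq_prod_range (fun i => if i ≤ k then (1 / 2 : ℝ) else 1) K]
    obtain ⟨r, rfl⟩ : ∃ r, K = k + 1 + r := ⟨K - (k + 1), by omega⟩
    rw [Finset.prod_range_add]
    have h4 : ∏ i ∈ Finset.range (k + 1), (if i ≤ k then (1 / 2 : ℝ) else 1) =
        ∏ i ∈ Finset.range (k + 1), (1 / 2 : ℝ) :=
      Finset.prod_congr rfl fun i hi => if_pos (by have := Finset.mem_range.1 hi; omega)
    have h5 : ∏ i ∈ Finset.range r, (if k + 1 + i ≤ k then (1 / 2 : ℝ) else 1) = 1 :=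
      Finset.prod_eq_one fun i _ => if_neg (by omega)
    rw [h4, h5, mul_one, Finset.prod_const, Finset.card_range]

/-- Extension of the coins. -/
def ext (K : ℕ) (σ : Fin K → Bool) (i : ℕ) : Bool := if h : i < K then σ ⟨i, h⟩ else false

/-- A safe direction in every phase. -/
theorem safe (hg : IsCycle g l) {S : ℝ≥0 → Q} (hS : LipschitzWith 1 S) {t0 y : ℝ} (ht0 : 0 ≤ t0)
    (hbad : ∀ t : ℝ≥0, (t : ℝ) = t0 → S t ≠ g y)
    (hbad' : ∀ t : ℝ≥0, (t : ℝ) = t0 + l / 2 → S t ≠ g (y + l / 2)) :
    ∃ b : Bool, ∀ (t : ℝ≥0) (s : ℝ), (t : ℝ) = t0 + s → 0 ≤ s → s ≤ l / 2 →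
      S t ≠ g (y + sg b * s) := by
  have hl := hg.pos
  by_contra hcon
  push Not at hcon
  obtain ⟨t1, s1, ht1, h10, h11, h1⟩ := hcon true
  obtain ⟨t2, s2, ht2, h20, h21, h2⟩ := hcon false
  have e1 : sg true = 1 := by simp [sg]
  have e2 : sg false = -1 := by simp [sg]
  rw [e1, one_mul] at h1
  rw [e2, neg_one_mul, ← sub_eq_add_neg] at h2
  have hd : min (s1 + s2) (l - (s1 + s2)) ≤ |s1 - s2| := by
    have h3 := arc hg (y - s2) (s1 + s2) (by linarith) (by linarith)
    rw [show y - s2 + (s1 + s2) = y + s1 by ring, ← h1, ← h2] at h3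
    have h4 : dist (S t1) (S t2) ≤ dist t1 t2 := by
      have := hS.dist_le_mul t1 t2
      simpa using this
    have h5 : dist t1 t2 = |s1 - s2| := by
      rw [NNReal.dist_eq, ht1, ht2]
      congr 1
      ring
    linarith
  rcases le_total s1 s2 with h | h
  · rw [abs_of_nonpos (by linarith)] at hd
    rcases min_le_iff.1 hd with h6 | h6
    · have : s1 = 0 := by linarith
      rw [this, add_zero] at h1
      exact hbad t1 (by rw [ht1, this]; ring) h1
    · have : s2 = l / 2 := by linarith
      refine hbad' t2 (by rw [ht2, this]) ?_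
      rw [h2, this, ← hg.per (y - l / 2)]
      congr 1
      ring
  · rw [abs_of_nonneg (by linarith)] at hd
    rcases min_le_iff.1 hd with h6 | h6
    · have : s2 = 0 := by linarith
      rw [this, sub_zero] at h2
      exact hbad t2 (by rw [ht2, this]; ring) h2
    · have : s1 = l / 2 := by linarith
      refine hbad' t1 (by rw [ht1, this]) ?_
      rw [h1, this]

/-- The capture time for a good start. -/
theorem good (hg : IsCycle g l) {S : ℝ≥0 → Q} {t0 y : ℝ} (ht0 : 0 ≤ t0)
    (K : ℕ) (σ : ℕ → Bool) (d : ℕ → Bool)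
    (h0 : ∀ t : ℝ≥0, (t : ℝ) < t0 → S t ≠ g y)
    (hd : ∀ j < K, ∀ (t : ℝ≥0) (s : ℝ), (t : ℝ) = t0 + j * (l / 2) + s → 0 ≤ s → s ≤ l / 2 →
      S t ≠ g (y + j * (l / 2) + sg (d j) * s)) :
    ENNReal.ofReal (t0 + ∑ k ∈ Finset.range K,
      l / 2 * (if ∀ i ≤ k, σ i = d i then (1 : ℝ) else 0)) ≤
      captureTime S fun t => g (y + pth (l / 2) t0 K σ t) := by
  have hl := hg.pos
  have hh : 0 ≤ l / 2 := by linarith
  unfold captureTime
  refine le_iInf₂ fun t ht => ?_
  have key : t0 + ∑ k ∈ Finset.range K,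
      l / 2 * (if ∀ i ≤ k, σ i = d i then (1 : ℝ) else 0) ≤ (t : ℝ) := by
    rcases lt_or_ge (t : ℝ) t0 with hlt | hge
    · exfalso
      refine h0 t hlt ?_
      rw [ht]
      simp only
      rw [pth_early hh K σ hlt.le, add_zero]
    · obtain ⟨j, hj⟩ : ∃ j : ℕ, j = ⌊((t : ℝ) - t0) / (l / 2)⌋₊ := ⟨_, rfl⟩
      have hx0 : 0 ≤ ((t : ℝ) - t0) / (l / 2) := div_nonneg (by linarith) hh
      have hj1 : (j : ℝ) * (l / 2) ≤ t - t0 := by
        have := Nat.floor_le hx0
        rw [← hj, le_div_iff₀ (by linarith)] at this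
        exact this
      have hj2 : (t : ℝ) - t0 < (j + 1) * (l / 2) := by
        have := Nat.lt_floor_add_one (((t : ℝ) - t0) / (l / 2))
        rw [← hj, div_lt_iff₀ (by linarith)] at this
        exact this
      have hb : ∑ k ∈ Finset.range K, l / 2 * (if ∀ i ≤ k, σ i = d i then (1 : ℝ) else 0) ≤
          j * (l / 2) := by
        rcases le_or_gt K j with hKj | hjK
        · calc ∑ k ∈ Finset.range K, l / 2 * (if ∀ i ≤ k, σ i = d i then (1 : ℝ) else 0)
              ≤ ∑ k ∈ Finset.range K, l / 2 := by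
                refine Finset.sum_le_sum fun k _ => ?_
                split_ifs <;> linarith
            _ = K * (l / 2) := by simp
            _ ≤ j * (l / 2) := by
                have : (K : ℝ) ≤ j := by exact_mod_cast hKj
                nlinarith
        · have hne : σ j ≠ d j := by
            intro he
            obtain ⟨s, hs⟩ : ∃ s : ℝ, s = (t : ℝ) - t0 - j * (l / 2) := ⟨_, rfl⟩
            have hs0 : 0 ≤ s := by rw [hs]; linarith
            have hs1 : s ≤ l / 2 := by rw [hs]; linarith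
            have hts : (t : ℝ) = t0 + j * (l / 2) + s := by rw [hs]; ring
            refine hd j hjK t s hts hs0 hs1 ?_
            rw [ht]
            simp only
            obtain ⟨m, hm⟩ := pth_phase hh t0 K σ hjK hs0 hs1
            rw [hts, hm, he]
            have hp : Function.Periodic g l := hg.per
            have := hp.sub_nat_mul_eq (x := y + j * (l / 2) + sg (d j) * s) m
            rw [← this]
            congr 1
            ring
          obtain ⟨r, hr⟩ : ∃ r, K = j + r := ⟨K - j, by omega⟩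
          rw [hr, Finset.sum_range_add]
          have h5 : ∑ i ∈ Finset.range r,
              l / 2 * (if ∀ i' ≤ j + i, σ i' = d i' then (1 : ℝ) else 0) = 0 := by
            refine Finset.sum_eq_zero fun i _ => ?_
            rw [if_neg, mul_zero]
            intro hall
            exact hne (hall j (by omega))
          rw [h5, add_zero]
          calc ∑ k ∈ Finset.range j, l / 2 * (if ∀ i ≤ k, σ i = d i then (1 : ℝ) else 0)
              ≤ ∑ k ∈ Finset.range j, l / 2 := by
                refine Finset.sum_le_sum fun k _ => ?_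
                split_ifs <;> linarith
            _ = j * (l / 2) := by simp
      linarith
  calc ENNReal.ofReal (t0 + ∑ k ∈ Finset.range K,
      l / 2 * (if ∀ i ≤ k, σ i = d i then (1 : ℝ) else 0)) ≤ ENNReal.ofReal (t : ℝ) :=
        ENNReal.ofReal_le_ofReal key
    _ = (t : ℝ≥0∞) := ENNReal.ofReal_coe_nnreal

theorem inj (hg : IsCycle g l) {y z : ℝ} (hyz : |y - z| ≤ l / 2) (h : g y = g z) : y = z := by
  have := hg.iso y z hyz
  rw [h, dist_self] at this
  have h2 := abs_eq_zero.1 this.symm
  linarith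

/-- The real inequality. -/
theorem real_bound {v h D : ℝ} (hD : 0 ≤ D) (hh : 0 < h) (hv : v < h + D) :
    ∃ (a : ℝ) (K N : ℕ), 0 < a ∧ a < h ∧ K + 1 ≤ N ∧ 0 < N ∧
      v ≤ (((N : ℝ) - (K + 1)) / N) * (max (D - a) 0 + h * (1 - (1 / 2) ^ K)) := by
  have hgap : 0 < h + D - v := by linarith
  obtain ⟨e, he⟩ : ∃ e : ℝ, e = (h + D - v) / 4 := ⟨_, rfl⟩
  have he0 : 0 < e := by rw [he]; linarith
  obtain ⟨a, ha⟩ : ∃ a : ℝ, a = min e (h / 2) := ⟨_, rfl⟩
  have ha0 : 0 < a := by rw [ha]; exact lt_min he0 (by linarith)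
  have ha1 : a ≤ e := by rw [ha]; exact min_le_left _ _
  have ha2 : a ≤ h / 2 := by rw [ha]; exact min_le_right _ _
  obtain ⟨K, hK⟩ : ∃ K : ℕ, (1 / 2 : ℝ) ^ K < e / h :=
    exists_pow_lt_of_lt_one (by positivity) (by norm_num)
  have hK' : h * (1 / 2 : ℝ) ^ K ≤ e := by
    rw [lt_div_iff₀ hh] at hK
    linarith
  obtain ⟨N0, hN0⟩ := exists_nat_ge ((K + 1) * (h + D) / e)
  obtain ⟨N, hN⟩ : ∃ N : ℕ, N = N0 + K + 1 := ⟨_, rfl⟩
  have hNr : (N : ℝ) = N0 + K + 1 := by rw [hN]; push_cast; ring
  have hN1 : 0 < (N : ℝ) := by rw [hNr]; positivity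
  have hN2 : ((K : ℝ) + 1) * (h + D) ≤ e * N := by
    rw [div_le_iff₀ he0] at hN0
    rw [hNr]
    have : 0 ≤ e * ((K : ℝ) + 1) := by positivity
    nlinarith
  refine ⟨a, K, N, ha0, by linarith, by omega, by omega, ?_⟩
  obtain ⟨X, hX⟩ : ∃ X : ℝ, X = max (D - a) 0 + h * (1 - (1 / 2) ^ K) := ⟨_, rfl⟩
  have hX1 : h + D - 2 * e ≤ X := by
    have : D - a ≤ max (D - a) 0 := le_max_left _ _
    rw [hX]
    nlinarith
  have hX2 : X ≤ h + D := by
    have h1 : max (D - a) 0 ≤ D := max_le (by linarith) hD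
    have h2 : 0 ≤ h * (1 / 2 : ℝ) ^ K := by positivity
    rw [hX]
    nlinarith
  rw [← hX]
  have h3 : (((N : ℝ) - (K + 1)) / N) * X = X - (K + 1) * X / N := by
    field_simp
  have h4 : (K + 1) * X / N ≤ e := by
    rw [div_le_iff₀ hN1]
    have : ((K : ℝ) + 1) * X ≤ (K + 1) * (h + D) :=
      mul_le_mul_of_nonneg_left hX2 (by positivity)
    linarith
  rw [h3]
  linarith

end Cyc

open Cyc

/-- **Isometric cycles.** -/
theorem tCyc (Q : Type) [MetricSpace Q] (O : Q) (g : ℝ → Q) (l : ℝ) (hg : IsCycle g l)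
    (y v : ℝ) (hv : v < l / 2 + dist O (g y)) (w : ℝ≥0) (hw : 1 ≤ w) :
    HiderGuarantees w O (ENNReal.ofReal v) := by
  classical
  have hl := hg.pos
  obtain ⟨a, K, N, ha0, ha1, hKN, hN0, hvN⟩ :=
    real_bound (dist_nonneg (x := O) (y := g y)) (by linarith : 0 < l / 2) hv
  have hNr : (0 : ℝ) < N := by exact_mod_cast hN0
  obtain ⟨t0, ht0⟩ : ∃ t0 : ℝ, t0 = max (dist O (g y) - a) 0 := ⟨_, rfl⟩
  have ht00 : 0 ≤ t0 := by rw [ht0]; exact le_max_right _ _
  rw [← ht0] at hvN
  have hh : 0 ≤ l / 2 := by linarith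
  obtain ⟨u, hu⟩ : ∃ u : Fin N → ℝ, u = fun i : Fin N => y + a * ((i : ℕ) : ℝ) / N :=
    ⟨_, rfl⟩
  have hu0 : ∀ i, 0 ≤ u i - y ∧ u i - y < a := by
    intro i
    have h1 : ((i : ℕ) : ℝ) < N := by exact_mod_cast i.2
    have e : u i - y = a * ((i : ℕ) : ℝ) / N := by rw [hu]; ring
    rw [e]
    refine ⟨by positivity, ?_⟩
    rw [div_lt_iff₀ hNr]
    nlinarith
  have huinj : ∀ i j, u i = u j → i = j := by
    intro i j hij
    rw [hu] at hij
    have h1 : a * ((i : ℕ) : ℝ) / N = a * ((j : ℕ) : ℝ) / N := by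
      have := hij
      simp only at this
      linarith
    have h2 : ((i : ℕ) : ℝ) = (j : ℕ) := by
      field_simp at h1
      exact h1
    exact Fin.ext (by exact_mod_cast h2)
  have hq : (0 : ℝ) < 1 / (N * 2 ^ K) := by positivity
  refine mix_guarantee (ι := Fin N × (Fin K → Bool)) (Ω0 := Unit)
    (q := fun _ => 1 / (N * 2 ^ K)) (fun _ => hq.le) ?_ (fun _ => Measure.dirac ())
    (fun _ => inferInstance) (fun p _ t => g (u p.1 + pth (l / 2) t0 K (ext K p.2) t)) ?_ ?_ ?_
  · rw [Finset.sum_const, Finset.card_univ, Fintype.card_prod, Fintype.card_fin, Fintype.card_fun,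
      Fintype.card_bool, Fintype.card_fin, nsmul_eq_mul]
    push_cast
    field_simp
  · intro p _
    refine LipschitzWith.of_dist_le_mul fun s t => ?_
    have h1 : dist (g (u p.1 + pth (l / 2) t0 K (ext K p.2) s))
        (g (u p.1 + pth (l / 2) t0 K (ext K p.2) t)) ≤ |(s : ℝ) - t| := by
      refine (lip hg _ _).trans ?_
      rw [add_sub_add_left_eq_sub]
      rcases le_total (s : ℝ) t with h | h
      · rw [abs_sub_comm, abs_sub_comm (s : ℝ), abs_of_nonneg (by linarith : (0 : ℝ) ≤ t - s)]
        exact pth_lip hh t0 K _ h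
      · rw [abs_of_nonneg (by linarith : (0 : ℝ) ≤ s - t)]
        exact pth_lip hh t0 K _ h
    have hw' : (1 : ℝ) ≤ w := by exact_mod_cast hw
    rw [NNReal.dist_eq]
    refine h1.trans ?_
    have : 0 ≤ |(s : ℝ) - t| := abs_nonneg _
    nlinarith
  · intro p t
    exact measurable_const
  · intro S hS0 hS
    simp only [lintegral_dirac]
    -- the bad starts
    obtain ⟨B, hB⟩ : ∃ B : Finset (Fin N), B = (Finset.range (K + 1)).biUnion fun j =>
        Finset.univ.filter fun i : Fin N =>
          S (Real.toNNReal (t0 + j * (l / 2))) = g (u i + j * (l / 2)) := ⟨_, rfl⟩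
    have hBc : B.card ≤ K + 1 := by
      rw [hB]
      refine Finset.card_biUnion_le.trans ?_
      calc ∑ j ∈ Finset.range (K + 1), (Finset.univ.filter fun i : Fin N =>
            S (Real.toNNReal (t0 + j * (l / 2))) = g (u i + j * (l / 2))).card
          ≤ ∑ j ∈ Finset.range (K + 1), 1 := by
            refine Finset.sum_le_sum fun j _ => ?_
            refine Finset.card_le_one.2 fun i1 h1 i2 h2 => ?_
            rw [Finset.mem_filter] at h1 h2
            refine huinj _ _ ?_
            have h3 := inj hg (y := u i1 + j * (l / 2)) (z := u i2 + j * (l / 2)) ?_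
              (h1.2.symm.trans h2.2)
            · linarith
            · rw [add_sub_add_right_eq_sub]
              have := hu0 i1
              have := hu0 i2
              rw [abs_le]
              constructor <;> linarith
        _ = K + 1 := by simp
    have hgood : ∀ i, i ∉ B → ∀ j ≤ K, ∀ t : ℝ≥0, (t : ℝ) = t0 + j * (l / 2) →
        S t ≠ g (u i + j * (l / 2)) := by
      intro i hi j hj t ht hSt
      refine hi ?_
      rw [hB, Finset.mem_biUnion]
      refine ⟨j, Finset.mem_range.2 (by omega), Finset.mem_filter.2 ⟨Finset.mem_univ _, ?_⟩⟩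
      rw [← ht, Real.toNNReal_coe]
      exact hSt
    have hearly : ∀ i, ∀ t : ℝ≥0, (t : ℝ) < t0 → S t ≠ g (u i) := by
      intro i t ht hSt
      have h1 : (t : ℝ) < dist O (g y) - a := by
        rw [ht0] at ht
        rcases lt_max_iff.1 ht with h | h
        · exact h
        · exact absurd h (not_lt.2 t.2)
      have h2 : dist O (S t) ≤ t := by
        have := hS.dist_le_mul 0 t
        rw [hS0, NNReal.dist_eq] at this
        simpa using this
      have h3 : dist (g (u i)) (g y) ≤ |u i - y| := lip hg _ _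
      have h4 := hu0 i
      rw [abs_of_nonneg h4.1] at h3
      have h5 := dist_triangle O (g (u i)) (g y)
      rw [hSt] at h2
      linarith
    have hdir : ∀ i, i ∉ B → ∃ d : ℕ → Bool, ∀ j < K, ∀ (t : ℝ≥0) (s : ℝ),
        (t : ℝ) = t0 + j * (l / 2) + s → 0 ≤ s → s ≤ l / 2 →
        S t ≠ g (u i + j * (l / 2) + sg (d j) * s) := by
      intro i hi
      have : ∀ j : ℕ, ∃ b : Bool, j < K → ∀ (t : ℝ≥0) (s : ℝ),
          (t : ℝ) = t0 + j * (l / 2) + s → 0 ≤ s → s ≤ l / 2 →
          S t ≠ g (u i + j * (l / 2) + sg b * s) := by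
        intro j
        by_cases hj : j < K
        · obtain ⟨b, hb⟩ := safe hg hS (t0 := t0 + j * (l / 2)) (y := u i + j * (l / 2))
            (by positivity) (fun t ht => hgood i hi j hj.le t ht) (fun t ht => by
              have := hgood i hi (j + 1) hj t (by rw [ht]; push_cast; ring)
              rw [show u i + j * (l / 2) + l / 2 = u i + ((j + 1 : ℕ) : ℝ) * (l / 2) by
                push_cast; ring]
              exact this)
          exact ⟨b, fun _ => hb⟩
        · exact ⟨true, fun h => absurd h hj⟩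
      choose d hd using this
      exact ⟨d, hd⟩
    choose! d hd using hdir
    -- the bound of the capture times
    obtain ⟨b, hb⟩ : ∃ b : Fin N × (Fin K → Bool) → ℝ, b = fun p => if p.1 ∈ B then 0 else
        t0 + ∑ k ∈ Finset.range K,
          l / 2 * (if ∀ i ≤ k, ext K p.2 i = d p.1 i then (1 : ℝ) else 0) := ⟨_, rfl⟩
    have hb0 : ∀ p, 0 ≤ b p := by
      intro p
      rw [hb]
      simp only
      split_ifs
      · exact le_rfl
      · refine add_nonneg ht00 (Finset.sum_nonneg fun k _ => ?_)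
        split_ifs <;> linarith
    have hcap : ∀ p : Fin N × (Fin K → Bool), ENNReal.ofReal (b p) ≤
        captureTime S fun t => g (u p.1 + pth (l / 2) t0 K (ext K p.2) t) := by
      intro p
      by_cases hp : p.1 ∈ B
      · have : b p = 0 := by rw [hb]; simp only [if_pos hp]
        rw [this, ENNReal.ofReal_zero]
        exact zero_le
      · have : b p = t0 + ∑ k ∈ Finset.range K,
            l / 2 * (if ∀ i ≤ k, ext K p.2 i = d p.1 i then (1 : ℝ) else 0) := by
          rw [hb]; simp only [if_neg hp]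
        rw [this]
        exact good hg ht00 K (ext K p.2) (d p.1) (hearly p.1) (hd p.1 hp)
    have hsum : v ≤ ∑ p : Fin N × (Fin K → Bool), 1 / ((N : ℝ) * 2 ^ K) * b p := by
      have hinner : ∀ i, i ∉ B → ∑ σ : Fin K → Bool, b (i, σ) =
          2 ^ K * (t0 + l / 2 * (1 - (1 / 2) ^ K)) := by
        intro i hi
        have e1 : ∀ σ : Fin K → Bool, b (i, σ) = t0 + ∑ k ∈ Finset.range K,
            l / 2 * (if ∀ i' ≤ k, ext K σ i' = d i i' then (1 : ℝ) else 0) := by
          intro σ
          rw [hb]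
          simp only [if_neg hi]
        simp only [e1]
        rw [Finset.sum_add_distrib, Finset.sum_comm]
        have e2 : ∀ k ∈ Finset.range K, ∑ σ : Fin K → Bool,
            l / 2 * (if ∀ i' ≤ k, ext K σ i' = d i i' then (1 : ℝ) else 0) =
            l / 2 * (2 ^ K * (1 / 2) ^ (k + 1)) := by
          intro k hk
          rw [← Finset.mul_sum]
          congr 1
          rw [← count K k (Finset.mem_range.1 hk) (d i)]
          refine Finset.sum_congr rfl fun σ _ => ?_
          have hiff : (∀ i' ≤ k, ext K σ i' = d i i') ↔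
              ∀ i' : Fin K, (i' : ℕ) ≤ k → σ i' = d i i' := by
            constructor
            · intro h i' hi'
              have := h i' hi'
              unfold Cyc.ext at this
              rw [dif_pos i'.2] at this
              exact this
            · intro h i' hi'
              have hlt : i' < K := lt_of_le_of_lt hi' (Finset.mem_range.1 hk)
              unfold Cyc.ext
              rw [dif_pos hlt]
              exact h ⟨i', hlt⟩ hi'
          simp only [hiff]
        rw [Finset.sum_congr rfl e2]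
        have e3 : ∑ k ∈ Finset.range K, l / 2 * ((2 : ℝ) ^ K * (1 / 2) ^ (k + 1)) =
            2 ^ K * (l / 2 * (1 - (1 / 2) ^ K)) := by
          have e4 : ∀ M : ℕ, ∑ k ∈ Finset.range M, l / 2 * ((2 : ℝ) ^ K * (1 / 2) ^ (k + 1)) =
              2 ^ K * (l / 2 * (1 - (1 / 2) ^ M)) := by
            intro M
            induction M with
            | zero => simp
            | succ M ih =>
              rw [Finset.sum_range_succ, ih]
              ring
          exact e4 K
        rw [e3, Finset.sum_const, Finset.card_univ, Fintype.card_fun, Fintype.card_bool,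
          Fintype.card_fin, nsmul_eq_mul]
        push_cast
        ring
      rw [← Finset.mul_sum, Fintype.sum_prod_type]
      have e5 : ∑ i : Fin N, ∑ σ : Fin K → Bool, b (i, σ) ≥
          ((N : ℝ) - (K + 1)) * (2 ^ K * (t0 + l / 2 * (1 - (1 / 2) ^ K))) := by
        have e6 : ∑ i ∈ Finset.univ \ B, ∑ σ : Fin K → Bool, b (i, σ) ≤
            ∑ i : Fin N, ∑ σ : Fin K → Bool, b (i, σ) :=
          Finset.sum_le_sum_of_subset_of_nonneg (Finset.sdiff_subset) fun i _ _ =>
            Finset.sum_nonneg fun σ _ => hb0 _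
        have e7 : ∑ i ∈ Finset.univ \ B, ∑ σ : Fin K → Bool, b (i, σ) =
            ((Finset.univ \ B : Finset (Fin N)).card : ℝ) *
              (2 ^ K * (t0 + l / 2 * (1 - (1 / 2) ^ K))) := by
          rw [Finset.sum_congr rfl fun i hi => hinner i (Finset.mem_sdiff.1 hi).2,
            Finset.sum_const, nsmul_eq_mul]
        have e8 : (N : ℝ) - (K + 1) ≤ ((Finset.univ \ B : Finset (Fin N)).card : ℝ) := by
          have h1 : (Finset.univ \ B : Finset (Fin N)).card = N - B.card := by
            rw [Finset.card_sdiff_of_subset (Finset.subset_univ _), Finset.card_univ,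
              Fintype.card_fin]
          rw [h1, Nat.cast_sub (by omega)]
          have : (B.card : ℝ) ≤ K + 1 := by exact_mod_cast hBc
          linarith
        have e9 : 0 ≤ (2 : ℝ) ^ K * (t0 + l / 2 * (1 - (1 / 2) ^ K)) := by
          have : (1 / 2 : ℝ) ^ K ≤ 1 := pow_le_one₀ (by norm_num) (by norm_num)
          have : 0 ≤ l / 2 * (1 - (1 / 2 : ℝ) ^ K) := mul_nonneg hh (by linarith)
          positivity
        have e10 := mul_le_mul_of_nonneg_right e8 e9
        linarith
      calc v ≤ (((N : ℝ) - (K + 1)) / N) * (t0 + l / 2 * (1 - (1 / 2) ^ K)) := hvN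
        _ = 1 / ((N : ℝ) * 2 ^ K) *
            (((N : ℝ) - (K + 1)) * (2 ^ K * (t0 + l / 2 * (1 - (1 / 2) ^ K)))) := by
            field_simp
        _ ≤ _ := mul_le_mul_of_nonneg_left e5 hq.le
    calc ENNReal.ofReal v
        ≤ ENNReal.ofReal (∑ p : Fin N × (Fin K → Bool), 1 / ((N : ℝ) * 2 ^ K) * b p) :=
          ENNReal.ofReal_le_ofReal hsum
      _ = ∑ p : Fin N × (Fin K → Bool), ENNReal.ofReal (1 / ((N : ℝ) * 2 ^ K)) *
            ENNReal.ofReal (b p) := by
          rw [ENNReal.ofReal_sum_of_nonneg fun p _ => mul_nonneg hq.le (hb0 p)]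
          exact Finset.sum_congr rfl fun p _ => ENNReal.ofReal_mul hq.le
      _ ≤ _ := Finset.sum_le_sum fun p _ => mul_le_mul_right (hcap p) _

end MPacf82c.Br
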