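import Pool.Agent.Lib.MP_acf82c_lc.NetBasic

/-!
# Networks with bridges: definitions
-/

set_option autoImplicit false

namespace MPacf82c

open Set

variable {Q : Type} [MetricSpace Q]

/-- The arc `e` is a bridge: its two ends cannot be joined by a path which avoids the open arc. -/
def Network.IsBridge (N : Network Q) (e : N.Arc) : Prop :=
  ¬ JoinedIn (N.openArc e)ᶜ (N.pt e 0) (N.pt e (N.len e))

open Classical in
/-- Total length of the bridges. -/
noncomputable def Network.bridgeLength (N : Network Q) : ℝ :=
  ∑ e, if N.IsBridge e then N.len e else 0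

namespace Br

/-- `g` is a position function of the arc `e`: the coordinate on `e`, and constant (equal to `0` or
to `len e`) on every other arc. -/
structure IsPos (N : Network Q) (e : N.Arc) (g : Q → ℝ) : Prop where
  on : ∀ s ∈ Icc 0 (N.len e), g (N.pt e s) = s
  off : ∀ z, z ∉ N.openArc e → g z = 0 ∨ g z = N.len e
  const : ∀ c, c ≠ e → ∀ s ∈ Icc 0 (N.len c), ∀ t ∈ Icc 0 (N.len c),
    g (N.pt c s) = g (N.pt c t)

end Br

end MPacf82c
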