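import Pool.Agent.Lib.MP_acf82c_lc.Br.SpecA

/-!
# Networks with bridges, part A: distances of sample points (`S_Dis`)
-/

set_option autoImplicit false

open Set Finset
open scoped NNReal ENNReal

namespace MPacf82c.Br

/-- The general form: position functions and a bump `b` which vanishes on the arcs of `E`. -/
private theorem Dis_key (hLip : S_Lip) {Q : Type} [MetricSpace Q] (N : Network Q)
    (E : Finset N.Arc) (g : N.Arc → Q → ℝ) (hpos : ∀ e ∈ E, IsPos N e (g e)) (b : Q → ℝ)
    (hb0 : ∀ c ∈ E, ∀ s ∈ Icc 0 (N.len c), b (N.pt c s) = 0)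
    (hb1 : ∀ z z', |b z - b z'| ≤ dist z z') (x y : Q) :
    ∑ e ∈ E, |g e x - g e y| + (b x - b y) ≤ dist x y := by
  classical
  set σ : N.Arc → ℝ := fun e => if 0 ≤ g e x - g e y then 1 else -1 with hσd
  have hσ : ∀ e, σ e * (g e x - g e y) = |g e x - g e y| := by
    intro e
    by_cases h : 0 ≤ g e x - g e y
    · rw [hσd]
      simp only [h, if_true, one_mul, abs_of_nonneg h]
    · have h' : g e x - g e y ≤ 0 := (not_le.1 h).le
      rw [hσd]
      simp only [h, if_false, abs_of_nonpos h']
      ring
  have hσ1 : ∀ e, |σ e| = 1 := by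
    intro e
    by_cases h : 0 ≤ g e x - g e y
    · rw [hσd]; simp only [h, if_true, abs_one]
    · rw [hσd]; simp only [h, if_false, abs_neg, abs_one]
  set k : Q → ℝ := fun z => ∑ e ∈ E, σ e * g e z + b z with hkd
  have hdiff : ∀ z z', k z - k z' = ∑ e ∈ E, σ e * (g e z - g e z') + (b z - b z') := by
    intro z z'
    have h1 : ∑ e ∈ E, σ e * (g e z - g e z') =
        ∑ e ∈ E, σ e * g e z - ∑ e ∈ E, σ e * g e z' := by
      rw [← Finset.sum_sub_distrib]
      exact Finset.sum_congr rfl fun e _ => by ring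
    rw [h1]
    simp only [hkd]
    ring
  have harc : ∀ c, ∀ s ∈ Icc 0 (N.len c), ∀ t ∈ Icc 0 (N.len c),
      |k (N.pt c s) - k (N.pt c t)| ≤ |s - t| := by
    intro c s hs t ht
    rw [hdiff]
    by_cases hc : c ∈ E
    · have h2 : ∑ e ∈ E, σ e * (g e (N.pt c s) - g e (N.pt c t)) = σ c * (s - t) := by
        rw [Finset.sum_eq_single_of_mem c hc]
        · rw [(hpos c hc).on s hs, (hpos c hc).on t ht]
        · intro e he hec
          rw [(hpos e he).const c (Ne.symm hec) s hs t ht]
          ring
      rw [h2, hb0 c hc s hs, hb0 c hc t ht, sub_zero, add_zero, abs_mul, hσ1, one_mul]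
    · have h2 : ∑ e ∈ E, σ e * (g e (N.pt c s) - g e (N.pt c t)) = 0 := by
        refine Finset.sum_eq_zero fun e he => ?_
        have hce : c ≠ e := fun h => hc (h ▸ he)
        rw [(hpos e he).const c hce s hs t ht]
        ring
      rw [h2, zero_add]
      exact (hb1 _ _).trans (N.dist_le c s hs t ht)
  have h3 := hLip Q N k harc x y
  rw [hdiff] at h3
  have h4 : ∑ e ∈ E, σ e * (g e x - g e y) = ∑ e ∈ E, |g e x - g e y| :=
    Finset.sum_congr rfl fun e _ => hσ e
  rw [h4] at h3
  exact (le_abs_self _).trans h3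

private theorem Dis_bump (r : ℝ) {Q : Type} [MetricSpace Q] (x z z' : Q) :
    max 0 (r - dist z x) - max 0 (r - dist z' x) ≤ dist z z' := by
  have h1 := dist_triangle z' z x
  have h2 : dist z' z = dist z z' := dist_comm _ _
  have h3 : max 0 (r - dist z x) ≤ max 0 (r - dist z' x) + dist z z' := by
    refine max_le ?_ ?_
    · have := le_max_left (0 : ℝ) (r - dist z' x)
      have := dist_nonneg (x := z) (y := z')
      linarith
    · have := le_max_right (0 : ℝ) (r - dist z' x)
      linarith
  linarith

private theorem Dis_zero {Q : Type} [MetricSpace Q] (N : Network Q) (E : Finset N.Arc) (r : ℝ)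
    (c : N.Arc) (x : Q) (hc : c ∉ E) (hx : ∀ z, dist z x < r → z ∈ N.openArc c) :
    ∀ c₁ ∈ E, ∀ s ∈ Icc 0 (N.len c₁), max 0 (r - dist (N.pt c₁ s) x) = 0 := by
  intro c₁ hc₁ s hs
  refine max_eq_left ?_
  by_contra h
  obtain ⟨t, ht, h1⟩ := hx (N.pt c₁ s) (by linarith [not_le.1 h])
  obtain ⟨h2, -⟩ := N.simple c c₁ t s ht hs h1
  exact hc (h2 ▸ hc₁)

private theorem Dis_two (r : ℝ) {Q : Type} [MetricSpace Q] (x y z z' : Q)
    (hxy : 2 * r ≤ dist x y) :
    (max 0 (r - dist z x) - max 0 (r - dist z y)) -
      (max 0 (r - dist z' x) - max 0 (r - dist z' y)) ≤ dist z z' := by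
  have hu1 := Dis_bump r x z z'
  have hu2 := Dis_bump r y z' z
  rw [dist_comm z' z] at hu2
  by_cases h1 : max 0 (r - dist z x) - max 0 (r - dist z' x) ≤ 0
  · linarith
  by_cases h2 : max 0 (r - dist z' y) - max 0 (r - dist z y) ≤ 0
  · linarith
  have a1 : 0 ≤ max 0 (r - dist z' x) := le_max_left _ _
  have a2 : 0 ≤ max 0 (r - dist z y) := le_max_left _ _
  have b1 : max 0 (r - dist z x) = r - dist z x := by
    rcases max_choice (0 : ℝ) (r - dist z x) with h | h
    · rw [h] at h1; exact absurd (by linarith) h1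
    · exact h
  have b2 : max 0 (r - dist z' y) = r - dist z' y := by
    rcases max_choice (0 : ℝ) (r - dist z' y) with h | h
    · rw [h] at h2; exact absurd (by linarith) h2
    · exact h
  rw [b1, b2]
  have t1 := dist_triangle x z y
  have t2 := dist_triangle z z' y
  rw [dist_comm x z] at t1
  linarith

/-- **Dis.** -/
theorem tDis : S_Dis := by
  intro hLip Q _ N E g r hr hpos c x hc hx
  have hz := Dis_zero N E r c x hc hx
  refine ⟨fun y hy => ?_, fun c' y hc' hy' hxy => ?_⟩
  · have h := Dis_key hLip N E g hpos (fun z => max 0 (r - dist z x)) hz (fun z z' => by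
      rw [abs_le]
      have h1 := Dis_bump r x z z'
      have h2 := Dis_bump r x z' z
      rw [dist_comm z' z] at h2
      constructor <;> linarith) x y
    have h1 : max 0 (r - dist x x) = r := by rw [dist_self, sub_zero, max_eq_right hr]
    have h2 : max 0 (r - dist y x) = 0 := by
      rw [dist_comm y x]
      exact max_eq_left (by linarith)
    simp only [h1, h2, sub_zero] at h
    exact h
  · have hz' := Dis_zero N E r c' y hc' hy'
    have h := Dis_key hLip N E g hpos
      (fun z => max 0 (r - dist z x) - max 0 (r - dist z y))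
      (fun c₁ hc₁ s hs => by rw [hz c₁ hc₁ s hs, hz' c₁ hc₁ s hs, sub_zero])
      (fun z z' => by
        rw [abs_le]
        have h1 := Dis_two r x y z z' hxy
        have h2 := Dis_two r x y z' z hxy
        rw [dist_comm z' z] at h2
        constructor <;> linarith) x y
    have h1 : max 0 (r - dist x x) = r := by rw [dist_self, sub_zero, max_eq_right hr]
    have h1' : max 0 (r - dist y y) = r := by rw [dist_self, sub_zero, max_eq_right hr]
    have h2 : max 0 (r - dist x y) = 0 := max_eq_left (by linarith)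
    have h3 : max 0 (r - dist y x) = 0 := by
      rw [dist_comm y x]
      exact h2
    simp only [h1, h1', h2, h3] at h
    linarith

end MPacf82c.Br
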