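import Pool.Agent.Lib.MP_acf82c_lc.Br.SpecD

/-!
# Networks with bridges, part D: module Dp

The potential of the dynamic program for one sweep.
-/

set_option autoImplicit false

open Finset
open scoped Nat

namespace MPacf82c.Br

namespace Dp_aux

/-- Sum of `1 - x ρ` over `x < d`. -/
noncomputable def T (ρ d : ℝ) : ℝ := d - ρ * d * (d - 1) / 2

/-- The value at the start of a stay at `i`. -/
noncomputable def Mx (q ρ N i : ℝ) : ℝ :=
  max (T ρ (q - i) + (1 - (q - i) * ρ) * (Cc * N)) (N * (Cc + 6 / 100 * (i * ρ)) - N / 1000)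

lemma T_zero (ρ : ℝ) : T ρ 0 = 0 := by simp [T]

lemma T_succ (ρ d : ℝ) : T ρ (d + 1) = T ρ d + (1 - d * ρ) := by
  simp only [T]
  ring

lemma T_eq (ρ N κ d : ℝ) (h : N / κ * ρ = 1) :
    T ρ d = N / κ * (d * ρ - (d * ρ) ^ 2 / 2) + d * ρ / 2 := by
  have h1 : N / κ * (d * ρ - (d * ρ) ^ 2 / 2) = (N / κ * ρ) * (d - d ^ 2 * ρ / 2) := by ring
  rw [h1, h, T]
  ring

lemma key (hI : S_Ine) (q i m ρ N κ : ℝ) (hN : 100000 ≤ N) (hk1 : 7 / 8 - 1 / 100000 ≤ κ)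
    (hk2 : κ ≤ 7 / 8) (hρ : ρ * N = κ) (hq1 : q * ρ ≤ 1) (hq2 : 1 ≤ (q + 1) * ρ) (hi : 0 ≤ i)
    (him : i ≤ m) (hm : m + 1 ≤ q) :
    (1 - (m - i) * ρ) * (1 + κ * Mx q ρ N (m + 1)) ≤
      N * (Cc + 6 / 100 * (i * ρ)) - N / 1000 - T ρ (m - i) := by
  have hκ : 0 < κ := by linarith
  have hN0 : 0 < N := by linarith
  have hρ0 : 0 < ρ := by
    by_contra hcon
    push Not at hcon
    nlinarith
  have hNk : N / κ * ρ = 1 := by
    rw [div_mul_eq_mul_div, mul_comm N ρ, hρ]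
    exact div_self hκ.ne'
  have hkN : κ * (N / κ) = N := by field_simp
  have hC : Cc = 7999 / 10000 := rfl
  -- the numbers
  have hδ0 : 0 ≤ (m - i) * ρ := mul_nonneg (by linarith) hρ0.le
  have hu0 : 0 ≤ i * ρ := mul_nonneg hi hρ0.le
  have hv : i * ρ + (m - i) * ρ = m * ρ := by ring
  have hmq : (m + 1) * ρ ≤ q * ρ := mul_le_mul_of_nonneg_right hm hρ0.le
  have hm1 : (m + 1) * ρ ≤ 1 := hmq.trans hq1
  have hm2 : m * ρ + ρ ≤ 1 := by linarith
  have hv1 : i * ρ + (m - i) * ρ ≤ 1 := by linarith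
  have hv0 : 0 ≤ m * ρ := by linarith
  have hδ1 : (m - i) * ρ ≤ 1 := by linarith
  obtain ⟨h1, h2⟩ := hI N κ (i * ρ) ((m - i) * ρ) hN hk1 hk2 hu0 hδ0 hv1
  rw [T_eq ρ N κ (m - i) hNk]
  rw [hv] at h1 h2
  set δ := (m - i) * ρ with hδ
  set u := i * ρ with hu
  set v := m * ρ with hvd
  have hρN : ρ * N = κ := hρ
  rcases max_choice (T ρ (q - (m + 1)) + (1 - (q - (m + 1)) * ρ) * (Cc * N))
    (N * (Cc + 6 / 100 * ((m + 1) * ρ)) - N / 1000) with hM | hM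
  · -- stay
    have hMx : Mx q ρ N (m + 1) = T ρ (q - (m + 1)) + (1 - (q - (m + 1)) * ρ) * (Cc * N) := hM
    rw [hMx, T_eq ρ N κ (q - (m + 1)) hNk]
    set ε := (q - (m + 1)) * ρ with hε
    have hε0 : 0 ≤ ε := mul_nonneg (by linarith) hρ0.le
    have hε1 : ε = q * ρ - v - ρ := by rw [hε, hvd]; ring
    have hε2 : ε ≤ 1 - v - ρ := by linarith
    have hε3 : 1 - v - 2 * ρ ≤ ε := by
      have : q * ρ + ρ ≥ 1 := by linarith
      linarith
    have hε4 : ε ≤ 1 := by linarith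
    have e1 : κ * (N / κ * (ε - ε ^ 2 / 2) + ε / 2 + (1 - ε) * (Cc * N)) =
        N * (ε - ε ^ 2 / 2) + κ * ε / 2 + κ * Cc * N * (1 - ε) := by
      calc κ * (N / κ * (ε - ε ^ 2 / 2) + ε / 2 + (1 - ε) * (Cc * N)) =
          (κ * (N / κ)) * (ε - ε ^ 2 / 2) + κ * ε / 2 + κ * Cc * N * (1 - ε) := by ring
        _ = _ := by rw [hkN]
    have e2 : ε - ε ^ 2 / 2 ≤ (1 - v ^ 2) / 2 := by nlinarith
    have e3 : N * (ε - ε ^ 2 / 2) ≤ N * ((1 - v ^ 2) / 2) :=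
      mul_le_mul_of_nonneg_left e2 hN0.le
    have e4 : κ * Cc * N * (1 - ε) ≤ κ * Cc * N * (v + 2 * ρ) := by
      apply mul_le_mul_of_nonneg_left (by linarith)
      rw [hC]
      positivity
    have e5 : κ * Cc * N * (v + 2 * ρ) = N * (κ * Cc * v) + 2 * Cc * κ ^ 2 := by
      calc κ * Cc * N * (v + 2 * ρ) = N * (κ * Cc * v) + 2 * Cc * κ * (ρ * N) := by ring
        _ = _ := by rw [hρN]; ring
    have e6 : κ * ε / 2 ≤ 7 / 16 := by nlinarith
    have e7 : 2 * Cc * κ ^ 2 ≤ 2 := by rw [hC]; nlinarith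
    have e8 : 1 + κ * (N / κ * (ε - ε ^ 2 / 2) + ε / 2 + (1 - ε) * (Cc * N)) ≤
        N * ((1 - v ^ 2) / 2 + κ * Cc * v) + 7 / 2 := by
      rw [e1]
      have : N * ((1 - v ^ 2) / 2 + κ * Cc * v) =
          N * ((1 - v ^ 2) / 2) + N * (κ * Cc * v) := by ring
      rw [this]
      linarith
    have e9 := mul_le_mul_of_nonneg_left e8 (show 0 ≤ 1 - δ by linarith)
    nlinarith
  · -- jump
    have hMx : Mx q ρ N (m + 1) = N * (Cc + 6 / 100 * ((m + 1) * ρ)) - N / 1000 := hM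
    rw [hMx]
    have e1 : κ * (N * (Cc + 6 / 100 * ((m + 1) * ρ)) - N / 1000) =
        κ * (N * (Cc + 6 / 100 * v)) + 6 / 100 * κ * (ρ * N) - κ * N / 1000 := by
      rw [hvd]; ring
    have e2 : 1 + κ * (N * (Cc + 6 / 100 * ((m + 1) * ρ)) - N / 1000) ≤
        κ * (N * (Cc + 6 / 100 * v)) + 7 / 2 := by
      rw [e1, hρN]
      have h3 : 0 ≤ κ * N / 1000 := by positivity
      have h4 : 6 / 100 * κ * κ ≤ 1 := by nlinarith
      linarith
    have e9 := mul_le_mul_of_nonneg_left e2 (show 0 ≤ 1 - δ by linarith)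
    nlinarith

lemma sta_le (b : ℕ → Bool) (m : ℕ) : sta b m ≤ m := by
  induction m with
  | zero => simp [sta]
  | succ m ih =>
    rw [sta]
    split_ifs
    · exact le_rfl
    · omega

lemma fac_nonneg (q : ℕ) (ρ : ℝ) (b : ℕ → Bool) (hρ : 0 ≤ ρ) (hq : (q : ℝ) * ρ ≤ 1) (m : ℕ)
    (hm : m ≤ q) : 0 ≤ 1 - ((m : ℝ) - sta b m) * ρ := by
  have h1 : (m : ℝ) ≤ q := by exact_mod_cast hm
  have h2 : (0 : ℝ) ≤ sta b m := by positivity
  nlinarith

lemma Pf_nonneg (q : ℕ) (ρ κ : ℝ) (b : ℕ → Bool) (hρ : 0 ≤ ρ) (hκ : 0 ≤ κ)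
    (hq : (q : ℝ) * ρ ≤ 1) (m : ℕ) (hm : m ≤ q) : 0 ≤ Pf ρ κ b m := by
  induction m with
  | zero => simp [Pf]
  | succ m ih =>
    have ih' := ih (by omega)
    rw [Pf]
    split_ifs
    · exact mul_nonneg (mul_nonneg ih' (fac_nonneg q ρ b hρ hq m (by omega))) hκ
    · exact ih'

/-- The potential. -/
noncomputable def Psi (q ρ N κ : ℝ) (b : ℕ → Bool) (m : ℕ) : ℝ :=
  ∑ x ∈ range m, gq ρ κ b x + Pf ρ κ b m * (Mx q ρ N (sta b m) - T ρ ((m : ℝ) - sta b m))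

lemma Psi_succ (hI : S_Ine) (q : ℕ) (ρ N κ : ℝ) (b : ℕ → Bool) (hN : 100000 ≤ N)
    (hk1 : 7 / 8 - 1 / 100000 ≤ κ) (hk2 : κ ≤ 7 / 8) (hρ : ρ * N = κ) (hρ0 : 0 < ρ)
    (hq1 : (q : ℝ) * ρ ≤ 1) (hq2 : 1 ≤ ((q : ℝ) + 1) * ρ) (m : ℕ) (hm : m < q) :
    Psi q ρ N κ b (m + 1) ≤ Psi q ρ N κ b m := by
  have hκ : 0 < κ := by linarith
  have hP := Pf_nonneg q ρ κ b hρ0.le hκ.le hq1 m hm.le
  have hi := sta_le b m
  have hi' : ((sta b m : ℕ) : ℝ) ≤ m := by exact_mod_cast hi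
  have hi0 : (0 : ℝ) ≤ sta b m := by positivity
  have hm' : (m : ℝ) + 1 ≤ q := by exact_mod_cast hm
  rw [Psi, Psi, sum_range_succ, sta, Pf, gq]
  split_ifs with hb
  · have hk := key hI q (sta b m) m ρ N κ hN hk1 hk2 hρ hq1 hq2 hi0 hi' hm'
    have hle : N * (Cc + 6 / 100 * ((sta b m : ℝ) * ρ)) - N / 1000 ≤ Mx q ρ N (sta b m) :=
      le_max_right _ _
    have h3 := mul_le_mul_of_nonneg_left (hk.trans (sub_le_sub_right hle _)) hP
    push_cast
    rw [sub_self, T_zero, sub_zero]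
    linarith
  · push_cast
    have h4 : (m : ℝ) + 1 - sta b m = (m - sta b m) + 1 := by ring
    rw [h4, T_succ]
    apply le_of_eq
    ring

end Dp_aux

open Dp_aux

theorem tDp : S_Dp := by
  intro hI q ρ N κ b hN hk1 hk2 hρ hq1 hq2
  have hκ : 0 < κ := by linarith
  have hN0 : 0 < N := by linarith
  have hρ0 : 0 < ρ := by
    by_contra hcon
    push Not at hcon
    nlinarith
  have hNk : N / κ * ρ = 1 := by
    rw [div_mul_eq_mul_div, mul_comm N ρ, hρ]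
    exact div_self hκ.ne'
  have hC : Cc = 7999 / 10000 := rfl
  -- the potential does not increase
  have hmono : ∀ m : ℕ, m ≤ q → Psi q ρ N κ b m ≤ Psi q ρ N κ b 0 := by
    intro m
    induction m with
    | zero => intro _; exact le_rfl
    | succ m ih =>
      intro hm
      exact (Psi_succ hI q ρ N κ b hN hk1 hk2 hρ hρ0 hq1 hq2 m (by omega)).trans
        (ih (by omega))
  have hend := hmono q le_rfl
  -- the end
  have hP := Pf_nonneg q ρ κ b hρ0.le hκ.le hq1 q le_rfl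
  have h1 : ∑ m ∈ range q, gq ρ κ b m + gq ρ κ b q * (Cc * N) ≤ Psi q ρ N κ b q := by
    have hle : T ρ ((q : ℝ) - sta b q) + (1 - ((q : ℝ) - sta b q) * ρ) * (Cc * N) ≤
        Mx q ρ N (sta b q) := le_max_left _ _
    have h3 := mul_le_mul_of_nonneg_left hle hP
    rw [Psi, gq]
    linarith
  -- the start
  have h2 : Psi q ρ N κ b 0 ≤ (Cc - 1 / 1000) * N := by
    simp only [Psi, sum_range_zero, Pf, sta, Nat.cast_zero, sub_self, T_zero, zero_add, one_mul,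
      sub_zero]
    apply max_le
    · rw [sub_zero, T_eq ρ N κ q hNk]
      have hρ1 : ρ ≤ 1 / 100000 := by
        by_contra hcon
        push Not at hcon
        nlinarith
      have e1 : N / κ ≤ N * (8 / 7 + 1 / 1000) := by
        rw [div_le_iff₀ hκ]
        nlinarith
      have e2 : (q : ℝ) * ρ - ((q : ℝ) * ρ) ^ 2 / 2 ≤ 1 / 2 := by nlinarith
      have hNk0 : 0 ≤ N / κ := by positivity
      have e3 : N / κ * ((q : ℝ) * ρ - ((q : ℝ) * ρ) ^ 2 / 2) ≤ N / κ * (1 / 2) :=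
        mul_le_mul_of_nonneg_left e2 hNk0
      have e4 : (1 - (q : ℝ) * ρ) * (Cc * N) ≤ ρ * (Cc * N) := by
        apply mul_le_mul_of_nonneg_right (by linarith)
        rw [hC]; positivity
      have e5 : ρ * (Cc * N) = Cc * κ := by
        calc ρ * (Cc * N) = Cc * (ρ * N) := by ring
          _ = _ := by rw [hρ]
      rw [hC] at *
      nlinarith
    · rw [zero_mul, mul_zero, add_zero]
      linarith
  linarith

end MPacf82c.Br
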