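import Pool.Agent.Lib.MP_acf82c_lc.Br.SpecE

/-!
# Networks with bridges: the exceptional bridges
-/

set_option autoImplicit false

open Set MeasureTheory
open scoped NNReal ENNReal

namespace MPacf82c.Br

theorem tExc : S_Exc := by
  classical
  intro hLip hSum Q _ N E g r z D hD hg hr X hXE hX
  have hD0 : 0 ≤ D := le_trans dist_nonneg (hD r r)
  rw [← Finset.sum_filter_add_sum_filter_not X (fun e => z ∈ N.openArc e)]
  have h1 : ∑ e ∈ X.filter (fun e => z ∈ N.openArc e), N.len e ≤ 2 * D := by
    by_cases hne : (X.filter (fun e => z ∈ N.openArc e)).Nonempty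
    · obtain ⟨e, he⟩ := hne
      have h2 : X.filter (fun e => z ∈ N.openArc e) = {e} := by
        refine Finset.eq_singleton_iff_unique_mem.mpr ⟨he, fun e' he' => ?_⟩
        exact openArc_unique N (Finset.mem_filter.mp he').2 (Finset.mem_filter.mp he).2
      rw [h2, Finset.sum_singleton]
      exact len_le_two_diam N hD e
    · rw [Finset.not_nonempty_iff_eq_empty.mp hne, Finset.sum_empty]
      linarith
  have h3 : ∑ e ∈ X.filter (fun e => ¬ z ∈ N.openArc e), N.len e ≤ D := by
    have h4 : ∀ e ∈ X.filter (fun e => ¬ z ∈ N.openArc e), N.len e ≤ |g e z - g e r| := by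
      intro e he
      obtain ⟨heX, hez⟩ := Finset.mem_filter.mp he
      have h5 := (hg e (hXE heX)).off z hez
      have h6 := (hg e (hXE heX)).off r (hr e (hXE heX))
      have h7 := hX e heX
      have h8 := N.len_pos e
      rcases h5 with h5 | h5 <;> rcases h6 with h6 | h6
      · exact absurd (h5.trans h6.symm) h7
      · rw [h5, h6, zero_sub, abs_neg]
        exact le_abs_self _
      · rw [h5, h6, sub_zero]
        exact le_abs_self _
      · exact absurd (h5.trans h6.symm) h7
    refine (Finset.sum_le_sum h4).trans ?_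
    refine le_trans ?_ ((hSum hLip Q N E g hg z r).trans (hD z r))
    exact Finset.sum_le_sum_of_subset_of_nonneg
      (fun e he => hXE (Finset.mem_filter.mp he).1) fun _ _ _ => abs_nonneg _
  linarith

end MPacf82c.Br
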