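import Pool.Agent.Lib.MP_acf82c_lc.Br.SpecM

/-!
# The memoryless hider: induction
-/

set_option autoImplicit false

open Set MeasureTheory
open scoped NNReal ENNReal

namespace MPacf82c.Br

theorem tFwM : S_FwM := by
  classical
  intro hP hS n B N hB hBn
  induction N with
  | zero =>
    have hn : 0 < n := by omega
    have hnR : (0 : ℝ) < n := by exact_mod_cast hn
    have hBR : (0 : ℝ) < B := by exact_mod_cast hB
    refine ⟨Unit, inferInstance, fun _ => 1, fun z _ _ => z, fun _ _ _ => false, ?_⟩
    refine ⟨fun _ => zero_le_one, by simp, fun _ _ => rfl, fun _ _ _ _ => rfl,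
      fun _ _ _ _ => rfl, fun z => by simp, ?_⟩
    intro L _ A
    have hA : (A.card : ℝ) ≤ n := by
      have := Finset.card_le_univ A
      rw [Fintype.card_fin] at this
      exact_mod_cast this
    have h1 : wm ((A.card : ℝ) / n) ≤ gm * ((A.card : ℝ) / n) :=
      hP.2.2.1 _ (by positivity) ((div_le_one hnR).2 hA)
    have h2 : (n : ℝ) / B * wm ((A.card : ℝ) / n) ≤
        (n : ℝ) / B * (gm * ((A.card : ℝ) / n)) :=
      mul_le_mul_of_nonneg_left h1 (by positivity)
    refine h2.trans (le_of_eq ?_)
    simp [surv, payoff]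
    ring
  | succ N ih =>
    obtain ⟨ι, _, q, y, b, h⟩ := ih
    exact hS hP n B N hB hBn ι q y b h

end MPacf82c.Br
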