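import Pool.Agent.Lib.MP_acf82c_lc.Br.SpecG

/-!
# A lower bound for the clover constant: induction
-/

set_option autoImplicit false

open Set MeasureTheory
open scoped NNReal ENNReal

namespace MPacf82c.Br

theorem tFwd : S_Fwd := by
  classical
  intro hS n B k hB hBn
  induction k with
  | zero =>
    have hn : 0 < n := by omega
    have hn' : (n : ℝ) ≠ 0 := by
      have : (0 : ℝ) < n := by exact_mod_cast hn
      exact this.ne'
    refine ⟨Fin n, inferInstance, fun _ => 1 / (n : ℝ), fun i _ => i, fun _ _ => false, ?_⟩
    refine ⟨fun i => by positivity, ?_, fun i j _ => rfl, fun i j _ => rfl, ?_, ?_, ?_⟩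
    · simp [hn']
    · simp
    · intro L _ z
      simp [surv, hn']
    · intro L _ j hj
      obtain rfl : j = 0 := by omega
      simp [surv, Pj, hn']
  | succ k ih =>
    obtain ⟨ι, _, q, y, b, h⟩ := ih
    exact hS n B k hB hBn ι q y b h

end MPacf82c.Br
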