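import Pool.Agent.Lib.MP_acf82c_lc.Br.SpecM
import Pool.Agent.Lib.MP_acf82c_lc.CloverModel
import Pool.Agent.Lib.MP_acf82c_lc.CloverTop
import Pool.Agent.Lib.MP_acf82c_lc.WeakDuality

/-!
# The clover constant is at least gm (helper35; copy of Br/GLe.lean)
-/

set_option autoImplicit false

open Set MeasureTheory
open scoped NNReal ENNReal

namespace MPacf82c.Br

open MPacf82c.St (CloverC)

/-- The bridges have nonnegative length. -/
private theorem GLeM_bridge {Q : Type} [MetricSpace Q] (N : Network Q) : 0 ≤ N.bridgeLength := by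
  classical
  unfold Network.bridgeLength
  refine Finset.sum_nonneg fun e _ => ?_
  split_ifs
  · exact (N.len_pos e).le
  · exact le_refl _

theorem tGLeM : S_GLeM := by
  intro hS c hc1 hc2 hC
  by_contra hcon
  have hlt : c < gm := not_le.1 hcon
  have hm : c < min gm 1 := lt_min hlt (by linarith)
  obtain ⟨g, hg1, hg2⟩ := exists_between hm
  have hgG : g < gm := lt_of_lt_of_le hg2 (min_le_left _ _)
  have hg1' : g ≤ 1 := (lt_of_lt_of_le hg2 (min_le_right _ _)).le
  have hε : 0 < (g - c) / 3 := by linarith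
  obtain ⟨δ, hδ, hδS⟩ := hS g (by linarith) hg1' hgG ((g - c) / 3) hε
  obtain ⟨n₀, hn₀⟩ := hC ((g - c) / 3) hε
  obtain ⟨m, hm1⟩ := exists_nat_ge (1 / δ)
  have hn1 : n₀ ≤ max n₀ (max m 1) := le_max_left _ _
  have hn2 : m ≤ max n₀ (max m 1) := (le_max_left _ _).trans (le_max_right _ _)
  have hn3 : 1 ≤ max n₀ (max m 1) := (le_max_right _ _).trans (le_max_right _ _)
  generalize max n₀ (max m 1) = n at hn1 hn2 hn3
  obtain ⟨Q, mQ, N, O, hN⟩ := exists_clover n hn3
  have hnR : (1 : ℝ) ≤ n := by exact_mod_cast hn3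
  have hδn : 1 ≤ δ * n := by
    have h1 : 1 / δ ≤ (n : ℝ) := hm1.trans (by exact_mod_cast hn2)
    rw [div_le_iff₀ hδ] at h1
    linarith
  have hlen : N.length = n := clover_length hN
  have hH := hδS Q N O (fun x y => by
    rw [hlen]
    exact (clover_dist_le hN x y).trans hδn) 1 le_rfl
  have hSr := (hn₀ n hn1 Q N O hN 1 le_rfl).2
  have hW := weak_duality N hH hSr
  have hpos : 0 ≤ (c + (g - c) / 3) * (n : ℝ) := by
    have : 0 ≤ c + (g - c) / 3 := by linarith
    positivity
  rw [ENNReal.ofReal_le_ofReal_iff hpos, hlen] at hW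
  have hb := GLeM_bridge N
  have h1 : 0 ≤ g - (g - c) / 3 := by linarith
  have h2 : (g - (g - c) / 3) * (n : ℝ) ≤ (c + (g - c) / 3) * n :=
    (mul_le_mul_of_nonneg_left (by linarith : (n : ℝ) ≤ n + N.bridgeLength) h1).trans hW
  have h3 : g - (g - c) / 3 ≤ c + (g - c) / 3 := le_of_mul_le_mul_right h2 (by linarith)
  linarith

end MPacf82c.Br
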