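import Pool.Agent.Lib.MP_acf82c_lc.Br.SpecD

/-!
# The greedy searcher over the sweeps
-/

set_option autoImplicit false

open Finset
open scoped Nat

namespace MPacf82c.Br

open MPacf82c.St (pavg blk extY extB)

namespace Gre_aux

theorem blk_card_le {n B k : ℕ} : (blk B k : Finset (Fin n)).card ≤ B := by
  classical
  have h1 : (blk B k : Finset (Fin n)).card ≤ (Finset.Ico (k * B) ((k + 1) * B)).card := by
    apply Finset.card_le_card_of_injOn (fun i : Fin n => i.val)
    · intro i hi
      have hi' := (Finset.mem_filter.1 (Finset.mem_coe.1 hi)).2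
      simp only [Finset.coe_Ico, Set.mem_Ico]
      exact hi'
    · intro i _ j _ hij
      exact Fin.ext hij
  rw [Nat.card_Ico] at h1
  have h2 : (k + 1) * B - k * B = B := by
    rw [Nat.add_mul, one_mul, Nat.add_sub_cancel_left]
  rwa [h2] at h1

theorem sw_card_le {n B1 : ℕ} (σ : Equiv.Perm (Fin n)) (k : ℕ) : (sw B1 σ k).card ≤ B1 := by
  unfold sw
  rw [Finset.card_map]
  exact blk_card_le

theorem exists_le_pavg {n : ℕ} (f : Equiv.Perm (Fin n) → ℝ) : ∃ σ, f σ ≤ pavg f := by
  by_contra hcon
  push Not at hcon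
  have hpos : (0 : ℝ) < (n.factorial : ℝ) := by exact_mod_cast n.factorial_pos
  have h1 : ∑ _π : Equiv.Perm (Fin n), pavg f < ∑ π : Equiv.Perm (Fin n), f π :=
    Finset.sum_lt_sum_of_nonempty ⟨1, Finset.mem_univ _⟩ fun π _ => hcon π
  rw [Finset.sum_const, Finset.card_univ, Fintype.card_perm, Fintype.card_fin, nsmul_eq_mul] at h1
  unfold pavg at h1
  rw [mul_div_cancel₀ _ hpos.ne'] at h1
  exact lt_irrefl _ h1

theorem pavg_lin {n : ℕ} {ι : Type} [Fintype ι] (w : ι → ℝ)
    (f : ι → Equiv.Perm (Fin n) → ℝ) :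
    pavg (fun σ => ∑ i, w i * f i σ) = ∑ i, w i * pavg (f i) := by
  unfold pavg
  rw [Finset.sum_comm, Finset.sum_div]
  refine Finset.sum_congr rfl fun i _ => ?_
  rw [← Finset.mul_sum, mul_div_assoc]

theorem fac_nonneg {n : ℕ} (B : ℕ) (L : Finset (Fin n)) (y : Fin n) (b : Bool) :
    0 ≤ fac B L y b := by
  unfold fac
  split_ifs
  · positivity
  · exact le_rfl
  · exact zero_le_one

theorem surv_nonneg {n : ℕ} (B : ℕ) (L : ℕ → Finset (Fin n)) (y : ℕ → Fin n) (b : ℕ → Bool)
    (m : ℕ) : 0 ≤ surv B L y b m :=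
  Finset.prod_nonneg fun _ _ => fac_nonneg _ _ _ _

theorem surv_congr {n : ℕ} (B : ℕ) {L L' : ℕ → Finset (Fin n)} {y y' : ℕ → Fin n}
    {b b' : ℕ → Bool} {m : ℕ} (hL : ∀ k, k < m → L k = L' k) (hy : ∀ k, k < m → y k = y' k)
    (hb : ∀ k, k < m → b k = b' k) : surv B L y b m = surv B L' y' b' m := by
  unfold surv
  refine Finset.prod_congr rfl fun k hk => ?_
  rw [Finset.mem_range] at hk
  rw [hL k hk, hy k hk, hb k hk]

theorem surv_add {n : ℕ} (B : ℕ) (L : ℕ → Finset (Fin n)) (y : ℕ → Fin n) (b : ℕ → Bool)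
    (q m : ℕ) : surv B L y b (q + m) = surv B L y b q *
      surv B (fun k => L (q + k)) (fun k => y (q + k)) (fun k => b (q + k)) m := by
  unfold surv
  rw [Finset.prod_range_add]

/-- The averaging step. -/
theorem avg_step {n B B1 q : ℕ} {c : ℝ} {ι : Type} [Fintype ι] (w : ι → ℝ)
    (y : ι → ℕ → Fin n) (b : ι → ℕ → Bool) (hw : ∀ i, 0 ≤ w i)
    (h : ∀ i, pavg (fun σ : Equiv.Perm (Fin n) =>
      ∑ m ∈ range q, surv B (sw B1 σ) (y i) (b i) m +
        surv B (sw B1 σ) (y i) (b i) q * c) ≤ c) :
    ∃ σ : Equiv.Perm (Fin n), ∑ i, w i * (∑ m ∈ range q, surv B (sw B1 σ) (y i) (b i) m +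
        surv B (sw B1 σ) (y i) (b i) q * c) ≤ c * ∑ i, w i := by
  obtain ⟨σ, hσ⟩ := exists_le_pavg (fun σ : Equiv.Perm (Fin n) =>
    ∑ i, w i * (∑ m ∈ range q, surv B (sw B1 σ) (y i) (b i) m +
        surv B (sw B1 σ) (y i) (b i) q * c))
  refine ⟨σ, hσ.trans ?_⟩
  rw [pavg_lin w (fun i σ => ∑ m ∈ range q, surv B (sw B1 σ) (y i) (b i) m +
        surv B (sw B1 σ) (y i) (b i) q * c), Finset.mul_sum]
  refine Finset.sum_le_sum fun i _ => ?_
  rw [mul_comm c]
  exact mul_le_mul_of_nonneg_left (h i) (hw i)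

theorem adm_ext {n M K q : ℕ} {y : ℕ → Fin n} {b : ℕ → Bool} (h : Adm M K y b) :
    Adm q K (extY M y) (extB M b) := by
  refine ⟨fun k _ hbk => ?_, ?_⟩
  · unfold extB at hbk
    unfold extY
    by_cases hk : k < M
    · have hb : b k = false := by simpa [hk] using hbk
      rw [min_eq_left hk.le, min_eq_left (show k + 1 ≤ M from hk)]
      exact h.1 k hk hb
    · rw [min_eq_right (by omega), min_eq_right (by omega)]
  · refine le_trans (Finset.card_le_card fun k hk => ?_) h.2
    rw [Finset.mem_filter] at hk ⊢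
    have h2 := hk.2
    unfold extB at h2
    rw [Bool.and_eq_true, decide_eq_true_eq] at h2
    exact ⟨Finset.mem_range.2 h2.2, h2.1⟩

theorem adm_mono {n M K q : ℕ} {y : ℕ → Fin n} {b : ℕ → Bool} (hq : q ≤ M)
    (h : Adm M K y b) : Adm q K y b := by
  refine ⟨fun k hk hbk => h.1 k (hk.trans_le hq) hbk, le_trans (Finset.card_le_card fun k hk => ?_) h.2⟩
  rw [Finset.mem_filter, Finset.mem_range] at hk ⊢
  exact ⟨hk.1.trans_le hq, hk.2⟩

theorem adm_shift {n M K q : ℕ} {y : ℕ → Fin n} {b : ℕ → Bool} (hq : q ≤ M)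
    (h : Adm M K y b) : Adm (M - q) K (fun k => y (q + k)) (fun k => b (q + k)) := by
  refine ⟨fun k hk hbk => ?_, ?_⟩
  · have := h.1 (q + k) (by omega) hbk
    rwa [Nat.add_assoc] at this
  · refine le_trans ?_ h.2
    apply Finset.card_le_card_of_injOn (fun k => q + k)
    · intro k hk
      rw [Finset.mem_coe, Finset.mem_filter, Finset.mem_range] at hk ⊢
      have hk1 := hk.1
      refine ⟨?_, hk.2⟩
      show q + k < M
      omega
    · intro i _ j _ hij
      simpa using hij

end Gre_aux

open Gre_aux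

theorem tGre : S_Gre := by
  intro hSw n B K hB hBn hK M
  obtain ⟨B1, hB1⟩ : ∃ B1 : ℕ, B1 = 7 * B / 8 := ⟨_, rfl⟩
  obtain ⟨q, hq⟩ : ∃ q : ℕ, q = n / B1 := ⟨_, rfl⟩
  have hB1pos : 0 < B1 := by omega
  have hB1le : B1 ≤ B := by omega
  have hq1 : 1 ≤ q := by
    rw [hq, Nat.one_le_div_iff hB1pos]
    omega
  have hSwe : ∀ (y : ℕ → Fin n) (b : ℕ → Bool), Adm q K y b →
      pavg (fun σ : Equiv.Perm (Fin n) =>
        ∑ m ∈ range q, surv B (sw B1 σ) y b m +
          surv B (sw B1 σ) y b q * (Cc * ((n : ℝ) / B))) ≤ Cc * ((n : ℝ) / B) := by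
    intro y b hyb
    have h1 := hSw n B K y b hB hBn hK
    rw [← hB1, ← hq] at h1
    exact h1 hyb
  obtain ⟨c, hc⟩ : ∃ c : ℝ, c = Cc * ((n : ℝ) / B) := ⟨_, rfl⟩
  rw [← hc] at hSwe
  rw [← hc]
  have hc0 : 0 ≤ c := by
    rw [hc]
    unfold Cc
    positivity
  induction M using Nat.strong_induction_on with
  | _ M IH =>
    intro ι _ w y b hw hyb
    by_cases hMq : M ≤ q
    · obtain ⟨σ, hσ⟩ := avg_step (B := B) (B1 := B1) (q := q) (c := c) w
        (fun i => extY M (y i)) (fun i => extB M (b i)) hw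
        (fun i => hSwe _ _ (adm_ext (hyb i)))
      refine ⟨sw B1 σ, fun k => (sw_card_le σ k).trans hB1le, le_trans ?_ hσ⟩
      refine Finset.sum_le_sum fun i _ => mul_le_mul_of_nonneg_left ?_ (hw i)
      unfold payoff
      have h1 : ∑ m ∈ range M, surv B (sw B1 σ) (y i) (b i) m =
          ∑ m ∈ range M, surv B (sw B1 σ) (extY M (y i)) (extB M (b i)) m := by
        refine Finset.sum_congr rfl fun m hm => ?_
        rw [Finset.mem_range] at hm
        refine surv_congr B (fun _ _ => rfl) (fun k hk => ?_) (fun k hk => ?_)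
        · unfold extY
          rw [min_eq_left (by omega)]
        · unfold extB
          have : k < M := by omega
          simp [this]
      rw [h1]
      have h2 : ∑ m ∈ range M, surv B (sw B1 σ) (extY M (y i)) (extB M (b i)) m ≤
          ∑ m ∈ range q, surv B (sw B1 σ) (extY M (y i)) (extB M (b i)) m := by
        refine Finset.sum_le_sum_of_subset_of_nonneg (fun m hm => ?_)
          fun m _ _ => surv_nonneg _ _ _ _ _
        rw [Finset.mem_range] at hm ⊢
        omega
      have h3 : 0 ≤ surv B (sw B1 σ) (extY M (y i)) (extB M (b i)) q * c :=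
        mul_nonneg (surv_nonneg _ _ _ _ _) hc0
      linarith
    · push Not at hMq
      obtain ⟨σ, hσ⟩ := avg_step (B := B) (B1 := B1) (q := q) (c := c) w y b hw
        (fun i => hSwe _ _ (adm_mono hMq.le (hyb i)))
      obtain ⟨L', hL', hL2⟩ := IH (M - q) (by omega) ι
        (fun i => w i * surv B (sw B1 σ) (y i) (b i) q)
        (fun i k => y i (q + k)) (fun i k => b i (q + k))
        (fun i => mul_nonneg (hw i) (surv_nonneg _ _ _ _ _))
        (fun i => adm_shift hMq.le (hyb i))
      let L : ℕ → Finset (Fin n) := fun k => if k < q then sw B1 σ k else L' (k - q)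
      refine ⟨L, fun k => ?_, ?_⟩
      · show (if k < q then sw B1 σ k else L' (k - q)).card ≤ B
        split_ifs
        · exact (sw_card_le σ k).trans hB1le
        · exact hL' _
      · have hpay : ∀ i, payoff B M L (y i) (b i) =
            ∑ m ∈ range q, surv B (sw B1 σ) (y i) (b i) m +
              surv B (sw B1 σ) (y i) (b i) q *
                payoff B (M - q) L' (fun k => y i (q + k)) (fun k => b i (q + k)) := by
          intro i
          have hq' : ∀ m, m ≤ q → surv B L (y i) (b i) m =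
              surv B (sw B1 σ) (y i) (b i) m := by
            intro m hm
            refine surv_congr B (fun k hk => ?_) (fun _ _ => rfl) (fun _ _ => rfl)
            show (if k < q then sw B1 σ k else L' (k - q)) = sw B1 σ k
            rw [if_pos (by omega)]
          unfold payoff
          have hM : M = q + (M - q) := by omega
          rw [hM, Finset.sum_range_add, ← hM]
          congr 1
          · refine Finset.sum_congr rfl fun m hm => ?_
            rw [Finset.mem_range] at hm
            exact hq' m hm.le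
          · rw [Finset.mul_sum]
            refine Finset.sum_congr rfl fun m _ => ?_
            rw [surv_add, hq' q le_rfl]
            congr 1
            refine surv_congr B (fun k _ => ?_) (fun _ _ => rfl) (fun _ _ => rfl)
            show (if q + k < q then sw B1 σ (q + k) else L' (q + k - q)) = L' k
            rw [if_neg (by omega), Nat.add_sub_cancel_left]
        have h1 : ∑ i, w i * payoff B M L (y i) (b i) =
            ∑ i, w i * ∑ m ∈ range q, surv B (sw B1 σ) (y i) (b i) m +
            ∑ i, w i * surv B (sw B1 σ) (y i) (b i) q *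
              payoff B (M - q) L' (fun k => y i (q + k)) (fun k => b i (q + k)) := by
          rw [← Finset.sum_add_distrib]
          refine Finset.sum_congr rfl fun i _ => ?_
          rw [hpay i]
          ring
        have h2 : ∑ i, w i * (∑ m ∈ range q, surv B (sw B1 σ) (y i) (b i) m +
            surv B (sw B1 σ) (y i) (b i) q * c) =
            ∑ i, w i * ∑ m ∈ range q, surv B (sw B1 σ) (y i) (b i) m +
            c * ∑ i, w i * surv B (sw B1 σ) (y i) (b i) q := by
          rw [Finset.mul_sum, ← Finset.sum_add_distrib]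
          refine Finset.sum_congr rfl fun i _ => ?_
          ring
        rw [h2] at hσ
        rw [h1]
        linarith [hL2]

end MPacf82c.Br
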