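import Pool.Agent.Lib.MP_acf82c_lc.Br.SpecE

/-!
# Hubs in networks with bridges

Copy of `hub_bound` (`HubBound.lean`) with at most `2 * len e / h` labels on an arc and a general
loss `k0`.
-/

set_option autoImplicit false

namespace MPacf82c.Br

open Finset

namespace Hub_aux

private lemma pair_const_sum {n : ℕ} (hn : 2 ≤ n) (c : ℝ) :
    ∑ i : Fin n, ∑ _j ∈ univ.filter (fun j => j ≠ i), c = (n * (n - 1) : ℝ) * c := by
  have h1 : ∀ i : Fin n, ∑ _j ∈ univ.filter (fun j => j ≠ i), c = ((n : ℝ) - 1) * c := by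
    intro i
    rw [sum_const, nsmul_eq_mul]
    congr 1
    have : (univ.filter (fun j : Fin n => j ≠ i)).card = n - 1 := by
      rw [filter_ne', card_erase_of_mem (mem_univ i), card_univ, Fintype.card_fin]
    rw [this, Nat.cast_sub (by omega)]
    simp
  rw [sum_congr rfl (fun i _ => h1 i), sum_const, nsmul_eq_mul, card_univ, Fintype.card_fin]
  ring

private lemma pair_sum_left {n : ℕ} (hn : 2 ≤ n) (g : Fin n → ℝ) :
    ∑ i : Fin n, ∑ _j ∈ univ.filter (fun j => j ≠ i), g i = ((n : ℝ) - 1) * ∑ i, g i := by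
  rw [mul_sum]
  refine sum_congr rfl fun i _ => ?_
  rw [sum_const, nsmul_eq_mul]
  congr 1
  have : (univ.filter (fun j : Fin n => j ≠ i)).card = n - 1 := by
    rw [filter_ne', card_erase_of_mem (mem_univ i), card_univ, Fintype.card_fin]
  rw [this, Nat.cast_sub (by omega)]
  simp

private lemma pair_sum_right {n : ℕ} (g : Fin n → ℝ) :
    ∑ i : Fin n, ∑ j ∈ univ.filter (fun j => j ≠ i), g j = ((n : ℝ) - 1) * ∑ i, g i := by
  have h1 : ∀ i : Fin n, ∑ j ∈ univ.filter (fun j => j ≠ i), g j = (∑ j, g j) - g i := by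
    intro i
    rw [filter_ne', ← sum_erase_add univ g (mem_univ i)]
    ring
  rw [sum_congr rfl (fun i _ => h1 i), sum_sub_distrib, sum_const, nsmul_eq_mul, card_univ,
    Fintype.card_fin]
  ring

end Hub_aux

open Hub_aux in
theorem tHub : S_Hub := by
  classical
  intro E _ n hn len u z0 D h β Γ Rt k0 B T0 hT0 hk0 hh hβ hΓ hΓT hB hD hRt hlen hlenD hu hz0
    htot arcOf hcnt0 F hF0 hF1 hFl L hL hcov0
  have hcnt : ∀ e, ((univ.filter fun i => arcOf i = e).card : ℝ) * h ≤ 2 * len e := fun e =>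
    hcnt0 e _ (fun i hi => (mem_filter.mp hi).2)
  have hcov : ∀ A : Finset E, h * ((L.filter fun i => arcOf i ∈ A).card : ℝ) - k0 ≤
      ∑ e ∈ A, u e := fun A =>
    hcov0 A _ (fun i hi => ⟨(mem_filter.mp hi).1, (mem_filter.mp hi).2⟩)
  have hTG : 0 < T0 - Γ := by linarith
  have hn' : (2 : ℝ) ≤ n := by exact_mod_cast hn
  have hN : (0 : ℝ) < (n : ℝ) * (n - 1) := by
    apply mul_pos <;> linarith
  have hB' : (1 : ℝ) ≤ B := by exact_mod_cast hB
  have hB0 : (0 : ℝ) < B := by linarith
  have hL' : (L.card : ℝ) ≤ B := by exact_mod_cast hL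
  -- sums of currents
  set S : E → ℝ := fun e => ∑ i, ∑ j ∈ univ.filter (fun j => j ≠ i), F i j e with hS
  have hSl : ∑ e, len e * S e ≤ (n * (n - 1) : ℝ) * Rt := by
    have h1 : ∑ e, len e * S e
        = ∑ i, ∑ j ∈ univ.filter (fun j => j ≠ i), ∑ e, len e * F i j e := by
      simp only [hS, mul_sum]
      rw [sum_comm]
      refine sum_congr rfl fun i _ => ?_
      rw [sum_comm]
    rw [h1, ← pair_const_sum hn Rt]
    exact sum_le_sum fun i _ => sum_le_sum fun j _ => hFl i j
  have hS0 : ∀ e, 0 ≤ S e := fun e => sum_nonneg fun i _ => sum_nonneg fun j _ => hF0 i j e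
  set hub : Finset E := univ.filter (fun e => β * (n * (n - 1)) ≤ S e) with hhub
  set non : Finset E := univ.filter (fun e => ¬ β * (n * (n - 1)) ≤ S e) with hnon
  have hsplit : ∀ f : E → ℝ, ∑ e, f e = ∑ e ∈ hub, f e + ∑ e ∈ non, f e := fun f =>
    (sum_filter_add_sum_filter_not univ _ f).symm
  have hhublen : ∑ e ∈ hub, len e ≤ Rt / β := by
    rw [le_div_iff₀ hβ]
    have h1 : (∑ e ∈ hub, len e) * (β * (n * (n - 1))) ≤ (n * (n - 1) : ℝ) * Rt := by
      rw [sum_mul]
      refine le_trans ?_ hSl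
      rw [hsplit (fun e => len e * S e)]
      have h2 : 0 ≤ ∑ e ∈ non, len e * S e :=
        sum_nonneg fun e _ => mul_nonneg (hlen e).le (hS0 e)
      have h3 : ∑ e ∈ hub, len e * (β * (n * (n - 1))) ≤ ∑ e ∈ hub, len e * S e := by
        refine sum_le_sum fun e he => ?_
        exact mul_le_mul_of_nonneg_left (mem_filter.mp he).2 (hlen e).le
      linarith
    have h4 : ((∑ e ∈ hub, len e) * β) * ((n : ℝ) * (n - 1)) ≤ Rt * (n * (n - 1)) := by
      nlinarith [h1]
    exact le_of_mul_le_mul_right h4 hN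
  -- labels on hub arcs
  have hlab : h * ((L.filter fun i => arcOf i ∈ hub).card : ℝ) ≤ 2 * Rt / β := by
    have hhub2 : 2 * ∑ e ∈ hub, len e ≤ 2 * Rt / β := by
      have : 2 * Rt / β = 2 * (Rt / β) := by ring
      rw [this]
      linarith
    refine le_trans ?_ hhub2
    have h1 : ((L.filter fun i => arcOf i ∈ hub).card : ℝ)
        ≤ ∑ e ∈ hub, ((univ.filter fun i => arcOf i = e).card : ℝ) := by
      have h2 : (L.filter fun i => arcOf i ∈ hub).card
          ≤ ∑ e ∈ hub, (univ.filter fun i => arcOf i = e).card := by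
        calc (L.filter fun i => arcOf i ∈ hub).card
            ≤ (hub.biUnion fun e => univ.filter fun i => arcOf i = e).card := by
              apply card_le_card
              intro i hi
              simp only [mem_filter, mem_biUnion, mem_univ, true_and] at hi ⊢
              exact ⟨arcOf i, hi.2, rfl⟩
          _ ≤ _ := card_biUnion_le
      exact_mod_cast h2
    calc h * ((L.filter fun i => arcOf i ∈ hub).card : ℝ)
        ≤ h * ∑ e ∈ hub, ((univ.filter fun i => arcOf i = e).card : ℝ) :=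
          mul_le_mul_of_nonneg_left h1 hh.le
      _ = ∑ e ∈ hub, ((univ.filter fun i => arcOf i = e).card : ℝ) * h := by
          rw [mul_sum]
          exact sum_congr rfl fun e _ => mul_comm _ _
      _ ≤ ∑ e ∈ hub, 2 * len e := sum_le_sum fun e _ => hcnt e
      _ = 2 * ∑ e ∈ hub, len e := by rw [mul_sum]
  have hcardsplit : (L.card : ℝ) = ((L.filter fun i => arcOf i ∈ hub).card : ℝ)
      + ((L.filter fun i => arcOf i ∈ non).card : ℝ) := by
    have h1 : (L.filter fun i => arcOf i ∈ hub).card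
        + (L.filter fun i => ¬ arcOf i ∈ hub).card = L.card :=
      card_filter_add_card_filter_not _
    have h2 : (L.filter fun i => ¬ arcOf i ∈ hub) = (L.filter fun i => arcOf i ∈ non) := by
      apply filter_congr
      intro i _
      simp [hhub, hnon]
    rw [h2] at h1
    exact_mod_cast h1.symm
  have hnonu : h * (L.card : ℝ) - 2 * Rt / β - k0 ≤ ∑ e ∈ non, u e := by
    have h1 := hcov non
    rw [hcardsplit]
    nlinarith [h1, hlab]
  have hutot : z0 + (∑ e ∈ hub, u e + ∑ e ∈ non, u e) = T0 := by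
    rw [← hsplit u]; exact htot
  have hut : ∑ e, u e ≤ T0 := by linarith
  have hT0' : T0 = h * B - k0 := hT0
  have hT0pos : 0 ≤ T0 := by linarith
  refine ⟨fun i j => (Γ + k0 + D + 2 * Rt / β) / (T0 - Γ) + (Rt + 2 * D) / Γ +
    (∑ e ∈ non, F i j e * u e + (2 * u (arcOf i) + 2 * u (arcOf j))) / (T0 - Γ), ?_, ?_, ?_⟩
  · intro i j
    have h1 : 0 ≤ ∑ e ∈ non, F i j e * u e :=
      sum_nonneg fun e _ => mul_nonneg (hF0 i j e) (hu e)
    have h2 := hu (arcOf i)
    have h3 := hu (arcOf j)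
    have h4 : 0 ≤ 2 * Rt / β := div_nonneg (by linarith) hβ.le
    have h5 : 0 ≤ (Γ + k0 + D + 2 * Rt / β) / (T0 - Γ) := div_nonneg (by linarith) hTG.le
    have h6 : 0 ≤ (Rt + 2 * D) / Γ := div_nonneg (by linarith) hΓ.le
    have h7 : 0 ≤ (∑ e ∈ non, F i j e * u e + (2 * u (arcOf i) + 2 * u (arcOf j))) / (T0 - Γ) :=
      div_nonneg (by linarith) hTG.le
    linarith
  · have hsum : ∑ i, ∑ j ∈ univ.filter (fun j => j ≠ i),
        (((Γ + k0 + D + 2 * Rt / β) / (T0 - Γ) + (Rt + 2 * D) / Γ) +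
        (∑ e ∈ non, F i j e * u e + (2 * u (arcOf i) + 2 * u (arcOf j))) / (T0 - Γ))
        = (n * (n - 1) : ℝ) * ((Γ + k0 + D + 2 * Rt / β) / (T0 - Γ) + (Rt + 2 * D) / Γ)
          + (∑ i, ∑ j ∈ univ.filter (fun j => j ≠ i),
            (∑ e ∈ non, F i j e * u e + (2 * u (arcOf i) + 2 * u (arcOf j)))) / (T0 - Γ) := by
      rw [← pair_const_sum hn, sum_div, ← sum_add_distrib]
      refine sum_congr rfl fun i _ => ?_
      rw [sum_div, ← sum_add_distrib]
    rw [hsum]
    -- the two contributions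
    have hA : ∑ i, ∑ j ∈ univ.filter (fun j => j ≠ i), ∑ e ∈ non, F i j e * u e
        ≤ (n * (n - 1) : ℝ) * (β * T0) := by
      have h1 : ∑ i, ∑ j ∈ univ.filter (fun j => j ≠ i), ∑ e ∈ non, F i j e * u e
          = ∑ e ∈ non, S e * u e := by
        simp only [hS, sum_mul]
        rw [sum_comm]
        have h2 : ∀ i : Fin n, ∑ j ∈ univ.filter (fun j => j ≠ i), ∑ e ∈ non, F i j e * u e
            = ∑ e ∈ non, ∑ j ∈ univ.filter (fun j => j ≠ i), F i j e * u e := by
          intro i
          exact sum_comm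
        rw [sum_comm, sum_congr rfl (fun i _ => h2 i), sum_comm]
      rw [h1]
      calc ∑ e ∈ non, S e * u e ≤ ∑ e ∈ non, (β * (n * (n - 1))) * u e := by
            refine sum_le_sum fun e he => ?_
            exact mul_le_mul_of_nonneg_right (not_le.mp (mem_filter.mp he).2).le (hu e)
        _ = (β * (n * (n - 1))) * ∑ e ∈ non, u e := by rw [mul_sum]
        _ ≤ (β * (n * (n - 1))) * T0 := by
            apply mul_le_mul_of_nonneg_left _ (mul_nonneg hβ.le hN.le)
            have : 0 ≤ ∑ e ∈ hub, u e := sum_nonneg fun e _ => hu e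
            linarith
        _ = (n * (n - 1) : ℝ) * (β * T0) := by ring
    have hU : ∑ i, u (arcOf i) ≤ 4 * D / h * T0 := by
      have h1 : ∑ i, u (arcOf i)
          = ∑ e, ((univ.filter fun i => arcOf i = e).card : ℝ) * u e := by
        rw [← sum_fiberwise_of_maps_to (s := univ) (t := univ) (g := arcOf)
          (fun i _ => mem_univ _)]
        refine sum_congr rfl fun e _ => ?_
        rw [sum_congr rfl (fun i hi => by rw [(mem_filter.mp hi).2])
          (g := fun _ => u e), sum_const, nsmul_eq_mul]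
      rw [h1]
      calc ∑ e, ((univ.filter fun i => arcOf i = e).card : ℝ) * u e
          ≤ ∑ e, (4 * D / h) * u e := by
            refine sum_le_sum fun e _ => mul_le_mul_of_nonneg_right ?_ (hu e)
            rw [le_div_iff₀ hh]
            have := hlenD e
            have := hcnt e
            linarith
        _ = (4 * D / h) * ∑ e, u e := by rw [mul_sum]
        _ ≤ 4 * D / h * T0 :=
            mul_le_mul_of_nonneg_left hut (div_nonneg (by linarith) hh.le)
    have hC : ∑ i, ∑ j ∈ univ.filter (fun j => j ≠ i), (2 * u (arcOf i) + 2 * u (arcOf j))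
        ≤ (n * (n - 1) : ℝ) * (16 * D * T0 / (n * h)) := by
      have h1 : ∑ i, ∑ j ∈ univ.filter (fun j => j ≠ i), (2 * u (arcOf i) + 2 * u (arcOf j))
          = 4 * (((n : ℝ) - 1) * ∑ i, u (arcOf i)) := by
        simp only [sum_add_distrib]
        rw [pair_sum_left hn (fun i => 2 * u (arcOf i)),
          pair_sum_right (fun i => 2 * u (arcOf i)), ← mul_sum]
        ring
      rw [h1]
      have h2 : (n * (n - 1) : ℝ) * (16 * D * T0 / (n * h))
          = 4 * (((n : ℝ) - 1) * (4 * D / h * T0)) := by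
        have : (n : ℝ) ≠ 0 := by linarith
        field_simp
        ring
      rw [h2]
      have h3 : (0 : ℝ) ≤ (n : ℝ) - 1 := by linarith
      have h4 := mul_le_mul_of_nonneg_left hU h3
      linarith
    have hAC : (∑ i, ∑ j ∈ univ.filter (fun j => j ≠ i),
        (∑ e ∈ non, F i j e * u e + (2 * u (arcOf i) + 2 * u (arcOf j)))) / (T0 - Γ)
        ≤ (n * (n - 1) : ℝ) * ((β * T0 + 16 * D * T0 / (n * h)) / (T0 - Γ)) := by
      rw [← mul_div_assoc]
      apply div_le_div_of_nonneg_right _ hTG.le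
      rw [mul_add]
      simp only [sum_add_distrib] at hA hC ⊢
      linarith
    calc _ ≤ (n * (n - 1) : ℝ) * ((Γ + k0 + D + 2 * Rt / β) / (T0 - Γ) + (Rt + 2 * D) / Γ)
          + (n * (n - 1) : ℝ) * ((β * T0 + 16 * D * T0 / (n * h)) / (T0 - Γ)) := by linarith
      _ = _ := by ring
  · intro i j _
    have h1 : ∑ e, F i j e * u e ≤ ∑ e ∈ hub, u e + ∑ e ∈ non, F i j e * u e := by
      rw [hsplit (fun e => F i j e * u e)]
      have : ∑ e ∈ hub, F i j e * u e ≤ ∑ e ∈ hub, u e := by
        refine sum_le_sum fun e _ => ?_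
        have := mul_le_mul_of_nonneg_right (hF1 i j e) (hu e)
        linarith
      linarith
    have h2 : z0 + ∑ e ∈ hub, u e ≤ (T0 - Γ) * (1 - (L.card : ℝ) / B) + (Γ + k0)
        + 2 * Rt / β := by
      have h3 : z0 + ∑ e ∈ hub, u e ≤ h * B - h * L.card + 2 * Rt / β := by linarith
      have h4 : h * B - h * L.card = h * B * (1 - (L.card : ℝ) / B) := by
        field_simp
      have h5 : h * B * (1 - (L.card : ℝ) / B) = (T0 - Γ) * (1 - (L.card : ℝ) / B)
          + (k0 + Γ) * (1 - (L.card : ℝ) / B) := by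
        rw [hT0']; ring
      have h6 : (k0 + Γ) * (1 - (L.card : ℝ) / B) ≤ (k0 + Γ) * 1 := by
        apply mul_le_mul_of_nonneg_left _ (by linarith)
        have : 0 ≤ (L.card : ℝ) / B := by positivity
        linarith
      linarith
    have h7 : (z0 + ∑ e, F i j e * u e + D + 2 * u (arcOf i) + 2 * u (arcOf j)) / (T0 - Γ)
        ≤ (1 - (L.card : ℝ) / B) + (Γ + k0 + D + 2 * Rt / β) / (T0 - Γ)
          + (∑ e ∈ non, F i j e * u e + (2 * u (arcOf i) + 2 * u (arcOf j))) / (T0 - Γ) := by
      have h8 : (1 - (L.card : ℝ) / B) + (Γ + k0 + D + 2 * Rt / β) / (T0 - Γ)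
          + (∑ e ∈ non, F i j e * u e + (2 * u (arcOf i) + 2 * u (arcOf j))) / (T0 - Γ)
          = ((T0 - Γ) * (1 - (L.card : ℝ) / B) + (Γ + k0 + D + 2 * Rt / β) +
            (∑ e ∈ non, F i j e * u e + (2 * u (arcOf i) + 2 * u (arcOf j)))) / (T0 - Γ) := by
        field_simp
      rw [h8]
      apply div_le_div_of_nonneg_right _ hTG.le
      linarith
    linarith

end MPacf82c.Br
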