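import Pool.Agent.Lib.MP_acf82c_lc.Br.SpecG

/-!
# The value of the block game is at least `g n / B` for `g < Gc`
-/

set_option autoImplicit false

namespace MPacf82c.Br

theorem tHv : S_Hv := by
  intro hStp hFwd hTrc hRie g hg
  obtain ⟨K, L, hK, hL, h⟩ := hRie g hg
  refine ⟨K, L, hK, hL, fun n B M hB hBn hM => ?_⟩
  obtain ⟨k, hk, hv⟩ := h n B hB hBn
  have hkM : k ≤ M := Nat.le_of_mul_le_mul_right (hk.trans hM) hB
  obtain ⟨ι, hι, q, y, b, hF⟩ := hFwd hStp n B k hB hBn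
  obtain ⟨ι', hι', q', y', b', h2, h3, h4, h5⟩ :=
    @hTrc n B k ι hι q y b hB hBn hF K M hK hkM
  exact ⟨ι', hι', q', y', b', h2, h3, h4, fun L' hL' => hv.trans (h5 L' hL')⟩

end MPacf82c.Br
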