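import Pool.Agent.Lib.MP_acf82c_lc.Br.SpecM

/-!
# The block game: choice of the numbers of blocks and of stars (memoryless hider)
-/

set_option autoImplicit false

namespace MPacf82c.Br

theorem tHvM : S_HvM := by
  intro hPot hStM hFwM hTrM g hg
  have hgm0 : (0 : ℝ) < gm := by unfold gm; norm_num
  have hgm1 : gm < (1 : ℝ) := by unfold gm; norm_num
  have hkm : (0 : ℝ) < km := by unfold km; norm_num
  have hd : 0 < gm - g := by linarith
  obtain ⟨L0, hL0⟩ := exists_nat_gt (1 / (gm - g))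
  obtain ⟨e, he⟩ : ∃ e : ℝ, e = 1 / ((L0 : ℝ) + 1) := ⟨_, rfl⟩
  have hL1 : (0 : ℝ) < (L0 : ℝ) + 1 := by positivity
  have he0 : 0 < e := by rw [he]; positivity
  have heL : e * ((L0 : ℝ) + 1) = 1 := by
    rw [he]
    field_simp
  have hed : e < gm - g := by
    rw [he, div_lt_iff₀ hL1]
    rw [div_lt_iff₀ hd] at hL0
    nlinarith
  have hden : 0 < 1 + gm * e := by positivity
  have hη : 0 < gm / (1 + gm * e) - g := by
    rw [sub_pos, lt_div_iff₀ hden]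
    have h1 : g * (gm * e) ≤ e := by
      have h2 : g * gm ≤ 1 := by nlinarith
      nlinarith
    nlinarith
  obtain ⟨η, hηe⟩ : ∃ η : ℝ, η = gm / (1 + gm * e) - g := ⟨_, rfl⟩
  rw [← hηe] at hη
  obtain ⟨K0, hK0⟩ := exists_nat_gt (((L0 : ℝ) + 2) ^ 2 * km / η)
  have hKη : ((L0 : ℝ) + 2) ^ 2 * km / ((K0 : ℝ) + 1) ≤ η := by
    rw [div_le_iff₀ (by positivity)]
    rw [div_lt_iff₀ hη] at hK0
    nlinarith
  refine ⟨K0 + 1, L0 + 2, by omega, by omega, fun n B M hB hBn hM => ?_⟩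
  obtain ⟨N, hN⟩ : ∃ N : ℕ, N = (L0 + 2) * n / B := ⟨_, rfl⟩
  have hNB : N * B ≤ (L0 + 2) * n := by
    rw [hN]
    exact Nat.div_mul_le_self _ _
  have hNB2 : (L0 + 2) * n < N * B + B := by
    rw [hN]
    exact Nat.lt_div_mul_add (by omega)
  have hN1 : 1 ≤ N := by
    rw [hN]
    refine Nat.div_pos ?_ (by omega)
    nlinarith
  have hNM : N ≤ M := Nat.le_of_mul_le_mul_right (hNB.trans hM) hB
  obtain ⟨ι, hι, q, y, b, hF⟩ := hFwM hPot hStM n B N hB hBn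
  obtain ⟨ι', hι', q', y', b', h2, h3, h4, h5⟩ :=
    @hTrM hPot n B N ι hι q y b hB hBn hN1 hF (K0 + 1) M (by omega) hNM
  refine ⟨ι', hι', q', y', b', h2, h3, h4, fun L' hL' => le_trans ?_ (h5 L' hL')⟩
  have hBr : (0 : ℝ) < B := by exact_mod_cast hB
  have hnr : (0 : ℝ) < n := lt_of_lt_of_le hBr (by exact_mod_cast hBn)
  have hBnr : (B : ℝ) ≤ n := by exact_mod_cast hBn
  have hNr : (0 : ℝ) < N := by exact_mod_cast hN1
  have hNBr : (N : ℝ) * B ≤ ((L0 : ℝ) + 2) * n := by exact_mod_cast hNB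
  have hNB2r : ((L0 : ℝ) + 2) * n < (N : ℝ) * B + B := by exact_mod_cast hNB2
  have hNBp : (0 : ℝ) < B * N := by positivity
  have hr : (0 : ℝ) < (n : ℝ) / B := by positivity
  -- the first term
  have h6 : gm * n / (B * N) ≤ gm * e := by
    rw [div_le_iff₀ hNBp]
    have h7 : (n : ℝ) ≤ e * (B * N) := by
      have h8 : ((L0 : ℝ) + 1) * n ≤ B * N := by nlinarith
      calc (n : ℝ) = e * (((L0 : ℝ) + 1) * n) := by rw [← mul_assoc, heL, one_mul]
        _ ≤ e * (B * N) := mul_le_mul_of_nonneg_left h8 he0.le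
    calc gm * n ≤ gm * (e * (B * N)) := mul_le_mul_of_nonneg_left h7 hgm0.le
      _ = gm * e * (B * N) := by ring
  have h6' : 0 < 1 + gm * n / (B * N) := by positivity
  have h9 : gm / (1 + gm * e) * ((n : ℝ) / B) ≤
      gm * ((n : ℝ) / B) / (1 + gm * n / (B * N)) := by
    rw [div_mul_eq_mul_div]
    exact div_le_div_of_nonneg_left (by positivity) h6' (by linarith)
  -- the second term
  have h10 : (N : ℝ) * (N * (km * ((B : ℝ) / n))) ≤ ((L0 : ℝ) + 2) ^ 2 * km * ((n : ℝ) / B) := by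
    have h11 : (N : ℝ) ≤ ((L0 : ℝ) + 2) * ((n : ℝ) / B) := by
      rw [← mul_div_assoc, le_div_iff₀ hBr]
      exact hNBr
    have h12 : (N : ℝ) * ((B : ℝ) / n) ≤ (L0 : ℝ) + 2 := by
      rw [← mul_div_assoc, div_le_iff₀ hnr]
      exact hNBr
    calc (N : ℝ) * (N * (km * ((B : ℝ) / n))) = N * (N * ((B : ℝ) / n)) * km := by ring
      _ ≤ (((L0 : ℝ) + 2) * ((n : ℝ) / B)) * ((L0 : ℝ) + 2) * km := by
          refine mul_le_mul_of_nonneg_right ?_ hkm.le
          exact mul_le_mul h11 h12 (by positivity) (by positivity)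
      _ = ((L0 : ℝ) + 2) ^ 2 * km * ((n : ℝ) / B) := by ring
  have h13 : (N : ℝ) * (N * (km * ((B : ℝ) / n))) / ((K0 + 1 : ℕ) : ℝ) ≤ η * ((n : ℝ) / B) := by
    push_cast
    calc (N : ℝ) * (N * (km * ((B : ℝ) / n))) / ((K0 : ℝ) + 1) ≤
        ((L0 : ℝ) + 2) ^ 2 * km * ((n : ℝ) / B) / ((K0 : ℝ) + 1) :=
          div_le_div_of_nonneg_right h10 (by positivity)
      _ = ((L0 : ℝ) + 2) ^ 2 * km / ((K0 : ℝ) + 1) * ((n : ℝ) / B) := by ring
      _ ≤ η * ((n : ℝ) / B) := mul_le_mul_of_nonneg_right hKη hr.le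
  have h14 : g * ((n : ℝ) / B) = gm / (1 + gm * e) * ((n : ℝ) / B) - η * ((n : ℝ) / B) := by
    rw [hηe]
    ring
  rw [h14]
  linarith

end MPacf82c.Br
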