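import Pool.Agent.Lib.MP_acf82c_lc.Br.SpecA

/-!
# Immobile hiders: the bound for all networks

`h → 0` in the bound of `S_Imm0C` with the samples of `S_Smp`.
-/

set_option autoImplicit false

open Set Finset
open scoped NNReal ENNReal

namespace MPacf82c.Br

namespace Imm_aux

/-- `HiderGuarantees` is monotone. -/
theorem mono {Q : Type} [MetricSpace Q] {w : ℝ≥0} {O : Q} {v v' : ℝ≥0∞}
    (h : HiderGuarantees w O v) (hv : v' ≤ v) : HiderGuarantees w O v' := by
  obtain ⟨Ω, mΩ, P, H, h1, h2, h3, h4⟩ := h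
  exact ⟨Ω, mΩ, P, H, h1, h2, h3, fun S hS hS' => hv.trans (h4 S hS hS')⟩

end Imm_aux

theorem tImm : S_Imm := by
  classical
  intro hPos hSmp hImm Q _ N O w v hv
  set E : Finset N.Arc := Finset.univ.filter (fun e => N.IsBridge e) with hE
  have hb : ∑ e ∈ E, N.len e = N.bridgeLength := by
    rw [hE, Finset.sum_filter]
    unfold Network.bridgeLength
    refine Finset.sum_congr rfl fun e _ => ?_
    by_cases he : N.IsBridge e
    · simp [he]
    · simp [he]
  have hg : ∀ e : N.Arc, ∃ g : Q → ℝ, N.IsBridge e → IsPos N e g := by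
    intro e
    by_cases he : N.IsBridge e
    · obtain ⟨g, hg⟩ := hPos Q N e he
      exact ⟨g, fun _ => hg⟩
    · exact ⟨fun _ => 0, fun h => absurd h he⟩
  choose g hg using hg
  set n : ℝ := (Fintype.card N.Arc : ℝ) with hn
  have hn0 : 0 ≤ n := Nat.cast_nonneg _
  set h : ℝ := ((N.length + N.bridgeLength) / 2 - v) * 2 / (n + 1) with hh
  have hh0 : 0 < h := by
    rw [hh]
    apply div_pos
    · linarith
    · linarith
  have hmul : h * (n + 1) = ((N.length + N.bridgeLength) / 2 - v) * 2 := by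
    rw [hh]
    field_simp
  obtain ⟨xs, hx1, hx2, hx3⟩ := hSmp Q N E h hh0
  have key := hImm Q N E g O w h xs hh0 (fun e he => hg e (by
    rw [hE, Finset.mem_filter] at he
    exact he.2)) hx1 hx2
  refine Imm_aux.mono key (ENNReal.ofReal_le_ofReal ?_)
  rw [hb] at hx3 ⊢
  nlinarith [hx3, hmul]

end MPacf82c.Br
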