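import Pool.Agent.Lib.MP_acf82c_lc.Br.SpecA

/-!
# Immobile hiders: one value of `h`
-/

set_option autoImplicit false

open Set Finset
open scoped NNReal ENNReal

namespace MPacf82c.Br

namespace Imm0_aux

/-- The end value of the arc `e`. -/
noncomputable def vl {Q : Type} [MetricSpace Q] (N : Network Q) (e : N.Arc) (b : Bool) : ℝ :=
  if b then N.len e else 0

theorem vl_mem {Q : Type} [MetricSpace Q] (N : Network Q) (e : N.Arc) (b : Bool) :
    vl N e b ∈ Icc 0 (N.len e) := by
  have := (N.len_pos e).le
  cases b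
  · simp [vl, this]
  · simp [vl, this]

theorem vl_ne {Q : Type} [MetricSpace Q] (N : Network Q) (e : N.Arc) {b b' : Bool}
    (h : b ≠ b') : vl N e b ≠ vl N e b' := by
  have h1 := (N.len_pos e).ne'
  have h2 := (N.len_pos e).ne
  cases b
  · cases b'
    · exact absurd rfl h
    · simpa [vl] using h2
  · cases b'
    · simpa [vl] using h1
    · exact absurd rfl h

/-- `HiderGuarantees` is monotone. -/
theorem mono {Q : Type} [MetricSpace Q] {w : ℝ≥0} {O : Q} {v v' : ℝ≥0∞}
    (h : HiderGuarantees w O v) (hv : v' ≤ v) : HiderGuarantees w O v' := by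
  obtain ⟨Ω, mΩ, P, H, h1, h2, h3, h4⟩ := h
  exact ⟨Ω, mΩ, P, H, h1, h2, h3, fun S hS hS' => hv.trans (h4 S hS hS')⟩

/-- The two terms of the root distance. -/
theorem two_r {L u x : ℝ} (hL : 0 < L) (hx : x = 0 ∨ x = L) :
    (if x = L then |u - L| else 0) + (if x = 0 then |u - 0| else 0) ≤ |u - x| := by
  rcases hx with rfl | rfl
  · rw [if_neg hL.ne, if_pos rfl, zero_add]
  · rw [if_pos rfl, if_neg hL.ne', add_zero]

/-- The two terms of the distance. -/
theorem two_d {L u x y : ℝ} (hL : 0 < L) (hu : 0 ≤ u) (hu' : u ≤ L) (hx : x = 0 ∨ x = L)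
    (hy : y = 0 ∨ y = L) :
    (if (x = L ↔ y = L) then 0 else |u - L|) + (if (x = 0 ↔ y = 0) then 0 else |u - 0|) ≤
      |x - y| := by
  have h1 : |u - L| = L - u := by rw [abs_of_nonpos (by linarith)]; ring
  have h2 : |u - 0| = u := by rw [sub_zero, abs_of_nonneg hu]
  rcases hx with rfl | rfl
  · rcases hy with rfl | rfl
    · simp
    · rw [if_neg (by simp [hL.ne]), if_neg (by simp [hL.ne']), h1, h2, zero_sub, abs_neg,
        abs_of_pos hL]
      linarith
  · rcases hy with rfl | rfl
    · rw [if_neg (by simp [hL.ne]), if_neg (by simp [hL.ne']), h1, h2, sub_zero,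
        abs_of_pos hL]
      linarith
    · simp

end Imm0_aux

open Imm0_aux in
theorem tImm0 : S_Imm0 := by
  classical
  intro hCst hOpp hLip hSum hDis hSwp hSib hLam hSta Q _ N E g O w h xs hh hg hxs hsep
  have hr : 0 ≤ h / 2 := by linarith
  -- the end points
  have hnode : ∀ (c : N.Arc) (b : Bool) (e : N.Arc), N.pt c (vl N c b) ∉ N.openArc e := by
    intro c b e
    refine nb_pt_notMem_openArc N (vl_mem N c b) ?_ e
    intro hm
    cases b
    · simp [vl] at hm
    · simp [vl] at hm
  have hxin : ∀ x ∈ xs, ∃ c, c ∉ E ∧ x ∈ N.openArc c := by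
    intro x hx
    obtain ⟨c, hc, hz⟩ := hxs x hx
    exact ⟨c, hc, hz x (by rw [dist_self]; linarith)⟩
  -- values at all points
  have hval : ∀ e ∈ E, ∀ z, z ∉ N.openArc e → g e z = 0 ∨ g e z = N.len e :=
    fun e he => (hg e he).off
  have hrange : ∀ e ∈ E, ∀ z, 0 ≤ g e z ∧ g e z ≤ N.len e := by
    intro e he z
    by_cases hz : z ∈ N.openArc e
    · obtain ⟨s, hs, rfl⟩ := hz
      rw [(hg e he).on s ⟨hs.1.le, hs.2.le⟩]
      exact ⟨hs.1.le, hs.2.le⟩
    · rcases hval e he z hz with h1 | h1
      · rw [h1]; exact ⟨le_rfl, (N.len_pos e).le⟩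
      · rw [h1]; exact ⟨(N.len_pos e).le, le_rfl⟩
  set xs' : Finset Q := xs.filter (fun x => h / 2 ≤ dist x O) with hxs'
  have hcard : (xs.card : ℝ) - 1 ≤ xs'.card := by
    have h1 : (xs.filter (fun x => ¬ h / 2 ≤ dist x O)).card ≤ 1 := by
      rw [Finset.card_le_one]
      intro a ha b hb
      rw [Finset.mem_filter] at ha hb
      by_contra hab
      have h2 := hsep a ha.1 b hb.1 hab
      have h3 := dist_triangle_right a b O
      have h4 := ha.2
      have h5 := hb.2
      rw [not_le] at h4 h5
      linarith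
    have h2 := Finset.card_filter_add_card_filter_not (s := xs) (fun x => h / 2 ≤ dist x O)
    have h3 : xs.card ≤ xs'.card + 1 := by
      rw [hxs']
      omega
    have h4 : (xs.card : ℝ) ≤ (xs'.card : ℝ) + 1 := by exact_mod_cast h3
    linarith
  set nodes : Finset Q := Finset.univ.image (fun i : N.Arc × Bool => N.pt i.1 (vl N i.1 i.2))
    with hnodes
  set Y : Finset Q := nodes ∪ xs' with hY
  have hnodeY : ∀ (c : N.Arc) (b : Bool), N.pt c (vl N c b) ∈ Y := by
    intro c b
    rw [hY, Finset.mem_union]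
    left
    rw [hnodes, Finset.mem_image]
    exact ⟨(c, b), Finset.mem_univ _, rfl⟩
  have hYoff : ∀ z ∈ Y, ∀ e ∈ E, z ∉ N.openArc e := by
    intro z hz e he
    rw [hY, Finset.mem_union] at hz
    rcases hz with hz | hz
    · rw [hnodes, Finset.mem_image] at hz
      obtain ⟨i, _, rfl⟩ := hz
      exact hnode i.1 i.2 e
    · rw [hxs', Finset.mem_filter] at hz
      obtain ⟨c, hc, hm⟩ := hxin z hz.1
      intro hm'
      obtain ⟨s, hs, hs'⟩ := hm
      obtain ⟨t, ht, ht'⟩ := hm'
      have := (N.simple c e s t hs ⟨ht.1.le, ht.2.le⟩ (hs'.trans ht'.symm)).1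
      exact hc (this ▸ he)
  have hYval : ∀ z ∈ Y, ∀ e ∈ E, g e z = 0 ∨ g e z = N.len e :=
    fun z hz e he => hval e he z (hYoff z hz e he)
  have hYnode : ∀ z ∈ Y, z ∉ xs' → ∀ e, z ∉ N.openArc e := by
    intro z hz hz' e
    rw [hY, Finset.mem_union] at hz
    rcases hz with hz | hz
    · rw [hnodes, Finset.mem_image] at hz
      obtain ⟨i, _, rfl⟩ := hz
      exact hnode i.1 i.2 e
    · exact absurd hz hz'
  -- the family
  let A : (N.Arc × Bool) ⊕ {x // x ∈ xs'} → Finset Q :=
    Sum.elim (fun i => if i.1 ∈ E ∧ g i.1 O ≠ vl N i.1 i.2 then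
      Y.filter (fun z => g i.1 z = vl N i.1 i.2) else Y) (fun s => {s.1})
  let l : (N.Arc × Bool) ⊕ {x // x ∈ xs'} → ℝ :=
    Sum.elim (fun i => if i.1 ∈ E then |g i.1 O - vl N i.1 i.2| else 0) (fun _ => h / 2)
  have hl : ∀ i, 0 ≤ l i := by
    rintro (i | s)
    · show 0 ≤ if i.1 ∈ E then |g i.1 O - vl N i.1 i.2| else 0
      split_ifs
      · exact abs_nonneg _
      · exact le_rfl
    · exact hr
  have hgv : ∀ e ∈ E, ∀ b, g e (N.pt e (vl N e b)) = vl N e b := by
    intro e he b
    exact (hg e he).on _ (vl_mem N e b)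
  have hYne : Y.Nonempty := by
    obtain ⟨e, _⟩ := N.cover O
    exact ⟨_, hnodeY e true⟩
  have hA : ∀ i, (A i).Nonempty ∧ A i ⊆ Y := by
    rintro (i | s)
    · show (if i.1 ∈ E ∧ g i.1 O ≠ vl N i.1 i.2 then
        Y.filter (fun z => g i.1 z = vl N i.1 i.2) else Y).Nonempty ∧
        (if i.1 ∈ E ∧ g i.1 O ≠ vl N i.1 i.2 then
        Y.filter (fun z => g i.1 z = vl N i.1 i.2) else Y) ⊆ Y
      split_ifs with hi
      · refine ⟨⟨N.pt i.1 (vl N i.1 i.2), ?_⟩, Finset.filter_subset _ _⟩
        rw [Finset.mem_filter]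
        exact ⟨hnodeY _ _, hgv i.1 hi.1 i.2⟩
      · exact ⟨hYne, Finset.Subset.refl _⟩
    · refine ⟨Finset.singleton_nonempty _, ?_⟩
      show {s.1} ⊆ Y
      rw [Finset.singleton_subset_iff, hY, Finset.mem_union]
      exact Or.inr s.2
  have hsing : ∀ (s : Q) (B : Finset Q), ({s} : Finset Q) ⊆ B ∨ B ⊆ {s} ∨ Disjoint {s} B := by
    intro s B
    by_cases hs : s ∈ B
    · exact Or.inl (Finset.singleton_subset_iff.2 hs)
    · exact Or.inr (Or.inr (Finset.disjoint_singleton_left.2 hs))
  have hswap : ∀ B C : Finset Q, (C ⊆ B ∨ B ⊆ C ∨ Disjoint C B) →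
      (B ⊆ C ∨ C ⊆ B ∨ Disjoint B C) := by
    rintro B C (h1 | h1 | h1)
    · exact Or.inr (Or.inl h1)
    · exact Or.inl h1
    · exact Or.inr (Or.inr h1.symm)
  have hlam : ∀ i j, A i ⊆ A j ∨ A j ⊆ A i ∨ Disjoint (A i) (A j) := by
    rintro (i | s) (j | t)
    · by_cases hi : i.1 ∈ E ∧ g i.1 O ≠ vl N i.1 i.2
      · by_cases hj : j.1 ∈ E ∧ g j.1 O ≠ vl N j.1 j.2
        · have hAi : A (Sum.inl i) = Y.filter (fun z => g i.1 z = vl N i.1 i.2) := if_pos hi
          have hAj : A (Sum.inl j) = Y.filter (fun z => g j.1 z = vl N j.1 j.2) := if_pos hj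
          rw [hAi, hAj]
          by_cases hij : i.1 = j.1
          · by_cases hb : i.2 = j.2
            · have : i = j := Prod.ext hij hb
              subst this
              exact Or.inl (Finset.Subset.refl _)
            · refine Or.inr (Or.inr ?_)
              rw [Finset.disjoint_filter]
              intro z _ h1 h2
              rw [← hij] at h2
              exact vl_ne N i.1 hb (h1.symm.trans h2)
          · have o1 := hOpp hCst Q N i.1 j.1 (g i.1) (g j.1) hij (hg _ hi.1) (hg _ hj.1)
            have hv0 : N.pt j.1 0 = N.pt j.1 (vl N j.1 false) := by simp [vl]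
            by_cases h1 : vl N i.1 i.2 = g i.1 (N.pt j.1 0)
            · by_cases h2 : vl N j.1 j.2 = g j.1 (N.pt i.1 0)
              · exfalso
                have := o1 O (by rw [← h1]; exact hi.2)
                rw [← h2] at this
                exact hj.2 this
              · refine Or.inr (Or.inl ?_)
                intro z hz
                rw [Finset.mem_filter] at hz ⊢
                refine ⟨hz.1, ?_⟩
                by_contra h3
                rw [h1] at h3
                have h4 := o1 z h3
                rw [hz.2] at h4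
                exact h2 h4
            · by_cases h2 : vl N j.1 j.2 = g j.1 (N.pt i.1 0)
              · left
                intro z hz
                rw [Finset.mem_filter] at hz ⊢
                refine ⟨hz.1, ?_⟩
                rw [h2]
                apply o1 z
                rw [hz.2]
                exact h1
              · refine Or.inr (Or.inr ?_)
                rw [Finset.disjoint_filter]
                intro z _ h3 h4
                have h5 := o1 z (by rw [h3]; exact h1)
                rw [h4] at h5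
                exact h2 h5
        · have hAj : A (Sum.inl j) = Y := if_neg hj
          rw [hAj]
          exact Or.inl (hA _).2
      · have hAi : A (Sum.inl i) = Y := if_neg hi
        rw [hAi]
        exact Or.inr (Or.inl (hA _).2)
    · exact hswap _ _ (hsing t.1 _)
    · exact hsing s.1 _
    · exact hsing s.1 _
  obtain ⟨p, hp0, hpY, hp1, hpT⟩ := hLam hSwp hSib Q ((N.Arc × Bool) ⊕ {x // x ∈ xs'}) Y A l hYne hl
    hA hlam
  -- the total weight
  have htot : ∑ i, l i = ∑ e ∈ E, N.len e + h / 2 * xs'.card := by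
    rw [Fintype.sum_sum_type, Fintype.sum_prod_type]
    have e1 : ∀ e : N.Arc, ∑ b : Bool, l (Sum.inl (e, b)) = if e ∈ E then N.len e else 0 := by
      intro e
      rw [Fintype.sum_bool]
      show (if e ∈ E then |g e O - vl N e true| else 0) +
        (if e ∈ E then |g e O - vl N e false| else 0) = _
      by_cases he : e ∈ E
      · rw [if_pos he, if_pos he, if_pos he]
        obtain ⟨h1, h2⟩ := hrange e he O
        simp only [vl, if_true]
        rw [abs_of_nonpos (by linarith), if_neg (by simp), sub_zero, abs_of_nonneg h1]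
        ring
      · rw [if_neg he, if_neg he, if_neg he, add_zero]
    have e2 : ∑ s : {x // x ∈ xs'}, l (Sum.inr s) = h / 2 * xs'.card := by
      show ∑ s : {x // x ∈ xs'}, h / 2 = _
      rw [Finset.sum_const, Finset.card_univ, Fintype.card_coe, nsmul_eq_mul, mul_comm]
    rw [e2, Finset.sum_congr rfl (fun e _ => e1 e)]
    congr 1
    rw [Finset.sum_ite_mem, Finset.univ_inter]
  -- root distances
  have hlr : ∀ x ∈ Y, lr A l x ≤ ∑ e ∈ E, |g e x - g e O| + if x ∈ xs' then h / 2 else 0 := by
    intro x hx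
    unfold lr
    rw [Fintype.sum_sum_type, Fintype.sum_prod_type]
    refine add_le_add ?_ ?_
    · rw [← Finset.univ_inter E, ← Finset.sum_ite_mem]
      refine Finset.sum_le_sum fun e _ => ?_
      rw [Fintype.sum_bool]
      by_cases he : e ∈ E
      · have ht : ∀ b : Bool, (if x ∈ A (Sum.inl (e, b)) then l (Sum.inl (e, b)) else 0) =
            if g e x = vl N e b then |g e O - vl N e b| else 0 := by
          intro b
          have hlb : l (Sum.inl (e, b)) = |g e O - vl N e b| := if_pos he
          rw [hlb]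
          by_cases hb : g e O = vl N e b
          · rw [hb, sub_self, abs_zero, ite_self, ite_self]
          · have hAb : A (Sum.inl (e, b)) = Y.filter (fun z => g e z = vl N e b) :=
              if_pos ⟨he, hb⟩
            rw [hAb]
            simp only [Finset.mem_filter, hx, true_and]
        rw [ht, ht, if_pos he, abs_sub_comm (g e x)]
        exact two_r (N.len_pos e) (hYval x hx e he)
      · have ht : ∀ b : Bool, l (Sum.inl (e, b)) = 0 := fun b => if_neg he
        rw [ht, ht, ite_self, ite_self, add_zero, if_neg he]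
    · have e1 : ∀ s : {x // x ∈ xs'}, (if x ∈ A (Sum.inr s) then l (Sum.inr s) else 0) =
          (fun y => if x = y then h / 2 else 0) s.1 := by
        intro s
        show (if x ∈ ({s.1} : Finset Q) then h / 2 else 0) = _
        simp only [Finset.mem_singleton]
      rw [Finset.sum_congr rfl (fun s _ => e1 s)]
      rw [Finset.sum_coe_sort xs' (fun y => if x = y then h / 2 else 0), Finset.sum_ite_eq]
  have hld : ∀ x ∈ Y, ∀ y ∈ Y, x ≠ y → ld A l x y ≤ ∑ e ∈ E, |g e x - g e y| +
      ((if x ∈ xs' then h / 2 else 0) + if y ∈ xs' then h / 2 else 0) := by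
    intro x hx y hy hxy
    unfold ld
    rw [Fintype.sum_sum_type, Fintype.sum_prod_type]
    refine add_le_add ?_ ?_
    · rw [← Finset.univ_inter E, ← Finset.sum_ite_mem]
      refine Finset.sum_le_sum fun e _ => ?_
      rw [Fintype.sum_bool]
      by_cases he : e ∈ E
      · have ht : ∀ b : Bool, (if (x ∈ A (Sum.inl (e, b)) ↔ y ∈ A (Sum.inl (e, b))) then 0 else
            l (Sum.inl (e, b))) =
            if (g e x = vl N e b ↔ g e y = vl N e b) then 0 else |g e O - vl N e b| := by
          intro b
          have hlb : l (Sum.inl (e, b)) = |g e O - vl N e b| := if_pos he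
          rw [hlb]
          by_cases hb : g e O = vl N e b
          · rw [hb, sub_self, abs_zero, ite_self, ite_self]
          · have hAb : A (Sum.inl (e, b)) = Y.filter (fun z => g e z = vl N e b) :=
              if_pos ⟨he, hb⟩
            rw [hAb]
            simp only [Finset.mem_filter, hx, hy, true_and]
        rw [ht, ht, if_pos he]
        obtain ⟨h1, h2⟩ := hrange e he O
        exact two_d (N.len_pos e) h1 h2 (hYval x hx e he) (hYval y hy e he)
      · have ht : ∀ b : Bool, l (Sum.inl (e, b)) = 0 := fun b => if_neg he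
        rw [ht, ht, ite_self, ite_self, add_zero, if_neg he]
    · have e1 : ∀ s : {x // x ∈ xs'}, (if (x ∈ A (Sum.inr s) ↔ y ∈ A (Sum.inr s)) then 0 else
          l (Sum.inr s)) ≤ (fun z => (if x = z then h / 2 else 0) + if y = z then h / 2 else 0)
            s.1 := by
        intro s
        show (if (x ∈ ({s.1} : Finset Q) ↔ y ∈ ({s.1} : Finset Q)) then 0 else h / 2) ≤
          (if x = s.1 then h / 2 else 0) + if y = s.1 then h / 2 else 0
        simp only [Finset.mem_singleton]
        split_ifs <;> first | linarith | (exfalso; tauto)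
      refine (Finset.sum_le_sum (fun s _ => e1 s)).trans ?_
      rw [Finset.sum_coe_sort xs' (fun z => (if x = z then h / 2 else 0) +
        if y = z then h / 2 else 0), Finset.sum_add_distrib, Finset.sum_ite_eq,
        Finset.sum_ite_eq]
  have hdis1 : ∀ x ∈ xs', ∀ y, h / 2 ≤ dist x y →
      ∑ e ∈ E, |g e x - g e y| + h / 2 ≤ dist x y := by
    intro x hx y hxy
    obtain ⟨c, hc, hz⟩ := hxs x (Finset.mem_filter.1 hx).1
    exact (hDis hLip Q N E g (h / 2) hr hg c x hc hz).1 y hxy
  have hroot : ∀ x ∈ Y, lr A l x ≤ dist O x := by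
    intro x hx
    refine (hlr x hx).trans ?_
    rw [dist_comm]
    split_ifs with hxx
    · exact hdis1 x hxx O (Finset.mem_filter.1 hxx).2
    · rw [add_zero]
      exact hSum hLip Q N E g hg x O
  have hfar : ∀ x ∈ xs', ∀ y ∈ Y, y ∉ xs' → h / 2 ≤ dist x y := by
    intro x hx y hy hyn
    obtain ⟨c, hc, hz⟩ := hxs x (Finset.mem_filter.1 hx).1
    by_contra hlt
    rw [dist_comm x y] at hlt
    exact hYnode y hy hyn c (hz y (not_le.1 hlt))
  have hdist : ∀ x ∈ Y, ∀ y ∈ Y, x ≠ y → ld A l x y ≤ dist x y := by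
    intro x hx y hy hxy
    refine (hld x hx y hy hxy).trans ?_
    by_cases hxx : x ∈ xs'
    · by_cases hyy : y ∈ xs'
      · rw [if_pos hxx, if_pos hyy]
        obtain ⟨c, hc, hz⟩ := hxs x (Finset.mem_filter.1 hxx).1
        obtain ⟨c', hc', hz'⟩ := hxs y (Finset.mem_filter.1 hyy).1
        have h1 := hsep x (Finset.mem_filter.1 hxx).1 y (Finset.mem_filter.1 hyy).1 hxy
        have h2 := (hDis hLip Q N E g (h / 2) hr hg c x hc hz).2 c' y hc' hz' (by linarith)
        linarith
      · rw [if_pos hxx, if_neg hyy, add_zero]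
        exact hdis1 x hxx y (hfar x hxx y hy hyy)
    · by_cases hyy : y ∈ xs'
      · rw [if_neg hxx, if_pos hyy, zero_add]
        have h1 := hdis1 y hyy x (hfar y hyy x hx hxx)
        rw [dist_comm x y]
        refine le_trans (le_of_eq ?_) h1
        congr 1
        exact Finset.sum_congr rfl fun e _ => abs_sub_comm _ _
      · rw [if_neg hxx, if_neg hyy, add_zero, add_zero]
        exact hSum hLip Q N E g hg x y
  have hfin : HiderGuarantees w O (ENNReal.ofReal (∑ i, l i)) := by
    refine hSta Q O w Y p _ hp0 hpY hp1 ?_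
    intro T hT
    refine hpT T ⟨fun x hx => (hroot x hx).trans (hT.1 x hx), fun x hx y hy hxy => ?_⟩
    exact (hdist x hx y hy hxy).trans (hT.2 x hx y hy hxy)
  refine Imm0_aux.mono hfin (ENNReal.ofReal_le_ofReal ?_)
  rw [htot]
  nlinarith [hcard, hr]

end MPacf82c.Br
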