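import Pool.Agent.Lib.MP_acf82c_lc.Br.SpecD

/-!
# Networks with bridges, part D, module Ine: the two inequalities behind the potential
-/

set_option autoImplicit false

namespace MPacf82c.Br

namespace Ine_aux

/-- The error of the term `N / κ`. -/
lemma kap (κ δ : ℝ) (h1 : 7 / 8 - 1 / 100000 ≤ κ) (hδ0 : 0 ≤ δ) (hδ1 : δ ≤ 1) :
    (δ - δ ^ 2 / 2) / κ ≤ 8 / 7 * (δ - δ ^ 2 / 2) + 7 / 1000000 := by
  have hκ : 0 < κ := by linarith
  obtain ⟨s, hs⟩ : ∃ s : ℝ, δ - δ ^ 2 / 2 = s := ⟨_, rfl⟩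
  have hs0 : 0 ≤ s := by
    rw [← hs]
    nlinarith
  have hs1 : s ≤ 1 / 2 := by
    rw [← hs]
    nlinarith [sq_nonneg (1 - δ)]
  rw [hs, div_le_iff₀ hκ]
  have h2 : (8 / 7 * s + 7 / 1000000) * (7 / 8 - 1 / 100000) ≤
      (8 / 7 * s + 7 / 1000000) * κ := mul_le_mul_of_nonneg_left h1 (by linarith)
  linarith

/-- The first inequality. -/
lemma one (u δ : ℝ) (hu : 0 ≤ u) (hδ0 : 0 ≤ δ) (hδ1 : δ ≤ 1) :
    (1 - δ) * (7 / 8 * (7999 / 10000 + 6 / 100 * (u + δ))) + 8 / 7 * (δ - δ ^ 2 / 2) +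
      47 / 1000000 ≤ 7999 / 10000 + 6 / 100 * u - 1 / 1000 := by
  have h1 : 0 ≤ u * (6 / 100 * (1 - 7 / 8 * (1 - δ))) := mul_nonneg hu (by linarith)
  nlinarith [sq_nonneg (δ - 397 / 1000)]

/-- The second inequality. -/
lemma two (u δ : ℝ) (hu : 0 ≤ u) (hδ0 : 0 ≤ δ) (huδ : u + δ ≤ 1) :
    (1 - δ) * ((1 - (u + δ) ^ 2) / 2 + 7 / 8 * (7999 / 10000) * (u + δ)) +
      8 / 7 * (δ - δ ^ 2 / 2) + 47 / 1000000 ≤ 7999 / 10000 + 6 / 100 * u - 1 / 1000 := by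
  obtain ⟨v, hv⟩ : ∃ v : ℝ, u + δ = v := ⟨_, rfl⟩
  have hu' : u = v - δ := by linarith
  rw [hv, hu']
  have hv0 : 0 ≤ v := by linarith
  have hv1 : v ≤ 1 := by linarith
  obtain ⟨g, hg⟩ : ∃ g : ℝ, (1 - v ^ 2) / 2 + 7 / 8 * (7999 / 10000) * v = g := ⟨_, rfl⟩
  rw [hg]
  have hsq : 0 ≤ (δ - 7 / 8 * (8 / 7 + 6 / 100 - g)) ^ 2 := sq_nonneg _
  have hp : 0 ≤ (7999 / 10000 + 6 / 100 * v - g) - 7 / 16 * (8 / 7 + 6 / 100 - g) ^ 2 -
      1047 / 1000000 := by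
    have h1 : (7999 / 10000 + 6 / 100 * v - g) - 7 / 16 * (8 / 7 + 6 / 100 - g) ^ 2 -
        1047 / 1000000 = (v - 3 / 5) ^ 2 * (23296783657 / 102400000000 +
          (223951 / 1280000 * v - 7 / 64 * v ^ 2)) +
          (14724389609 / 17920000000000 + 142502971 / 256000000000 * v) := by
      rw [← hg]
      ring
    rw [h1]
    have h2 : 0 ≤ 223951 / 1280000 * v - 7 / 64 * v ^ 2 := by nlinarith
    positivity
  nlinarith

end Ine_aux

theorem tIne : S_Ine := by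
  intro N κ u δ hN h1 h2 hu hδ0 huδ
  have hδ1 : δ ≤ 1 := by linarith
  have hN0 : 0 < N := by linarith
  have hκ : 0 < κ := by linarith
  have hk := Ine_aux.kap κ δ h1 hδ0 hδ1
  have e0 : N / κ * (δ - δ ^ 2 / 2) = N * ((δ - δ ^ 2 / 2) / κ) := by ring
  have e1 : N / κ * (δ - δ ^ 2 / 2) ≤ N * (8 / 7 * (δ - δ ^ 2 / 2) + 7 / 1000000) := by
    rw [e0]
    exact mul_le_mul_of_nonneg_left hk hN0.le
  have e2 : 4 ≤ N * (40 / 1000000) := by linarith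
  unfold Cc
  constructor
  · have a1 := mul_le_mul_of_nonneg_left (Ine_aux.one u δ hu hδ0 hδ1) hN0.le
    have a2 : (1 - δ) * (κ * (N * (7999 / 10000 + 6 / 100 * (u + δ)))) ≤
        (1 - δ) * (7 / 8 * (N * (7999 / 10000 + 6 / 100 * (u + δ)))) := by
      refine mul_le_mul_of_nonneg_left (mul_le_mul_of_nonneg_right h2 ?_) (by linarith)
      positivity
    have a3 : (1 - δ) * (7 / 8 * (N * (7999 / 10000 + 6 / 100 * (u + δ)))) =
        N * ((1 - δ) * (7 / 8 * (7999 / 10000 + 6 / 100 * (u + δ)))) := by ring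
    rw [a3] at a2
    linarith
  · have a1 := mul_le_mul_of_nonneg_left (Ine_aux.two u δ hu hδ0 huδ) hN0.le
    have a2 : (1 - δ) * (N * ((1 - (u + δ) ^ 2) / 2 + κ * (7999 / 10000) * (u + δ))) ≤
        (1 - δ) * (N * ((1 - (u + δ) ^ 2) / 2 + 7 / 8 * (7999 / 10000) * (u + δ))) := by
      refine mul_le_mul_of_nonneg_left (mul_le_mul_of_nonneg_left (add_le_add le_rfl ?_) hN0.le)
        (by linarith)
      exact mul_le_mul_of_nonneg_right (mul_le_mul_of_nonneg_right h2 (by norm_num)) (by linarith)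
    have a3 : (1 - δ) * (N * ((1 - (u + δ) ^ 2) / 2 + 7 / 8 * (7999 / 10000) * (u + δ))) =
        N * ((1 - δ) * ((1 - (u + δ) ^ 2) / 2 + 7 / 8 * (7999 / 10000) * (u + δ))) := by ring
    rw [a3] at a2
    linarith

end MPacf82c.Br
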