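import Pool.Agent.Lib.MP_acf82c_lc.Br.SpecE
import Pool.Agent.Lib.MP_acf82c_lc.Samples

/-!
# Labels of a network with bridges
-/

set_option autoImplicit false

open Set MeasureTheory
open scoped NNReal ENNReal

namespace MPacf82c.Br

namespace Lab_aux

theorem card_le {A : Type} [Fintype A] [DecidableEq A] {n : ℕ} (m : A → ℕ)
    (φ : Fin n ≃ (Σ e : A, Fin (m e))) (e : A) (s : Finset (Fin n))
    (hs : ∀ i ∈ s, (φ i).1 = e) : s.card ≤ m e := by
  have h1 : s ⊆ Finset.univ.image (fun k : Fin (m e) => φ.symm ⟨e, k⟩) := by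
    intro i hi
    have hi' := hs i hi
    simp only [Finset.mem_image, Finset.mem_univ, true_and]
    refine ⟨hi' ▸ (φ i).2, ?_⟩
    rw [Equiv.symm_apply_eq]
    subst hi'
    rfl
  calc s.card ≤ (Finset.univ.image (fun k : Fin (m e) => φ.symm ⟨e, k⟩)).card :=
        Finset.card_le_card h1
    _ ≤ (Finset.univ : Finset (Fin (m e))).card := Finset.card_image_le
    _ = m e := by simp

end Lab_aux

theorem tLab : S_Lab := by
  classical
  intro Q _ N E g r h hh hle hgr
  set m : N.Arc → ℕ := fun e => if e ∈ E then ⌊(2 * N.len e - h) / h⌋₊ else ⌊N.len e / h⌋₊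
    with hm
  have hmE : ∀ e, e ∈ E → m e = ⌊(2 * N.len e - h) / h⌋₊ := fun e he => by simp [hm, he]
  have hmN : ∀ e, e ∉ E → m e = ⌊N.len e / h⌋₊ := fun e he => by simp [hm, he]
  have hcard : Fintype.card (Fin (∑ e, m e)) = Fintype.card (Σ e : N.Arc, Fin (m e)) := by
    rw [Fintype.card_fin, Fintype.card_sigma]
    simp
  let φ : Fin (∑ e, m e) ≃ (Σ e : N.Arc, Fin (m e)) := Fintype.equivOfCardEq hcard
  let posn : (Σ e : N.Arc, Fin (m e)) → ℝ := fun x =>
    if x.1 ∈ E then (if g x.1 r = 0 then N.len x.1 - h / 2 else h / 2)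
    else (((x.2 : ℕ) : ℝ) + 1 / 2) * (N.len x.1 / (m x.1 : ℕ))
  have hposN : ∀ x : (Σ e : N.Arc, Fin (m e)), x.1 ∉ E →
      posn x = (((x.2 : ℕ) : ℝ) + 1 / 2) * (N.len x.1 / (m x.1 : ℕ)) := by
    intro x hx
    simp only [posn, if_neg hx]
  have hp : ∀ x : (Σ e : N.Arc, Fin (m e)), x.1 ∉ E →
      h / 2 ≤ posn x ∧ h / 2 ≤ N.len x.1 - posn x ∧ h ≤ N.len x.1 / (m x.1 : ℕ) := by
    intro x hx
    rw [hposN x hx]
    exact samples_pos hh (hle x.1) (hmN x.1 hx) x.2.2
  have hmem : ∀ x : (Σ e : N.Arc, Fin (m e)), x.1 ∉ E → posn x ∈ Icc 0 (N.len x.1) := by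
    intro x hx
    obtain ⟨a, b, _⟩ := hp x hx
    exact ⟨by linarith, by linarith⟩
  have hmin : ∀ x : (Σ e : N.Arc, Fin (m e)), x.1 ∉ E →
      h / 2 ≤ min (posn x) (N.len x.1 - posn x) :=
    fun x hx => le_min (hp x hx).1 (hp x hx).2.1
  have hdist : ∀ x y : (Σ e : N.Arc, Fin (m e)), x ≠ y → x.1 ∉ E → y.1 ∉ E →
      h ≤ dist (N.pt x.1 (posn x)) (N.pt y.1 (posn y)) := by
    rintro ⟨e, k⟩ ⟨e', k'⟩ hxy hx hy
    by_cases hee : e = e'
    · subst hee
      have hkk : k ≠ k' := by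
        rintro rfl
        exact hxy rfl
      have h1 := dist_same_arc N e (hmem ⟨e, k⟩ hx) (hmem ⟨e, k'⟩ hx)
      refine le_trans (le_min ?_ ?_) h1
      · have h2 : posn ⟨e, k⟩ - posn ⟨e, k'⟩ =
            (((k : ℕ) : ℝ) - ((k' : ℕ) : ℝ)) * (N.len e / (m e : ℕ)) := by
          rw [hposN ⟨e, k⟩ hx, hposN ⟨e, k'⟩ hx]
          ring
        have h3 := (hp ⟨e, k⟩ hx).2.2
        have h4 : (1 : ℝ) ≤ |(((k : ℕ) : ℝ) - ((k' : ℕ) : ℝ))| := by
          have h5 : ((k : ℕ) : ℤ) - ((k' : ℕ) : ℤ) ≠ 0 := by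
            intro h6
            apply hkk
            apply Fin.ext
            omega
          have h6 : (1 : ℤ) ≤ |((k : ℕ) : ℤ) - ((k' : ℕ) : ℤ)| := Int.one_le_abs h5
          exact_mod_cast h6
        rw [h2, abs_mul]
        have h7 : 0 < N.len e / (m e : ℕ) := lt_of_lt_of_le hh h3
        rw [abs_of_pos h7]
        nlinarith
      · have a := hmin ⟨e, k⟩ hx
        have b := hmin ⟨e, k'⟩ hx
        linarith
    · have h1 := dist_diff_arc N hee (hmem ⟨e, k⟩ hx) (hmem ⟨e', k'⟩ hy)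
      have a := hmin ⟨e, k⟩ hx
      have b := hmin ⟨e', k'⟩ hy
      dsimp only at h1 a b ⊢
      linarith
  have hmle : ∀ e, e ∉ E → (m e : ℝ) * h ≤ N.len e := by
    intro e he
    rw [hmN e he]
    have h2 : (⌊N.len e / h⌋₊ : ℝ) ≤ N.len e / h :=
      Nat.floor_le (div_nonneg (N.len_pos e).le hh.le)
    rwa [le_div_iff₀ hh] at h2
  have hmleE : ∀ e, e ∈ E → (m e : ℝ) * h ≤ 2 * N.len e - h := by
    intro e he
    rw [hmE e he]
    have h1 := hle e
    have h2 : (⌊(2 * N.len e - h) / h⌋₊ : ℝ) ≤ (2 * N.len e - h) / h :=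
      Nat.floor_le (div_nonneg (by linarith) hh.le)
    rwa [le_div_iff₀ hh] at h2
  have hlem : ∀ e, e ∉ E → N.len e ≤ ((m e : ℝ) + 1) * h := by
    intro e he
    rw [hmN e he]
    have h1 : N.len e / h < (⌊N.len e / h⌋₊ : ℝ) + 1 := Nat.lt_floor_add_one _
    rw [div_lt_iff₀ hh] at h1
    exact h1.le
  have hlemE : ∀ e, e ∈ E → 2 * N.len e ≤ ((m e : ℝ) + 2) * h := by
    intro e he
    rw [hmE e he]
    have h1 : (2 * N.len e - h) / h < (⌊(2 * N.len e - h) / h⌋₊ : ℝ) + 1 :=
      Nat.lt_floor_add_one _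
    rw [div_lt_iff₀ hh] at h1
    linarith
  have hsumE : ∑ e ∈ E, N.len e = ∑ e, (if e ∈ E then N.len e else 0) := by
    rw [Finset.sum_ite_mem, Finset.univ_inter]
  have hn : (((∑ e, m e : ℕ)) : ℝ) = ∑ e, (m e : ℝ) := by push_cast; rfl
  refine ⟨∑ e, m e, fun i => (φ i).1, fun i => posn (φ i), ?_, ?_, ?_⟩
  · refine ⟨?_, ?_, ?_, ?_, ?_, ?_, ?_⟩
    · intro i
      by_cases hi : (φ i).1 ∈ E
      · have h1 := hle (φ i).1
        show posn (φ i) ∈ Ioo 0 (N.len (φ i).1)
        simp only [posn, if_pos hi]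
        split_ifs
        · exact ⟨by linarith, by linarith⟩
        · exact ⟨by linarith, by linarith⟩
      · obtain ⟨a, b, _⟩ := hp (φ i) hi
        exact ⟨by linarith, by linarith⟩
    · intro i j hij hi hj
      exact hdist _ _ (fun hc => hij (φ.injective hc)) hi hj
    · intro i hi z hz
      by_contra hcon
      have h1 := dist_ge_of_notMem N (φ i).1 (hmem (φ i) hi) hcon
      have h2 := hmin (φ i) hi
      rw [dist_comm] at hz
      linarith
    · intro i hi h0
      show posn (φ i) = N.len (φ i).1 - h / 2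
      simp only [posn, if_pos hi]
      rw [if_pos h0]
    · intro i hi h0
      show posn (φ i) = h / 2
      simp only [posn, if_pos hi]
      have h1 : ¬ g (φ i).1 r = 0 := by
        rw [h0]
        exact (N.len_pos _).ne'
      rw [if_neg h1]
    · intro e he s hs
      have h1 : (s.card : ℝ) ≤ m e := by
        exact_mod_cast Lab_aux.card_le m φ e s hs
      have h2 := hmle e he
      nlinarith
    · intro e he s hs _
      have h1 : (s.card : ℝ) ≤ m e := by
        exact_mod_cast Lab_aux.card_le m φ e s hs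
      have h2 := hmleE e he
      nlinarith
  · rw [hn, hsumE, Finset.sum_mul, Network.length, ← Finset.sum_add_distrib]
    refine Finset.sum_le_sum fun e _ => ?_
    by_cases he : e ∈ E
    · rw [if_pos he]
      have := hmleE e he
      linarith
    · rw [if_neg he]
      have := hmle e he
      linarith
  · have h1 : (((∑ e, m e : ℕ) : ℝ) + 2 * Fintype.card N.Arc) * h =
        ∑ e : N.Arc, ((m e : ℝ) + 2) * h := by
      rw [hn, ← Finset.sum_mul, Finset.sum_add_distrib]
      simp only [Finset.sum_const, Finset.card_univ, nsmul_eq_mul]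
      ring
    rw [h1, hsumE, Network.length, ← Finset.sum_add_distrib]
    refine Finset.sum_le_sum fun e _ => ?_
    by_cases he : e ∈ E
    · rw [if_pos he]
      have := hlemE e he
      linarith
    · rw [if_neg he]
      have := hlem e he
      nlinarith

end MPacf82c.Br
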