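import Pool.Agent.Lib.MP_acf82c_lc.Br.SpecA

/-!
# MP_acf82c_lc, Br: laminar families with equal branching density (module Lam)
-/

set_option autoImplicit false

namespace MPacf82c.Br

namespace Lam_aux

variable {X I : Type} [DecidableEq X]

theorem tri {A : I → Finset X} {a b : X} (hab : a ≠ b)
    (h : ∀ i, (a ∈ A i ↔ b ∈ A i) ∨ A i = {a} ∨ A i = {b}) (i : I) :
    A i = {a} ∨ A i = {b} ∨ (A i ≠ {a} ∧ A i ≠ {b} ∧ a ∈ A i ∧ b ∈ A i) ∨
      (A i ≠ {a} ∧ A i ≠ {b} ∧ a ∉ A i ∧ b ∉ A i) := by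
  rcases h i with h1 | h1 | h1
  · by_cases ha : a ∈ A i
    · have hb := h1.1 ha
      refine Or.inr (Or.inr (Or.inl ⟨fun h2 => ?_, fun h2 => ?_, ha, hb⟩))
      · rw [h2, Finset.mem_singleton] at hb
        exact hab hb.symm
      · rw [h2, Finset.mem_singleton] at ha
        exact hab ha
    · have hb : b ∉ A i := fun hb => ha (h1.2 hb)
      refine Or.inr (Or.inr (Or.inr ⟨fun h2 => ?_, fun h2 => ?_, ha, hb⟩))
      · exact ha (by rw [h2]; exact Finset.mem_singleton_self a)
      · exact hb (by rw [h2]; exact Finset.mem_singleton_self b)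
  · exact Or.inl h1
  · exact Or.inr (Or.inl h1)

/-- The family on `Y.erase b`. -/
def AA (A : I → Finset X) (a b : X) : I → Finset X :=
  fun i => if A i = {b} then {a} else (A i).erase b

variable [Fintype I]

noncomputable def al (A : I → Finset X) (l : I → ℝ) (a : X) : ℝ :=
  ∑ i, if A i = {a} then l i else 0

noncomputable def cc (A : I → Finset X) (l : I → ℝ) (a b : X) : ℝ :=
  ∑ i, if a ∈ A i ∧ b ∈ A i then l i else 0

noncomputable def de (A : I → Finset X) (l : I → ℝ) (a b m : X) : ℝ :=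
  ∑ i, if (a ∈ A i ∧ b ∈ A i ∧ m ∉ A i) ∨ (a ∉ A i ∧ b ∉ A i ∧ m ∈ A i) then l i else 0

theorem al_nonneg {A : I → Finset X} {l : I → ℝ} (hl : ∀ i, 0 ≤ l i) (a : X) : 0 ≤ al A l a :=
  Finset.sum_nonneg fun i _ => by
    split_ifs
    · exact hl i
    · exact le_refl _

theorem cc_nonneg {A : I → Finset X} {l : I → ℝ} (hl : ∀ i, 0 ≤ l i) (a b : X) :
    0 ≤ cc A l a b :=
  Finset.sum_nonneg fun i _ => by
    split_ifs
    · exact hl i
    · exact le_refl _

theorem de_nonneg {A : I → Finset X} {l : I → ℝ} (hl : ∀ i, 0 ≤ l i) (a b m : X) :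
    0 ≤ de A l a b m :=
  Finset.sum_nonneg fun i _ => by
    split_ifs
    · exact hl i
    · exact le_refl _

theorem ld_comm (A : I → Finset X) (l : I → ℝ) (x y : X) : ld A l x y = ld A l y x :=
  Finset.sum_congr rfl fun i _ => if_congr ⟨fun h => h.symm, fun h => h.symm⟩ rfl rfl

section
variable {A : I → Finset X} {a b : X} (l : I → ℝ) (hab : a ≠ b)
  (h : ∀ i, (a ∈ A i ↔ b ∈ A i) ∨ A i = {a} ∨ A i = {b})
include hab h

theorem L1 : lr A l a = cc A l a b + al A l a := by
  unfold lr cc al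
  rw [← Finset.sum_add_distrib]
  refine Finset.sum_congr rfl fun i _ => ?_
  rcases tri hab h i with h1 | h1 | ⟨h1, h2, h3, h4⟩ | ⟨h1, h2, h3, h4⟩
  · simp [h1, hab.symm]
  · simp [h1, hab, hab.symm]
  · simp [h1, h3, h4]
  · simp [h1, h3, h4]

theorem L2 : lr A l b = cc A l a b + al A l b := by
  unfold lr cc al
  rw [← Finset.sum_add_distrib]
  refine Finset.sum_congr rfl fun i _ => ?_
  rcases tri hab h i with h1 | h1 | ⟨h1, h2, h3, h4⟩ | ⟨h1, h2, h3, h4⟩
  · simp [h1, hab, hab.symm]
  · simp [h1, hab]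
  · simp [h2, h3, h4]
  · simp [h2, h3, h4]

theorem L3 : ld A l a b = al A l a + al A l b := by
  unfold ld al
  rw [← Finset.sum_add_distrib]
  refine Finset.sum_congr rfl fun i _ => ?_
  rcases tri hab h i with h1 | h1 | ⟨h1, h2, h3, h4⟩ | ⟨h1, h2, h3, h4⟩
  · simp [h1, hab, hab.symm]
  · simp [h1, hab, hab.symm]
  · simp [h1, h2, h3, h4]
  · simp [h1, h2, h3, h4]

theorem L4 (m : X) (hma : m ≠ a) (hmb : m ≠ b) : ld A l a m = al A l a + de A l a b m := by
  unfold ld al de
  rw [← Finset.sum_add_distrib]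
  refine Finset.sum_congr rfl fun i _ => ?_
  rcases tri hab h i with h1 | h1 | ⟨h1, h2, h3, h4⟩ | ⟨h1, h2, h3, h4⟩
  · simp [h1, hab.symm, hma]
  · simp [h1, hab, hab.symm, hmb]
  · by_cases hm : m ∈ A i
    · simp [h1, h3, h4, hm]
    · simp [h1, h3, h4, hm]
  · by_cases hm : m ∈ A i
    · simp [h1, h3, h4, hm]
    · simp [h1, h3, h4, hm]

theorem L5 (m : X) (hma : m ≠ a) (hmb : m ≠ b) : ld A l b m = al A l b + de A l a b m := by
  unfold ld al de
  rw [← Finset.sum_add_distrib]
  refine Finset.sum_congr rfl fun i _ => ?_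
  rcases tri hab h i with h1 | h1 | ⟨h1, h2, h3, h4⟩ | ⟨h1, h2, h3, h4⟩
  · simp [h1, hab, hab.symm, hma]
  · simp [h1, hab, hmb]
  · by_cases hm : m ∈ A i
    · simp [h2, h3, h4, hm]
    · simp [h2, h3, h4, hm]
  · by_cases hm : m ∈ A i
    · simp [h2, h3, h4, hm]
    · simp [h2, h3, h4, hm]

theorem L6 (hl : ∀ i, 0 ≤ l i) (m : X) (hma : m ≠ a) (hmb : m ≠ b) :
    lr A l m ≤ cc A l a b + de A l a b m := by
  unfold lr cc de
  rw [← Finset.sum_add_distrib]
  refine Finset.sum_le_sum fun i _ => ?_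
  have hli := hl i
  rcases tri hab h i with h1 | h1 | ⟨h1, h2, h3, h4⟩ | ⟨h1, h2, h3, h4⟩
  · simp [h1, hab.symm, hma]
  · simp [h1, hab, hmb]
  · by_cases hm : m ∈ A i
    · simp [h3, h4, hm]
    · simp [h3, h4, hm]
      linarith
  · by_cases hm : m ∈ A i
    · simp [h3, h4, hm]
    · simp [h3, h4, hm]

theorem L7 (hl : ∀ i, 0 ≤ l i) (g m : X) (hga : g ≠ a) (hgb : g ≠ b) (hma : m ≠ a)
    (hmb : m ≠ b) : ld A l g m ≤ de A l a b g + de A l a b m := by
  unfold ld de
  rw [← Finset.sum_add_distrib]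
  refine Finset.sum_le_sum fun i _ => ?_
  have hli := hl i
  rcases tri hab h i with h1 | h1 | ⟨h1, h2, h3, h4⟩ | ⟨h1, h2, h3, h4⟩
  · simp [h1, hab.symm, hma, hga]
  · simp [h1, hab, hmb, hgb]
  · by_cases hm : m ∈ A i
    · by_cases hg : g ∈ A i
      · simp [h3, h4, hm, hg]
      · simp [h3, h4, hm, hg]
    · by_cases hg : g ∈ A i
      · simp [h3, h4, hm, hg]
      · simp [h3, h4, hm, hg]
        linarith
  · by_cases hm : m ∈ A i
    · by_cases hg : g ∈ A i
      · simp [h3, h4, hm, hg]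
        linarith
      · simp [h3, h4, hm, hg]
    · by_cases hg : g ∈ A i
      · simp [h3, h4, hm, hg]
      · simp [h3, h4, hm, hg]

theorem L8 : lr (AA A a b) l a = cc A l a b + al A l a + al A l b := by
  unfold lr cc al AA
  rw [← Finset.sum_add_distrib, ← Finset.sum_add_distrib]
  refine Finset.sum_congr rfl fun i _ => ?_
  rcases tri hab h i with h1 | h1 | ⟨h1, h2, h3, h4⟩ | ⟨h1, h2, h3, h4⟩
  · simp [h1, hab, hab.symm]
  · simp [h1, hab, hab.symm]
  · simp [h1, h2, h3, h4, hab]
  · simp [h1, h2, h3, h4]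

theorem L10 (m : X) (hma : m ≠ a) (hmb : m ≠ b) :
    ld (AA A a b) l a m = al A l a + al A l b + de A l a b m := by
  unfold ld al de AA
  rw [← Finset.sum_add_distrib, ← Finset.sum_add_distrib]
  refine Finset.sum_congr rfl fun i _ => ?_
  rcases tri hab h i with h1 | h1 | ⟨h1, h2, h3, h4⟩ | ⟨h1, h2, h3, h4⟩
  · simp [h1, hab, hab.symm, hma]
  · simp [h1, hab, hab.symm, hma, hmb]
  · by_cases hm : m ∈ A i
    · simp [h1, h2, h3, h4, hm, hab, hmb]
    · simp [h1, h2, h3, h4, hm, hab]
  · by_cases hm : m ∈ A i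
    · simp [h1, h2, h3, h4, hm]
    · simp [h1, h2, h3, h4, hm]

end

theorem mem_AA {A : I → Finset X} {a b m : X} (hma : m ≠ a) (hmb : m ≠ b) (i : I) :
    m ∈ AA A a b i ↔ m ∈ A i := by
  unfold AA
  by_cases h1 : A i = {b}
  · simp [h1, hma, hmb]
  · simp [h1, hmb]

theorem L9 {A : I → Finset X} {a b : X} (l : I → ℝ) (m : X) (hma : m ≠ a) (hmb : m ≠ b) :
    lr (AA A a b) l m = lr A l m :=
  Finset.sum_congr rfl fun i _ => if_congr (mem_AA hma hmb i) rfl rfl

theorem L11 {A : I → Finset X} {a b : X} (l : I → ℝ) (g m : X) (hga : g ≠ a) (hgb : g ≠ b)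
    (hma : m ≠ a) (hmb : m ≠ b) : ld (AA A a b) l g m = ld A l g m :=
  Finset.sum_congr rfl fun i _ =>
    if_congr (iff_congr (mem_AA hga hgb i) (mem_AA hma hmb i)) rfl rfl

theorem AA_ok {A : I → Finset X} {a b : X} {Y : Finset X} (hab : a ≠ b) (ha : a ∈ Y)
    (hA : ∀ i, (A i).Nonempty ∧ A i ⊆ Y) (i : I) :
    (AA A a b i).Nonempty ∧ AA A a b i ⊆ Y.erase b := by
  unfold AA
  by_cases h1 : A i = {b}
  · rw [if_pos h1]
    refine ⟨Finset.singleton_nonempty a, ?_⟩
    intro x hx
    rw [Finset.mem_singleton] at hx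
    rw [hx, Finset.mem_erase]
    exact ⟨hab, ha⟩
  · rw [if_neg h1]
    refine ⟨?_, Finset.erase_subset_erase b (hA i).2⟩
    by_contra hne
    rw [Finset.not_nonempty_iff_eq_empty] at hne
    apply h1
    obtain ⟨x, hx⟩ := (hA i).1
    apply Finset.eq_singleton_iff_unique_mem.2
    have hall : ∀ y ∈ A i, y = b := by
      intro y hy
      by_contra hyb
      have : y ∈ (A i).erase b := Finset.mem_erase.2 ⟨hyb, hy⟩
      rw [hne] at this
      exact absurd this (Finset.notMem_empty y)
    have hxb := hall x hx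
    exact ⟨hxb ▸ hx, hall⟩

theorem AA_lam {A : I → Finset X} {a b : X} (hab : a ≠ b)
    (hA : ∀ i j, A i ⊆ A j ∨ A j ⊆ A i ∨ Disjoint (A i) (A j)) (i j : I) :
    AA A a b i ⊆ AA A a b j ∨ AA A a b j ⊆ AA A a b i ∨
      Disjoint (AA A a b i) (AA A a b j) := by
  unfold AA
  by_cases hi : A i = {b}
  · by_cases hj : A j = {b}
    · rw [if_pos hi, if_pos hj]
      exact Or.inl (Finset.Subset.refl _)
    · rw [if_pos hi, if_neg hj]
      by_cases ha : a ∈ A j
      · left
        intro x hx
        rw [Finset.mem_singleton] at hx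
        rw [hx, Finset.mem_erase]
        exact ⟨hab, ha⟩
      · right
        right
        rw [Finset.disjoint_singleton_left, Finset.mem_erase]
        exact fun h => ha h.2
  · by_cases hj : A j = {b}
    · rw [if_neg hi, if_pos hj]
      by_cases ha : a ∈ A i
      · right
        left
        intro x hx
        rw [Finset.mem_singleton] at hx
        rw [hx, Finset.mem_erase]
        exact ⟨hab, ha⟩
      · right
        right
        rw [Finset.disjoint_singleton_right, Finset.mem_erase]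
        exact fun h => ha h.2
    · rw [if_neg hi, if_neg hj]
      rcases hA i j with h | h | h
      · exact Or.inl (Finset.erase_subset_erase b h)
      · exact Or.inr (Or.inl (Finset.erase_subset_erase b h))
      · exact Or.inr (Or.inr (h.mono (Finset.erase_subset _ _) (Finset.erase_subset _ _)))

/-- The convex combination is late enough. -/
theorem conv_r {al be C ta tb : ℝ} (h1 : 0 ≤ al) (h2 : 0 ≤ be) (h3 : 0 < al + be)
    (ha : C + al ≤ ta) (hb : C + be ≤ tb) (hd : al + be ≤ |ta - tb|) :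
    C + al + be ≤ (al * ta + be * tb) / (al + be) := by
  rw [le_div_iff₀ h3]
  rcases le_or_gt ta tb with h | h
  · rw [abs_of_nonpos (by linarith)] at hd
    nlinarith [mul_nonneg h2 (by linarith : (0:ℝ) ≤ tb - ta - al - be),
      mul_nonneg h1 (by linarith : (0:ℝ) ≤ ta - C - al),
      mul_nonneg h2 (by linarith : (0:ℝ) ≤ ta - C - al)]
  · rw [abs_of_pos (by linarith)] at hd
    nlinarith [mul_nonneg h1 (by linarith : (0:ℝ) ≤ ta - tb - al - be),
      mul_nonneg h2 (by linarith : (0:ℝ) ≤ tb - C - be),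
      mul_nonneg h1 (by linarith : (0:ℝ) ≤ tb - C - be)]

/-- The convex combination is far from the other times, `ta ≤ tb`. -/
theorem conv_d1 {al be dm ta tb tm : ℝ} (h1 : 0 ≤ al) (h2 : 0 ≤ be) (h3 : 0 < al + be)
    (hdm : 0 ≤ dm) (hab : ta ≤ tb) (hd : al + be ≤ |ta - tb|) (ha : al + dm ≤ |ta - tm|)
    (hb : be + dm ≤ |tb - tm|) (hm : tm ≤ ta ∨ tb ≤ tm) :
    al + be + dm ≤ |(al * ta + be * tb) / (al + be) - tm| := by
  rw [abs_of_nonpos (by linarith)] at hd
  have e : (al * ta + be * tb) / (al + be) - tm =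
      (al * (ta - tm) + be * (tb - tm)) / (al + be) := by
    field_simp
    ring
  rw [e]
  rcases hm with hm | hm
  · rw [abs_of_nonneg (by linarith)] at ha
    refine le_trans ?_ (le_abs_self _)
    rw [le_div_iff₀ h3]
    nlinarith [mul_nonneg h1 (by linarith : (0:ℝ) ≤ ta - tm - al - dm),
      mul_nonneg h2 (by linarith : (0:ℝ) ≤ ta - tm - al - dm),
      mul_nonneg h2 (by linarith : (0:ℝ) ≤ tb - ta - al - be)]
  · rw [abs_of_nonpos (by linarith)] at hb
    rw [← abs_neg]
    refine le_trans ?_ (le_abs_self _)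
    rw [← neg_div, le_div_iff₀ h3]
    nlinarith [mul_nonneg h1 (by linarith : (0:ℝ) ≤ tm - tb - be - dm),
      mul_nonneg h2 (by linarith : (0:ℝ) ≤ tm - tb - be - dm),
      mul_nonneg h1 (by linarith : (0:ℝ) ≤ tb - ta - al - be)]

/-- The induction step. -/
theorem step (hS : S_Swp) {A : I → Finset X} {a b : X} {Y : Finset X} (l : I → ℝ)
    (hl : ∀ i, 0 ≤ l i) (ha : a ∈ Y) (hb : b ∈ Y) (hab : a ≠ b)
    (h : ∀ i, (a ∈ A i ↔ b ∈ A i) ∨ A i = {a} ∨ A i = {b}) (p' : X → ℝ)
    (hp0 : ∀ x, 0 ≤ p' x) (hpY : ∀ x, x ∉ Y.erase b → p' x = 0)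
    (hp1 : ∑ x ∈ Y.erase b, p' x = 1)
    (hpT : ∀ T : X → ℝ, Feas (Y.erase b) (lr (AA A a b) l) (ld (AA A a b) l) T →
      ∑ i, l i ≤ ∑ x ∈ Y.erase b, p' x * T x) :
    ∃ p : X → ℝ, (∀ x, 0 ≤ p x) ∧ (∀ x, x ∉ Y → p x = 0) ∧ ∑ x ∈ Y, p x = 1 ∧
      ∀ T : X → ℝ, Feas Y (lr A l) (ld A l) T → ∑ i, l i ≤ ∑ x ∈ Y, p x * T x := by
  have hal := al_nonneg (A := A) hl a
  have hbe := al_nonneg (A := A) hl b
  have hcc := cc_nonneg (A := A) hl a b
  have haY : a ∈ Y.erase b := Finset.mem_erase.2 ⟨hab, ha⟩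
  set R : Finset X := (Y.erase b).erase a with hR
  have hRY : ∀ x ∈ R, x ≠ a ∧ x ≠ b ∧ x ∈ Y := by
    intro x hx
    rw [hR, Finset.mem_erase, Finset.mem_erase] at hx
    exact ⟨hx.1, hx.2.1, hx.2.2⟩
  have sumY : ∀ f : X → ℝ, ∑ x ∈ Y, f x = f b + (f a + ∑ x ∈ R, f x) := by
    intro f
    rw [hR, Finset.add_sum_erase _ _ haY, Finset.add_sum_erase _ _ hb]
  have sumY' : ∀ f : X → ℝ, ∑ x ∈ Y.erase b, f x = f a + ∑ x ∈ R, f x := by
    intro f
    rw [hR, Finset.add_sum_erase _ _ haY]
  by_cases h0 : al A l a + al A l b = 0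
  · -- no weight at the siblings
    have hbe0 : al A l b = 0 := by linarith
    have hb0 : p' b = 0 := hpY b (fun hb' => (Finset.mem_erase.1 hb').1 rfl)
    refine ⟨p', hp0, fun x hx => hpY x fun hx' => hx (Finset.mem_erase.1 hx').2, ?_, ?_⟩
    · rw [sumY, hb0, zero_add, ← sumY', hp1]
    · intro T hT
      have hT' : Feas (Y.erase b) (lr (AA A a b) l) (ld (AA A a b) l) T := by
        refine ⟨?_, ?_⟩
        · intro x hx
          obtain ⟨hxb, hxY⟩ := Finset.mem_erase.1 hx
          by_cases hxa : x = a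
          · rw [hxa, L8 l hab h, hbe0, add_zero, ← L1 l hab h]
            exact hT.1 a ha
          · rw [L9 l x hxa hxb]
            exact hT.1 x hxY
        · intro x hx y hy hxy
          obtain ⟨hxb, hxY⟩ := Finset.mem_erase.1 hx
          obtain ⟨hyb, hyY⟩ := Finset.mem_erase.1 hy
          by_cases hxa : x = a
          · have hya : y ≠ a := fun hya => hxy (by rw [hxa, hya])
            rw [hxa, L10 l hab h y hya hyb, hbe0, add_zero, ← L4 l hab h y hya hyb]
            exact hT.2 a ha y hyY (fun h => hya h.symm)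
          · by_cases hya : y = a
            · rw [hya, ld_comm, L10 l hab h x hxa hxb, hbe0, add_zero, ← L4 l hab h x hxa hxb,
                ld_comm]
              exact hT.2 x hxY a ha hxa
            · rw [L11 l x y hxa hxb hya hyb]
              exact hT.2 x hxY y hyY hxy
      have := hpT T hT'
      rw [sumY, hb0, zero_mul, zero_add, ← sumY' (fun x => p' x * T x)]
      exact this
  · have hpos : 0 < al A l a + al A l b :=
      lt_of_le_of_ne (by linarith) (fun h => h0 h.symm)
    have hne : al A l a + al A l b ≠ 0 := h0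
    set p : X → ℝ := fun x => if x = a then p' a * al A l a / (al A l a + al A l b) else
      if x = b then p' a * al A l b / (al A l a + al A l b) else p' x with hp
    have pa : p a = p' a * al A l a / (al A l a + al A l b) := by
      rw [hp]
      exact if_pos rfl
    have pb : p b = p' a * al A l b / (al A l a + al A l b) := by
      rw [hp]
      show (if b = a then _ else _) = _
      rw [if_neg (fun h => hab h.symm), if_pos rfl]
    have px : ∀ x, x ≠ a → x ≠ b → p x = p' x := by
      intro x hxa hxb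
      rw [hp]
      show (if x = a then _ else _) = _
      rw [if_neg hxa, if_neg hxb]
    have hp0' : ∀ x, 0 ≤ p x := by
      intro x
      by_cases hxa : x = a
      · rw [hxa, pa]
        exact div_nonneg (mul_nonneg (hp0 a) hal) hpos.le
      · by_cases hxb : x = b
        · rw [hxb, pb]
          exact div_nonneg (mul_nonneg (hp0 a) hbe) hpos.le
        · rw [px x hxa hxb]
          exact hp0 x
    have sumR : ∀ f : X → ℝ, ∑ x ∈ R, p x * f x = ∑ x ∈ R, p' x * f x := by
      intro f
      refine Finset.sum_congr rfl fun x hx => ?_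
      rw [px x (hRY x hx).1 (hRY x hx).2.1]
    refine ⟨p, hp0', ?_, ?_, ?_⟩
    · intro x hx
      have hxa : x ≠ a := fun h => hx (h ▸ ha)
      have hxb : x ≠ b := fun h => hx (h ▸ hb)
      rw [px x hxa hxb]
      exact hpY x fun hx' => hx (Finset.mem_erase.1 hx').2
    · have e1 : ∑ x ∈ R, p x = ∑ x ∈ R, p' x :=
        Finset.sum_congr rfl fun x hx => px x (hRY x hx).1 (hRY x hx).2.1
      rw [sumY, e1, pa, pb]
      rw [sumY'] at hp1
      have e2 : p' a * al A l b / (al A l a + al A l b) + (p' a * al A l a / (al A l a + al A l b) +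
          ∑ x ∈ R, p' x) = p' a + ∑ x ∈ R, p' x := by
        have : p' a * al A l b / (al A l a + al A l b) + p' a * al A l a / (al A l a + al A l b) =
            p' a := by
          field_simp
          ring
        linarith
      rw [e2, hp1]
    · intro T hT
      obtain ⟨T', hT', hcost, hbet⟩ := hS X Y a b (lr A l) (ld A l) (al A l a) (al A l b)
        (cc A l a b) (fun m => de A l a b m) p T ha hb hab hal hbe hpos hp0'
        (by rw [pa, pb]; field_simp) (fun m => de_nonneg hl a b m) hcc (L1 l hab h) (L2 l hab h)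
        (L3 l hab h) (by rw [ld_comm]; exact L3 l hab h)
        (fun m _ hma hmb => ⟨L4 l hab h m hma hmb, by rw [ld_comm]; exact L4 l hab h m hma hmb,
          L5 l hab h m hma hmb, by rw [ld_comm]; exact L5 l hab h m hma hmb,
          L6 l hab h hl m hma hmb⟩)
        (fun g _ m _ hga hgb hma hmb _ => L7 l hab h hl g m hga hgb hma hmb) hT
      have hd : al A l a + al A l b ≤ |T' a - T' b| := by
        rw [← L3 l hab h]
        exact hT'.2 a ha b hb hab
      have hra : cc A l a b + al A l a ≤ T' a := by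
        rw [← L1 l hab h]
        exact hT'.1 a ha
      have hrb : cc A l a b + al A l b ≤ T' b := by
        rw [← L2 l hab h]
        exact hT'.1 b hb
      set ts : ℝ := (al A l a * T' a + al A l b * T' b) / (al A l a + al A l b) with hts
      have hfar : ∀ m ∈ Y, m ≠ a → m ≠ b →
          al A l a + al A l b + de A l a b m ≤ |ts - T' m| := by
        intro m hm hma hmb
        have hdm := de_nonneg (A := A) hl a b m
        have h4 : al A l a + de A l a b m ≤ |T' a - T' m| := by
          rw [← L4 l hab h m hma hmb]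
          exact hT'.2 a ha m hm (fun h => hma h.symm)
        have h5 : al A l b + de A l a b m ≤ |T' b - T' m| := by
          rw [← L5 l hab h m hma hmb]
          exact hT'.2 b hb m hm (fun h => hmb h.symm)
        rcases hbet with ⟨hle, hb1⟩ | ⟨hle, hb1⟩
        · exact conv_d1 hal hbe hpos hdm hle hd h4 h5 (hb1 m hm hma hmb)
        · have h6 := conv_d1 hbe hal (by linarith) hdm hle
            (by rw [abs_sub_comm]; linarith) h5 h4 (hb1 m hm hma hmb)
          have e : (al A l b * T' b + al A l a * T' a) / (al A l b + al A l a) = ts := by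
            rw [hts, add_comm (al A l b * T' b), add_comm (al A l b) (al A l a)]
          rw [e] at h6
          linarith
      set T'' : X → ℝ := fun x => if x = a then ts else T' x with hT''
      have Ta : T'' a = ts := by
        rw [hT'']
        exact if_pos rfl
      have Tx : ∀ x, x ≠ a → T'' x = T' x := by
        intro x hxa
        rw [hT'']
        exact if_neg hxa
      have hF : Feas (Y.erase b) (lr (AA A a b) l) (ld (AA A a b) l) T'' := by
        refine ⟨?_, ?_⟩
        · intro x hx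
          obtain ⟨hxb, hxY⟩ := Finset.mem_erase.1 hx
          by_cases hxa : x = a
          · rw [hxa, L8 l hab h, Ta]
            exact conv_r hal hbe hpos hra hrb hd
          · rw [L9 l x hxa hxb, Tx x hxa]
            exact hT'.1 x hxY
        · intro x hx y hy hxy
          obtain ⟨hxb, hxY⟩ := Finset.mem_erase.1 hx
          obtain ⟨hyb, hyY⟩ := Finset.mem_erase.1 hy
          by_cases hxa : x = a
          · have hya : y ≠ a := fun hya => hxy (by rw [hxa, hya])
            rw [hxa, L10 l hab h y hya hyb, Ta, Tx y hya]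
            exact hfar y hyY hya hyb
          · by_cases hya : y = a
            · rw [hya, ld_comm, L10 l hab h x hxa hxb, Ta, Tx x hxa, abs_sub_comm]
              exact hfar x hxY hxa hxb
            · rw [L11 l x y hxa hxb hya hyb, Tx x hxa, Tx y hya]
              exact hT'.2 x hxY y hyY hxy
      have hfin := hpT T'' hF
      refine le_trans hfin (le_trans (le_of_eq ?_) hcost)
      rw [sumY', sumY, Ta, pa, pb, sumR]
      have e3 : ∑ x ∈ R, p' x * T'' x = ∑ x ∈ R, p' x * T' x := by
        refine Finset.sum_congr rfl fun x hx => ?_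
        rw [Tx x (hRY x hx).1]
      rw [e3, hts]
      field_simp
      ring

end Lam_aux

/-- **Lam.** -/
theorem tLam : S_Lam := by
  intro hS hB X I _ _ Y A l hY hl hA hlam
  suffices H : ∀ (n : ℕ) (Y : Finset X) (A : I → Finset X), Y.card = n + 1 →
      (∀ i, (A i).Nonempty ∧ A i ⊆ Y) →
      (∀ i j, A i ⊆ A j ∨ A j ⊆ A i ∨ Disjoint (A i) (A j)) →
      ∃ p : X → ℝ, (∀ x, 0 ≤ p x) ∧ (∀ x, x ∉ Y → p x = 0) ∧ ∑ x ∈ Y, p x = 1 ∧
        ∀ T : X → ℝ, Feas Y (lr A l) (ld A l) T → ∑ i, l i ≤ ∑ x ∈ Y, p x * T x by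
    have hc : 0 < Y.card := Finset.card_pos.2 hY
    exact H (Y.card - 1) Y A (by omega) hA hlam
  intro n
  induction n with
  | zero =>
    intro Y A hc hA _
    obtain ⟨x, rfl⟩ := Finset.card_eq_one.1 hc
    refine ⟨fun y => if y = x then 1 else 0, ?_, ?_, ?_, ?_⟩
    · intro y
      show (0 : ℝ) ≤ if y = x then 1 else 0
      split_ifs <;> norm_num
    · intro y hy
      rw [Finset.mem_singleton] at hy
      exact if_neg hy
    · rw [Finset.sum_singleton, if_pos rfl]
    · intro T hT
      rw [Finset.sum_singleton]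
      show ∑ i, l i ≤ (if x = x then (1 : ℝ) else 0) * T x
      rw [if_pos rfl, one_mul]
      refine le_trans (le_of_eq ?_) (hT.1 x (Finset.mem_singleton_self x))
      unfold lr
      refine Finset.sum_congr rfl fun i _ => ?_
      obtain ⟨y, hy⟩ := (hA i).1
      have hyx := (hA i).2 hy
      rw [Finset.mem_singleton] at hyx
      rw [if_pos (hyx ▸ hy)]
  | succ n ih =>
    intro Y A hc hA hlam
    obtain ⟨a, ha, b, hb, hab, h⟩ := hB X I Y A (by omega) hA hlam
    have hc' : (Y.erase b).card = n + 1 := by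
      rw [Finset.card_erase_of_mem hb]
      omega
    obtain ⟨p', h1, h2, h3, h4⟩ := ih (Y.erase b) (Lam_aux.AA A a b) hc'
      (Lam_aux.AA_ok hab ha hA) (Lam_aux.AA_lam hab hlam)
    exact Lam_aux.step hS l hl ha hb hab h p' h1 h2 h3 h4

end MPacf82c.Br
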