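import Pool.Agent.Lib.MP_acf82c_lc.Br.SpecA

/-!
# Networks with bridges: a function which is 1-Lipschitz on every arc is 1-Lipschitz
-/

set_option autoImplicit false

open Set

namespace MPacf82c.Br

private theorem Lip_aux_walk {Q : Type} [MetricSpace Q] (N : Network Q) (k : Q → ℝ)
    (hk : ∀ c, ∀ s ∈ Icc 0 (N.len c), ∀ t ∈ Icc 0 (N.len c),
      |k (N.pt c s) - k (N.pt c t)| ≤ |s - t|) {x y : Q} {L : ℝ}
    (h : Walk N.len N.pt x y L) : |k x - k y| ≤ L := by
  induction h with
  | nil x => simp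
  | cons e s t hs ht y L _ ih =>
    calc |k (N.pt e s) - k y| ≤ |k (N.pt e s) - k (N.pt e t)| + |k (N.pt e t) - k y| :=
          abs_sub_le _ _ _
      _ ≤ |s - t| + L := add_le_add (hk e s hs t ht) ih

theorem tLip : S_Lip := fun _ _ N k hk x y => Lip_aux_walk N k hk (N.walk x y)

end MPacf82c.Br
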