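import Pool.Agent.Lib.MP_acf82c_lc.Br.SpecE
import Pool.Agent.Lib.MP_acf82c_lc.GoodMoves
import Pool.Agent.Lib.MP_acf82c_lc.MoveOne
import Pool.Agent.Lib.MP_acf82c_lc.Coverage

/-!
# Good moves in a network with bridges
-/

set_option autoImplicit false

open Set MeasureTheory
open scoped NNReal ENNReal

namespace MPacf82c.Br

namespace NetB_aux

theorem err_le {n T0 h β Γ D Rt k0 : ℝ} (hn : 0 ≤ n) (hh : 0 < h) (hΓ : 0 < Γ)
    (hΓT : Γ < T0) (hD : 0 ≤ D) (hRt : 0 ≤ Rt) (hk : k0 = 2 * h + 12 * D) :
    (Γ + k0 + D + 2 * Rt / β) / (T0 - Γ) + (Rt + 2 * D) / Γ +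
        (β * T0 + 16 * D * T0 / (n * h)) / (T0 - Γ) ≤
      (Γ + 3 * h + 13 * D + 2 * Rt / β) / (T0 - Γ) + (2 * Rt + 2 * (13 * D)) / Γ +
        (β * T0 + 8 * (13 * D) * T0 / (n * h)) / (T0 - Γ) := by
  have hTG : 0 < T0 - Γ := by linarith
  have hT0 : 0 < T0 := by linarith
  have h1 : (Γ + k0 + D + 2 * Rt / β) / (T0 - Γ) ≤
      (Γ + 3 * h + 13 * D + 2 * Rt / β) / (T0 - Γ) :=
    div_le_div_of_nonneg_right (by rw [hk]; linarith) hTG.le
  have h2 : (Rt + 2 * D) / Γ ≤ (2 * Rt + 2 * (13 * D)) / Γ :=
    div_le_div_of_nonneg_right (by linarith) hΓ.le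
  have h3 : 16 * D * T0 / (n * h) ≤ 8 * (13 * D) * T0 / (n * h) :=
    div_le_div_of_nonneg_right (mul_le_mul_of_nonneg_right (by linarith) hT0.le) (by positivity)
  have h4 : (β * T0 + 16 * D * T0 / (n * h)) / (T0 - Γ) ≤
      (β * T0 + 8 * (13 * D) * T0 / (n * h)) / (T0 - Γ) :=
    div_le_div_of_nonneg_right (by linarith) hTG.le
  linarith

end NetB_aux

theorem tNetB : S_NetB := by
  classical
  intro hCov hHub Q _ N E g r D h β Γ n B arcOf pos hD hh hle hβ hΓ hPos hr hLab hn2 hB hΓT
  set k0 : ℝ := 2 * h + 12 * D with hk0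
  set T0 : ℝ := h * B - k0 with hT0
  set Rt : ℝ := Real.sqrt (N.length * D) with hRt
  set x : Fin n → Q := fun i => N.pt (arcOf i) (pos i) with hx
  have hpos := hLab.mem
  have hD0 : 0 ≤ D := by
    have h1 := hD (x ⟨0, by omega⟩) (x ⟨0, by omega⟩)
    rwa [dist_self] at h1
  have hk00 : 0 ≤ k0 := by rw [hk0]; positivity
  have hRt0 : 0 ≤ Rt := Real.sqrt_nonneg _
  have hΓ0 : 0 < Γ := by linarith
  have hT00 : 0 < T0 := by linarith
  have hmove := fun i j : Fin n => move_one N hD (hpos i) (hpos j) hΓ0 hΓ hΓT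
  choose P' mv' F' hP' hmvL hmv0 hmvT hmvm hF0 hF1 hFl hcatch using hmove
  refine ⟨x, fun i j => if i = j then Measure.dirac (0, 0) else P' i j,
    fun i j => if i = j then fun _ _ => x i else mv' i j, ?_, ?_, ?_, ?_, ?_, ?_, ?_⟩
  · intro i j
    by_cases hij : i = j
    · simp only [hij, if_true]
      infer_instance
    · simp only [hij, if_false]
      exact hP' i j
  · intro i j ω
    by_cases hij : i = j
    · simp only [hij, if_true]
      exact LipschitzWith.const' _
    · simp only [hij, if_false]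
      exact hmvL i j ω
  · intro i j ω t ht
    by_cases hij : i = j
    · simp only [hij, if_true]
    · simp only [hij, if_false]
      exact hmv0 i j ω t ht
  · intro i j ω t ht
    by_cases hij : i = j
    · simp only [hij, if_true]
    · simp only [hij, if_false]
      exact hmvT i j ω t ht
  · intro i j t
    by_cases hij : i = j
    · simp only [hij, if_true]
      exact @measurable_const _ _ (borel Q) _ _
    · simp only [hij, if_false]
      exact hmvm i j t
  · intro i ω t
    simp only [if_true]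
  · intro S hS t0
    set L : Finset (Fin n) := Finset.univ.filter fun i => ∃ t ∈ Icc t0 (t0 + T0), S t = x i
      with hL
    have ht01 : t0 ≤ t0 + T0 := by linarith
    have hmemL : ∀ i, i ∈ L ↔ ∃ t ∈ Icc t0 (t0 + T0), S t = x i := fun i => by simp [hL]
    have hcov : ∀ (A : Finset N.Arc) (s : Finset (Fin n)), (∀ i ∈ s, i ∈ L ∧ arcOf i ∈ A) →
        h * (s.card : ℝ) - k0 ≤ ∑ e ∈ A, timeIn S t0 (t0 + T0) (N.openArc e) := by
      intro A s hs
      exact hCov Q N E g r h D n arcOf pos hh hle hD hPos hr hLab S hS t0 (t0 + T0) ht01 A s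
        fun i hi => ⟨(hs i hi).2, (hmemL i).mp (hs i hi).1⟩
    have htot : timeIn S t0 (t0 + T0) N.nodes + ∑ e, timeIn S t0 (t0 + T0) (N.openArc e) = T0 := by
      rw [timeIn_total N hS ht01]
      ring
    have hnode0 : 0 ≤ timeIn S t0 (t0 + T0) N.nodes := ENNReal.toReal_nonneg
    have hLcard : L.card ≤ B := by
      have h1 := hcov Finset.univ L fun i hi => ⟨hi, Finset.mem_univ _⟩
      have h2 : h * (L.card : ℝ) ≤ h * (B : ℝ) := by
        have h3 : T0 = h * B - k0 := hT0
        linarith
      have h4 : (L.card : ℝ) ≤ B := le_of_mul_le_mul_left h2 hh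
      exact_mod_cast h4
    refine ⟨L, hLcard, hmemL, ?_⟩
    set F : Fin n → Fin n → N.Arc → ℝ := fun i j e => if i = j then 0 else F' i j e with hF
    have hcnt : ∀ e, ∀ s : Finset (Fin n), (∀ i ∈ s, arcOf i = e) →
        (s.card : ℝ) * h ≤ 2 * N.len e := by
      intro e s hs
      have hl := N.len_pos e
      by_cases he : e ∈ E
      · rcases s.eq_empty_or_nonempty with h0 | h0
        · rw [h0]
          simp only [Finset.card_empty, Nat.cast_zero, zero_mul]
          linarith
        · have := hLab.cntB e he s hs h0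
          linarith
      · have := hLab.cnt e he s hs
        linarith
    obtain ⟨z, hz0, hzsum, hz⟩ := hHub N.Arc n hn2 N.len
      (fun e => timeIn S t0 (t0 + T0) (N.openArc e)) (timeIn S t0 (t0 + T0) N.nodes)
      D h β Γ Rt k0 B T0 hT0 hk00 hh hβ hΓ0 hΓT hB hD0
      hRt0 N.len_pos (len_le_two_diam N hD) (fun e => ENNReal.toReal_nonneg)
      hnode0 htot arcOf hcnt F
      (by
        intro i j e
        simp only [hF]
        split_ifs
        · exact le_rfl
        · exact hF0 i j e)
      (by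
        intro i j e
        simp only [hF]
        split_ifs
        · exact zero_le_one
        · exact hF1 i j e)
      (by
        intro i j
        by_cases hij : i = j
        · simp only [hF, hij, if_true, mul_zero, Finset.sum_const_zero]
          exact hRt0
        · simp only [hF, hij, if_false]
          exact hFl i j)
      L hLcard hcov
    refine ⟨z, hz0, ?_, ?_⟩
    · have hn' : (2 : ℝ) ≤ n := by exact_mod_cast hn2
      have hNN : (0 : ℝ) ≤ (n : ℝ) * (n - 1) := by
        apply mul_nonneg <;> linarith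
      have herr := NetB_aux.err_le (n := (n : ℝ)) (T0 := T0) (h := h) (β := β) (Γ := Γ)
        (D := D) (Rt := Rt) (k0 := k0) (by linarith) hh hΓ0 hΓT hD0 hRt0 hk0
      have h2 := mul_le_mul_of_nonneg_left herr hNN
      have h3 : errN n T0 h β Γ (13 * D) (2 * Rt) =
          (Γ + 3 * h + 13 * D + 2 * Rt / β) / (T0 - Γ) + (2 * Rt + 2 * (13 * D)) / Γ +
            (β * T0 + 8 * (13 * D) * T0 / (n * h)) / (T0 - Γ) := rfl
      rw [h3]
      refine le_trans ?_ h2
      convert hzsum using 3
    · intro i j hij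
      have h1 := hcatch i j S hS t0
      have h2 := hz i j hij
      simp only [hij, if_false]
      simp only [hF, hij, if_false] at h2
      have h3 : ∀ k : Fin n, (if ∃ t ∈ Icc t0 (t0 + T0), S t = N.pt (arcOf k) (pos k)
          then (1 : ℝ) else 0) = if k ∈ L then 1 else 0 := by
        intro k
        have : k ∈ L ↔ ∃ t ∈ Icc t0 (t0 + T0), S t = N.pt (arcOf k) (pos k) := by
          simp [hL, hx]
        by_cases hk : k ∈ L
        · rw [if_pos hk, if_pos (this.mp hk)]
        · rw [if_neg hk, if_neg (fun h' => hk (this.mpr h'))]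
      have h4 : (P' i j {ω | ∃ t ∈ Icc t0 (t0 + T0), S t = mv' i j ω (t - t0)}).toReal ≤
          (timeIn S t0 (t0 + T0) N.nodes +
            ∑ c, F' i j c * timeIn S t0 (t0 + T0) (N.openArc c) + D +
            2 * timeIn S t0 (t0 + T0) (N.openArc (arcOf i)) +
            2 * timeIn S t0 (t0 + T0) (N.openArc (arcOf j))) / (T0 - Γ) +
          (Rt + 2 * D) / Γ + (if i ∈ L then 1 else 0) + (if j ∈ L then 1 else 0) := by
        rw [← h3 i, ← h3 j]
        convert h1 using 2
      linarith

end MPacf82c.Br
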