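import Pool.Agent.Lib.MP_acf82c_lc.Br.SpecA

/-!
# Networks with bridges: opposite sides of two bridges
-/

set_option autoImplicit false

open Set

namespace MPacf82c.Br

theorem tOpp : S_Opp := by
  intro hC Q _ N e e' g g' hne hg hg' z hz
  classical
  have key := hC Q N (fun z => if g z = g (N.pt e' 0) then g' (N.pt e 0) else g' z) (by
    intro c s hs t ht
    show (if g (N.pt c s) = g (N.pt e' 0) then g' (N.pt e 0) else g' (N.pt c s)) =
      (if g (N.pt c t) = g (N.pt e' 0) then g' (N.pt e 0) else g' (N.pt c t))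
    have h0 : (0 : ℝ) ∈ Icc 0 (N.len c) := ⟨le_refl 0, (N.len_pos c).le⟩
    by_cases hce : c = e
    · subst hce
      have a1 : ∀ u ∈ Icc 0 (N.len c), g' (N.pt c u) = g' (N.pt c 0) := fun u hu =>
        hg'.const c hne u hu 0 h0
      rw [a1 s hs, a1 t ht, ite_self, ite_self]
    · by_cases hce' : c = e'
      · subst hce'
        have a1 : ∀ u ∈ Icc 0 (N.len c), g (N.pt c u) = g (N.pt c 0) := fun u hu =>
          hg.const c hce u hu 0 h0
        rw [if_pos (a1 s hs), if_pos (a1 t ht)]
      · rw [hg.const c hce s hs t ht, hg'.const c hce' s hs t ht]) z (N.pt e 0)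
  simp only [if_neg hz, ite_self] at key
  exact key

end MPacf82c.Br
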