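import Pool.Agent.Lib.MP_acf82c_lc.Br.SpecA

/-!
# Position functions of a bridge
-/

set_option autoImplicit false

open Set

namespace MPacf82c.Br

namespace Pos_aux

variable {Q : Type} [MetricSpace Q]

open Classical in
/-- The position function. -/
noncomputable def pos (N : Network Q) (e : N.Arc) (z : Q) : ℝ :=
  if h : z ∈ N.openArc e then Classical.choose h
  else if JoinedIn (N.openArc e)ᶜ (N.pt e 0) z then 0 else N.len e

theorem pos_open (N : Network Q) (e : N.Arc) {s : ℝ} (hs : s ∈ Ioo 0 (N.len e)) :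
    pos N e (N.pt e s) = s := by
  have h : N.pt e s ∈ N.openArc e := ⟨s, hs, rfl⟩
  have h1 := Classical.choose_spec h
  unfold pos
  rw [dif_pos h]
  exact (N.simple e e _ s h1.1 (Ioo_subset_Icc_self hs) h1.2).2

theorem notMem_other (N : Network Q) {e c : N.Arc} (hc : c ≠ e) {s : ℝ}
    (hs : s ∈ Icc 0 (N.len c)) : N.pt c s ∉ N.openArc e := by
  rintro ⟨t, ht, h⟩
  exact hc (N.simple e c t s ht hs h).1.symm

theorem joined_other (N : Network Q) {e c : N.Arc} (hc : c ≠ e) {s t : ℝ}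
    (hs : s ∈ Icc 0 (N.len c)) (ht : t ∈ Icc 0 (N.len c)) :
    JoinedIn (N.openArc e)ᶜ (N.pt c s) (N.pt c t) := by
  have hcont : ContinuousOn (N.pt c) (Icc 0 (N.len c)) := by
    have hL : LipschitzOnWith 1 (N.pt c) (Icc 0 (N.len c)) := by
      apply LipschitzOnWith.of_dist_le_mul
      intro x hx y hy
      rw [NNReal.coe_one, one_mul, Real.dist_eq]
      exact N.dist_le c x hx y hy
    exact hL.continuousOn
  have hP : IsPathConnected (Icc 0 (N.len c)) :=
    (convex_Icc 0 (N.len c)).isPathConnected ⟨s, hs⟩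
  have h1 := (hP.image' hcont).joinedIn (N.pt c s) ⟨s, hs, rfl⟩ (N.pt c t) ⟨t, ht, rfl⟩
  apply h1.mono
  rintro z ⟨u, hu, rfl⟩
  exact notMem_other N hc hu

end Pos_aux

open Pos_aux in
theorem tPos : S_Pos := by
  intro Q _ N e hb
  have hl := N.len_pos e
  have h0 : (0 : ℝ) ∈ Icc 0 (N.len e) := ⟨le_rfl, hl.le⟩
  have hle : N.len e ∈ Icc 0 (N.len e) := ⟨hl.le, le_rfl⟩
  have hn0 : N.pt e 0 ∉ N.openArc e :=
    nb_pt_notMem_openArc N h0 (fun h => lt_irrefl _ h.1) e
  have hnl : N.pt e (N.len e) ∉ N.openArc e :=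
    nb_pt_notMem_openArc N hle (fun h => lt_irrefl _ h.2) e
  refine ⟨pos N e, ⟨?_, ?_, ?_⟩⟩
  · intro s hs
    rcases eq_or_lt_of_le hs.1 with h | h
    · subst h
      unfold pos
      rw [dif_neg hn0, if_pos (JoinedIn.refl hn0)]
    · rcases eq_or_lt_of_le hs.2 with h' | h'
      · subst h'
        unfold pos
        rw [dif_neg hnl, if_neg hb]
      · exact pos_open N e ⟨h, h'⟩
  · intro z hz
    unfold pos
    rw [dif_neg hz]
    split_ifs
    · exact Or.inl rfl
    · exact Or.inr rfl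
  · intro c hc s hs t ht
    have h1 := joined_other N hc hs ht
    unfold pos
    rw [dif_neg (notMem_other N hc hs), dif_neg (notMem_other N hc ht)]
    have h2 : JoinedIn (N.openArc e)ᶜ (N.pt e 0) (N.pt c s) ↔
        JoinedIn (N.openArc e)ᶜ (N.pt e 0) (N.pt c t) :=
      ⟨fun h => h.trans h1, fun h => h.trans h1.symm⟩
    by_cases h3 : JoinedIn (N.openArc e)ᶜ (N.pt e 0) (N.pt c s)
    · rw [if_pos h3, if_pos (h2.1 h3)]
    · rw [if_neg h3, if_neg (fun h => h3 (h2.2 h))]

end MPacf82c.Br
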