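import Pool.Agent.Lib.MP_acf82c_lc.Br.SpecD
import Pool.Agent.Lib.MP_acf82c_lc.S.UpA1

/-!
# Networks with bridges: counting the orders of one sweep (`S_SegC`)
-/

set_option autoImplicit false

open Finset
open scoped Nat

namespace MPacf82c.Br

open MPacf82c.St (pavg blk extY extB)

namespace SegC_aux

lemma blk_disj {n B k l : ℕ} (h : k ≠ l) :
    Disjoint (blk (n := n) B k) (blk (n := n) B l) := by
  rw [Finset.disjoint_left]
  intro i hi hj
  simp only [blk, Finset.mem_filter, Finset.mem_univ, true_and] at hi hj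
  rcases lt_or_gt_of_ne h with h1 | h1
  · have : (k + 1) * B ≤ l * B := Nat.mul_le_mul_right B h1
    omega
  · have : (l + 1) * B ≤ k * B := Nat.mul_le_mul_right B h1
    omega

lemma numer {n K r : ℕ} (hK : K + 1 < n) (hr : r ≤ K + 1) :
    (n : ℝ) ^ r * ((n - r)! : ℝ) ≤ (n ! : ℝ) * ((n : ℝ) / ((n : ℝ) - K - 1)) ^ (K + 1) := by
  have hK' : (0 : ℝ) < (n : ℝ) - K - 1 := by
    have : ((K + 1 : ℕ) : ℝ) < n := by exact_mod_cast hK
    push_cast at this
    linarith
  have h1 : (n - r)! * n.descFactorial r = n ! := Nat.factorial_mul_descFactorial (by omega)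
  have h2 : (n + 1 - r) ^ r ≤ n.descFactorial r := Nat.pow_sub_le_descFactorial n r
  have h3 : ((n : ℝ) - K - 1) ^ r ≤ (n.descFactorial r : ℝ) := by
    have h4 : ((n : ℝ) - K - 1) ≤ ((n + 1 - r : ℕ) : ℝ) := by
      rw [Nat.cast_sub (by omega)]
      push_cast
      have : (r : ℝ) ≤ (K : ℝ) + 1 := by exact_mod_cast hr
      linarith
    calc ((n : ℝ) - K - 1) ^ r ≤ ((n + 1 - r : ℕ) : ℝ) ^ r := pow_le_pow_left₀ hK'.le h4 r
      _ ≤ (n.descFactorial r : ℝ) := by exact_mod_cast h2
  have h5 : (1 : ℝ) ≤ (n : ℝ) / ((n : ℝ) - K - 1) := by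
    rw [le_div_iff₀ hK']
    have : (0 : ℝ) ≤ K := Nat.cast_nonneg K
    linarith
  have h6 : ((n : ℝ) / ((n : ℝ) - K - 1)) ^ r ≤ ((n : ℝ) / ((n : ℝ) - K - 1)) ^ (K + 1) :=
    pow_le_pow_right₀ h5 hr
  have h7 : (n : ℝ) ^ r * ((n - r)! : ℝ) ≤ (n ! : ℝ) * ((n : ℝ) / ((n : ℝ) - K - 1)) ^ r := by
    rw [div_pow, ← h1]
    push_cast
    rw [mul_div_assoc', le_div_iff₀ (pow_pos hK' r)]
    have h8 : (0 : ℝ) ≤ (n : ℝ) ^ r * ((n - r)! : ℝ) := by positivity
    nlinarith [mul_le_mul_of_nonneg_left h3 h8]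
  calc (n : ℝ) ^ r * ((n - r)! : ℝ) ≤ (n ! : ℝ) * ((n : ℝ) / ((n : ℝ) - K - 1)) ^ r := h7
    _ ≤ _ := mul_le_mul_of_nonneg_left h6 (Nat.cast_nonneg _)

/-- number of the orders which avoid the blocks -/
lemma count (hC : St.S_PermCount) {n B K q : ℕ} {y : ℕ → Fin n} {T : Finset ℕ}
    (hK : K + 1 < n) (hq : q * B ≤ n) (hT : T ⊆ range q) (hr : (T.image y).card ≤ K + 1) :
    ((univ.filter fun σ : Equiv.Perm (Fin n) => ∀ k ∈ T, σ (y k) ∉ blk B k).card : ℝ) ≤
      (n ! : ℝ) * (((n : ℝ) / ((n : ℝ) - K - 1)) ^ (K + 1) *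
        ∏ z : Fin n, (1 - ((T.filter fun k => y k = z).card : ℝ) * ((B : ℝ) / n))) := by
  classical
  set Λ : Finset (Fin n) := T.image y with hΛ
  set A : Fin n → Finset (Fin n) := fun z =>
    univ \ (T.filter fun k => y k = z).biUnion (fun k => blk (n := n) B k) with hA
  have hn : (0 : ℝ) < n := by
    have : 0 < n := by omega
    exact_mod_cast this
  have h1 : (univ.filter fun σ : Equiv.Perm (Fin n) => ∀ k ∈ T, σ (y k) ∉ blk B k).card ≤
      (univ.filter fun σ : Equiv.Perm (Fin n) => ∀ z ∈ Λ, σ z ∈ A z).card := by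
    refine Finset.card_le_card ?_
    intro σ hσ
    simp only [Finset.mem_filter, Finset.mem_univ, true_and] at hσ ⊢
    intro z _
    rw [hA]
    simp only [Finset.mem_sdiff, Finset.mem_univ, true_and, Finset.mem_biUnion, Finset.mem_filter,
      not_exists, not_and, and_imp]
    intro k hk hkz
    rw [← hkz]
    exact hσ k hk
  have h2 := hC n Λ A
  have hcard : ∀ z, (T.filter fun k => y k = z).card * B ≤ n ∧
      (A z).card = n - (T.filter fun k => y k = z).card * B := by
    intro z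
    have hc1 : ((T.filter fun k => y k = z).biUnion (fun k => blk (n := n) B k)).card =
        (T.filter fun k => y k = z).card * B := by
      rw [Finset.card_biUnion (fun k _ l _ hkl => blk_disj hkl)]
      rw [Finset.sum_congr rfl (fun k hk => St.UpA1.blk_card (n := n) (B := B) (k := k) ?_)]
      · rw [Finset.sum_const, smul_eq_mul]
      · have hkq := Finset.mem_range.1 (hT (Finset.mem_filter.1 hk).1)
        exact (Nat.mul_le_mul_right B hkq).trans hq
    refine ⟨?_, ?_⟩
    · rw [← hc1]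
      calc _ ≤ (univ : Finset (Fin n)).card := Finset.card_le_card (Finset.subset_univ _)
        _ = n := by rw [Finset.card_univ, Fintype.card_fin]
    · rw [hA]
      simp only
      rw [Finset.card_sdiff_of_subset (Finset.subset_univ _), hc1, Finset.card_univ,
        Fintype.card_fin]
  set g : Fin n → ℝ := fun z => 1 - ((T.filter fun k => y k = z).card : ℝ) * ((B : ℝ) / n)
    with hg
  have hAc : ∀ z, ((A z).card : ℝ) = (n : ℝ) * g z := by
    intro z
    rw [(hcard z).2, Nat.cast_sub (hcard z).1, hg]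
    push_cast
    field_simp
  have hg0 : ∀ z, 0 ≤ g z := by
    intro z
    have h3 : (0 : ℝ) ≤ (n : ℝ) * g z := by
      rw [← hAc z]
      exact Nat.cast_nonneg _
    exact nonneg_of_mul_nonneg_right h3 hn
  have hprod : ∏ z ∈ Λ, g z = ∏ z : Fin n, g z := by
    refine Finset.prod_subset (Finset.subset_univ _) ?_
    intro z _ hz
    have h3 : (T.filter fun k => y k = z) = ∅ := by
      rw [Finset.filter_eq_empty_iff]
      intro k hk hkz
      exact hz (by rw [hΛ, ← hkz]; exact Finset.mem_image_of_mem y hk)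
    rw [hg]
    simp only [h3, Finset.card_empty, Nat.cast_zero, zero_mul, sub_zero]
  have h3 : (((∏ z ∈ Λ, (A z).card) * (n - Λ.card)! : ℕ) : ℝ) =
      (n : ℝ) ^ Λ.card * ((n - Λ.card)! : ℝ) * ∏ z : Fin n, g z := by
    push_cast
    rw [Finset.prod_congr rfl (fun z _ => hAc z), Finset.prod_mul_distrib, Finset.prod_const,
      hprod]
    ring
  have h4 := numer (n := n) (K := K) (r := Λ.card) hK hr
  have h5 : (0 : ℝ) ≤ ∏ z : Fin n, g z := Finset.prod_nonneg fun z _ => hg0 z
  calc ((univ.filter fun σ : Equiv.Perm (Fin n) => ∀ k ∈ T, σ (y k) ∉ blk B k).card : ℝ)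
      ≤ (((∏ z ∈ Λ, (A z).card) * (n - Λ.card)! : ℕ) : ℝ) := by exact_mod_cast h1.trans h2
    _ = (n : ℝ) ^ Λ.card * ((n - Λ.card)! : ℝ) * ∏ z : Fin n, g z := h3
    _ ≤ (n ! : ℝ) * ((n : ℝ) / ((n : ℝ) - K - 1)) ^ (K + 1) * ∏ z : Fin n, g z :=
        mul_le_mul_of_nonneg_right h4 h5
    _ = _ := by ring

/-- one factor -/
lemma fct {n B B1 k : ℕ} (hk : (k + 1) * B1 ≤ n) (σ : Equiv.Perm (Fin n)) (y : Fin n)
    (b : Bool) : fac B (sw B1 σ k) y b =
      (if b = true then (B1 : ℝ) / B else 1) *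
        (if b = false then (if σ y ∉ (blk B1 k : Finset (Fin n)) then (1 : ℝ) else 0) else 1) := by
  cases b with
  | true =>
    simp only [fac, sw, card_map]
    rw [St.UpA1.blk_card hk]
    simp
  | false =>
    have hm : y ∈ (blk B1 k : Finset (Fin n)).map σ.symm.toEmbedding
        ↔ σ y ∈ (blk B1 k : Finset (Fin n)) := by
      rw [mem_map_equiv, Equiv.symm_symm]
    by_cases h : σ y ∈ (blk B1 k : Finset (Fin n))
    · have h' := hm.2 h
      simp [fac, sw, h]
    · have h' : ¬ _ := fun h2 => h (hm.1 h2)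
      simp [fac, sw, h]

end SegC_aux

open SegC_aux in
theorem tSegC : S_SegC := by
  classical
  intro hC n B B1 K q y b hB1 hBB hK hq hA m hm
  set T : Finset ℕ := (range m).filter fun k => b k = false with hT
  set Sr : Finset ℕ := (range m).filter fun k => b k = true with hSr
  have hTq : T ⊆ range q := by
    intro k hk
    rw [hT, mem_filter, mem_range] at hk
    exact mem_range.2 (by omega)
  have hTl : (T.image y).card ≤ K + 1 := by
    refine (card_le_card (image_subset_image ?_)).trans (St.UpA1.labels hA)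
    intro k hk
    have := mem_range.1 (hTq hk)
    exact mem_range.2 (by omega)
  have h1 := count hC (y := y) hK hq hTq hTl
  have e1 : ∀ σ : Equiv.Perm (Fin n), surv B (sw B1 σ) y b m =
      ((B1 : ℝ) / B) ^ Sr.card *
        (if ∀ k ∈ T, σ (y k) ∉ (blk B1 k : Finset (Fin n)) then (1 : ℝ) else 0) := by
    intro σ
    unfold surv
    rw [Finset.prod_congr rfl fun k hk => fct (n := n) (B := B) (B1 := B1) (k := k)
      ((Nat.mul_le_mul_right B1 (by have := mem_range.1 hk; omega)).trans hq) σ (y k) (b k)]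
    rw [Finset.prod_mul_distrib, ← Finset.prod_filter, ← Finset.prod_filter, Finset.prod_boole,
      Finset.prod_const]
  have hfact : (0 : ℝ) < (n ! : ℝ) := by exact_mod_cast Nat.factorial_pos n
  have hρ0 : (0 : ℝ) ≤ ((B1 : ℝ) / B) ^ Sr.card := by positivity
  have hfl : ∀ z : Fin n, ((range m).filter fun k => b k = false ∧ y k = z) =
      T.filter fun k => y k = z := by
    intro z
    rw [hT, Finset.filter_filter]
  unfold pavg
  rw [div_le_iff₀ hfact, Finset.sum_congr rfl fun σ _ => e1 σ, ← Finset.mul_sum,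
    Finset.sum_boole]
  simp only [hfl]
  calc ((B1 : ℝ) / B) ^ Sr.card *
      ((univ.filter fun σ : Equiv.Perm (Fin n) => ∀ k ∈ T, σ (y k) ∉ blk B1 k).card : ℝ)
      ≤ ((B1 : ℝ) / B) ^ Sr.card * ((n ! : ℝ) * (((n : ℝ) / ((n : ℝ) - K - 1)) ^ (K + 1) *
        ∏ z : Fin n, (1 - ((T.filter fun k => y k = z).card : ℝ) * ((B1 : ℝ) / n)))) :=
        mul_le_mul_of_nonneg_left h1 hρ0
    _ = _ := by ring

end MPacf82c.Br
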