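import Pool.Agent.Lib.MP_acf82c_lc.Br.SpecD

/-!
# The bound for the product over the labels by the product over the stays
-/

set_option autoImplicit false

open Finset

namespace MPacf82c.Br

private lemma segP_sta_le (b : ℕ → Bool) : ∀ m, sta b m ≤ m := by
  intro m
  induction m with
  | zero => simp [sta]
  | succ m ih =>
    rw [sta]
    split_ifs
    · exact le_rfl
    · omega

private lemma segP_block (b : ℕ → Bool) : ∀ m k, sta b m ≤ k → k < m → b k = false := by
  intro m
  induction m with
  | zero => intro k _ h; omega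
  | succ m ih =>
    intro k h1 h2
    rw [sta] at h1
    by_cases hb : b m = true
    · rw [if_pos hb] at h1
      omega
    · rw [if_neg hb] at h1
      rcases Nat.lt_succ_iff_lt_or_eq.mp h2 with h3 | h3
      · exact ih k h1 h3
      · rw [h3]
        simpa using hb

private lemma segP_same {n K q : ℕ} (y : ℕ → Fin n) (b : ℕ → Bool) (hA : Adm q K y b) (m : ℕ)
    (hm : m ≤ q) (k : ℕ) (h1 : sta b m ≤ k) (h2 : k ≤ m) : y k = y m := by
  have H : ∀ j, k ≤ j → j ≤ m → y k = y j := by
    intro j hj
    induction j, hj using Nat.le_induction with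
    | base => intro _; rfl
    | succ j hj ih =>
      intro hjm
      rw [ih (by omega)]
      exact hA.1 j (by omega) (segP_block b m j (by omega) (by omega))
  exact H m h2 le_rfl

private lemma segP_card_succ {n : ℕ} (y : ℕ → Fin n) (b : ℕ → Bool) (m : ℕ) (z : Fin n) :
    ((range (m + 1)).filter fun k => b k = false ∧ y k = z).card =
      ((range m).filter fun k => b k = false ∧ y k = z).card +
        (if b m = false ∧ y m = z then 1 else 0) := by
  rw [Finset.range_add_one, Finset.filter_insert]
  split_ifs with h
  · rw [Finset.card_insert_of_notMem]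
    simp
  · simp

private lemma segP_card_le {n : ℕ} (y : ℕ → Fin n) (b : ℕ → Bool) (m : ℕ) (z : Fin n) :
    ((range m).filter fun k => b k = false ∧ y k = z).card ≤ m := by
  have := Finset.card_filter_le (range m) (fun k => b k = false ∧ y k = z)
  simpa using this

private lemma segP_card_ge {n K q : ℕ} (y : ℕ → Fin n) (b : ℕ → Bool) (hA : Adm q K y b) (m : ℕ)
    (hm : m ≤ q) :
    m ≤ ((range m).filter fun k => b k = false ∧ y k = y m).card + sta b m := by
  have h1 : (Ico (sta b m) m) ⊆ (range m).filter fun k => b k = false ∧ y k = y m := by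
    intro k hk
    rw [Finset.mem_Ico] at hk
    rw [Finset.mem_filter, Finset.mem_range]
    exact ⟨hk.2, segP_block b m k hk.1 hk.2, segP_same y b hA m hm k hk.1 hk.2.le⟩
  have h2 := Finset.card_le_card h1
  rw [Nat.card_Ico] at h2
  omega

private lemma segP_Pf_nonneg (q : ℕ) (ρ : ℝ) (b : ℕ → Bool) (h0 : 0 ≤ ρ) (h1 : q * ρ ≤ 1) :
    ∀ m, m ≤ q → 0 ≤ Pf ρ 1 b m := by
  intro m
  induction m with
  | zero => intro _; simp [Pf]
  | succ m ih =>
    intro hm
    have h2 := ih (by omega)
    rw [Pf]
    split_ifs
    · have h3 : (0 : ℝ) ≤ sta b m := Nat.cast_nonneg _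
      have h4 : ((m : ℝ) - sta b m) ≤ q := by
        have : (m : ℝ) ≤ q := by exact_mod_cast (by omega : m ≤ q)
        linarith
      have h5 : ((m : ℝ) - sta b m) * ρ ≤ 1 := le_trans (mul_le_mul_of_nonneg_right h4 h0) h1
      rw [mul_one]
      exact mul_nonneg h2 (by linarith)
    · exact h2

/-- The product over the labels is at most the product over the stays. -/
theorem tSegP : S_SegP := by
  intro n K q ρ y b h0 h1 hA m
  induction m with
  | zero =>
    intro _
    simp [gq, Pf, sta]
  | succ m ih =>
    intro hm
    have hm' : m ≤ q := by omega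
    have IH := ih hm'
    by_cases hb : b m = true
    · have e1 : gq ρ 1 b (m + 1) = gq ρ 1 b m := by
        simp [gq, Pf, sta, hb]
      rw [e1]
      refine le_trans (le_of_eq ?_) IH
      refine Finset.prod_congr rfl fun z _ => ?_
      rw [segP_card_succ]
      simp [hb]
    · have hb' : b m = false := by simpa using hb
      have e1 : gq ρ 1 b (m + 1) = Pf ρ 1 b m * (1 - (((m : ℝ) - sta b m) + 1) * ρ) := by
        have : ((m + 1 : ℕ) : ℝ) - sta b m = ((m : ℝ) - sta b m) + 1 := by push_cast; ring
        simp only [gq, Pf, sta, hb', Bool.false_eq_true, if_false]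
        rw [this]
      have hmq : (m : ℝ) + 1 ≤ q := by exact_mod_cast hm
      have hmr : ((m : ℝ) + 1) * ρ ≤ 1 := le_trans (mul_le_mul_of_nonneg_right hmq h0) h1
      have hPf := segP_Pf_nonneg q ρ b h0 h1 m hm'
      rw [e1]
      rw [← Finset.mul_prod_erase _ _ (Finset.mem_univ (y m))]
      rw [← Finset.mul_prod_erase _ _ (Finset.mem_univ (y m)), gq] at IH
      have e2 : ∏ z ∈ univ.erase (y m),
          (1 - (((range (m + 1)).filter fun k => b k = false ∧ y k = z).card : ℝ) * ρ) =
          ∏ z ∈ univ.erase (y m),
          (1 - (((range m).filter fun k => b k = false ∧ y k = z).card : ℝ) * ρ) := by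
        refine Finset.prod_congr rfl fun z hz => ?_
        have hz' : y m ≠ z := fun h => (Finset.ne_of_mem_erase hz) h.symm
        rw [segP_card_succ, if_neg (fun h => hz' h.2)]
        simp
      rw [e2]
      rw [segP_card_succ, if_pos ⟨hb', rfl⟩]
      have hP : 0 ≤ ∏ z ∈ univ.erase (y m),
          (1 - (((range m).filter fun k => b k = false ∧ y k = z).card : ℝ) * ρ) := by
        refine Finset.prod_nonneg fun z _ => ?_
        have h3 : (((range m).filter fun k => b k = false ∧ y k = z).card : ℝ) ≤ (m : ℝ) + 1 := by
          have := segP_card_le y b m z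
          have h4 : (((range m).filter fun k => b k = false ∧ y k = z).card : ℝ) ≤ (m : ℝ) := by
            exact_mod_cast this
          linarith
        have := mul_le_mul_of_nonneg_right h3 h0
        linarith
      have ht : ((m : ℝ) - sta b m) ≤
          (((range m).filter fun k => b k = false ∧ y k = y m).card : ℝ) := by
        have h3 := segP_card_ge y b hA m hm'
        have h4 : (m : ℝ) ≤ (((range m).filter fun k => b k = false ∧ y k = y m).card : ℝ) +
          sta b m := by exact_mod_cast h3
        linarith
      have hs0 : 0 ≤ (m : ℝ) - sta b m := by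
        have : (sta b m : ℝ) ≤ m := by exact_mod_cast segP_sta_le b m
        linarith
      have hsm : (m : ℝ) - sta b m ≤ m := by
        have : (0 : ℝ) ≤ sta b m := Nat.cast_nonneg _
        linarith
      push_cast
      generalize (m : ℝ) - sta b m = s at *
      generalize (((range m).filter fun k => b k = false ∧ y k = y m).card : ℝ) = t at *
      generalize ∏ z ∈ univ.erase (y m),
          (1 - (((range m).filter fun k => b k = false ∧ y k = z).card : ℝ) * ρ) = P at *
      generalize Pf ρ 1 b m = F at *
      have hsr : 0 < 1 - s * ρ := by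
        rcases eq_or_lt_of_le h0 with h | h
        · rw [← h]; norm_num
        · nlinarith
      have hs1 : 0 ≤ 1 - (s + 1) * ρ := by
        have : (s + 1) * ρ ≤ ((m : ℝ) + 1) * ρ := mul_le_mul_of_nonneg_right (by linarith) h0
        linarith
      have key : (1 - (t + 1) * ρ) * (1 - s * ρ) ≤ (1 - t * ρ) * (1 - (s + 1) * ρ) := by
        have : 0 ≤ ρ * ρ * (t - s) := mul_nonneg (mul_nonneg h0 h0) (by linarith)
        nlinarith
      have k1 : ((1 - (t + 1) * ρ) * P) * (1 - s * ρ) ≤
          (F * (1 - (s + 1) * ρ)) * (1 - s * ρ) := by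
        calc ((1 - (t + 1) * ρ) * P) * (1 - s * ρ)
            = ((1 - (t + 1) * ρ) * (1 - s * ρ)) * P := by ring
          _ ≤ ((1 - t * ρ) * (1 - (s + 1) * ρ)) * P := mul_le_mul_of_nonneg_right key hP
          _ = ((1 - t * ρ) * P) * (1 - (s + 1) * ρ) := by ring
          _ ≤ (F * (1 - s * ρ)) * (1 - (s + 1) * ρ) := mul_le_mul_of_nonneg_right IH hs1
          _ = (F * (1 - (s + 1) * ρ)) * (1 - s * ρ) := by ring
      exact le_of_mul_le_mul_right k1 hsr

end MPacf82c.Br
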