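import Pool.Agent.Lib.MP_acf82c_lc.Br.SpecE
import Pool.Agent.Lib.MP_acf82c_lc.TwoSided

/-!
# Networks with bridges: small networks
-/

set_option autoImplicit false

open Set MeasureTheory
open scoped NNReal ENNReal

namespace MPacf82c.Br

open MPacf82c.St (Up CloverC S_UpPart S_CloverLow)

namespace Small_aux

/-- `HiderGuarantees` is monotone. -/
theorem hg_mono {Q : Type} [MetricSpace Q] {w : ℝ≥0} {O : Q} {v v' : ℝ}
    (h : HiderGuarantees w O (ENNReal.ofReal v)) (hv : v' ≤ v) :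
    HiderGuarantees w O (ENNReal.ofReal v') := by
  obtain ⟨Ω, m1, P, H, hP, hH1, hH2, hH3⟩ := h
  exact ⟨Ω, m1, P, H, hP, hH1, hH2, fun S hS0 hS =>
    (ENNReal.ofReal_le_ofReal hv).trans (hH3 S hS0 hS)⟩

/-- The bridges have nonnegative length. -/
theorem bridge_nonneg {Q : Type} [MetricSpace Q] (N : Network Q) : 0 ≤ N.bridgeLength := by
  classical
  unfold Network.bridgeLength
  refine Finset.sum_nonneg fun e _ => ?_
  split_ifs
  · exact (N.len_pos e).le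
  · exact le_refl _

end Small_aux

open Small_aux

theorem tSmall : S_Small := by
  intro hG hP hC c hc ε hε
  obtain ⟨ε', hε'⟩ : ∃ ε' : ℝ, ε' = min (ε / 8) (1 / 8) := ⟨_, rfl⟩
  have hε0 : 0 < ε' := by rw [hε']; exact lt_min (by linarith) (by norm_num)
  have hε8 : ε' ≤ ε / 8 := by rw [hε']; exact min_le_left _ _
  have hε1 : ε' ≤ 1 := by rw [hε']; exact (min_le_right _ _).trans (by norm_num)
  obtain ⟨L, hL30'⟩ := exists_nat_ge (30 / ε')
  have hL30 : (30 : ℝ) ≤ L := by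
    refine le_trans ?_ hL30'
    rw [le_div_iff₀ hε0]; linarith
  have hLpos : (0 : ℝ) < L := by linarith
  obtain ⟨K, hK1, hKup⟩ := hP ε' hε0 hε1 L hL30'
  have hK1' : (1 : ℝ) ≤ K := by exact_mod_cast hK1
  have hLK : (0 : ℝ) < (L : ℝ) * K := by positivity
  obtain ⟨R3, hR3⟩ := exists_nat_ge (3 * (1 + 2 * ((L : ℝ) * K)) / ε')
  obtain ⟨R, hR⟩ : ∃ R : ℕ, R = max R3 3 := ⟨_, rfl⟩
  have hRR3 : R3 ≤ R := by rw [hR]; exact le_max_left _ _
  have hR3n : 3 ≤ R := by rw [hR]; exact le_max_right _ _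
  have hR3r : (3 : ℝ) ≤ R := by exact_mod_cast hR3n
  have hR0 : (0 : ℝ) < R := by linarith
  have hRε : 3 * (1 + 2 * ((L : ℝ) * K)) / ε' ≤ R := hR3.trans (by exact_mod_cast hRR3)
  obtain ⟨γ, hγ⟩ : ∃ γ : ℝ, γ = min (1 / (4 * (R : ℝ))) (ε' / (261 * R * ((L : ℝ) * K))) :=
    ⟨_, rfl⟩
  have hγ0 : 0 < γ := by rw [hγ]; exact lt_min (by positivity) (by positivity)
  have hγR : γ ≤ 1 / (4 * (R : ℝ)) := by rw [hγ]; exact min_le_left _ _
  have hγ2 : γ ≤ ε' / (261 * R * ((L : ℝ) * K)) := by rw [hγ]; exact min_le_right _ _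
  obtain ⟨δ, hδ⟩ : ∃ δ : ℝ, δ = min (γ ^ 4 / 13) (ε' / (96 * R)) := ⟨_, rfl⟩
  have hδ0 : 0 < δ := by rw [hδ]; exact lt_min (by positivity) (by positivity)
  have hδ1 : δ ≤ γ ^ 4 / 13 := by rw [hδ]; exact min_le_left _ _
  have hδ2 : δ ≤ ε' / (96 * R) := by rw [hδ]; exact min_le_right _ _
  refine ⟨δ, hδ0, ?_⟩
  intro Q _ N O hD w hw
  have hμ : 0 < N.length := length_pos N O
  have hβ : 0 ≤ N.bridgeLength := bridge_nonneg N
  obtain ⟨μ', hμ'⟩ : ∃ μ' : ℝ, μ' = N.length + N.bridgeLength := ⟨_, rfl⟩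
  have hμμ' : N.length ≤ μ' := by rw [hμ']; linarith
  have hμ'0 : 0 < μ' := by linarith
  obtain ⟨n2, hn2⟩ := hC c hc ε' hε0
  obtain ⟨n3, hn3⟩ := exists_nat_ge (2 * (R : ℝ) * (3 + 12 / ε'))
  obtain ⟨n1, hn1⟩ : ∃ n1 : ℕ, n1 = max (max n2 n3) 2 := ⟨_, rfl⟩
  have h12 : n2 ≤ n1 := by omega
  have h13 : n3 ≤ n1 := by omega
  have h1t : 2 ≤ n1 := by omega
  obtain ⟨h0, hh0, hH⟩ := hG R hR3n γ δ hγ0 hγR hδ0 hδ1 Q N hD hμ n1
  obtain ⟨cA, hcA⟩ : ∃ cA : ℝ, cA = 2 * (Fintype.card N.Arc : ℝ) := ⟨_, rfl⟩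
  have hcA0 : 0 ≤ cA := by rw [hcA]; positivity
  obtain ⟨h, hh⟩ : ∃ h : ℝ, h = min h0 (ε' * μ' / (3 * (2 * cA + 4 * R))) := ⟨_, rfl⟩
  have hhpos : 0 < h := by rw [hh]; exact lt_min hh0 (by positivity)
  have hhh0 : h ≤ h0 := by rw [hh]; exact min_le_left _ _
  have hh2 : h ≤ ε' * μ' / (3 * (2 * cA + 4 * R)) := by rw [hh]; exact min_le_right _ _
  have hh3 : (2 * cA + 4 * R) * h ≤ ε' * μ' / 3 := by
    rw [le_div_iff₀ (by positivity)] at hh2
    linarith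
  obtain ⟨n, B, hB, hnn1, hBn1, hnh, hnh', hT0, hgood⟩ := hH h hhpos hhh0
  rw [← hμ'] at hnh hnh'
  rw [← hcA] at hnh'
  have hB2 : 2 ≤ B := h1t.trans hBn1
  have hB2r : (2 : ℝ) ≤ B := by exact_mod_cast hB2
  have hB0 : (0 : ℝ) < B := by linarith
  have hRn : 0 < R := by omega
  have hBR : B * R ≤ n := by rw [hB]; exact Nat.div_mul_le_self _ _
  have hBR' : n < (B + 1) * R := by
    rw [hB]; have := Nat.lt_div_mul_add (a := n) hRn; nlinarith
  have h2Bn : 2 * B ≤ n := by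
    have : B * 3 ≤ B * R := Nat.mul_le_mul_left _ hR3n
    omega
  have hnpos : (0 : ℝ) < n := by
    have : 0 < n := by omega
    exact_mod_cast this
  have hBRr : (B : ℝ) * R ≤ n := by exact_mod_cast hBR
  have hBRr' : (n : ℝ) ≤ (B + 1) * R := by exact_mod_cast hBR'.le
  have hnB2 : (n : ℝ) ≤ 2 * R * B := by
    have e1 : (1 : ℝ) * R ≤ B * R := mul_le_mul_of_nonneg_right (by linarith) hR0.le
    linarith
  obtain ⟨M, hM⟩ : ∃ M : ℕ, M = L * R := ⟨_, rfl⟩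
  have hMr : (M : ℝ) = L * R := by rw [hM]; push_cast; ring
  have hM0 : 0 < M := by
    have : (0 : ℝ) < M := by rw [hMr]; positivity
    exact_mod_cast this
  have hnMB : n ≤ M * B := by
    have : (n : ℝ) ≤ M * B := by
      rw [hMr]
      have e1 : (2 : ℝ) * (R * B) ≤ L * (R * B) :=
        mul_le_mul_of_nonneg_right (by linarith) (by positivity)
      linarith
    exact_mod_cast this
  obtain ⟨V, hV1, hVn, hSV, hHV⟩ := block_game n B M K hB2 h2Bn hM0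
  have hstat : (n : ℝ) / (2 * B) ≤ V := stationary (by omega) (by omega) hnMB hSV
  have hnbig : 2 * (R : ℝ) * (3 + 12 / ε') ≤ n :=
    hn3.trans (by exact_mod_cast h13.trans hnn1)
  have hup := hKup R n B hR3n hB hnbig V (by rw [← hM]; exact hSV) hstat hVn
  obtain ⟨x, hx⟩ : ∃ x : ℝ, x = B / n * V := ⟨_, rfl⟩
  rw [← hx] at hup
  have hx0 : 0 ≤ x := by rw [hx]; positivity
  have hlow : c - ε' ≤ x + ε' := hn2 n (h12.trans hnn1) (x + ε') (by linarith) hup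
  have hx2 : x ≤ 2 := by
    rw [hx]
    calc (B : ℝ) / n * V ≤ B / n * (2 * n / B) := by gcongr
      _ = 2 := by field_simp
  have hV4 : V ≤ 4 * R := by
    refine hVn.trans ?_
    rw [div_le_iff₀ hB0]; nlinarith
  have hBn : (B : ℝ) / n ≤ 1 / R := by
    rw [div_le_div_iff₀ hnpos hR0]; linarith
  have herr0 : (0 : ℝ) ≤ 87 * R * γ := by positivity
  have hst := hider_strategy (M := M) (K := K) (V := V) hT0 (by omega : 0 < B)
    (by omega : 2 ≤ n) herr0 hgood hHV hw O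
  have harith := lower_arith (ε := ε') (μ := μ') (h := h) (R := R) (L := (L : ℝ))
    (K := (K : ℝ)) (c := cA) (n := n) (B := B) (V := V) (x := x)
    (err := 87 * R * γ) hε0 hμ'0 hhpos (by linarith) (by linarith) hK1'
    hcA0 hnpos (by linarith) hBn hnh hnh' hx hx2 hV1 hV4 herr0
    (by
      rw [div_le_iff₀ hR0]
      rw [div_le_iff₀ hε0] at hRε
      linarith)
    (by
      calc (L : ℝ) * K * (87 * R * γ)
          ≤ (L : ℝ) * K * (87 * R * (ε' / (261 * R * ((L : ℝ) * K)))) := by gcongr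
        _ = ε' / 3 := by field_simp; norm_num)
    hh3
  obtain ⟨W, hW⟩ : ∃ W : ℝ, W = V - 1 - L * R * K * (87 * R * γ + 2 * B / n) := ⟨_, rfl⟩
  rw [← hW] at harith
  have hWeq : V - 1 - M * K * (87 * R * γ + 2 * B / n) = W := by rw [hW, hMr]
  rw [hWeq] at hst
  have hWV : W ≤ 4 * R := by
    have e1 : 0 ≤ (L : ℝ) * R * K * (87 * R * γ + 2 * B / n) := by positivity
    rw [hW]; linarith
  refine hg_mono hst ?_
  rw [← hμ']
  have hk0 : 0 ≤ h + 12 * (δ * N.length) := by positivity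
  have e1 : (h + 12 * (δ * N.length)) * W ≤ (h + 12 * (δ * N.length)) * (4 * R) :=
    mul_le_mul_of_nonneg_left hWV hk0
  have e2 : 4 * R * h ≤ ε' * μ' / 3 := by
    have : 0 ≤ 2 * cA * h := by positivity
    linarith
  have e3 : 48 * R * (δ * N.length) ≤ ε' * μ' / 2 := by
    calc 48 * R * (δ * N.length) ≤ 48 * R * (ε' / (96 * R) * μ') := by gcongr
      _ = ε' * μ' / 2 := by field_simp; norm_num
  have e4 : (c - ε) * μ' ≤ (x - 3 * ε') * μ' := by
    have : c - ε ≤ x - 3 * ε' := by linarith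
    gcongr
  have e5 : 0 < ε' * μ' := by positivity
  have e6 : (h * B - (2 * h + 12 * (δ * N.length))) * W =
      h * (B - 1) * W - (h + 12 * (δ * N.length)) * W := by ring
  rw [e6]
  linarith

end MPacf82c.Br
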