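import Pool.Agent.Lib.MP_acf82c_lc.Br.SpecA
import Pool.Agent.Lib.MP_acf82c_lc.Samples

/-!
# Samples on the arcs outside of a finite set of arcs
-/

set_option autoImplicit false

open Set Finset
open scoped NNReal ENNReal

namespace MPacf82c.Br

theorem tSmp : S_Smp := by
  classical
  intro Q _ N E h hh
  set m : N.Arc → ℕ := fun e => if e ∈ E then 0 else ⌊N.len e / h⌋₊ with hm
  have hkey : ∀ (e : N.Arc) (k : ℕ), k < m e →
      e ∉ E ∧ h ≤ N.len e ∧ m e = ⌊N.len e / h⌋₊ := by
    intro e k hk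
    have hE : e ∉ E := by
      intro hc
      simp [hm, hc] at hk
    have h1 : m e = ⌊N.len e / h⌋₊ := by simp [hm, hE]
    refine ⟨hE, ?_, h1⟩
    have h2 : 1 ≤ ⌊N.len e / h⌋₊ := by omega
    have h3 : (1 : ℝ) ≤ N.len e / h := by
      have h4 := (Nat.le_floor_iff (div_nonneg (N.len_pos e).le hh.le)).mp h2
      simpa using h4
    rwa [one_le_div hh] at h3
  let posn : (Σ e : N.Arc, Fin (m e)) → ℝ := fun x =>
    (((x.2 : ℕ) : ℝ) + 1 / 2) * (N.len x.1 / (m x.1 : ℕ))
  have hp : ∀ x, h / 2 ≤ posn x ∧ h / 2 ≤ N.len x.1 - posn x ∧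
      h ≤ N.len x.1 / (m x.1 : ℕ) := by
    intro x
    obtain ⟨_, hl, hme⟩ := hkey x.1 x.2 x.2.2
    exact samples_pos hh hl hme x.2.2
  have hmem : ∀ x, posn x ∈ Icc 0 (N.len x.1) := by
    intro x
    obtain ⟨a, b, _⟩ := hp x
    exact ⟨by linarith, by linarith⟩
  have hmin : ∀ x, h / 2 ≤ min (posn x) (N.len x.1 - posn x) :=
    fun x => le_min (hp x).1 (hp x).2.1
  have hdist : ∀ x y, x ≠ y → h ≤ dist (N.pt x.1 (posn x)) (N.pt y.1 (posn y)) := by
    rintro ⟨e, k⟩ ⟨e', k'⟩ hxy
    by_cases hee : e = e'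
    · subst hee
      have hkk : k ≠ k' := by
        rintro rfl
        exact hxy rfl
      have h1 := dist_same_arc N e (hmem ⟨e, k⟩) (hmem ⟨e, k'⟩)
      refine le_trans (le_min ?_ ?_) h1
      · have h2 : posn ⟨e, k⟩ - posn ⟨e, k'⟩ =
            (((k : ℕ) : ℝ) - ((k' : ℕ) : ℝ)) * (N.len e / (m e : ℕ)) := by
          simp only [posn]
          ring
        have h3 := (hp ⟨e, k⟩).2.2
        have h4 : (1 : ℝ) ≤ |(((k : ℕ) : ℝ) - ((k' : ℕ) : ℝ))| := by
          have h5 : ((k : ℕ) : ℤ) - ((k' : ℕ) : ℤ) ≠ 0 := by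
            intro h6
            apply hkk
            apply Fin.ext
            omega
          have h6 : (1 : ℤ) ≤ |((k : ℕ) : ℤ) - ((k' : ℕ) : ℤ)| := Int.one_le_abs h5
          exact_mod_cast h6
        rw [h2, abs_mul]
        have h7 : 0 < N.len e / (m e : ℕ) := lt_of_lt_of_le hh h3
        rw [abs_of_pos h7]
        nlinarith
      · have a := hmin ⟨e, k⟩
        have b := hmin ⟨e, k'⟩
        linarith
    · have h1 := dist_diff_arc N hee (hmem ⟨e, k⟩) (hmem ⟨e', k'⟩)
      have a := hmin ⟨e, k⟩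
      have b := hmin ⟨e', k'⟩
      dsimp only at h1 a b ⊢
      linarith
  let f : (Σ e : N.Arc, Fin (m e)) → Q := fun x => N.pt x.1 (posn x)
  have hinj : Function.Injective f := by
    intro x y hxy
    by_contra hne
    have h1 := hdist x y hne
    have h2 : dist (N.pt x.1 (posn x)) (N.pt y.1 (posn y)) = 0 := by
      have h3 : N.pt x.1 (posn x) = N.pt y.1 (posn y) := hxy
      rw [h3, dist_self]
    linarith
  refine ⟨Finset.univ.image f, ?_, ?_, ?_⟩
  · intro x hx
    obtain ⟨i, _, rfl⟩ := Finset.mem_image.mp hx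
    refine ⟨i.1, (hkey i.1 i.2 i.2.2).1, ?_⟩
    intro z hz
    by_contra hcon
    have h1 := dist_ge_of_notMem N i.1 (hmem i) hcon
    have h2 := hmin i
    have h3 : dist z (N.pt i.1 (posn i)) < h / 2 := hz
    rw [dist_comm] at h3
    linarith
  · intro x hx y hy hxy
    obtain ⟨i, _, rfl⟩ := Finset.mem_image.mp hx
    obtain ⟨j, _, rfl⟩ := Finset.mem_image.mp hy
    refine hdist i j ?_
    rintro rfl
    exact hxy rfl
  · have hcard : (Finset.univ.image f).card = ∑ e, m e := by
      rw [Finset.card_image_of_injective _ hinj, Finset.card_univ, Fintype.card_sigma]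
      simp
    rw [hcard]
    have hterm : ∀ e : N.Arc, N.len e - (if e ∈ E then N.len e else 0) - h ≤ h * (m e : ℝ) := by
      intro e
      by_cases he : e ∈ E
      · simp [hm, he]
        exact hh.le
      · have h1 : N.len e / h < (⌊N.len e / h⌋₊ : ℝ) + 1 := Nat.lt_floor_add_one _
        have h2 : N.len e < ((⌊N.len e / h⌋₊ : ℝ) + 1) * h := by
          rwa [div_lt_iff₀ hh] at h1
        have h3 : (m e : ℝ) = (⌊N.len e / h⌋₊ : ℝ) := by simp [hm, he]
        rw [h3]
        simp only [he, if_false]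
        nlinarith
    have hsum := Finset.sum_le_sum (s := (Finset.univ : Finset N.Arc)) fun e _ => hterm e
    have e1 : ∑ e : N.Arc, (N.len e - (if e ∈ E then N.len e else 0) - h) =
        N.length - ∑ e ∈ E, N.len e - h * (Fintype.card N.Arc) := by
      rw [Finset.sum_sub_distrib, Finset.sum_sub_distrib]
      have h1 : ∑ e : N.Arc, (if e ∈ E then N.len e else 0) = ∑ e ∈ E, N.len e := by
        rw [Finset.sum_ite_mem, Finset.univ_inter]
      rw [h1]
      simp only [Network.length, Finset.sum_const, Finset.card_univ, nsmul_eq_mul]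
      ring
    have e2 : ∑ e : N.Arc, h * (m e : ℝ) = h * ((∑ e, m e : ℕ) : ℝ) := by
      rw [← Finset.mul_sum]
      push_cast
      rfl
    linarith [hsum, e1, e2]

end MPacf82c.Br
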