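import Pool.Agent.Lib.MP_acf82c_lc.Br.Def
import Pool.Agent.Lib.MP_acf82c_lc.S.SpecA

/-!
# Networks with bridges, part D: the clover constant is less than 4/5

Every `S_X` is to be proved as `theorem tX : S_X` in the module
`Pool/Agent/Lib/MP_acf82c_lc/Br/X.lean` (namespace `MPacf82c.Br`), which imports this file (and
modules of the landed library if useful).  Statements which are used are hypotheses, so all modules
are independent.

The searcher searches in sweeps: in every sweep the labels are searched in a new random order,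
`B1 = 7 * B / 8` labels in a block, `q = n / B1` blocks.  `ρ = B1 / n`, `κ = B1 / B ≤ 7 / 8`,
`N = n / B`, so `ρ * N = κ`.
-/

set_option autoImplicit false

open Finset
open scoped Nat

namespace MPacf82c.Br

open MPacf82c.St (pavg blk extY extB)

/-- The constant. -/
noncomputable def Cc : ℝ := 7999 / 10000

/-- Start of the current stay: the block after the last star before `m`, or `0`. -/
def sta (b : ℕ → Bool) : ℕ → ℕ
  | 0 => 0
  | m + 1 => if b m then m + 1 else sta b m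

/-- Product over the completed stays, with a factor `κ` for every star. -/
noncomputable def Pf (ρ κ : ℝ) (b : ℕ → Bool) : ℕ → ℝ
  | 0 => 1
  | m + 1 => if b m then Pf ρ κ b m * (1 - ((m : ℝ) - sta b m) * ρ) * κ else Pf ρ κ b m

/-- Bound for the survival probability up to block `m`. -/
noncomputable def gq (ρ κ : ℝ) (b : ℕ → Bool) (m : ℕ) : ℝ :=
  Pf ρ κ b m * (1 - ((m : ℝ) - sta b m) * ρ)

/-- Block `k` of the sweep with the order `σ`. -/
def sw {n : ℕ} (B1 : ℕ) (σ : Equiv.Perm (Fin n)) (k : ℕ) : Finset (Fin n) :=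
  (blk B1 k).map σ.symm.toEmbedding

/-- **SegP.**  Stays at the same label.  Induction on `m`.  No star: the factor of the label
`z0 = y m` changes from `1 - t ρ` to `1 - (t + 1) ρ`, `t ≥ s = m - sta b m` (all blocks of the
current stay have the label `z0`), and `(1-(t+1)ρ)(1-sρ) ≤ (1-tρ)(1-(s+1)ρ)`; `1 - s ρ > 0` if
`0 < ρ`. -/
def S_SegP : Prop := ∀ (n K q : ℕ) (ρ : ℝ) (y : ℕ → Fin n) (b : ℕ → Bool), 0 ≤ ρ → q * ρ ≤ 1 →
  Adm q K y b → ∀ m, m ≤ q →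
  ∏ z : Fin n, (1 - (((range m).filter fun k => b k = false ∧ y k = z).card : ℝ) * ρ) ≤
    gq ρ 1 b m

/-- **SegC.**  Counting the orders.  Copy of `sPermAvoid` (`S/PermAvoid.lean`) and of `fct_lt`,
`labels` (`S/UpA1.lean`): `surv = (B1/B)^(stars) * [∀ k < m no star, σ (y k) ∉ blk B1 k]`
(every block `k < q` has `B1` elements), at most `K + 1` labels, `S_PermCount`, `numer`; only keep the
exact number `n - |T_z| * B1` of the allowed places of the label `z` instead of the Bernoulli bound.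
The labels which do not occur contribute the factor `1`. -/
def S_SegC : Prop := St.S_PermCount → ∀ (n B B1 K q : ℕ) (y : ℕ → Fin n) (b : ℕ → Bool), 0 < B1 →
  B1 ≤ B → K + 1 < n → q * B1 ≤ n → Adm q K y b → ∀ m, m ≤ q →
  pavg (fun σ : Equiv.Perm (Fin n) => surv B (sw B1 σ) y b m) ≤
    ((n : ℝ) / ((n : ℝ) - K - 1)) ^ (K + 1) *
      (((B1 : ℝ) / B) ^ ((range m).filter fun k => b k = true).card *
        ∏ z : Fin n, (1 - (((range m).filter fun k => b k = false ∧ y k = z).card : ℝ) *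
          ((B1 : ℝ) / n)))

/-- **Ine.**  The two inequalities behind the potential, `v = u + δ`.
(1) divide by `N`: for `κ = 7/8` the left side minus the right side is at most
`-C/8 + (8/7 - 7C/8 + 0.0525) δ - (4/7 + 0.0525) δ² + 1/1000 ≤ -0.00163 + 0.001`.
(2) for `κ = 7/8`: with `g v = (1 - v²)/2 + (7/8) C v`, `A = C + 0.06 v - g v`,
`D = 8/7 + 0.06 - g v` the difference (right minus left) is `A - D δ + (4/7) δ² - 0.001`, at least
`A - (7/16) D² - 0.001`, and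
`A - (7/16) D² ≥ 0.0018` on `[0, 1]`, because for `C = 4/5` it is
`(v - 0.6)² (-0.109375 v² + 0.175 v + 0.2275) + 0.0005 v + 0.00197`.
The error from `κ` is at most `7 * 10⁻⁶ * N` (only the term `N / κ`), and `4 ≤ 4 * 10⁻⁵ * N`. -/
def S_Ine : Prop := ∀ (N κ u δ : ℝ), 100000 ≤ N → 7 / 8 - 1 / 100000 ≤ κ → κ ≤ 7 / 8 → 0 ≤ u →
  0 ≤ δ → u + δ ≤ 1 →
  (1 - δ) * (κ * (N * (Cc + 6 / 100 * (u + δ)))) + N / κ * (δ - δ ^ 2 / 2) + 4 ≤
    N * (Cc + 6 / 100 * u) - N / 1000 ∧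
  (1 - δ) * (N * ((1 - (u + δ) ^ 2) / 2 + κ * Cc * (u + δ))) + N / κ * (δ - δ ^ 2 / 2) + 4 ≤
    N * (Cc + 6 / 100 * u) - N / 1000

/-- **Dp.**  For `i ≤ m ≤ q` let
`Stay i m = ∑_{x=m}^{q-1} (1 - (x-i) ρ) + (1 - (q-i) ρ) C N`,
`Jump i m = N (C + 0.06 i ρ) - N/1000 - ∑_{x=i}^{m-1} (1 - (x-i) ρ)`,
`Ψ m = ∑_{x<m} gq x + Pf m * max (Stay (sta m) m) (Jump (sta m) m)`.  `Ψ` is nonincreasing on
`[0, q]`: without a star at `m` it does not change; with a star, with `i = sta m`, `δ = (m-i) ρ`,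
`u = i ρ`, one needs
`(1-δ) (1 + κ max (Stay (m+1) (m+1)) (Jump (m+1) (m+1))) ≤ Jump i m`, which follows from `S_Ine`:
`∑_{x=i}^{m-1} (1 - (x-i) ρ) = (δ - δ²/2)/ρ + δ/2`, `1/ρ = N/κ`, and with `u' = (m+1) ρ = u + δ + ρ`,
`Stay (m+1) (m+1) ≤ N ((1-u'²)/(2κ) + C u') + 1/2 + C κ`
(because `1 - u' - ρ ≤ (q-m-1) ρ ≤ 1 - u'`), `N ρ = κ`; all errors together are at most `4`.
`Ψ 0 = max (Stay 0 0) (Jump 0 0) ≤ (C - 1/1000) N`, `Stay 0 0 ≤ N/(2κ) + 2`;
`Ψ q ≥ ∑_{x<q} gq x + gq q * (C N)` because `Stay i q = (1 - (q-i) ρ) C N`. -/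
def S_Dp : Prop := S_Ine → ∀ (q : ℕ) (ρ N κ : ℝ) (b : ℕ → Bool), 100000 ≤ N →
  7 / 8 - 1 / 100000 ≤ κ → κ ≤ 7 / 8 → ρ * N = κ → (q : ℝ) * ρ ≤ 1 → 1 ≤ ((q : ℝ) + 1) * ρ →
  ∑ m ∈ range q, gq ρ κ b m + gq ρ κ b q * (Cc * N) ≤ (Cc - 1 / 1000) * N

/-- The bound for one sweep. -/
def S_SweC : Prop := ∀ (n B K : ℕ) (y : ℕ → Fin n) (b : ℕ → Bool),
  200000 ≤ B → 100000 * B ≤ n → 1001 * (K + 1) ^ 2 ≤ n →
  Adm (n / (7 * B / 8)) K y b →
  pavg (fun σ : Equiv.Perm (Fin n) =>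
    ∑ m ∈ range (n / (7 * B / 8)), surv B (sw (7 * B / 8) σ) y b m +
      surv B (sw (7 * B / 8) σ) y b (n / (7 * B / 8)) * (Cc * ((n : ℝ) / B))) ≤
    Cc * ((n : ℝ) / B)

/-- **Swe.**  `B1 = 7 * B / 8`, `q = n / B1`, `ρ = B1 / n`, `κ = B1 / B`, `N = n / B`; from `S_SegC`,
`S_SegP` (`gq ρ κ b m = κ ^ (stars before m) * gq ρ 1 b m`), `S_Dp` and
`(n/(n-K-1))^(K+1) ≤ 1001/1000` (`ratio_bound` in `S/Upper.lean`, private there, copy it):
`1001/1000 * (C - 1/1000) ≤ C`. -/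
def S_Swe : Prop := St.S_PermCount → S_SegP → S_SegC → S_Ine → S_Dp → S_SweC

/-- **Gre.**  Strong induction on `M`, for all `ι, w, y, b`.  `q = n / B1 ≥ 1`.  If `M ≤ q`: apply
`S_SweC` to the plans `extY M (y i)`, `extB M (b i)` (`S/Defs.lean`; `Adm q K`), average over `σ`:
some `σ` has `∑ w i * ∑_{m<M} surv ≤ C N ∑ w i` (all terms are nonnegative; the terms with `m < M`
are those of `y i`, `b i`); `L k = sw B1 σ k`.  If `q < M`: some `σ` has
`∑ w i (∑_{m<q} surv_i m + surv_i q * C N) ≤ C N ∑ w i`; apply the induction to `M - q`, the weights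
`w i * surv_i q` and the plans shifted by `q`; `L k = sw B1 σ k` for `k < q`, `L' (k - q)` for
`k ≥ q`; `surv_i (q + m) = surv_i q * surv' m`. -/
def S_Gre : Prop := S_SweC → ∀ (n B K : ℕ), 200000 ≤ B → 100000 * B ≤ n →
  1001 * (K + 1) ^ 2 ≤ n → ∀ (M : ℕ) (ι : Type) [Fintype ι] (w : ι → ℝ) (y : ι → ℕ → Fin n)
  (b : ι → ℕ → Bool), (∀ i, 0 ≤ w i) → (∀ i, Adm M K (y i) (b i)) →
  ∃ L : ℕ → Finset (Fin n), (∀ k, (L k).card ≤ B) ∧
    ∑ i, w i * payoff B M L (y i) (b i) ≤ Cc * ((n : ℝ) / B) * ∑ i, w i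

/-- **Up.**  From `S_Gre` (its conclusion is the second hypothesis): `R0 = 10⁶ (K + 1)`.
Same form as `S_Upper` (`S/SpecA.lean`). -/
def S_UpC : Prop := ∀ K : ℕ, ∃ R0 : ℕ, ∀ (R n B M : ℕ) (V : ℝ), R0 ≤ R → R0 ≤ B →
  B * R ≤ n → n ≤ (B + 1) * R → HiderVal n B M K V → V ≤ Cc * ((n : ℝ) / B)

/-- See above. -/
def S_Up : Prop := S_SweC → S_Gre → S_UpC

end MPacf82c.Br
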