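import Pool.Agent.Lib.MP_acf82c_lc.Br.SpecA
import Pool.Agent.Lib.MP_acf82c_lc.Br.SpecD
import Pool.Agent.Lib.MP_acf82c_lc.S.SpecC

/-!
# Networks with bridges, part E: small networks, assembly

Every `S_X` is to be proved as `theorem tX : S_X` in the module
`Pool/Agent/Lib/MP_acf82c_lc/Br/X.lean` (namespace `MPacf82c.Br`), which imports this file and
modules of the landed library (named in the docstrings).  Statements which are used are hypotheses,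
so all modules are independent.
-/

set_option autoImplicit false

open Set MeasureTheory
open scoped NNReal ENNReal

namespace MPacf82c.Br

open MPacf82c.St (Up CloverC S_UpPart S_CloverLow)

/-- Labels of a network with the bridges `E`: the label `i` is the point
`pt (arcOf i) (pos i)`.  On the arcs outside of `E` the points are separated by `h`; all labels of a
bridge `e ∈ E` are at the same point, at distance `h / 2` from the end of `e` which is far from the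
root `r`, and there are at most `(2 len e - h) / h` of them. -/
structure IsLab {Q : Type} [MetricSpace Q] (N : Network Q) (E : Finset N.Arc)
    (g : N.Arc → Q → ℝ) (r : Q) (h : ℝ) {n : ℕ} (arcOf : Fin n → N.Arc) (pos : Fin n → ℝ) :
    Prop where
  mem : ∀ i, pos i ∈ Ioo 0 (N.len (arcOf i))
  sep : ∀ i j, i ≠ j → arcOf i ∉ E → arcOf j ∉ E →
    h ≤ dist (N.pt (arcOf i) (pos i)) (N.pt (arcOf j) (pos j))
  ball : ∀ i, arcOf i ∉ E → ∀ z, dist z (N.pt (arcOf i) (pos i)) < h / 2 →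
    z ∈ N.openArc (arcOf i)
  near : ∀ i, arcOf i ∈ E → g (arcOf i) r = 0 → pos i = N.len (arcOf i) - h / 2
  far : ∀ i, arcOf i ∈ E → g (arcOf i) r = N.len (arcOf i) → pos i = h / 2
  cnt : ∀ e, e ∉ E → ∀ s : Finset (Fin n), (∀ i ∈ s, arcOf i = e) → (s.card : ℝ) * h ≤ N.len e
  cntB : ∀ e ∈ E, ∀ s : Finset (Fin n), (∀ i ∈ s, arcOf i = e) → s.Nonempty →
    (s.card : ℝ) * h ≤ 2 * N.len e - h

/-- **Lab.**  Copy of `samples` (`Samples.lean`) for the arcs outside of `E`; `Fin n` is equivalent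
to the sigma type of the arcs `e` and `Fin (m e)`, `m e = ⌊len e / h⌋₊` for `e ∉ E`,
`m e = ⌊(2 len e - h) / h⌋₊` for `e ∈ E`. -/
def S_Lab : Prop := ∀ (Q : Type) [MetricSpace Q] (N : Network Q) (E : Finset N.Arc)
  (g : N.Arc → Q → ℝ) (r : Q) (h : ℝ), 0 < h → (∀ e, h ≤ N.len e) →
  (∀ e ∈ E, g e r = 0 ∨ g e r = N.len e) →
  ∃ (n : ℕ) (arcOf : Fin n → N.Arc) (pos : Fin n → ℝ), IsLab N E g r h arcOf pos ∧
    (n : ℝ) * h ≤ N.length + ∑ e ∈ E, N.len e ∧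
    N.length + ∑ e ∈ E, N.len e ≤ ((n : ℝ) + 2 * Fintype.card N.Arc) * h

/-- **CovN.**  `coverage_time` (`Coverage.lean`) for the labels outside of `E` (reindex them by
`Fin n'`). -/
def S_CovN : Prop := ∀ (Q : Type) [MetricSpace Q] (N : Network Q) (E : Finset N.Arc)
  (g : N.Arc → Q → ℝ) (r : Q) (h : ℝ) (n : ℕ) (arcOf : Fin n → N.Arc) (pos : Fin n → ℝ),
  0 < h → IsLab N E g r h arcOf pos → ∀ S : ℝ → Q, LipschitzWith 1 S → ∀ t0 t1 : ℝ, t0 ≤ t1 →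
  ∀ (A : Finset N.Arc) (s : Finset (Fin n)), (∀ i ∈ s, arcOf i ∈ A ∧ arcOf i ∉ E ∧
    ∃ t ∈ Icc t0 t1, S t = N.pt (arcOf i) (pos i)) → (∀ e ∈ A, e ∉ E) →
  h * (s.card : ℝ) - 2 * h ≤ ∑ e ∈ A, timeIn S t0 t1 (N.openArc e)

/-- **Crs.**  Time in a bridge: `S t0`, `S t1` on the root side, the point at distance `h / 2` from the
far end visited.  `f = |g e (S ·) - g e r|` is 1-Lipschitz (`S_Lip` for `g e`: only the arc `e`
matters), `f t0 = f t1 = 0`, `f t = len e - h / 2`; `{s : 0 < f s < len e} = {s : S s ∈ open arc}`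
(off the open arc `g e` is `0` or `len e`); on `[t0, t]` and on `[t, t1]` the set
`{s : 0 < f s < len e - h / 2}` has measure at least `len e - h / 2` (its image under the 1-Lipschitz
`f` is the whole interval). -/
def S_Crs : Prop := S_Lip → ∀ (Q : Type) [MetricSpace Q] (N : Network Q) (e : N.Arc) (g : Q → ℝ)
  (r : Q) (h : ℝ), 0 < h → h ≤ N.len e → IsPos N e g → r ∉ N.openArc e → ∀ S : ℝ → Q,
  LipschitzWith 1 S → ∀ t0 t1 : ℝ, t0 ≤ t1 → g (S t0) = g r → g (S t1) = g r →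
  (∃ t ∈ Icc t0 t1, |g (S t) - g r| = N.len e - h / 2) →
  2 * N.len e - h ≤ timeIn S t0 t1 (N.openArc e)

/-- **Exc.**  The bridges with `g e z ≠ g e r` have total length at most `3 D`: those with
`z ∉ open arc e` contribute `|g e z - g e r| = len e` to the sum in `S_Sum`, at most `D`; at most one
bridge has `z` in its open arc (`openArc_unique`), of length at most `2 D`
(`len_le_two_diam`, `NetBasic.lean`). -/
def S_Exc : Prop := S_Lip → S_Sum → ∀ (Q : Type) [MetricSpace Q] (N : Network Q)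
  (E : Finset N.Arc) (g : N.Arc → Q → ℝ) (r z : Q) (D : ℝ), (∀ x y : Q, dist x y ≤ D) →
  (∀ e ∈ E, IsPos N e (g e)) → (∀ e ∈ E, r ∉ N.openArc e) → ∀ X : Finset N.Arc, X ⊆ E →
  (∀ e ∈ X, g e z ≠ g e r) → ∑ e ∈ X, N.len e ≤ 3 * D

/-- Coverage for the labels of a network with bridges. -/
def S_CovC : Prop := ∀ (Q : Type) [MetricSpace Q] (N : Network Q) (E : Finset N.Arc)
  (g : N.Arc → Q → ℝ) (r : Q) (h D : ℝ) (n : ℕ) (arcOf : Fin n → N.Arc) (pos : Fin n → ℝ),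
  0 < h → (∀ e, h ≤ N.len e) → (∀ x y : Q, dist x y ≤ D) → (∀ e ∈ E, IsPos N e (g e)) →
  (∀ e ∈ E, r ∉ N.openArc e) → IsLab N E g r h arcOf pos → ∀ S : ℝ → Q, LipschitzWith 1 S →
  ∀ t0 t1 : ℝ, t0 ≤ t1 → ∀ (A : Finset N.Arc) (s : Finset (Fin n)), (∀ i ∈ s, arcOf i ∈ A ∧
    ∃ t ∈ Icc t0 t1, S t = N.pt (arcOf i) (pos i)) →
  h * (s.card : ℝ) - (2 * h + 12 * D) ≤ ∑ e ∈ A, timeIn S t0 t1 (N.openArc e)

/-- **Cov.**  Split `A` and `s`.  Outside of `E`: `S_CovN`.  Labels of a bridge `e ∈ A ∩ E` with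
`g e (S t0) = g e (S t1) = g e r`: by `cntB` and `S_Crs` their number times `h` is at most
`2 len e - h ≤ timeIn`.  Labels of the other bridges: at most `2 * (3 D + 3 D) / h` (`S_Exc` for
`z = S t0`, `z = S t1`). -/
def S_Cov : Prop := S_Lip → S_Sum → S_CovN → S_Crs → S_Exc → S_CovC

/-- **Hub.**  Copy of `hub_bound` (`HubBound.lean`) with `T0 = h B - k0`, `hcov` with `k0` instead of
`2 h`, and `hcnt` with `2 * len e`: the labels on the hubs are at most `2 Rt / (β h)`,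
`z0 + ∑_{hub} u ≤ h B (1 - |L|/B) + 2 Rt/β`, `h B - (T0 - Γ) = k0 + Γ`. -/
def S_Hub : Prop := ∀ (E : Type) [Fintype E] (n : ℕ), 2 ≤ n → ∀ (len u : E → ℝ)
  (z0 D h β Γ Rt k0 : ℝ) (B : ℕ) (T0 : ℝ), T0 = h * B - k0 → 0 ≤ k0 → 0 < h → 0 < β → 0 < Γ →
  Γ < T0 → 1 ≤ B → 0 ≤ D → 0 ≤ Rt → (∀ e, 0 < len e) → (∀ e, len e ≤ 2 * D) → (∀ e, 0 ≤ u e) →
  0 ≤ z0 → z0 + ∑ e, u e = T0 → ∀ arcOf : Fin n → E,
  (∀ e, ∀ s : Finset (Fin n), (∀ i ∈ s, arcOf i = e) → (s.card : ℝ) * h ≤ 2 * len e) →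
  ∀ F : Fin n → Fin n → E → ℝ, (∀ i j e, 0 ≤ F i j e) → (∀ i j e, F i j e ≤ 1) →
  (∀ i j, ∑ e, len e * F i j e ≤ Rt) → ∀ L : Finset (Fin n), L.card ≤ B →
  (∀ (A : Finset E) (s : Finset (Fin n)), (∀ i ∈ s, i ∈ L ∧ arcOf i ∈ A) →
    h * (s.card : ℝ) - k0 ≤ ∑ e ∈ A, u e) →
  ∃ z : Fin n → Fin n → ℝ, (∀ i j, 0 ≤ z i j) ∧
    ∑ i, ∑ j ∈ Finset.univ.filter (fun j => j ≠ i), z i j ≤ (n * (n - 1) : ℝ) *
      ((Γ + k0 + D + 2 * Rt / β) / (T0 - Γ) + (Rt + 2 * D) / Γ +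
        (β * T0 + 16 * D * T0 / (n * h)) / (T0 - Γ)) ∧
    ∀ i j, i ≠ j → (z0 + ∑ e, F i j e * u e + D + 2 * u (arcOf i) + 2 * u (arcOf j)) /
        (T0 - Γ) + (Rt + 2 * D) / Γ ≤ 1 - (L.card : ℝ) / B + z i j

/-- The good moves of a network with bridges. -/
def S_NetBC : Prop := ∀ (Q : Type) [MetricSpace Q] (N : Network Q) (E : Finset N.Arc)
  (g : N.Arc → Q → ℝ) (r : Q) (D h β Γ : ℝ) (n B : ℕ) (arcOf : Fin n → N.Arc)
  (pos : Fin n → ℝ), (∀ x y : Q, dist x y ≤ D) → 0 < h → (∀ e, h ≤ N.len e) → 0 < β →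
  Real.sqrt (N.length * D) + 2 * D < Γ → (∀ e ∈ E, IsPos N e (g e)) →
  (∀ e ∈ E, r ∉ N.openArc e) → IsLab N E g r h arcOf pos → 2 ≤ n → 1 ≤ B →
  Γ < h * B - (2 * h + 12 * D) →
  GoodMoves Q n B (h * B - (2 * h + 12 * D))
    (errN n (h * B - (2 * h + 12 * D)) h β Γ (13 * D) (2 * Real.sqrt (N.length * D)))

/-- **NetB.**  Copy of `net_moves` (`NetMoves.lean`): `x i = pt (arcOf i) (pos i)`, `move_one`,
`timeIn_total`, `S_CovC` instead of `coverage_time` and `visited_card` (`L.card ≤ B` from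
`h |L| - k0 ≤ ∑ timeIn ≤ T0 = h B - k0`, `k0 = 2 h + 12 D`), `S_Hub` instead of `hub_bound` (its error
is at most `errN .. (13 D) (2 Rt)`). -/
def S_NetB : Prop := S_CovC → S_Hub → S_NetBC

/-- Good moves in small networks, all data chosen. -/
def S_BrGC : Prop := ∀ R : ℕ, 3 ≤ R → ∀ γ δ : ℝ, 0 < γ → γ ≤ 1 / (4 * (R : ℝ)) → 0 < δ →
  δ ≤ γ ^ 4 / 13 → ∀ (Q : Type) [MetricSpace Q] (N : Network Q),
  (∀ x y : Q, dist x y ≤ δ * N.length) → 0 < N.length → ∀ n1 : ℕ,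
  ∃ h0 : ℝ, 0 < h0 ∧ ∀ h : ℝ, 0 < h → h ≤ h0 → ∃ n B : ℕ, B = n / R ∧ n1 ≤ n ∧ n1 ≤ B ∧
    (n : ℝ) * h ≤ N.length + N.bridgeLength ∧
    N.length + N.bridgeLength ≤ ((n : ℝ) + 2 * Fintype.card N.Arc) * h ∧
    0 < h * B - (2 * h + 12 * (δ * N.length)) ∧
    GoodMoves Q n B (h * B - (2 * h + 12 * (δ * N.length))) (87 * R * γ)

/-- **BrG.**  `E` = the bridges (`∑ e ∈ E, len e = bridgeLength`), `g` from `S_Pos`, `r = pt e0 0` a
node, `S_Lab`, `S_NetBC` with `D = δ μ`, `β = γ`, `Γ = γ μ'`, `μ' = μ + bridgeLength ≥ μ`.  As in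
`two_sided_aux` (`TwoSided.lean`) and `S_HSmall` (`S/HSmall.lean`) with `μ'` instead of `μ`: for small
`h`, `μ'/(2R) ≤ T0 = h B - 2h - 12 δ μ ≤ μ'/R` (`12 δ ≤ 1/(16 R)`), `3 h ≤ γ μ'`, `μ'/2 ≤ n h`;
`13 D ≤ γ⁴ μ'`, `2 √(μ D) ≤ γ² μ'`; `err_arith` (`Arith.lean`) and monotonicity of `errN`
(`sErrMono`, `S/ErrMono.lean`). -/
def S_BrG : Prop := S_Pos → S_Lab → S_NetBC → S_BrGC

/-- Small networks. -/
def S_SmallC : Prop := ∀ c : ℝ, CloverC c → ∀ ε : ℝ, 0 < ε → ∃ δ : ℝ, 0 < δ ∧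
  ∀ (Q : Type) [MetricSpace Q] (N : Network Q) (O : Q),
    (∀ x y : Q, dist x y ≤ δ * N.length) → ∀ w : ℝ≥0, 1 ≤ w →
    HiderGuarantees w O (ENNReal.ofReal ((c - ε) * (N.length + N.bridgeLength)))

/-- **Small.**  As `sFinal` (`S/Final.lean`) without bonus: `ε' = min (ε/8) (1/8)`, `L ≥ 30/ε'`, `K`
from `S_UpPart`, `R ≥ 3`, `R ≥ 3 (1 + 2 L K)/ε'`, `M = L R`,
`γ = min (1/(4R)) (ε'/(261 R L K))`, `δ = min (γ⁴/13) (ε'/(96 R))`; `S_BrGC` with `n1` large;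
`block_game` gives `V` with `SearcherVal`, `HiderVal`, `stationary`: `n/(2B) ≤ V`; `x = B/n V`;
`S_UpPart`, `S_CloverLow`: `c - ε' ≤ x + ε'`; `hider_strategy` (`HiderStrategy.lean`) with
`T0 = h B - (2h + 12 δ μ)`; `lower_arith` (with `μ' = μ + bridgeLength` for `μ` and
`c := 2 card Arc`) gives `(x - ε') μ' ≤ h (B - 1) W`, `W = V - 1 - M K (err + 2B/n) ≤ V ≤ 4 R`, and
`T0 W ≥ h (B - 1) W - (h + 12 δ μ) 4 R ≥ (x - 2 ε') μ'`. -/
def S_Small : Prop := S_BrGC → S_UpPart → S_CloverLow → S_SmallC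

/-- The clover constant is at most `C`. -/
def S_CLtC : Prop := ∀ c : ℝ, CloverC c → c ≤ Cc

/-- **CLt.**  For `ε > 0` (`≤ 1`): `L ≥ 30/ε`, `K` from `S_UpPart`, `R ≥ 3` and `R ≥ R0` (`S_UpC K`),
`n` large, `B = n / R`, `M = L R`; `block_game` gives `V`, `stationary`: `n/(2B) ≤ V`;
`V ≤ C n/B` by `S_UpC`; `Up n (B/n V + ε)` by `S_UpPart`; `S_CloverLow`: `c - ε ≤ B/n V + ε ≤ C + ε`. -/
def S_CLt : Prop := S_UpC → S_UpPart → S_CloverLow → S_CLtC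

/-- The theorem. -/
def S_Thm : Prop := ∃ c : ℝ, 1 / 2 ≤ c ∧ c < 4 / 5 ∧
  (∀ ε : ℝ, 0 < ε → ∃ n₀ : ℕ, ∀ n : ℕ, n₀ ≤ n →
    ∀ (Q : Type) [MetricSpace Q] (N : Network Q) (O : Q), IsClover N O n →
    ∀ w : ℝ≥0, 1 ≤ w →
      HiderGuarantees w O (ENNReal.ofReal ((c - ε) * n)) ∧
      SearcherGuarantees w O (ENNReal.ofReal ((c + ε) * n))) ∧
  (∀ (Q : Type) [MetricSpace Q] (N : Network Q) (O : Q),
    3 / 5 * N.length ≤ N.bridgeLength → ∀ w : ℝ≥0, 1 ≤ w →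
      HiderGuarantees w O (ENNReal.ofReal (c * N.length))) ∧
  (∀ ε : ℝ, 0 < ε → ∃ δ : ℝ, 0 < δ ∧ ∀ (Q : Type) [MetricSpace Q] (N : Network Q) (O : Q),
    (∀ x y : Q, dist x y ≤ δ * N.length) → ∀ w : ℝ≥0, 1 ≤ w →
    HiderGuarantees w O (ENNReal.ofReal ((c - ε) * (N.length + N.bridgeLength))))

/-- **Thm.**  `c` from `main` (`Final.lean`), `S_CLtC`, `S_ImmC` (`c μ < (μ + β)/2`), `S_SmallC`. -/
def S_ThmS : Prop := S_ImmC → S_SmallC → S_CLtC → S_Thm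

end MPacf82c.Br
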