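import Pool.Agent.Lib.MP_acf82c_lc.Br.SpecA
import Pool.Agent.Lib.MP_acf82c_lc.HiderMix

/-!
# Networks with bridges: immobile hiders
-/

set_option autoImplicit false

open Set Finset
open scoped NNReal ENNReal

namespace MPacf82c.Br

/-- The first time at which `S` is at `x` (`0` if there is none). -/
private noncomputable def Sta_ft {Q : Type} (S : ℝ≥0 → Q) (x : Q) : ℝ≥0 := sInf {t | S t = x}

private theorem Sta_mem {Q : Type} [MetricSpace Q] {S : ℝ≥0 → Q} (hS : LipschitzWith 1 S) {x : Q}
    (hx : ∃ t, S t = x) : S (Sta_ft S x) = x := by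
  have h1 : IsClosed {t | S t = x} := isClosed_eq hS.continuous continuous_const
  exact h1.csInf_mem hx (OrderBot.bddBelow _)

private theorem Sta_le {Q : Type} (S : ℝ≥0 → Q) (x : Q) :
    (Sta_ft S x : ℝ≥0∞) ≤ captureTime S (fun _ => x) := by
  rw [captureTime]
  refine le_iInf₂ fun t ht => ?_
  have h1 : sInf {t | S t = x} ≤ t := csInf_le (OrderBot.bddBelow _) (by exact ht)
  exact ENNReal.coe_le_coe.mpr h1

private theorem Sta_dist {Q : Type} [MetricSpace Q] {S : ℝ≥0 → Q} (hS : LipschitzWith 1 S)
    {x y : Q} (hx : ∃ t, S t = x) (hy : ∃ t, S t = y) :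
    dist x y ≤ |(Sta_ft S x : ℝ) - (Sta_ft S y : ℝ)| := by
  have h1 := hS.dist_le_mul (Sta_ft S x) (Sta_ft S y)
  rw [Sta_mem hS hx, Sta_mem hS hy, NNReal.dist_eq] at h1
  simpa using h1

private theorem Sta_root {Q : Type} [MetricSpace Q] {S : ℝ≥0 → Q} (hS : LipschitzWith 1 S)
    {O x : Q} (h0 : S 0 = O) (hx : ∃ t, S t = x) : dist O x ≤ (Sta_ft S x : ℝ) := by
  have h1 := hS.dist_le_mul 0 (Sta_ft S x)
  rw [Sta_mem hS hx, h0, NNReal.dist_eq] at h1
  simpa using h1

theorem tSta : S_Sta := by
  classical
  intro Q _ _ O w Y p v hp hp0 hp1 hT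
  refine mix_guarantee (ι := ↥Y) (Ω0 := Unit) (q := fun i => p i) (fun i => hp i) ?_
    (fun _ => MeasureTheory.Measure.dirac ()) (fun _ => inferInstance) (fun i _ _ => (i : Q))
    (fun i _ => LipschitzWith.const' _) (fun i t => @measurable_const _ _ _ _ _) ?_
  · rw [Finset.sum_coe_sort Y p]
    exact hp1
  intro S hS0 hS
  have hint : ∀ i : ↥Y, ∫⁻ _ : Unit, captureTime S (fun _ => (i : Q))
      ∂(MeasureTheory.Measure.dirac ()) = captureTime S (fun _ => (i : Q)) := by
    intro i
    simp
  simp only [hint]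
  rw [Finset.sum_coe_sort Y (fun x => ENNReal.ofReal (p x) * captureTime S (fun _ => x))]
  by_cases hall : ∀ x ∈ Y, 0 < p x → ∃ t, S t = x
  · -- all points of positive weight are visited
    set M : ℝ := ∑ x ∈ Y, (Sta_ft S x : ℝ) + ∑ x ∈ Y, ∑ y ∈ Y, dist x y + ∑ x ∈ Y, dist O x
      with hM
    have hA : 0 ≤ ∑ x ∈ Y, (Sta_ft S x : ℝ) := Finset.sum_nonneg fun x _ => NNReal.coe_nonneg _
    have hB : 0 ≤ ∑ x ∈ Y, ∑ y ∈ Y, dist x y :=
      Finset.sum_nonneg fun x _ => Finset.sum_nonneg fun y _ => dist_nonneg
    have hC : 0 ≤ ∑ x ∈ Y, dist O x := Finset.sum_nonneg fun x _ => dist_nonneg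
    have hM0 : 0 ≤ M := by linarith
    have hMt : ∀ x ∈ Y, (Sta_ft S x : ℝ) ≤ M := by
      intro x hx
      have h1 := Finset.single_le_sum (f := fun x => (Sta_ft S x : ℝ))
        (fun z _ => NNReal.coe_nonneg _) hx
      linarith
    have hMd : ∀ x ∈ Y, ∀ y ∈ Y, dist x y ≤ M := by
      intro x hx y hy
      have h1 := Finset.single_le_sum (f := fun y => dist x y) (fun z _ => dist_nonneg) hy
      have h2 := Finset.single_le_sum (f := fun x => ∑ y ∈ Y, dist x y)
        (fun z _ => Finset.sum_nonneg fun y _ => dist_nonneg) hx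
      linarith
    have hMO : ∀ x ∈ Y, dist O x ≤ M := by
      intro x hx
      have h1 := Finset.single_le_sum (f := fun x => dist O x) (fun z _ => dist_nonneg) hx
      linarith
    set k : Q → ℕ := fun x => if h : x ∈ Y then (Y.equivFin ⟨x, h⟩ : ℕ) + 1 else 0 with hk
    have hk1 : ∀ x ∈ Y, 1 ≤ k x := by
      intro x hx
      simp only [hk, dif_pos hx]
      omega
    have hkinj : ∀ x ∈ Y, ∀ y ∈ Y, x ≠ y → k x ≠ k y := by
      intro x hx y hy hxy he
      simp only [hk, dif_pos hx, dif_pos hy] at he
      have h1 : Y.equivFin ⟨x, hx⟩ = Y.equivFin ⟨y, hy⟩ := Fin.ext (by omega)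
      have h2 := Y.equivFin.injective h1
      exact hxy (by simpa using h2)
    set T : Q → ℝ := fun x => if ∃ t, S t = x then (Sta_ft S x : ℝ) else M + k x * M with hTdef
    have hT1 : ∀ x, (∃ t, S t = x) → T x = Sta_ft S x := fun x hx => by
      simp only [hTdef, if_pos hx]
    have hT2 : ∀ x, (¬ ∃ t, S t = x) → T x = M + k x * M := fun x hx => by
      simp only [hTdef, if_neg hx]
    have hbig : ∀ x ∈ Y, 2 * M ≤ M + k x * M := by
      intro x hx
      have h1 : (1 : ℝ) ≤ k x := by exact_mod_cast hk1 x hx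
      nlinarith
    have hfeas : Feas Y (fun x => dist O x) dist T := by
      constructor
      · intro x hx
        by_cases hv : ∃ t, S t = x
        · rw [hT1 x hv]
          exact Sta_root hS hS0 hv
        · rw [hT2 x hv]
          have h1 := hbig x hx
          have h2 := hMO x hx
          linarith
      · intro x hx y hy hxy
        have hd := hMd x hx y hy
        by_cases hvx : ∃ t, S t = x
        · by_cases hvy : ∃ t, S t = y
          · rw [hT1 x hvx, hT1 y hvy]
            exact Sta_dist hS hvx hvy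
          · rw [hT1 x hvx, hT2 y hvy]
            have h1 := hbig y hy
            have h2 := hMt x hx
            refine le_trans ?_ (neg_le_abs _)
            linarith
        · by_cases hvy : ∃ t, S t = y
          · rw [hT2 x hvx, hT1 y hvy]
            have h1 := hbig x hx
            have h2 := hMt y hy
            refine le_trans ?_ (le_abs_self _)
            linarith
          · rw [hT2 x hvx, hT2 y hvy]
            have h1 : M + k x * M - (M + k y * M) = ((k x : ℝ) - k y) * M := by ring
            rw [h1, abs_mul, abs_of_nonneg hM0]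
            have h2 : (1 : ℝ) ≤ |(k x : ℝ) - k y| := by
              have h3 := hkinj x hx y hy hxy
              rcases lt_or_gt_of_ne h3 with h4 | h4
              · have h5 : (k x : ℝ) + 1 ≤ k y := by exact_mod_cast h4
                refine le_trans ?_ (neg_le_abs _)
                linarith
              · have h5 : (k y : ℝ) + 1 ≤ k x := by exact_mod_cast h4
                refine le_trans ?_ (le_abs_self _)
                linarith
            calc dist x y ≤ M := hd
              _ = 1 * M := (one_mul M).symm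
              _ ≤ |(k x : ℝ) - k y| * M := mul_le_mul_of_nonneg_right h2 hM0
    have hTn : ∀ x ∈ Y, 0 ≤ T x := fun x hx => le_trans dist_nonneg (hfeas.1 x hx)
    refine (ENNReal.ofReal_le_ofReal (hT T hfeas)).trans ?_
    rw [ENNReal.ofReal_sum_of_nonneg fun x hx => mul_nonneg (hp x) (hTn x hx)]
    refine Finset.sum_le_sum fun x hx => ?_
    rcases (hp x).eq_or_lt with h0 | hpos
    · rw [← h0]
      simp
    · have hv := hall x hx hpos
      rw [ENNReal.ofReal_mul (hp x), hT1 x hv, ENNReal.ofReal_coe_nnreal]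
      exact mul_le_mul_right (Sta_le S x) _
  · -- a point of positive weight is never visited
    push Not at hall
    obtain ⟨x, hx, hpx, hnv⟩ := hall
    have h1 : captureTime S (fun _ => x) = ∞ := by
      rw [captureTime]
      simp only [iInf_eq_top]
      intro t ht
      exact absurd ht (hnv t)
    have h2 : ENNReal.ofReal (p x) * captureTime S (fun _ => x) = ∞ := by
      rw [h1, ENNReal.mul_top]
      exact (ENNReal.ofReal_pos.mpr hpx).ne'
    have h3 : ENNReal.ofReal (p x) * captureTime S (fun _ => x) ≤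
        ∑ x ∈ Y, ENNReal.ofReal (p x) * captureTime S (fun _ => x) :=
      Finset.single_le_sum (f := fun x => ENNReal.ofReal (p x) * captureTime S (fun _ => x))
        (fun _ _ => bot_le) hx
    rw [h2] at h3
    exact le_trans le_top h3

end MPacf82c.Br
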