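import Pool.Agent.Lib.MP_acf82c_lc.Br.SpecA

set_option autoImplicit false

open Set Finset
open scoped NNReal ENNReal

namespace MPacf82c.Br

theorem tSum : S_Sum := by
  intro hLip Q _ N E g hg x y
  classical
  have hk : ∀ c, ∀ s ∈ Icc 0 (N.len c), ∀ t ∈ Icc 0 (N.len c),
      |(fun z => ∑ e ∈ E, (if 0 ≤ g e x - g e y then (1 : ℝ) else -1) * g e z) (N.pt c s) -
        (fun z => ∑ e ∈ E, (if 0 ≤ g e x - g e y then (1 : ℝ) else -1) * g e z) (N.pt c t)| ≤
        |s - t| := by
    intro c s hs t ht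
    show |(∑ e ∈ E, (if 0 ≤ g e x - g e y then (1 : ℝ) else -1) * g e (N.pt c s)) -
        ∑ e ∈ E, (if 0 ≤ g e x - g e y then (1 : ℝ) else -1) * g e (N.pt c t)| ≤ |s - t|
    rw [← Finset.sum_sub_distrib]
    by_cases hc : c ∈ E
    · rw [Finset.sum_eq_single_of_mem c hc]
      · rw [(hg c hc).on s hs, (hg c hc).on t ht, ← mul_sub, abs_mul]
        split_ifs <;> simp
      · intro e he hec
        rw [(hg e he).const c (Ne.symm hec) s hs t ht, sub_self]
    · rw [Finset.sum_eq_zero]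
      · simp
      · intro e he
        have hec : c ≠ e := fun h => hc (h ▸ he)
        rw [(hg e he).const c hec s hs t ht, sub_self]
  have h := hLip Q N (fun z => ∑ e ∈ E, (if 0 ≤ g e x - g e y then (1 : ℝ) else -1) * g e z) hk x y
  refine le_trans ?_ h
  refine le_trans ?_ (le_abs_self _)
  show _ ≤ (∑ e ∈ E, (if 0 ≤ g e x - g e y then (1 : ℝ) else -1) * g e x) -
    ∑ e ∈ E, (if 0 ≤ g e x - g e y then (1 : ℝ) else -1) * g e y
  rw [← Finset.sum_sub_distrib]
  refine Finset.sum_le_sum (fun e _ => ?_)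
  rw [← mul_sub]
  split_ifs with h0
  · rw [abs_of_nonneg h0, one_mul]
  · rw [abs_of_neg (not_le.1 h0)]
    linarith

end MPacf82c.Br
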