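import Pool.Agent.Lib.MP_acf82c_lc.Br.SpecD

/-!
# Networks with bridges, part D: the bound for one sweep
-/

set_option autoImplicit false

open Finset
open scoped Nat

namespace MPacf82c.Br

open MPacf82c.St (pavg blk extY extB)

private lemma Swe_ratio {K n : ℕ} (h : 1001 * (K + 1) ^ 2 ≤ n) :
    ((n : ℝ) / ((n : ℝ) - K - 1)) ^ (K + 1) ≤ 1001 / 1000 := by
  have hn' : (1001 : ℝ) * ((K : ℝ) + 1) ^ 2 ≤ n := by exact_mod_cast h
  have hK : (0 : ℝ) ≤ K := Nat.cast_nonneg K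
  have hn0 : (0 : ℝ) < n := by nlinarith
  have hKn : ((K : ℝ) + 1) ^ 2 / n ≤ 1 / 1001 := by
    rw [div_le_div_iff₀ hn0 (by norm_num)]
    linarith
  have hKn1 : ((K : ℝ) + 1) / n ≤ 1 / 1001 := by
    refine le_trans ?_ hKn
    apply div_le_div_of_nonneg_right _ hn0.le
    nlinarith
  have hb : 1 + ((K + 1 : ℕ) : ℝ) * (-(((K : ℝ) + 1) / n)) ≤ (1 + (-(((K : ℝ) + 1) / n))) ^ (K + 1) := by
    apply one_add_mul_le_pow
    have : (0 : ℝ) ≤ ((K : ℝ) + 1) / n := by positivity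
    linarith
  have hb2 : 1000 / 1001 ≤ (1 + (-(((K : ℝ) + 1) / n))) ^ (K + 1) := by
    refine le_trans ?_ hb
    have e1 : 1 + ((K + 1 : ℕ) : ℝ) * (-(((K : ℝ) + 1) / n)) = 1 - ((K : ℝ) + 1) ^ 2 / n := by
      push_cast
      ring
    rw [e1]
    linarith
  have hpos : (0 : ℝ) < 1 + (-(((K : ℝ) + 1) / n)) := by linarith
  have e2 : (n : ℝ) / ((n : ℝ) - K - 1) = (1 + (-(((K : ℝ) + 1) / n)))⁻¹ := by
    have e3 : 1 + (-(((K : ℝ) + 1) / n)) = ((n : ℝ) - K - 1) / n := by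
      field_simp
      ring
    rw [e3, inv_div]
  rw [e2, inv_pow]
  rw [inv_le_comm₀ (by positivity) (by norm_num)]
  linarith

private lemma Swe_Pf (ρ κ : ℝ) (b : ℕ → Bool) (m : ℕ) :
    Pf ρ κ b m = κ ^ ((range m).filter fun k => b k = true).card * Pf ρ 1 b m := by
  induction m with
  | zero => simp [Pf]
  | succ m ih =>
    rw [Finset.range_add_one, Finset.filter_insert]
    by_cases hb : b m = true
    · have hnot : m ∉ (range m).filter fun k => b k = true := by simp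
      rw [if_pos hb, Finset.card_insert_of_notMem hnot, pow_succ]
      simp only [Pf, hb, if_true]
      rw [ih]
      ring
    · rw [if_neg hb]
      simp only [Pf, hb]
      simpa using ih

private lemma Swe_gq (ρ κ : ℝ) (b : ℕ → Bool) (m : ℕ) :
    gq ρ κ b m = κ ^ ((range m).filter fun k => b k = true).card * gq ρ 1 b m := by
  unfold gq
  rw [Swe_Pf ρ κ b m]
  ring

private lemma Swe_pavg_add {n : ℕ} (f g : Equiv.Perm (Fin n) → ℝ) :
    pavg (fun σ => f σ + g σ) = pavg f + pavg g := by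
  unfold pavg
  rw [Finset.sum_add_distrib, add_div]

private lemma Swe_pavg_mul {n : ℕ} (f : Equiv.Perm (Fin n) → ℝ) (c : ℝ) :
    pavg (fun σ => f σ * c) = pavg f * c := by
  unfold pavg
  rw [← Finset.sum_mul]
  ring

private lemma Swe_pavg_sum {n : ℕ} (q : ℕ) (f : ℕ → Equiv.Perm (Fin n) → ℝ) :
    pavg (fun σ => ∑ m ∈ range q, f m σ) = ∑ m ∈ range q, pavg (f m) := by
  unfold pavg
  rw [Finset.sum_comm, Finset.sum_div]

/-- **Swe.** -/
theorem tSwe : S_Swe := by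
  intro hPC hSegP hSegC hIne hDp n B K y b hB hn hK hadm
  set B1 : ℕ := 7 * B / 8 with hB1
  set q : ℕ := n / B1 with hq
  have hBpos : (0 : ℝ) < B := by
    have : 0 < B := by omega
    exact_mod_cast this
  have hB1pos : 0 < B1 := by omega
  have hB1B : B1 ≤ B := by omega
  have hnpos : 0 < n := by
    have : 0 < 100000 * B := by omega
    omega
  have hnR : (0 : ℝ) < n := by exact_mod_cast hnpos
  have hB1R : (0 : ℝ) < B1 := by exact_mod_cast hB1pos
  have hKn : K + 1 < n := by nlinarith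
  have hqB : q * B1 ≤ n := Nat.div_mul_le_self n B1
  have hqB' : n < (q + 1) * B1 := by
    have := Nat.lt_div_mul_add (a := n) hB1pos
    rw [← hq] at this
    nlinarith
  set ρ : ℝ := (B1 : ℝ) / n with hρ
  set κ : ℝ := (B1 : ℝ) / B with hκ
  set N : ℝ := (n : ℝ) / B with hN
  have hρ0 : 0 ≤ ρ := by positivity
  have hN1 : 100000 ≤ N := by
    rw [hN, le_div_iff₀ hBpos]
    exact_mod_cast hn
  have hκ1 : 7 / 8 - 1 / 100000 ≤ κ := by
    rw [hκ, le_div_iff₀ hBpos]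
    have h1 : 7 * B ≤ 8 * B1 + 7 := by omega
    have h2 : (7 : ℝ) * B ≤ 8 * B1 + 7 := by exact_mod_cast h1
    have h3 : (200000 : ℝ) ≤ B := by exact_mod_cast hB
    linarith
  have hκ2 : κ ≤ 7 / 8 := by
    rw [hκ, div_le_iff₀ hBpos]
    have h1 : 8 * B1 ≤ 7 * B := by omega
    have h2 : (8 : ℝ) * B1 ≤ 7 * B := by exact_mod_cast h1
    linarith
  have hρN : ρ * N = κ := by
    rw [hρ, hN, hκ]
    field_simp
  have hqρ : (q : ℝ) * ρ ≤ 1 := by
    rw [hρ, ← mul_div_assoc, div_le_one hnR]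
    exact_mod_cast hqB
  have hqρ' : 1 ≤ ((q : ℝ) + 1) * ρ := by
    rw [hρ, ← mul_div_assoc, one_le_div hnR]
    exact_mod_cast hqB'.le
  set F : ℝ := ((n : ℝ) / ((n : ℝ) - K - 1)) ^ (K + 1) with hF
  have hF1 : F ≤ 1001 / 1000 := Swe_ratio hK
  have hF0 : 0 ≤ F := by
    have h1 : (K : ℝ) + 1 < n := by exact_mod_cast hKn
    have h2 : (0 : ℝ) < (n : ℝ) - K - 1 := by linarith
    positivity
  have hκ0 : 0 ≤ κ := by positivity
  have hbd : ∀ m, m ≤ q →
      pavg (fun σ : Equiv.Perm (Fin n) => surv B (sw B1 σ) y b m) ≤ F * gq ρ κ b m := by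
    intro m hm
    have h1 := hSegC hPC n B B1 K q y b hB1pos hB1B hKn hqB hadm m hm
    have h2 := hSegP n K q ρ y b hρ0 hqρ hadm m hm
    refine h1.trans (mul_le_mul_of_nonneg_left ?_ hF0)
    rw [Swe_gq ρ κ b m]
    exact mul_le_mul_of_nonneg_left h2 (pow_nonneg hκ0 _)
  have hCN : 0 ≤ Cc * N := by
    unfold Cc
    have : 0 ≤ N := by linarith
    positivity
  have hD := hDp hIne q ρ N κ b hN1 hκ1 hκ2 hρN hqρ hqρ'
  rw [Swe_pavg_add, Swe_pavg_sum, Swe_pavg_mul]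
  have h1 : ∑ m ∈ range q, pavg (fun σ : Equiv.Perm (Fin n) => surv B (sw B1 σ) y b m) ≤
      ∑ m ∈ range q, F * gq ρ κ b m :=
    Finset.sum_le_sum fun m hm => hbd m (Finset.mem_range.mp hm).le
  have h2 : pavg (fun σ : Equiv.Perm (Fin n) => surv B (sw B1 σ) y b q) * (Cc * N) ≤
      F * gq ρ κ b q * (Cc * N) := mul_le_mul_of_nonneg_right (hbd q le_rfl) hCN
  rw [← Finset.mul_sum] at h1
  have h3 : F * (∑ m ∈ range q, gq ρ κ b m + gq ρ κ b q * (Cc * N)) ≤
      F * ((Cc - 1 / 1000) * N) := mul_le_mul_of_nonneg_left hD hF0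
  have h4 : 0 ≤ (Cc - 1 / 1000) * N := by
    unfold Cc
    have : 0 ≤ N := by linarith
    have h5 : (0 : ℝ) ≤ 7999 / 10000 - 1 / 1000 := by norm_num
    positivity
  have h5 : F * ((Cc - 1 / 1000) * N) ≤ 1001 / 1000 * ((Cc - 1 / 1000) * N) :=
    mul_le_mul_of_nonneg_right hF1 h4
  have h6 : 1001 / 1000 * ((Cc - 1 / 1000) * N) ≤ Cc * N := by
    unfold Cc
    nlinarith
  calc ∑ m ∈ range q, pavg (fun σ : Equiv.Perm (Fin n) => surv B (sw B1 σ) y b m) +
        pavg (fun σ : Equiv.Perm (Fin n) => surv B (sw B1 σ) y b q) * (Cc * N) ≤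
      F * ∑ m ∈ range q, gq ρ κ b m + F * gq ρ κ b q * (Cc * N) := add_le_add h1 h2
    _ = F * (∑ m ∈ range q, gq ρ κ b m + gq ρ κ b q * (Cc * N)) := by ring
    _ ≤ Cc * N := h3.trans (h5.trans h6)

end MPacf82c.Br
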