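import Pool.Agent.Lib.MP_acf82c_lc.Br.SpecA

/-!
# Networks with bridges: the swap (helper35)
-/

set_option autoImplicit false

open Set Finset
open scoped NNReal ENNReal

namespace MPacf82c.Br

namespace Swp_aux

theorem la1 {c u v : ℝ} (h : c ≤ u - v) : c ≤ |u - v| := le_trans h (le_abs_self _)

theorem la2 {c u v : ℝ} (h : c ≤ v - u) : c ≤ |u - v| := by
  rw [abs_sub_comm]
  exact le_trans h (le_abs_self _)

open Classical in
/-- The indicator of the points between `a` and `b`. -/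
noncomputable def ind {X : Type} (a b : X) (T : X → ℝ) (x : X) : ℝ :=
  if x ≠ a ∧ x ≠ b ∧ T a < T x ∧ T x < T b then 1 else 0

theorem gen {X : Type} (Y : Finset X) (a b : X) (r : X → ℝ) (d : X → X → ℝ)
    (al be C : ℝ) (δ p T : X → ℝ) (ha : a ∈ Y) (hb : b ∈ Y) (hab : a ≠ b) (hal : 0 ≤ al)
    (hbe : 0 ≤ be) (hδ : ∀ x, 0 ≤ δ x)
    (hra : r a = C + al) (hrb : r b = C + be) (hdab : d a b = al + be) (hdba : d b a = al + be)
    (hm : ∀ m ∈ Y, m ≠ a → m ≠ b → d a m = al + δ m ∧ d m a = al + δ m ∧ d b m = be + δ m ∧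
      d m b = be + δ m ∧ r m ≤ C + δ m)
    (hgm : ∀ g ∈ Y, ∀ m ∈ Y, g ≠ a → g ≠ b → m ≠ a → m ≠ b → g ≠ m → d g m ≤ δ g + δ m)
    (hF : Feas Y r d T)
    (hcl : ∀ x ∈ Y, x ≠ a → x ≠ b → (T x ≤ T a ∧ al + δ x ≤ T a - T x) ∨
      (T a < T x ∧ T x < T b ∧ al + δ x ≤ T x - T a ∧ be + δ x ≤ T b - T x) ∨
      (T b ≤ T x ∧ be + δ x ≤ T x - T b))
    (ua ub s : ℝ) (h1 : T a ≤ ua) (h2 : ua ≤ T b - al - be) (h3 : T a + al + be ≤ ub)
    (h4 : ub ≤ T b) (h5 : al + be ≤ ub - ua) (h6 : -2 * al ≤ s) (h7 : s ≤ 2 * be)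
    (hmid : ∀ x, al + δ x ≤ T x - T a → be + δ x ≤ T b - T x →
      al + δ x ≤ |T x + s - ua| ∧ be + δ x ≤ |T x + s - ub|) :
    ∃ T' : X → ℝ, T' a = ua ∧ T' b = ub ∧ Feas Y r d T' ∧
      (∑ x ∈ Y, p x * T' x = ∑ x ∈ Y, p x * T x + p a * (ua - T a) + p b * (ub - T b) +
        s * ∑ x ∈ Y, p x * ind a b T x) ∧
      ∀ x ∈ Y, x ≠ a → x ≠ b → (T x ≤ T a ∧ T' x = T x) ∨
        (al + δ x ≤ T x - T a ∧ be + δ x ≤ T b - T x ∧ T' x = T x + s) ∨
        (T b ≤ T x ∧ T' x = T x) := by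
  classical
  obtain ⟨hF1, hF2⟩ := hF
  obtain ⟨T', hT'⟩ : ∃ T' : X → ℝ, ∀ x, T' x = if x = a then ua else if x = b then ub else
      if T a < T x ∧ T x < T b then T x + s else T x := ⟨_, fun _ => rfl⟩
  have ea : T' a = ua := by rw [hT', if_pos rfl]
  have eb : T' b = ub := by rw [hT', if_neg (Ne.symm hab), if_pos rfl]
  have hab' : T a ≤ T b := by linarith
  have hcl' : ∀ x ∈ Y, x ≠ a → x ≠ b →
      (T x ≤ T a ∧ al + δ x ≤ T a - T x ∧ T' x = T x) ∨
      (al + δ x ≤ T x - T a ∧ be + δ x ≤ T b - T x ∧ T' x = T x + s) ∨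
      (T b ≤ T x ∧ be + δ x ≤ T x - T b ∧ T' x = T x) := by
    intro x hx hxa hxb
    rcases hcl x hx hxa hxb with ⟨g1, g2⟩ | ⟨g1, g2, g3, g4⟩ | ⟨g1, g2⟩
    · left
      refine ⟨g1, g2, ?_⟩
      rw [hT', if_neg hxa, if_neg hxb, if_neg (fun h => absurd h.1 (not_lt.2 g1))]
    · right; left
      refine ⟨g3, g4, ?_⟩
      rw [hT', if_neg hxa, if_neg hxb, if_pos ⟨g1, g2⟩]
    · right; right
      refine ⟨g1, g2, ?_⟩
      rw [hT', if_neg hxa, if_neg hxb, if_neg (fun h => absurd h.2 (not_lt.2 g1))]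
  have hra' : C + al ≤ T a := by rw [← hra]; exact hF1 a ha
  -- distances to `a` and `b`
  have hda : ∀ x ∈ Y, x ≠ a → x ≠ b → al + δ x ≤ |T' x - ua| := by
    intro x hx hxa hxb
    have hd := hδ x
    rcases hcl' x hx hxa hxb with ⟨g1, g2, g3⟩ | ⟨g1, g2, g3⟩ | ⟨g1, g2, g3⟩
    · rw [g3]; exact la2 (by linarith)
    · rw [g3]; exact (hmid x g1 g2).1
    · rw [g3]; exact la1 (by linarith)
  have hdb : ∀ x ∈ Y, x ≠ a → x ≠ b → be + δ x ≤ |T' x - ub| := by
    intro x hx hxa hxb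
    have hd := hδ x
    rcases hcl' x hx hxa hxb with ⟨g1, g2, g3⟩ | ⟨g1, g2, g3⟩ | ⟨g1, g2, g3⟩
    · rw [g3]; exact la2 (by linarith)
    · rw [g3]; exact (hmid x g1 g2).2
    · rw [g3]; exact la1 (by linarith)
  refine ⟨T', ea, eb, ⟨?_, ?_⟩, ?_, ?_⟩
  · intro x hx
    by_cases hxa : x = a
    · subst hxa; rw [ea, hra]; linarith
    by_cases hxb : x = b
    · subst hxb; rw [eb, hrb]; linarith
    have hr := (hm x hx hxa hxb).2.2.2.2
    have hr' := hF1 x hx
    rcases hcl' x hx hxa hxb with ⟨g1, g2, g3⟩ | ⟨g1, g2, g3⟩ | ⟨g1, g2, g3⟩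
    · rw [g3]; exact hr'
    · rw [g3]; linarith
    · rw [g3]; exact hr'
  · intro x hx y hy hxy
    by_cases hxa : x = a
    · subst hxa
      by_cases hyb : y = b
      · subst hyb
        rw [ea, eb, hdab]
        exact la2 h5
      · have hya : y ≠ x := Ne.symm hxy
        rw [ea, (hm y hy hya hyb).1, abs_sub_comm]
        exact hda y hy hya hyb
    by_cases hxb : x = b
    · subst hxb
      by_cases hya : y = a
      · subst hya
        rw [ea, eb, hdba]
        exact la1 h5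
      · have hyb : y ≠ x := Ne.symm hxy
        rw [eb, (hm y hy hya hyb).2.2.1, abs_sub_comm]
        exact hdb y hy hya hyb
    by_cases hya : y = a
    · subst hya
      rw [ea, (hm x hx hxa hxb).2.1]
      exact hda x hx hxa hxb
    by_cases hyb : y = b
    · subst hyb
      rw [eb, (hm x hx hxa hxb).2.2.2.1]
      exact hdb x hx hxa hxb
    have hd := hF2 x hx y hy hxy
    have hd' := hgm x hx y hy hxa hxb hya hyb hxy
    rcases hcl' x hx hxa hxb with ⟨g1, g2, g3⟩ | ⟨g1, g2, g3⟩ | ⟨g1, g2, g3⟩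
    · rcases hcl' y hy hya hyb with ⟨k1, k2, k3⟩ | ⟨k1, k2, k3⟩ | ⟨k1, k2, k3⟩
      · rw [g3, k3]; exact hd
      · rw [g3, k3]; exact la2 (by linarith)
      · rw [g3, k3]; exact hd
    · rcases hcl' y hy hya hyb with ⟨k1, k2, k3⟩ | ⟨k1, k2, k3⟩ | ⟨k1, k2, k3⟩
      · rw [g3, k3]; exact la1 (by linarith)
      · rw [g3, k3, add_sub_add_right_eq_sub]; exact hd
      · rw [g3, k3]; exact la2 (by linarith)
    · rcases hcl' y hy hya hyb with ⟨k1, k2, k3⟩ | ⟨k1, k2, k3⟩ | ⟨k1, k2, k3⟩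
      · rw [g3, k3]; exact hd
      · rw [g3, k3]; exact la1 (by linarith)
      · rw [g3, k3]; exact hd
  · have hpt : ∀ x ∈ Y, p x * T' x = p x * T x + (if x = a then p a * (ua - T a) else 0) +
        (if x = b then p b * (ub - T b) else 0) + s * (p x * ind a b T x) := by
      intro x hx
      by_cases hxa : x = a
      · subst hxa
        have hi : ind x b T x = 0 := by
          unfold ind
          rw [if_neg (fun h => h.1 rfl)]
        rw [ea, if_pos rfl, if_neg hab, hi]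
        ring
      by_cases hxb : x = b
      · subst hxb
        have hi : ind a x T x = 0 := by
          unfold ind
          rw [if_neg (fun h => h.2.1 rfl)]
        rw [eb, if_neg (Ne.symm hab), if_pos rfl, hi]
        ring
      rw [hT', if_neg hxa, if_neg hxb, if_neg hxa, if_neg hxb]
      by_cases hG : T a < T x ∧ T x < T b
      · have hi : ind a b T x = 1 := by
          unfold ind
          rw [if_pos ⟨hxa, hxb, hG.1, hG.2⟩]
        rw [if_pos hG, hi]
        ring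
      · have hi : ind a b T x = 0 := by
          unfold ind
          rw [if_neg (fun h => hG ⟨h.2.2.1, h.2.2.2⟩)]
        rw [if_neg hG, hi]
        ring
    rw [Finset.sum_congr rfl hpt, Finset.sum_add_distrib, Finset.sum_add_distrib,
      Finset.sum_add_distrib, Finset.sum_ite_eq' Y a, Finset.sum_ite_eq' Y b, if_pos ha,
      if_pos hb, ← Finset.mul_sum]
  · intro x hx hxa hxb
    rcases hcl' x hx hxa hxb with ⟨g1, g2, g3⟩ | ⟨g1, g2, g3⟩ | ⟨g1, g2, g3⟩
    · exact Or.inl ⟨g1, g3⟩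
    · exact Or.inr (Or.inl ⟨g1, g2, g3⟩)
    · exact Or.inr (Or.inr ⟨g1, g3⟩)

theorem core {X : Type} (Y : Finset X) (a b : X) (r : X → ℝ) (d : X → X → ℝ)
    (al be C : ℝ) (δ p T : X → ℝ) (ha : a ∈ Y) (hb : b ∈ Y) (hab : a ≠ b) (hal : 0 ≤ al)
    (hbe : 0 ≤ be) (hp : ∀ x, 0 ≤ p x) (hpq : p a * be = p b * al) (hδ : ∀ x, 0 ≤ δ x)
    (hra : r a = C + al) (hrb : r b = C + be) (hdab : d a b = al + be) (hdba : d b a = al + be)
    (hm : ∀ m ∈ Y, m ≠ a → m ≠ b → d a m = al + δ m ∧ d m a = al + δ m ∧ d b m = be + δ m ∧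
      d m b = be + δ m ∧ r m ≤ C + δ m)
    (hgm : ∀ g ∈ Y, ∀ m ∈ Y, g ≠ a → g ≠ b → m ≠ a → m ≠ b → g ≠ m → d g m ≤ δ g + δ m)
    (hF : Feas Y r d T) (hT : T a ≤ T b) :
    ∃ T' : X → ℝ, Feas Y r d T' ∧ ∑ x ∈ Y, p x * T' x ≤ ∑ x ∈ Y, p x * T x ∧
      (T' a ≤ T' b ∧ ∀ g ∈ Y, g ≠ a → g ≠ b → T' g ≤ T' a ∨ T' b ≤ T' g) := by
  have hZ : al + be ≤ T b - T a := by
    have h := hF.2 b hb a ha (Ne.symm hab)
    rw [hdba, abs_of_nonneg (by linarith)] at h
    exact h
  have hcl : ∀ x ∈ Y, x ≠ a → x ≠ b → (T x ≤ T a ∧ al + δ x ≤ T a - T x) ∨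
      (T a < T x ∧ T x < T b ∧ al + δ x ≤ T x - T a ∧ be + δ x ≤ T b - T x) ∨
      (T b ≤ T x ∧ be + δ x ≤ T x - T b) := by
    intro x hx hxa hxb
    obtain ⟨e1, e2, e3, e4, e5⟩ := hm x hx hxa hxb
    have f1 := hF.2 x hx a ha hxa
    have f2 := hF.2 x hx b hb hxb
    rw [e2] at f1
    rw [e4] at f2
    rcases le_or_gt (T x) (T a) with h | h
    · left
      rw [abs_of_nonpos (by linarith)] at f1
      exact ⟨h, by linarith⟩
    · right
      rcases le_or_gt (T b) (T x) with h' | h'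
      · right
        rw [abs_of_nonneg (by linarith)] at f2
        exact ⟨h', f2⟩
      · left
        rw [abs_of_nonneg (by linarith)] at f1
        rw [abs_of_nonpos (by linarith)] at f2
        exact ⟨h, h', f1, by linarith⟩
  obtain ⟨P, hP⟩ : ∃ P : ℝ, P = ∑ x ∈ Y, p x * ind a b T x := ⟨_, rfl⟩
  by_cases hD : p b * (T a + al + be - T b) + 2 * be * P ≤ 0
  · obtain ⟨T', ea, eb, hF', hs, hc⟩ := gen Y a b r d al be C δ p T ha hb hab hal hbe hδ hra hrb
      hdab hdba hm hgm hF hcl (T a) (T a + al + be) (2 * be) le_rfl (by linarith) le_rfl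
      (by linarith) (by linarith) (by linarith) le_rfl
      (fun x k1 k2 => ⟨la1 (by linarith), la1 (by linarith)⟩)
    refine ⟨T', hF', ?_, ?_, ?_⟩
    · rw [hs, ← hP]
      have : p a * (T a - T a) = 0 := by ring
      linarith
    · rw [ea, eb]; linarith
    · intro g hg hga hgb
      have hd := hδ g
      rcases hc g hg hga hgb with ⟨k1, k2⟩ | ⟨k1, k2, k3⟩ | ⟨k1, k2⟩
      · left; rw [k2, ea]; exact k1
      · right; rw [k3, eb]; linarith
      · right; rw [k2, eb]; linarith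
  · obtain ⟨T', ea, eb, hF', hs, hc⟩ := gen Y a b r d al be C δ p T ha hb hab hal hbe hδ hra hrb
      hdab hdba hm hgm hF hcl (T b - al - be) (T b) (-2 * al) (by linarith) le_rfl (by linarith)
      le_rfl (by linarith) le_rfl (by linarith)
      (fun x k1 k2 => ⟨la2 (by linarith), la2 (by linarith)⟩)
    have hD' : 0 < p b * (T a + al + be - T b) + 2 * be * P := not_le.1 hD
    have hbe' : 0 < be := by
      rcases hbe.lt_or_eq with h | h
      · exact h
      · exfalso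
        rw [← h] at hD' hZ
        have : 0 ≤ p b * (T b - T a - al - 0) := mul_nonneg (hp b) (by linarith)
        nlinarith
    have hid : be * (p a * (T b - al - be - T a) + -2 * al * P) =
        -(al * (p b * (T a + al + be - T b) + 2 * be * P)) := by
      linear_combination (T b - al - be - T a) * hpq
    have hD2 : p a * (T b - al - be - T a) + -2 * al * P ≤ 0 := by
      by_contra hcon
      have h' : 0 < be * (p a * (T b - al - be - T a) + -2 * al * P) :=
        mul_pos hbe' (not_le.1 hcon)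
      have h'' : 0 ≤ al * (p b * (T a + al + be - T b) + 2 * be * P) := mul_nonneg hal hD'.le
      linarith
    refine ⟨T', hF', ?_, ?_, ?_⟩
    · rw [hs, ← hP]
      have : p b * (T b - T b) = 0 := by ring
      linarith
    · rw [ea, eb]; linarith
    · intro g hg hga hgb
      have hd := hδ g
      rcases hc g hg hga hgb with ⟨k1, k2⟩ | ⟨k1, k2, k3⟩ | ⟨k1, k2⟩
      · left; rw [k2, ea]; linarith
      · left; rw [k3, ea]; linarith
      · right; rw [k2, eb]; exact k1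

end Swp_aux

open Swp_aux in
/-- **Swp.** -/
theorem tSwp : S_Swp := by
  intro X Y a b r d al be C δ p T ha hb hab hal hbe hpos hp hpq hδ hC hra hrb hdab hdba hm hgm hF
  rcases le_total (T a) (T b) with hT | hT
  · obtain ⟨T', h1, h2, h3⟩ := core Y a b r d al be C δ p T ha hb hab hal hbe hp hpq hδ hra hrb
      hdab hdba hm hgm hF hT
    exact ⟨T', h1, h2, Or.inl h3⟩
  · obtain ⟨T', h1, h2, h3, h4⟩ := core Y b a r d be al C δ p T hb ha (Ne.symm hab) hbe hal hp
      hpq.symm hδ hrb hra (by rw [hdba]; ring) (by rw [hdab]; ring)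
      (fun m hm' hmb hma => by
        obtain ⟨e1, e2, e3, e4, e5⟩ := hm m hm' hma hmb
        exact ⟨e3, e4, e1, e2, e5⟩)
      (fun g hg m hm' hgb hga hmb hma hne => hgm g hg m hm' hga hgb hma hmb hne) hF hT
    exact ⟨T', h1, h2, Or.inr ⟨h3, fun g hg hga hgb => h4 g hg hgb hga⟩⟩

end MPacf82c.Br
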