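import Pool.Agent.Lib.MP_acf82c_lc.Br.SpecD

/-!
# Networks with bridges, part D: the bound for the hider value (module Up)
-/

set_option autoImplicit false

namespace MPacf82c.Br

theorem tUp : S_Up := by
  intro hS hG K
  refine ⟨1000000 * (K + 1), ?_⟩
  intro R n B M V hR hB hBR _ hV
  obtain ⟨ι, hι, q, y, b, hq, hsum, hadm, hval⟩ := hV
  have h1 : 200000 ≤ B := by omega
  have h2 : 100000 * B ≤ n := by
    have h : 100000 ≤ R := by omega
    calc 100000 * B = B * 100000 := Nat.mul_comm _ _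
      _ ≤ B * R := Nat.mul_le_mul_left B h
      _ ≤ n := hBR
  have h3 : 1001 * (K + 1) ^ 2 ≤ n := by
    have h : (1000000 * (K + 1)) * (1000000 * (K + 1)) ≤ B * R := Nat.mul_le_mul hB hR
    nlinarith
  obtain ⟨L, hL, hle⟩ := hG hS n B K h1 h2 h3 M ι q y b hq hadm
  have h4 := hval L hL
  rw [hsum, mul_one] at hle
  exact h4.trans hle

end MPacf82c.Br
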