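import Pool.Agent.Lib.MP_acf82c_lc.Br.SpecA
import Pool.Agent.Lib.MP_acf82c_lc.Br.SpecD
import Pool.Agent.Lib.MP_acf82c_lc.Br.SpecE
import Pool.Agent.Lib.MP_acf82c_lc.Br.Pos
import Pool.Agent.Lib.MP_acf82c_lc.Br.Cst
import Pool.Agent.Lib.MP_acf82c_lc.Br.Opp
import Pool.Agent.Lib.MP_acf82c_lc.Br.Lip
import Pool.Agent.Lib.MP_acf82c_lc.Br.Sum
import Pool.Agent.Lib.MP_acf82c_lc.Br.Dis
import Pool.Agent.Lib.MP_acf82c_lc.Br.Swp
import Pool.Agent.Lib.MP_acf82c_lc.Br.Sib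
import Pool.Agent.Lib.MP_acf82c_lc.Br.Lam
import Pool.Agent.Lib.MP_acf82c_lc.Br.Sta
import Pool.Agent.Lib.MP_acf82c_lc.Br.Imm0
import Pool.Agent.Lib.MP_acf82c_lc.Br.Smp
import Pool.Agent.Lib.MP_acf82c_lc.Br.Imm
import Pool.Agent.Lib.MP_acf82c_lc.Br.SegP
import Pool.Agent.Lib.MP_acf82c_lc.Br.SegC
import Pool.Agent.Lib.MP_acf82c_lc.Br.Ine
import Pool.Agent.Lib.MP_acf82c_lc.Br.Dp
import Pool.Agent.Lib.MP_acf82c_lc.Br.Swe
import Pool.Agent.Lib.MP_acf82c_lc.Br.Gre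
import Pool.Agent.Lib.MP_acf82c_lc.Br.Up
import Pool.Agent.Lib.MP_acf82c_lc.Br.Lab
import Pool.Agent.Lib.MP_acf82c_lc.Br.CovN
import Pool.Agent.Lib.MP_acf82c_lc.Br.Crs
import Pool.Agent.Lib.MP_acf82c_lc.Br.Exc
import Pool.Agent.Lib.MP_acf82c_lc.Br.Cov
import Pool.Agent.Lib.MP_acf82c_lc.Br.Hub
import Pool.Agent.Lib.MP_acf82c_lc.Br.NetB
import Pool.Agent.Lib.MP_acf82c_lc.Br.BrG
import Pool.Agent.Lib.MP_acf82c_lc.Br.Small
import Pool.Agent.Lib.MP_acf82c_lc.Br.CLt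
import Pool.Agent.Lib.MP_acf82c_lc.Final
import Pool.Agent.Lib.MP_acf82c_lc.S.PermCount
import Pool.Agent.Lib.MP_acf82c_lc.S.UpPart
import Pool.Agent.Lib.MP_acf82c_lc.S.CloverLow

/-!
# Networks with bridges: the theorem
-/

namespace MPacf82c.Br

open Set MeasureTheory
open scoped NNReal ENNReal

theorem imm0 : S_Imm0C := tImm0 tCst tOpp tLip tSum tDis tSwp tSib tLam tSta

theorem imm : S_ImmC := tImm tPos tSmp imm0

theorem swe : S_SweC := tSwe St.sPermCount tSegP tSegC tIne tDp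

theorem upC : S_UpC := tUp swe tGre

theorem covC : S_CovC := tCov tLip tSum tCovN tCrs tExc

theorem netBC : S_NetBC := tNetB covC tHub

theorem brGC : S_BrGC := tBrG tPos tLab netBC

theorem smallC : S_SmallC := tSmall brGC St.sUpPart St.sCloverLow

theorem cLtC : S_CLtC := tCLt upC St.sUpPart St.sCloverLow

/-- The Alpern-Asic inequality for networks with many bridges. -/
theorem bridges : ∃ c : ℝ, 1 / 2 ≤ c ∧ c < 4 / 5 ∧
    (∀ ε : ℝ, 0 < ε → ∃ n₀ : ℕ, ∀ n : ℕ, n₀ ≤ n →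
      ∀ (Q : Type) [MetricSpace Q] (N : Network Q) (O : Q), IsClover N O n →
      ∀ w : ℝ≥0, 1 ≤ w →
        HiderGuarantees w O (ENNReal.ofReal ((c - ε) * n)) ∧
        SearcherGuarantees w O (ENNReal.ofReal ((c + ε) * n))) ∧
    (∀ (Q : Type) [MetricSpace Q] (N : Network Q) (O : Q),
      (2 * c - 1) * N.length < N.bridgeLength → ∀ w : ℝ≥0, 1 ≤ w →
        HiderGuarantees w O (ENNReal.ofReal (c * N.length))) ∧
    (∀ ε : ℝ, 0 < ε → ∃ δ : ℝ, 0 < δ ∧ ∀ (Q : Type) [MetricSpace Q] (N : Network Q) (O : Q),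
      (∀ x y : Q, dist x y ≤ δ * N.length) → ∀ w : ℝ≥0, 1 ≤ w →
      HiderGuarantees w O (ENNReal.ofReal ((c - ε) * (N.length + N.bridgeLength)))) := by
  obtain ⟨c, hc, h1, -⟩ := main
  have hlt : c < 4 / 5 := lt_of_le_of_lt (cLtC c h1) (by unfold Cc; norm_num)
  refine ⟨c, hc, hlt, h1, ?_, smallC c h1⟩
  intro Q _ N O hβ w _
  exact imm Q N O w (c * N.length) (by linarith)

end MPacf82c.Br
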