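import Pool.Agent.Lib.MP_acf82c_lc.Br.SpecG

/-!
# The Riemann sum for the Euler-Gompertz constant
-/

set_option autoImplicit false

open Set MeasureTheory Filter Topology

namespace MPacf82c.Br

/-- the function `exp (1 - exp t)` -/
private noncomputable def Rie_f (t : ℝ) : ℝ := Real.exp (1 - Real.exp t)

private theorem Rie_anti : Antitone Rie_f := by
  intro a b hab
  unfold Rie_f
  exact Real.exp_le_exp.2 (by linarith [Real.exp_le_exp.2 hab])

private theorem Rie_cont : Continuous Rie_f := by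
  unfold Rie_f
  fun_prop

private theorem Rie_int : IntegrableOn Rie_f (Ioi (0 : ℝ)) := by
  have h1 : IntegrableOn (fun x : ℝ => Real.exp (-1 * x)) (Ioi (0 : ℝ)) :=
    exp_neg_integrableOn_Ioi 0 one_pos
  refine Integrable.mono' h1 Rie_cont.aestronglyMeasurable ?_
  refine Eventually.of_forall fun t => ?_
  rw [Real.norm_eq_abs, abs_of_pos (show 0 < Rie_f t from Real.exp_pos _)]
  unfold Rie_f
  refine Real.exp_le_exp.2 ?_
  have := Real.add_one_le_exp t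
  linarith

private theorem Rie_prod (β : ℝ) (hβ : 0 < β) (j : ℕ) :
    Rie_f (β * j) ≤ ∏ l ∈ Finset.range j, (1 / (1 + β * (1 + β) ^ l)) := by
  have h1 : ∀ l ∈ Finset.range j, Real.exp (-(β * (1 + β) ^ l)) ≤ 1 / (1 + β * (1 + β) ^ l) := by
    intro l _
    have h2 : 0 < β * (1 + β) ^ l := by positivity
    rw [Real.exp_neg, one_div]
    refine inv_anti₀ (by linarith) ?_
    have := Real.add_one_le_exp (β * (1 + β) ^ l)
    linarith
  refine le_trans ?_ (Finset.prod_le_prod (fun l _ => (Real.exp_pos _).le) h1)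
  rw [← Real.exp_sum]
  unfold Rie_f
  refine Real.exp_le_exp.2 ?_
  have h3 : ∑ l ∈ Finset.range j, -(β * (1 + β) ^ l) = -((1 + β) ^ j - 1) := by
    rw [Finset.sum_neg_distrib, ← Finset.mul_sum]
    have h4 := mul_geom_sum (1 + β) j
    have h5 : (1 + β) - 1 = β := by ring
    rw [h5] at h4
    rw [h4]
  rw [h3]
  have h6 : (1 + β) ^ j ≤ Real.exp (β * j) := by
    have h7 : 1 + β ≤ Real.exp β := by
      have := Real.add_one_le_exp β
      linarith
    calc (1 + β) ^ j ≤ Real.exp β ^ j := pow_le_pow_left₀ (by linarith) h7 j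
      _ = Real.exp (β * j) := by rw [← Real.exp_nat_mul]; ring_nf
  linarith

private theorem Rie_sum (β : ℝ) (hβ : 0 < β) (k : ℕ) :
    β⁻¹ * ∫ t in (0 : ℝ)..(β * k), Rie_f t ≤ ∑ j ∈ Finset.range k, Rie_f (β * j) := by
  have h1 : ∫ x in (0 : ℝ)..(0 + (k : ℝ)), Rie_f (β * x) ≤
      ∑ i ∈ Finset.range k, Rie_f (β * (0 + (i : ℝ))) := by
    refine AntitoneOn.integral_le_sum (f := fun x => Rie_f (β * x)) ?_
    intro a _ b _ hab
    exact Rie_anti (mul_le_mul_of_nonneg_left hab hβ.le)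
  have h2 : ∫ x in (0 : ℝ)..(0 + (k : ℝ)), Rie_f (β * x) =
      β⁻¹ * ∫ t in (0 : ℝ)..(β * k), Rie_f t := by
    rw [intervalIntegral.integral_comp_mul_left Rie_f hβ.ne', smul_eq_mul]
    congr 2
    · ring
    · ring
  rw [h2] at h1
  simpa using h1

theorem tRie : S_Rie := by
  intro g hg
  have hlim : Tendsto (fun L : ℕ => ∫ t in (0 : ℝ)..(L : ℝ), Rie_f t) atTop (𝓝 Gc) :=
    intervalIntegral_tendsto_integral_Ioi 0 Rie_int tendsto_natCast_atTop_atTop
  obtain ⟨L0, hL0⟩ := (hlim.eventually (lt_mem_nhds hg)).exists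
  obtain ⟨d, hd⟩ : ∃ d : ℝ, d = (∫ t in (0 : ℝ)..(L0 : ℝ), Rie_f t) - g := ⟨_, rfl⟩
  have hd0 : 0 < d := by rw [hd]; linarith
  obtain ⟨K, hK⟩ := exists_nat_ge (max 1 (((L0 : ℝ) + 1) * Real.exp ((L0 : ℝ) + 1) / d))
  have hK1 : (1 : ℝ) ≤ K := (le_max_left _ _).trans hK
  have hK2 : ((L0 : ℝ) + 1) * Real.exp ((L0 : ℝ) + 1) / d ≤ K := (le_max_right _ _).trans hK
  refine ⟨K, L0 + 1, by exact_mod_cast hK1, by omega, ?_⟩
  intro n B hB hBn
  have hBr : (0 : ℝ) < B := by exact_mod_cast hB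
  have hnr : (0 : ℝ) < n := by
    have : 0 < n := by omega
    exact_mod_cast this
  have hBn' : (B : ℝ) ≤ n := by exact_mod_cast hBn
  obtain ⟨β, hβ⟩ : ∃ β : ℝ, β = (B : ℝ) / n := ⟨_, rfl⟩
  have hβ0 : 0 < β := by rw [hβ]; positivity
  have hβ1 : β ≤ 1 := by rw [hβ, div_le_one hnr]; exact hBn'
  have hinv : (n : ℝ) / B = β⁻¹ := by rw [hβ, inv_div]
  obtain ⟨k, hk⟩ : ∃ k : ℕ, k = (L0 + 1) * n / B := ⟨_, rfl⟩
  have hk1 : k * B ≤ (L0 + 1) * n := by rw [hk]; exact Nat.div_mul_le_self _ _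
  have hk2 : (L0 + 1) * n < (k + 1) * B := by
    rw [hk]
    have h1 := Nat.div_add_mod ((L0 + 1) * n) B
    have h2 := Nat.mod_lt ((L0 + 1) * n) (show B > 0 by omega)
    calc (L0 + 1) * n = B * ((L0 + 1) * n / B) + (L0 + 1) * n % B := h1.symm
      _ < B * ((L0 + 1) * n / B) + B := Nat.add_lt_add_left h2 _
      _ = ((L0 + 1) * n / B + 1) * B := by ring
  refine ⟨k, hk1, ?_⟩
  have hk1r : (k : ℝ) * B ≤ ((L0 : ℝ) + 1) * n := by exact_mod_cast hk1
  have hk2r : ((L0 : ℝ) + 1) * n < ((k : ℝ) + 1) * B := by exact_mod_cast hk2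
  have hβB : β * n = B := by rw [hβ]; field_simp
  have hβk1 : β * k ≤ (L0 : ℝ) + 1 := by
    have : β * k * n ≤ ((L0 : ℝ) + 1) * n := by
      calc β * k * n = k * (β * n) := by ring
        _ = k * B := by rw [hβB]
        _ ≤ _ := hk1r
    exact le_of_mul_le_mul_right this hnr
  have hβk2 : (L0 : ℝ) ≤ β * k := by
    have h1 : ((L0 : ℝ) + 1) * n < β * ((k : ℝ) + 1) * n := by
      calc ((L0 : ℝ) + 1) * n < ((k : ℝ) + 1) * B := hk2r
        _ = β * ((k : ℝ) + 1) * n := by rw [← hβB]; ring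
    have h2 : (L0 : ℝ) + 1 < β * ((k : ℝ) + 1) := lt_of_mul_lt_mul_right h1 hnr.le
    have h3 : β * ((k : ℝ) + 1) = β * k + β := by ring
    linarith
  -- the integral
  have hint : ∀ a b : ℝ, IntervalIntegrable Rie_f volume a b := fun a b =>
    Rie_cont.intervalIntegrable a b
  have hmono : ∫ t in (0 : ℝ)..(L0 : ℝ), Rie_f t ≤ ∫ t in (0 : ℝ)..(β * k), Rie_f t := by
    rw [← intervalIntegral.integral_add_adjacent_intervals (hint 0 (L0 : ℝ)) (hint (L0 : ℝ) (β * k))]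
    have h0 : 0 ≤ ∫ t in (L0 : ℝ)..(β * k), Rie_f t :=
      intervalIntegral.integral_nonneg hβk2 fun t _ => (Real.exp_pos _).le
    linarith
  have hsum1 : ∑ j ∈ Finset.range k, Rie_f (β * j) ≤ ∑ j ∈ Finset.range k, Pj n B j := by
    refine Finset.sum_le_sum fun j _ => ?_
    unfold Pj
    rw [← hβ]
    exact Rie_prod β hβ0 j
  have hsum2 := Rie_sum β hβ0 k
  have hsum3 : β⁻¹ * (g + d) ≤ ∑ j ∈ Finset.range k, Pj n B j := by
    refine le_trans ?_ (hsum2.trans hsum1)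
    refine mul_le_mul_of_nonneg_left ?_ (inv_pos.2 hβ0).le
    linarith
  -- the loss
  have hpow : (1 + β) ^ k ≤ Real.exp ((L0 : ℝ) + 1) := by
    have h7 : 1 + β ≤ Real.exp β := by
      have := Real.add_one_le_exp β
      linarith
    calc (1 + β) ^ k ≤ Real.exp β ^ k := pow_le_pow_left₀ (by linarith) h7 k
      _ = Real.exp (k * β) := by rw [← Real.exp_nat_mul]
      _ ≤ Real.exp ((L0 : ℝ) + 1) := Real.exp_le_exp.2 (by linarith [mul_comm β (k : ℝ)])
  have hkβ : (k : ℝ) ≤ β⁻¹ * ((L0 : ℝ) + 1) := by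
    rw [inv_mul_eq_div, le_div_iff₀ hβ0]
    linarith [mul_comm β (k : ℝ)]
  have hK0 : (0 : ℝ) < K := by linarith
  have hloss : (k : ℝ) * ((1 + β) ^ k - 1) / K ≤ β⁻¹ * d := by
    rw [div_le_iff₀ hK0]
    have h1 : (k : ℝ) * ((1 + β) ^ k - 1) ≤ (β⁻¹ * ((L0 : ℝ) + 1)) * Real.exp ((L0 : ℝ) + 1) := by
      have h2 : 0 ≤ (1 + β) ^ k - 1 := by
        have : (1 : ℝ) ≤ (1 + β) ^ k := one_le_pow₀ (by linarith)
        linarith
      refine mul_le_mul hkβ (by linarith) h2 ?_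
      have := inv_pos.2 hβ0
      positivity
    have h3 : ((L0 : ℝ) + 1) * Real.exp ((L0 : ℝ) + 1) ≤ K * d := by
      rwa [div_le_iff₀ hd0] at hK2
    calc (k : ℝ) * ((1 + β) ^ k - 1) ≤ β⁻¹ * (((L0 : ℝ) + 1) * Real.exp ((L0 : ℝ) + 1)) := by
          rw [← mul_assoc]; exact h1
      _ ≤ β⁻¹ * (K * d) := mul_le_mul_of_nonneg_left h3 (inv_pos.2 hβ0).le
      _ = β⁻¹ * d * K := by ring
  rw [hinv, ← hβ]
  have hfin : β⁻¹ * (g + d) = g * β⁻¹ + β⁻¹ * d := by ring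
  linarith

end MPacf82c.Br
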