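import Pool.Agent.Lib.MP_acf82c_lc.Br.SpecE

/-!
# A lower bound for the clover constant

Every `S_X` is to be proved as `theorem tX : S_X` in the module
`Pool/Agent/Lib/MP_acf82c_lc/Br/X.lean` (namespace `MPacf82c.Br`), which imports this file and
modules of the landed library (named in the docstrings).  Statements which are used are hypotheses,
so all modules are independent.

The hider jumps at the rate `e ^ t` (time in units of the total length) to a fresh random label.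
In the block game with `n` labels and `B` labels in a block: `β = B / n`, `R = (1 + β) ^ k`, the
probability of a jump in block `k` is `p = β R / (1 + β R)`.
-/

set_option autoImplicit false

open Set MeasureTheory
open scoped NNReal ENNReal

namespace MPacf82c.Br

open MPacf82c.St (CloverC)

/-- The Euler-Gompertz constant `∫_0^∞ exp (1 - e ^ t) dt = 0.596...`. -/
noncomputable def Gc : ℝ := ∫ t in Ioi (0 : ℝ), Real.exp (1 - Real.exp t)

/-- Lower bound for the survival probability up to block `j`. -/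
noncomputable def Pj (n B : ℕ) (j : ℕ) : ℝ :=
  ∏ l ∈ Finset.range j, (1 / (1 + (B : ℝ) / n * (1 + (B : ℝ) / n) ^ l))

/-- A mixed hider strategy with jumps in the blocks `0, ..., k - 1`. -/
structure Fw (n B k : ℕ) (ι : Type) [Fintype ι] (q : ι → ℝ) (y : ι → ℕ → Fin n)
    (b : ι → ℕ → Bool) : Prop where
  nonneg : ∀ i, 0 ≤ q i
  sum : ∑ i, q i = 1
  stay : ∀ i j, b i j = false → y i j = y i (j + 1)
  after : ∀ i j, k ≤ j → b i j = false
  stars : ∑ i, q i * (((Finset.range k).filter fun j => b i j = true).card : ℝ) ≤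
    (1 + (B : ℝ) / n) ^ k - 1
  dens : ∀ L : ℕ → Finset (Fin n), (∀ j, (L j).card ≤ B) → ∀ z,
    (n : ℝ) * ∑ i, (if y i k = z then q i * surv B L (y i) (b i) k else 0) ≤
      (1 + (B : ℝ) / n) ^ k * ∑ i, q i * surv B L (y i) (b i) k
  mass : ∀ L : ℕ → Finset (Fin n), (∀ j, (L j).card ≤ B) → ∀ j ≤ k,
    Pj n B j ≤ ∑ i, q i * surv B L (y i) (b i) j

/-- **Stp.**  New index set `ι × Option (Fin n)`; weights `q i * (1 - p)` for `(i, none)` (no star in
block `k`, label unchanged) and `q i * p / n` for `(i, some z)` (star in block `k`, label `z` from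
`k + 1` on): `y' j = if j ≤ k then y i j else (none ↦ y i k, some z ↦ z)`, `b' j = if j < k then b i j
else if j = k then o.isSome else false`.  `surv` of the first `j ≤ k` blocks does not change.
With `m z = ∑_{y i k = z} q i surv_k`, `M = ∑ m z`, `x = |L k| / B`:
`∑_{z ∈ L k} m z ≤ x β R M`, `M' = (1-p)(M - ∑_{L k} m z) + p M x ≥ (1-p) M` (because
`(1-p) β R = p`), `n m' z ≤ (1-p) n m z + p x M ≤ (1-p) R (1+β) M ≤ R (1+β) M'`; stars: `+ p ≤ β R`. -/
def S_Stp : Prop := ∀ n B k : ℕ, 1 ≤ B → B ≤ n →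
  ∀ (ι : Type) [Fintype ι] (q : ι → ℝ) (y : ι → ℕ → Fin n) (b : ι → ℕ → Bool),
  Fw n B k ι q y b → ∃ (ι' : Type) (_ : Fintype ι') (q' : ι' → ℝ) (y' : ι' → ℕ → Fin n)
    (b' : ι' → ℕ → Bool), Fw n B (k + 1) ι' q' y' b'

/-- **Fwd.**  Induction from `S_Stp`; `k = 0`: `ι = Fin n`, `q i = 1 / n`, `y i j = i`, no stars. -/
def S_Fwd : Prop := S_Stp → ∀ n B k : ℕ, 1 ≤ B → B ≤ n →
  ∃ (ι : Type) (_ : Fintype ι) (q : ι → ℝ) (y : ι → ℕ → Fin n) (b : ι → ℕ → Bool),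
    Fw n B k ι q y b

/-- **Trc.**  Truncation: the pure strategies with more than `K` stars are replaced by the immobile
one (`fun _ => y i 0`, no stars).  `payoff B M ≥ payoff B k = ∑_{j < k} surv_j` (all terms are `≥ 0`),
the bad ones lose at most `k` each, their weight is at most `E(stars) / K`. -/
def S_Trc : Prop := ∀ (n B k : ℕ) (ι : Type) [Fintype ι] (q : ι → ℝ) (y : ι → ℕ → Fin n)
  (b : ι → ℕ → Bool), 1 ≤ B → B ≤ n → Fw n B k ι q y b → ∀ K M : ℕ, 1 ≤ K → k ≤ M →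
  HiderVal n B M K (∑ j ∈ Finset.range k, Pj n B j -
    k * ((1 + (B : ℝ) / n) ^ k - 1) / K)

/-- **Rie.**  `Pj j ≥ exp (1 - (1+β) ^ j) ≥ exp (1 - e ^ (β j))` (`1 / (1 + x) ≥ e ^ (-x)`,
`∑_{l<j} β (1+β) ^ l = (1+β) ^ j - 1`, `1 + β ≤ e ^ β`), the sum over `j < k` is at least
`(1 / β) ∫_0^{β k} exp (1 - e ^ t) dt` (decreasing function), `k = L * n / B` (natural division), so
`L - 1 ≤ β k ≤ L`, `(1+β) ^ k ≤ e ^ L`.  Choose `L` with `∫_0^{L-1} exp (1 - e ^ t) dt > g`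
(`intervalIntegral_tendsto_integral_Ioi`, the function is integrable: `exp (1 - e ^ t) ≤ e ^ (-t)`),
then `K ≥ L e ^ L / (∫_0^{L-1} - g)`. -/
def S_Rie : Prop := ∀ g : ℝ, g < Gc → ∃ K L : ℕ, 1 ≤ K ∧ 1 ≤ L ∧ ∀ n B : ℕ, 1 ≤ B → B ≤ n →
  ∃ k : ℕ, k * B ≤ L * n ∧
    g * ((n : ℝ) / B) ≤ ∑ j ∈ Finset.range k, Pj n B j -
      k * ((1 + (B : ℝ) / n) ^ k - 1) / K

/-- The block game has value at least `g n / B`. -/
def S_HvC : Prop := ∀ g : ℝ, g < Gc → ∃ K L : ℕ, 1 ≤ K ∧ 1 ≤ L ∧ ∀ n B M : ℕ, 1 ≤ B → B ≤ n →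
  L * n ≤ M * B → HiderVal n B M K (g * ((n : ℝ) / B))

/-- **Hv.**  `k` from `S_Rie`, `k ≤ M` because `k * B ≤ L * n ≤ M * B`, and `HiderVal` is monotone in
the value. -/
def S_Hv : Prop := S_Stp → S_Fwd → S_Trc → S_Rie → S_HvC

/-- Small networks. -/
def S_GSmC : Prop := ∀ g : ℝ, 1 / 2 ≤ g → g ≤ 1 → g < Gc → ∀ ε : ℝ, 0 < ε → ∃ δ : ℝ, 0 < δ ∧
  ∀ (Q : Type) [MetricSpace Q] (N : Network Q) (O : Q),
    (∀ x y : Q, dist x y ≤ δ * N.length) → ∀ w : ℝ≥0, 1 ≤ w →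
    HiderGuarantees w O (ENNReal.ofReal ((g - ε) * (N.length + N.bridgeLength)))

/-- **GSm.**  Copy of `tSmall` (`Br/Small.lean`) with `V = g * (n / B)`, `x = B / n * V = g`, and
`HiderVal` from `S_HvC` instead of `block_game`, `S_UpPart`, `S_CloverLow`: `K`, `L1` from `S_HvC`,
`L ≥ max 30 (2 * L1)`, `M = L * R` (`n ≤ (B + 1) * R ≤ 2 * B * R`, so `L1 * n ≤ M * B`); `1 ≤ V`
because `n / B ≥ R ≥ 3`, `V ≤ 2 R`. -/
def S_GSm : Prop := S_HvC → S_BrGC → S_GSmC

/-- The clover constant is at least `Gc`. -/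
def S_GLeC : Prop := ∀ c : ℝ, 1 / 2 ≤ c → c < 4 / 5 → CloverC c → Gc ≤ c

/-- **GLe.**  If `c < Gc` choose `g` with `c < g < Gc`, `g ≤ 1` and `ε = (g - c) / 3`; `S_GSmC` gives
`δ`, take `n` large with `1 ≤ δ n` and the clover with `n` leaves (`exists_clover`,
`CloverModel.lean`; `clover_length`, `clover_dist_le`), `bridgeLength ≥ 0`; `CloverC` and
`weak_duality` (`WeakDuality.lean`): `(g - ε) n ≤ (c + ε) n`. -/
def S_GLe : Prop := S_GSmC → S_GLeC

end MPacf82c.Br
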