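import Pool.Agent.Lib.MP_acf82c_lc.Br.SpecG

/-!
# The numerical value of the Euler-Gompertz constant
-/

set_option autoImplicit false

namespace MPacf82c.Br

/-- **Num.**  `Gc = 0.59634...`.  With `f t = exp (1 - e ^ t)`, `h = 1/4` and the midpoints
`m = 1/8, 3/8, ..., 15/8` of `[0, 1/4], ..., [7/4, 2]`: for `t` in the interval of `m`,
`f t = f m * exp (e ^ m - e ^ t) ≥ f m * (1 + e ^ m - e ^ t)`, so the integral of `f` over the
interval is at least `f m * (h * (1 + e ^ m) - (e ^ (m + h/2) - e ^ (m - h/2)))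
= f m * (h - e ^ m * (2 * sinh (h/2) - h))`, and `2 * sinh (1/8) - 1/4 ≤ 0.000652`.
`f m = 0.875335, 0.634454, 0.419687, 0.246875, 0.124903, 0.052075, 0.016934, 0.004003`;
the sum is `0.59097`. -/
def S_Num : Prop := (59 : ℝ) / 100 < Gc

end MPacf82c.Br
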