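import Pool.Agent.Lib.MP_acf82c_lc.Br.SpecG

/-!
# One step of the construction of the hider strategy
-/

set_option autoImplicit false

open Set MeasureTheory
open scoped NNReal ENNReal

namespace MPacf82c.Br

namespace Stp_aux

variable {ι : Type} {n : ℕ}

/-- the weights -/
noncomputable def nq (q : ι → ℝ) (p : ℝ) : ι × Option (Fin n) → ℝ
  | (i, none) => q i * (1 - p)
  | (i, some _) => q i * p / n

/-- the label after the jump -/
def lab (y : ι → ℕ → Fin n) (k : ℕ) : ι × Option (Fin n) → Fin n
  | (i, none) => y i k
  | (_, some z) => z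

/-- the labels -/
def ny (y : ι → ℕ → Fin n) (k : ℕ) (io : ι × Option (Fin n)) (j : ℕ) : Fin n :=
  if j ≤ k then y io.1 j else lab y k io

/-- the stars -/
def nb (b : ι → ℕ → Bool) (k : ℕ) (io : ι × Option (Fin n)) (j : ℕ) : Bool :=
  if j < k then b io.1 j else if j = k then io.2.isSome else false

theorem sum_nq [Fintype ι] (q : ι → ℝ) (p : ℝ) (F : ι × Option (Fin n) → ℝ) :
    ∑ io, nq q p io * F io =
      ∑ i, q i * ((1 - p) * F (i, none) + p / n * ∑ z, F (i, some z)) := by
  rw [Fintype.sum_prod_type]
  refine Finset.sum_congr rfl fun i _ => ?_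
  rw [Fintype.sum_option]
  simp only [nq]
  rw [← Finset.mul_sum]
  ring

theorem fac_nonneg (B : ℕ) (L : Finset (Fin n)) (y : Fin n) (b : Bool) : 0 ≤ fac B L y b := by
  unfold fac
  split_ifs
  · positivity
  · exact le_rfl
  · exact zero_le_one

theorem surv_nonneg (B : ℕ) (L : ℕ → Finset (Fin n)) (y : ℕ → Fin n) (b : ℕ → Bool) (m : ℕ) :
    0 ≤ surv B L y b m :=
  Finset.prod_nonneg fun _ _ => fac_nonneg _ _ _ _

theorem surv_le (B k : ℕ) (L : ℕ → Finset (Fin n)) (y : ι → ℕ → Fin n) (b : ι → ℕ → Bool)
    (io : ι × Option (Fin n)) (j : ℕ) (hj : j ≤ k) :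
    surv B L (ny y k io) (nb b k io) j = surv B L (y io.1) (b io.1) j := by
  unfold surv
  refine Finset.prod_congr rfl fun l hl => ?_
  rw [Finset.mem_range] at hl
  have h1 : ny y k io l = y io.1 l := by
    unfold ny
    rw [if_pos (by omega)]
  have h2 : nb b k io l = b io.1 l := by
    unfold nb
    rw [if_pos (by omega)]
  rw [h1, h2]

theorem surv_succ (B k : ℕ) (L : ℕ → Finset (Fin n)) (y : ι → ℕ → Fin n) (b : ι → ℕ → Bool)
    (io : ι × Option (Fin n)) :
    surv B L (ny y k io) (nb b k io) (k + 1) =
      surv B L (y io.1) (b io.1) k * fac B (L k) (y io.1 k) io.2.isSome := by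
  have h0 : surv B L (ny y k io) (nb b k io) (k + 1) =
      surv B L (ny y k io) (nb b k io) k * fac B (L k) (ny y k io k) (nb b k io k) := by
    unfold surv
    rw [Finset.prod_range_succ]
  have h1 : ny y k io k = y io.1 k := by
    unfold ny
    rw [if_pos le_rfl]
  have h2 : nb b k io k = io.2.isSome := by
    unfold nb
    rw [if_neg (lt_irrefl k), if_pos rfl]
  rw [h0, surv_le B k L y b io k le_rfl, h1, h2]

theorem card_nb (b : ι → ℕ → Bool) (k : ℕ) (io : ι × Option (Fin n)) :
    (((Finset.range (k + 1)).filter fun j => nb b k io j = true).card : ℝ) =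
      (((Finset.range k).filter fun j => b io.1 j = true).card : ℝ) +
        (if io.2.isSome = true then 1 else 0) := by
  rw [Finset.range_add_one, Finset.filter_insert]
  have h1 : (Finset.range k).filter (fun j => nb b k io j = true) =
      (Finset.range k).filter fun j => b io.1 j = true := by
    refine Finset.filter_congr fun j hj => ?_
    rw [Finset.mem_range] at hj
    unfold nb
    rw [if_pos hj]
  have h2 : nb b k io k = io.2.isSome := by
    unfold nb
    rw [if_neg (lt_irrefl k), if_pos rfl]
  rw [h1, h2]
  split_ifs with h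
  · rw [Finset.card_insert_of_notMem (by simp)]
    push_cast
    ring
  · rw [add_zero]

end Stp_aux

open Stp_aux in
theorem tStp : S_Stp := by
  classical
  intro n B k hB hBn ι _ q y b h
  have hn : 0 < n := by omega
  have hn0 : (0 : ℝ) < n := by exact_mod_cast hn
  have hB0 : (0 : ℝ) < B := by exact_mod_cast (by omega : 0 < B)
  set β : ℝ := (B : ℝ) / n with hβ
  have hβ0 : 0 < β := by positivity
  set R : ℝ := (1 + β) ^ k with hR
  have hR0 : 0 < R := by positivity
  have hden : 0 < 1 + β * R := by positivity
  obtain ⟨p, hp⟩ : ∃ p : ℝ, p = β * R / (1 + β * R) := ⟨_, rfl⟩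
  have hp0 : 0 ≤ p := by rw [hp]; positivity
  have h1p : 1 - p = 1 / (1 + β * R) := by
    rw [hp]
    field_simp
    ring
  have h1p0 : 0 ≤ 1 - p := by rw [h1p]; positivity
  have hpR : p = (1 - p) * (β * R) := by
    rw [h1p, hp]
    ring
  have hple : p ≤ β * R := by
    rw [hp]
    exact div_le_self (by positivity) (by linarith [mul_pos hβ0 hR0])
  have hq := h.nonneg
  -- the new mass
  have key : ∀ L : ℕ → Finset (Fin n), (∀ j, (L j).card ≤ B) →
      (1 - p) * ∑ i, q i * surv B L (y i) (b i) k ≤
        ∑ io : ι × Option (Fin n), nq q p io * surv B L (ny y k io) (nb b k io) (k + 1) := by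
    intro L hL
    set s : ι → ℝ := fun i => surv B L (y i) (b i) k with hs
    have hs0 : ∀ i, 0 ≤ s i := fun i => surv_nonneg _ _ _ _ _
    set x : ℝ := ((L k).card : ℝ) / B with hx
    have hx0 : 0 ≤ x := by positivity
    set mL : ℝ := ∑ i, q i * s i * (if y i k ∈ L k then 1 else 0) with hmL
    set M : ℝ := ∑ i, q i * s i with hM
    have e1 : ∑ io : ι × Option (Fin n), nq q p io * surv B L (ny y k io) (nb b k io) (k + 1) =
        (1 - p) * (M - mL) + p * x * M := by
      rw [sum_nq, hM, hmL, ← Finset.sum_sub_distrib, Finset.mul_sum, Finset.mul_sum,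
        ← Finset.sum_add_distrib]
      refine Finset.sum_congr rfl fun i _ => ?_
      have e2 : surv B L (ny y k ((i, none) : ι × Option (Fin n))) (nb b k ((i, none) : ι × Option (Fin n))) (k + 1) =
          s i * (1 - (if y i k ∈ L k then 1 else 0)) := by
        rw [surv_succ]
        have e3 : fac B (L k) (y i k) (Option.isSome (none : Option (Fin n))) =
            1 - (if y i k ∈ L k then 1 else 0) := by
          unfold fac
          by_cases hy : y i k ∈ L k <;> simp [hy]
        rw [e3]
      have e4 : ∀ z : Fin n, surv B L (ny y k (i, some z)) (nb b k (i, some z)) (k + 1) =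
          s i * x := by
        intro z
        rw [surv_succ]
        have e5 : fac B (L k) (y i k) (Option.isSome (some z)) = x := by
          unfold fac
          simp [hx]
        rw [e5]
      rw [e2, Finset.sum_congr rfl fun z _ => e4 z, Finset.sum_const, Finset.card_univ,
        Fintype.card_fin, nsmul_eq_mul]
      field_simp
    have e6 : (n : ℝ) * mL ≤ (L k).card * (R * M) := by
      have e7 : mL = ∑ z ∈ L k, ∑ i, (if y i k = z then q i * s i else 0) := by
        rw [Finset.sum_comm]
        refine Finset.sum_congr rfl fun i _ => ?_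
        rw [Finset.sum_ite_eq]
        split_ifs
        · rw [mul_one]
        · rw [mul_zero]
      rw [e7, Finset.mul_sum]
      calc ∑ z ∈ L k, (n : ℝ) * ∑ i, (if y i k = z then q i * s i else 0)
          ≤ ∑ _z ∈ L k, R * M := Finset.sum_le_sum fun z _ => h.dens L hL z
        _ = (L k).card * (R * M) := by rw [Finset.sum_const, nsmul_eq_mul]
    have e8 : (1 - p) * mL ≤ p * x * M := by
      have e9 : mL ≤ (L k).card * (R * M) / n := by
        rw [le_div_iff₀ hn0]
        linarith
      calc (1 - p) * mL ≤ (1 - p) * ((L k).card * (R * M) / n) :=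
            mul_le_mul_of_nonneg_left e9 h1p0
        _ = (1 - p) * (β * R) * x * M := by
            rw [hβ, hx]
            field_simp
        _ = p * x * M := by rw [← hpR]
    rw [e1]
    linarith
  have hx1 : ∀ L : ℕ → Finset (Fin n), (∀ j, (L j).card ≤ B) → ((L k).card : ℝ) / B ≤ 1 := by
    intro L hL
    rw [div_le_one hB0]
    exact_mod_cast hL k
  refine ⟨ι × Option (Fin n), inferInstance, nq q p, ny y k, nb b k, ?_, ?_, ?_, ?_, ?_, ?_, ?_⟩
  · rintro ⟨i, _ | z⟩
    · exact mul_nonneg (hq i) h1p0
    · exact div_nonneg (mul_nonneg (hq i) hp0) hn0.le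
  · have e1 := sum_nq (n := n) q p (fun _ => 1)
    simp only [mul_one, Finset.sum_const, Finset.card_univ, Fintype.card_fin, nsmul_eq_mul] at e1
    rw [e1]
    have e2 : ∀ i, q i * (1 - p + p / n * n) = q i := by
      intro i
      field_simp
      ring
    rw [Finset.sum_congr rfl fun i _ => e2 i]
    exact h.sum
  · intro io j hj
    unfold nb at hj
    unfold ny
    by_cases h1 : j < k
    · rw [if_pos h1] at hj
      rw [if_pos (by omega), if_pos (by omega)]
      exact h.stay io.1 j hj
    · rw [if_neg h1] at hj
      by_cases h2 : j = k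
      · rw [if_pos h2] at hj
        rw [if_pos (by omega), if_neg (by omega), h2]
        obtain ⟨i, _ | z⟩ := io
        · rfl
        · simp at hj
      · rw [if_neg (by omega), if_neg (by omega)]
  · intro io j hj
    unfold nb
    rw [if_neg (by omega), if_neg (by omega)]
  · have e1 : ∑ io : ι × Option (Fin n), nq q p io *
        (((Finset.range (k + 1)).filter fun j => nb b k io j = true).card : ℝ) =
        ∑ i, q i * (((Finset.range k).filter fun j => b i j = true).card : ℝ) + p := by
      rw [Finset.sum_congr rfl fun io _ => by rw [card_nb], sum_nq]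
      have e2 : p = ∑ i, q i * p := by rw [← Finset.sum_mul, h.sum, one_mul]
      conv_rhs => rw [e2]
      rw [← Finset.sum_add_distrib]
      refine Finset.sum_congr rfl fun i _ => ?_
      simp only [Option.isSome_none, Option.isSome_some, if_true, Finset.sum_const,
        Finset.card_univ, Fintype.card_fin, nsmul_eq_mul]
      rw [if_neg (by simp)]
      field_simp
      ring
    rw [e1, pow_succ]
    have := h.stars
    rw [← hβ, ← hR] at this
    linarith
  · intro L hL z
    set s : ι → ℝ := fun i => surv B L (y i) (b i) k with hs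
    have hs0 : ∀ i, 0 ≤ s i := fun i => surv_nonneg _ _ _ _ _
    set x : ℝ := ((L k).card : ℝ) / B with hx
    have hx0 : 0 ≤ x := by positivity
    have hxle : x ≤ 1 := hx1 L hL
    set M : ℝ := ∑ i, q i * s i with hM
    have hM0 : 0 ≤ M := Finset.sum_nonneg fun i _ => mul_nonneg (hq i) (hs0 i)
    have e1 : ∑ io : ι × Option (Fin n), (if ny y k io (k + 1) = z then
        nq q p io * surv B L (ny y k io) (nb b k io) (k + 1) else 0) ≤
        (1 - p) * (∑ i, if y i k = z then q i * s i else 0) + p / n * x * M := by
      have e2 : ∑ io : ι × Option (Fin n), (if ny y k io (k + 1) = z then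
          nq q p io * surv B L (ny y k io) (nb b k io) (k + 1) else 0) =
          ∑ io : ι × Option (Fin n), nq q p io * (if ny y k io (k + 1) = z then
            surv B L (ny y k io) (nb b k io) (k + 1) else 0) := by
        refine Finset.sum_congr rfl fun io _ => ?_
        rw [mul_ite, mul_zero]
      rw [e2, sum_nq, Finset.mul_sum, hM, Finset.mul_sum, ← Finset.sum_add_distrib]
      refine Finset.sum_le_sum fun i _ => ?_
      have e3 : (if ny y k ((i, none) : ι × Option (Fin n)) (k + 1) = z then
          surv B L (ny y k ((i, none) : ι × Option (Fin n))) (nb b k ((i, none) : ι × Option (Fin n))) (k + 1) else 0) ≤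
          if y i k = z then s i else 0 := by
        have e4 : ny y k (i, (none : Option (Fin n))) (k + 1) = y i k := by
          unfold ny
          rw [if_neg (by omega)]
          rfl
        rw [e4]
        split_ifs
        · rw [surv_succ]
          have e5 : fac B (L k) (y i k) (Option.isSome (none : Option (Fin n))) ≤ 1 := by
            unfold fac
            by_cases hy : y i k ∈ L k <;> simp [hy]
          exact mul_le_of_le_one_right (hs0 i) e5
        · exact le_rfl
      have e6 : ∑ z', (if ny y k (i, some z') (k + 1) = z then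
          surv B L (ny y k (i, some z')) (nb b k (i, some z')) (k + 1) else 0) = s i * x := by
        have e7 : ∀ z' : Fin n, (if ny y k (i, some z') (k + 1) = z then
            surv B L (ny y k (i, some z')) (nb b k (i, some z')) (k + 1) else 0) =
            if z' = z then s i * x else 0 := by
          intro z'
          have e8 : ny y k (i, some z') (k + 1) = z' := by
            unfold ny
            rw [if_neg (by omega)]
            rfl
          rw [e8, surv_succ]
          have e9 : fac B (L k) (y i k) (Option.isSome (some z')) = x := by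
            unfold fac
            simp [hx]
          rw [e9]
        rw [Finset.sum_congr rfl fun z' _ => e7 z', Finset.sum_ite_eq' Finset.univ z,
          if_pos (Finset.mem_univ z)]
      rw [e6]
      have e10 := mul_le_mul_of_nonneg_left e3 h1p0
      have e11 : q i * ((1 - p) * (if ny y k ((i, none) : ι × Option (Fin n)) (k + 1) = z then
          surv B L (ny y k ((i, none) : ι × Option (Fin n))) (nb b k ((i, none) : ι × Option (Fin n))) (k + 1) else 0) + p / n * (s i * x)) ≤
          q i * ((1 - p) * (if y i k = z then s i else 0) + p / n * (s i * x)) :=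
        mul_le_mul_of_nonneg_left (by linarith) (hq i)
      refine e11.trans (le_of_eq ?_)
      split_ifs
      · ring
      · ring
    have e12 := h.dens L hL z
    rw [← hβ, ← hR] at e12
    have e13 := key L hL
    have e14 : (n : ℝ) * ∑ io : ι × Option (Fin n), (if ny y k io (k + 1) = z then
        nq q p io * surv B L (ny y k io) (nb b k io) (k + 1) else 0) ≤
        (1 - p) * ((n : ℝ) * ∑ i, if y i k = z then q i * s i else 0) + p * x * M := by
      calc _ ≤ (n : ℝ) * ((1 - p) * (∑ i, if y i k = z then q i * s i else 0) + p / n * x * M) :=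
            mul_le_mul_of_nonneg_left e1 hn0.le
        _ = _ := by
            field_simp
    have e15 : (1 - p) * ((n : ℝ) * ∑ i, if y i k = z then q i * s i else 0) ≤
        (1 - p) * (R * M) := mul_le_mul_of_nonneg_left e12 h1p0
    have e16 : p * x * M ≤ p * M := by
      have := mul_le_mul_of_nonneg_left hxle (mul_nonneg hp0 hM0)
      linarith
    have e17 : (1 - p) * (R * M) + p * M = (1 - p) * R * (1 + β) * M := by
      have : p * M = (1 - p) * (β * R) * M := by rw [← hpR]
      rw [this]
      ring
    calc (n : ℝ) * ∑ io : ι × Option (Fin n), (if ny y k io (k + 1) = z then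
        nq q p io * surv B L (ny y k io) (nb b k io) (k + 1) else 0)
        ≤ (1 - p) * (R * M) + p * M := by linarith
      _ = (1 + β) ^ (k + 1) * ((1 - p) * M) := by
          rw [e17, pow_succ]
          ring
      _ ≤ (1 + β) ^ (k + 1) * ∑ io : ι × Option (Fin n), nq q p io * surv B L (ny y k io) (nb b k io) (k + 1) :=
          mul_le_mul_of_nonneg_left e13 (by positivity)
  · intro L hL j hj
    rcases Nat.lt_or_ge k j with h1 | h1
    · have h2 : j = k + 1 := by omega
      subst h2
      have e1 : Pj n B (k + 1) = (1 - p) * Pj n B k := by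
        unfold Pj
        rw [Finset.prod_range_succ, h1p]
        ring
      rw [e1]
      exact (mul_le_mul_of_nonneg_left (h.mass L hL k le_rfl) h1p0).trans (key L hL)
    · have e1 : ∑ io : ι × Option (Fin n), nq q p io * surv B L (ny y k io) (nb b k io) j =
          ∑ i, q i * surv B L (y i) (b i) j := by
        rw [Finset.sum_congr rfl fun io _ => by rw [surv_le B k L y b io j h1], sum_nq]
        refine Finset.sum_congr rfl fun i _ => ?_
        simp only [Finset.sum_const, Finset.card_univ, Fintype.card_fin, nsmul_eq_mul]
        field_simp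
        ring
      rw [e1]
      exact h.mass L hL j h1

end MPacf82c.Br
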