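import Pool.Agent.Lib.MP_acf82c_lc.Br.SpecG

set_option autoImplicit false

namespace MPacf82c.Br

private theorem Trc_fac0 {n : ℕ} (B : ℕ) (L : Finset (Fin n)) (y : Fin n) (b : Bool) :
    0 ≤ fac B L y b := by
  unfold fac
  split_ifs <;> positivity

private theorem Trc_fac1 {n : ℕ} {B : ℕ} (hB : 1 ≤ B) {L : Finset (Fin n)} (hL : L.card ≤ B)
    (y : Fin n) (b : Bool) : fac B L y b ≤ 1 := by
  have hB0 : (0 : ℝ) < B := by exact_mod_cast hB
  unfold fac
  split_ifs
  · rw [div_le_one hB0]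
    exact_mod_cast hL
  · exact zero_le_one
  · exact le_refl _

private theorem Trc_surv0 {n : ℕ} (B : ℕ) (L : ℕ → Finset (Fin n)) (y : ℕ → Fin n)
    (b : ℕ → Bool) (m : ℕ) : 0 ≤ surv B L y b m :=
  Finset.prod_nonneg fun _ _ => Trc_fac0 _ _ _ _

private theorem Trc_surv1 {n : ℕ} {B : ℕ} (hB : 1 ≤ B) (L : ℕ → Finset (Fin n))
    (hL : ∀ j, (L j).card ≤ B) (y : ℕ → Fin n) (b : ℕ → Bool) (m : ℕ) : surv B L y b m ≤ 1 :=
  Finset.prod_le_one (fun _ _ => Trc_fac0 _ _ _ _) fun j _ => Trc_fac1 hB (hL j) _ _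

private theorem Trc_pay_mono {n : ℕ} (B : ℕ) (L : ℕ → Finset (Fin n)) (y : ℕ → Fin n)
    (b : ℕ → Bool) {k M : ℕ} (h : k ≤ M) : payoff B k L y b ≤ payoff B M L y b := by
  unfold payoff
  exact Finset.sum_le_sum_of_subset_of_nonneg (Finset.range_mono h)
    fun j _ _ => Trc_surv0 B L y b j

private theorem Trc_pay0 {n : ℕ} (B : ℕ) (L : ℕ → Finset (Fin n)) (y : ℕ → Fin n)
    (b : ℕ → Bool) (k : ℕ) : 0 ≤ payoff B k L y b :=
  Finset.sum_nonneg fun j _ => Trc_surv0 B L y b j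

private theorem Trc_pay1 {n : ℕ} {B : ℕ} (hB : 1 ≤ B) (L : ℕ → Finset (Fin n))
    (hL : ∀ j, (L j).card ≤ B) (y : ℕ → Fin n) (b : ℕ → Bool) (k : ℕ) :
    payoff B k L y b ≤ k := by
  unfold payoff
  calc ∑ m ∈ Finset.range k, surv B L y b m ≤ ∑ _m ∈ Finset.range k, (1 : ℝ) :=
        Finset.sum_le_sum fun j _ => Trc_surv1 hB L hL y b j
    _ = k := by rw [Finset.sum_const, Finset.card_range, nsmul_eq_mul, mul_one]

/-- number of stars -/
private def Trc_st (k : ℕ) (b : ℕ → Bool) : ℕ :=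
  ((Finset.range k).filter fun j => b j = true).card

private def Trc_y {n : ℕ} (k K : ℕ) (y : ℕ → Fin n) (b : ℕ → Bool) : ℕ → Fin n :=
  if K < Trc_st k b then fun _ => y 0 else y

private def Trc_b (k K : ℕ) (b : ℕ → Bool) : ℕ → Bool :=
  if K < Trc_st k b then fun _ => false else b

private theorem Trc_adm {n : ℕ} (k K M : ℕ) (y : ℕ → Fin n) (b : ℕ → Bool)
    (hs : ∀ j, b j = false → y j = y (j + 1)) (ha : ∀ j, k ≤ j → b j = false) :
    Adm M K (Trc_y k K y b) (Trc_b k K b) := by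
  by_cases h : K < Trc_st k b
  · unfold Trc_y Trc_b
    rw [if_pos h, if_pos h]
    refine ⟨fun _ _ _ => rfl, ?_⟩
    have : ((Finset.range M).filter fun k => (false : Bool) = true) = ∅ := by
      apply Finset.filter_false_of_mem
      intro x _ hx
      exact Bool.false_ne_true hx
    rw [this, Finset.card_empty]
    exact Nat.zero_le _
  · unfold Trc_y Trc_b
    rw [if_neg h, if_neg h]
    refine ⟨fun j _ hj => hs j hj, ?_⟩
    have hsub : ((Finset.range M).filter fun j => b j = true) ⊆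
        ((Finset.range k).filter fun j => b j = true) := by
      intro j hj
      rw [Finset.mem_filter] at hj ⊢
      refine ⟨?_, hj.2⟩
      rw [Finset.mem_range]
      by_contra hk
      have h1 := ha j (not_lt.1 hk)
      rw [hj.2] at h1
      exact Bool.false_ne_true h1.symm
    exact (Finset.card_le_card hsub).trans (not_lt.1 h)

private theorem Trc_loss {n B : ℕ} (hB : 1 ≤ B) (k K M : ℕ) (hK : 1 ≤ K) (hM : k ≤ M)
    (y : ℕ → Fin n) (b : ℕ → Bool) (L : ℕ → Finset (Fin n)) (hL : ∀ j, (L j).card ≤ B) :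
    payoff B k L y b - k * ((Trc_st k b : ℕ) : ℝ) / K ≤
      payoff B M L (Trc_y k K y b) (Trc_b k K b) := by
  have hK0 : (0 : ℝ) < K := by exact_mod_cast hK
  have hs0 : (0 : ℝ) ≤ ((Trc_st k b : ℕ) : ℝ) := Nat.cast_nonneg _
  have hk0 : (0 : ℝ) ≤ k := Nat.cast_nonneg _
  by_cases h : K < Trc_st k b
  · have h1 : (K : ℝ) ≤ ((Trc_st k b : ℕ) : ℝ) := by exact_mod_cast h.le
    have h2 : (k : ℝ) ≤ k * ((Trc_st k b : ℕ) : ℝ) / K := by
      rw [le_div_iff₀ hK0]
      exact mul_le_mul_of_nonneg_left h1 hk0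
    have h3 := Trc_pay1 hB L hL y b k
    have h4 := Trc_pay0 B L (Trc_y k K y b) (Trc_b k K b) M
    linarith
  · have h0 : 0 ≤ k * ((Trc_st k b : ℕ) : ℝ) / K := by positivity
    have e1 : Trc_y k K y b = y := by
      unfold Trc_y
      rw [if_neg h]
    have e2 : Trc_b k K b = b := by
      unfold Trc_b
      rw [if_neg h]
    rw [e1, e2]
    have h3 := Trc_pay_mono B L y b hM
    linarith

theorem tTrc : S_Trc := by
  intro n B k ι _ q y b hB hBn h K M hK hM
  have hK0 : (0 : ℝ) < K := by exact_mod_cast hK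
  refine ⟨ι, inferInstance, q, fun i => Trc_y k K (y i) (b i), fun i => Trc_b k K (b i),
    h.nonneg, h.sum, fun i => Trc_adm k K M (y i) (b i) (h.stay i) (h.after i), ?_⟩
  intro L hL
  have h1 : ∑ i, q i * (payoff B k L (y i) (b i) - k * ((Trc_st k (b i) : ℕ) : ℝ) / K) ≤
      ∑ i, q i * payoff B M L (Trc_y k K (y i) (b i)) (Trc_b k K (b i)) :=
    Finset.sum_le_sum fun i _ => mul_le_mul_of_nonneg_left
      (Trc_loss hB k K M hK hM (y i) (b i) L hL) (h.nonneg i)
  refine le_trans ?_ h1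
  have e1 : ∑ i, q i * (payoff B k L (y i) (b i) - k * ((Trc_st k (b i) : ℕ) : ℝ) / K) =
      ∑ i, q i * payoff B k L (y i) (b i) -
        k * (∑ i, q i * ((Trc_st k (b i) : ℕ) : ℝ)) / K := by
    rw [Finset.mul_sum, Finset.sum_div, ← Finset.sum_sub_distrib]
    refine Finset.sum_congr rfl fun i _ => ?_
    ring
  have e2 : ∑ i, q i * payoff B k L (y i) (b i) =
      ∑ j ∈ Finset.range k, ∑ i, q i * surv B L (y i) (b i) j := by
    rw [Finset.sum_comm]
    refine Finset.sum_congr rfl fun i _ => ?_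
    unfold payoff
    rw [Finset.mul_sum]
  have h2 : ∑ j ∈ Finset.range k, Pj n B j ≤
      ∑ j ∈ Finset.range k, ∑ i, q i * surv B L (y i) (b i) j :=
    Finset.sum_le_sum fun j hj => h.mass L hL j (Finset.mem_range.1 hj).le
  have h3 : (k : ℝ) * (∑ i, q i * ((Trc_st k (b i) : ℕ) : ℝ)) / K ≤
      k * ((1 + (B : ℝ) / n) ^ k - 1) / K := by
    refine div_le_div_of_nonneg_right ?_ hK0.le
    exact mul_le_mul_of_nonneg_left h.stars (Nat.cast_nonneg _)
  rw [e1, e2]
  linarith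

end MPacf82c.Br
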