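import Pool.Agent.Lib.MP_acf82c_lc.Br.Main
import Pool.Agent.Lib.MP_acf82c_lc.Br.SpecG
import Pool.Agent.Lib.MP_acf82c_lc.Br.SpecH
import Pool.Agent.Lib.MP_acf82c_lc.Br.Stp
import Pool.Agent.Lib.MP_acf82c_lc.Br.Fwd
import Pool.Agent.Lib.MP_acf82c_lc.Br.Trc
import Pool.Agent.Lib.MP_acf82c_lc.Br.Rie
import Pool.Agent.Lib.MP_acf82c_lc.Br.Hv
import Pool.Agent.Lib.MP_acf82c_lc.Br.GSm
import Pool.Agent.Lib.MP_acf82c_lc.Br.GLe
import Pool.Agent.Lib.MP_acf82c_lc.Br.Num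

/-!
# Networks with bridges: the theorem, with both bounds for the clover constant
-/

namespace MPacf82c.Br

open Set MeasureTheory
open scoped NNReal ENNReal

theorem hvC : S_HvC := tHv tStp tFwd tTrc tRie

theorem gSmC : S_GSmC := tGSm hvC brGC

theorem gLeC : S_GLeC := tGLe gSmC

/-- The Alpern-Asic inequality for networks with many bridges, and bounds for the clover
constant. -/
theorem bridgesG : ∃ c : ℝ, 59 / 100 < c ∧ (∫ t in Ioi (0 : ℝ), Real.exp (1 - Real.exp t)) ≤ c ∧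
    c < 4 / 5 ∧
    (∀ ε : ℝ, 0 < ε → ∃ n₀ : ℕ, ∀ n : ℕ, n₀ ≤ n →
      ∀ (Q : Type) [MetricSpace Q] (N : Network Q) (O : Q), IsClover N O n →
      ∀ w : ℝ≥0, 1 ≤ w →
        HiderGuarantees w O (ENNReal.ofReal ((c - ε) * n)) ∧
        SearcherGuarantees w O (ENNReal.ofReal ((c + ε) * n))) ∧
    (∀ (Q : Type) [MetricSpace Q] (N : Network Q) (O : Q),
      (2 * c - 1) * N.length < N.bridgeLength → ∀ w : ℝ≥0, 1 ≤ w →
        HiderGuarantees w O (ENNReal.ofReal (c * N.length))) ∧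
    (∀ ε : ℝ, 0 < ε → ∃ δ : ℝ, 0 < δ ∧ ∀ (Q : Type) [MetricSpace Q] (N : Network Q) (O : Q),
      (∀ x y : Q, dist x y ≤ δ * N.length) → ∀ w : ℝ≥0, 1 ≤ w →
      HiderGuarantees w O (ENNReal.ofReal ((c - ε) * (N.length + N.bridgeLength)))) := by
  obtain ⟨c, hc, hlt, h1, h2, h3⟩ := bridges
  have hG : Gc ≤ c := gLeC c hc hlt h1
  exact ⟨c, lt_of_lt_of_le tNum hG, hG, hlt, h1, h2, h3⟩

end MPacf82c.Br
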