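import Pool.Agent.Lib.MP_acf82c_lc.Br.SpecM

/-!
# The memoryless hider, module Pot: the potential
-/

set_option autoImplicit false

open Set MeasureTheory
open scoped NNReal ENNReal

namespace MPacf82c.Br

private theorem Pot_exp : (203 : ℝ) / 1000 ≤ Real.exp (-km) := by
  have h1 : Real.exp 1 < 2.7182818286 := Real.exp_one_lt_d9
  have h2 := Real.exp_bound' (x := 297 / 500) (by norm_num) (by norm_num) (n := 6) (by norm_num)
  norm_num [Finset.sum_range_succ, Nat.factorial] at h2
  have h3 : Real.exp km = Real.exp 1 * Real.exp (297 / 500) := by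
    rw [← Real.exp_add]
    congr 1
    unfold km
    norm_num
  have h4 : Real.exp km ≤ 1000 / 203 := by
    rw [h3]
    have h5 : (0 : ℝ) < Real.exp (297 / 500) := Real.exp_pos _
    have h6 : (0 : ℝ) < Real.exp 1 := Real.exp_pos _
    have h7 : Real.exp (297 / 500) ≤ 1.812 := by
      refine h2.trans ?_
      norm_num
    calc Real.exp 1 * Real.exp (297 / 500) ≤ 2.7182818286 * 1.812 := by
          refine mul_le_mul h1.le h7 h5.le (by norm_num)
      _ ≤ 1000 / 203 := by norm_num
  rw [Real.exp_neg]
  have h8 : (0 : ℝ) < Real.exp km := Real.exp_pos _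
  rw [le_inv_comm₀ (by norm_num) h8]
  norm_num
  linarith

private theorem Pot_nonneg (Y : ℝ) (hY : 0 ≤ Y) :
    wm Y = Am / km ^ 2 * (km * Y - 1 + Real.exp (-(km * Y))) := by
  have hk : (km : ℝ) ≠ 0 := by
    unfold km
    norm_num
  unfold wm
  rw [if_pos hY]
  field_simp
  ring

private theorem Pot_neg (Y : ℝ) (hY : ¬ 0 ≤ Y) : wm Y = 0 := by
  unfold wm
  rw [if_neg hY]

theorem tPot : S_Pot := by
  have hk : (0 : ℝ) < km := by
    unfold km
    norm_num
  have hkv : km = 797 / 500 := rfl
  have he := Pot_exp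
  obtain ⟨e1, he1⟩ : ∃ e1, e1 = Real.exp (-km) := ⟨_, rfl⟩
  rw [← he1] at he
  have hD : 0 < km - 1 + e1 := by
    rw [hkv]
    linarith
  have hAeq : Am = km / (km - 1 + e1) := by
    unfold Am
    rw [he1]
  have hA : Am * (km - 1 + e1) = km := by
    rw [hAeq]
    exact div_mul_cancel₀ _ hD.ne'
  have hA0 : 0 < Am := by
    rw [hAeq]
    exact div_pos hk hD
  have hA2 : Am ≤ 2 := by
    rw [hAeq, div_le_iff₀ hD, hkv]
    linarith
  have hgm : gm * km = 1 := by
    unfold gm km
    norm_num
  obtain ⟨B, hB⟩ : ∃ B, B = Am / km ^ 2 := ⟨_, rfl⟩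
  have hB0 : 0 < B := by
    rw [hB]
    positivity
  have hBk : B * km ^ 2 = Am := by
    rw [hB]
    exact div_mul_cancel₀ _ (pow_pos hk 2).ne'
  have hnn : ∀ Y, 0 ≤ Y → wm Y = B * (km * Y - 1 + Real.exp (-(km * Y))) := by
    intro Y hY
    rw [Pot_nonneg Y hY, hB]
  -- `B * ψ 1 = gm`
  have hB1 : B * (km - 1 + e1) = gm := by
    have e2 : (B * (km - 1 + e1)) * km ^ 2 = gm * km ^ 2 := by
      calc (B * (km - 1 + e1)) * km ^ 2 = (B * km ^ 2) * (km - 1 + e1) := by ring
        _ = km := by rw [hBk, hA]
        _ = (gm * km) * km := by rw [hgm, one_mul]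
        _ = gm * km ^ 2 := by ring
    exact mul_right_cancel₀ (pow_pos hk 2).ne' e2
  have hzero : wm 0 = 0 := by
    rw [hnn 0 le_rfl]
    simp
  -- monotone for nonnegative arguments
  have hmon : ∀ X Y, 0 ≤ X → X ≤ Y → wm X ≤ wm Y := by
    intro X Y hX hXY
    rw [hnn X hX, hnn Y (hX.trans hXY)]
    refine mul_le_mul_of_nonneg_left ?_ hB0.le
    have e2 : Real.exp (-(km * Y)) = Real.exp (-(km * X)) * Real.exp (-(km * (Y - X))) := by
      rw [← Real.exp_add]
      congr 1
      ring
    have e3 := Real.add_one_le_exp (-(km * (Y - X)))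
    have e4 : Real.exp (-(km * (Y - X))) ≤ 1 := by
      rw [Real.exp_le_one_iff]
      have : 0 ≤ km * (Y - X) := mul_nonneg hk.le (by linarith)
      linarith
    have e5 : Real.exp (-(km * X)) ≤ 1 := by
      rw [Real.exp_le_one_iff]
      have : 0 ≤ km * X := mul_nonneg hk.le hX
      linarith
    rw [e2]
    have e6 : Real.exp (-(km * X)) * (1 - Real.exp (-(km * (Y - X)))) ≤
        1 * (1 - Real.exp (-(km * (Y - X)))) :=
      mul_le_mul_of_nonneg_right e5 (by linarith)
    linarith
  have hconv : ∀ Y, 0 ≤ Y → Y ≤ 1 → Real.exp (-(km * Y)) ≤ (1 - Y) + Y * e1 := by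
    intro Y hY hY1
    have h := convexOn_exp.2 (Set.mem_univ (0 : ℝ)) (Set.mem_univ (-km))
      (show (0 : ℝ) ≤ 1 - Y by linarith) hY (by ring)
    simp only [smul_eq_mul, mul_zero, zero_add, Real.exp_zero, mul_one] at h
    rw [he1]
    have e2 : -(km * Y) = Y * -km := by ring
    rw [e2]
    exact h
  refine ⟨?_, ?_, ?_, ?_⟩
  · rw [hnn 1 zero_le_one, mul_one, ← he1, hB1]
  · intro X Y hXY
    by_cases hX : 0 ≤ X
    · exact hmon X Y hX hXY
    · rw [Pot_neg X hX]
      by_cases hY : 0 ≤ Y
      · rw [← hzero]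
        exact hmon 0 Y le_rfl hY
      · rw [Pot_neg Y hY]
  · intro Y hY hY1
    rw [hnn Y hY]
    have h := hconv Y hY hY1
    calc B * (km * Y - 1 + Real.exp (-(km * Y))) ≤ B * (Y * (km - 1 + e1)) := by
          refine mul_le_mul_of_nonneg_left ?_ hB0.le
          linarith
      _ = (B * (km - 1 + e1)) * Y := by ring
      _ = gm * Y := by rw [hB1]
  · intro β Y x hβ hY hY1 hx hx1
    -- the tangent inequality
    have htan0 : ∀ t, 0 ≤ t → t ≤ Y →
        B * ((km * Y - 1 + Real.exp (-(km * Y))) - t * km * (1 - Real.exp (-(km * Y)))) ≤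
          wm (Y - t) := by
      intro t ht htY
      rw [hnn (Y - t) (by linarith)]
      refine mul_le_mul_of_nonneg_left ?_ hB0.le
      have e2 : Real.exp (-(km * (Y - t))) = Real.exp (-(km * Y)) * Real.exp (km * t) := by
        rw [← Real.exp_add]
        congr 1
        ring
      have e3 := Real.add_one_le_exp (km * t)
      have e4 : Real.exp (-(km * Y)) * (km * t + 1) ≤
          Real.exp (-(km * Y)) * Real.exp (km * t) :=
        mul_le_mul_of_nonneg_left e3 (Real.exp_pos _).le
      rw [e2]
      nlinarith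
    have hF0 : 0 ≤ 1 - Real.exp (-(km * Y)) := by
      have : Real.exp (-(km * Y)) ≤ 1 := by
        rw [Real.exp_le_one_iff]
        have : 0 ≤ km * Y := mul_nonneg hk.le hY
        linarith
      linarith
    have htan : ∀ t, 0 ≤ t →
        B * ((km * Y - 1 + Real.exp (-(km * Y))) - t * km * (1 - Real.exp (-(km * Y)))) ≤
          wm (Y - t) := by
      intro t ht
      by_cases htY : t ≤ Y
      · exact htan0 t ht htY
      · rw [Pot_neg (Y - t) (by linarith)]
        have h := htan0 Y hY le_rfl
        rw [sub_self, hzero] at h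
        refine le_trans (mul_le_mul_of_nonneg_left ?_ hB0.le) h
        have : Y * (km * (1 - Real.exp (-(km * Y)))) ≤ t * (km * (1 - Real.exp (-(km * Y)))) :=
          mul_le_mul_of_nonneg_right (by linarith) (mul_nonneg hk.le hF0)
        linarith
    have hT := htan (β * x) (mul_nonneg hβ hx)
    have hc := hconv Y hY hY1
    rw [hnn Y hY]
    obtain ⟨F, hF⟩ : ∃ F, F = 1 - Real.exp (-(km * Y)) := ⟨_, rfl⟩
    have hE : Real.exp (-(km * Y)) = 1 - F := by linarith
    rw [hE] at hT hc ⊢
    have hP : 0 < 1 + km * β := by positivity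
    have g1 : km * Y - 1 + (1 - F) = km * Y - F := by ring
    have g2 : (1 : ℝ) - (1 - F) = F := by ring
    rw [g1, g2] at hT
    rw [g1]
    -- the key inequality
    have hkey : km * (B * (km * Y - F)) ≤ Y + x * (Y - B * km * F) := by
      have k0 : Am * Y - B * km * F ≤ Y := by
        have k1 : Y * (1 - e1) ≤ F := by linarith
        have k2 : B * km * (1 - e1) = Am - 1 := by
          have k3 : (B * km * (1 - e1)) * km = (Am - 1) * km := by
            calc (B * km * (1 - e1)) * km = (B * km ^ 2) * (1 - e1) := by ring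
              _ = Am * (1 - e1) := by rw [hBk]
              _ = Am * km - Am * (km - 1 + e1) := by ring
              _ = (Am - 1) * km := by
                rw [hA]
                ring
          exact mul_right_cancel₀ hk.ne' k3
        have k4 : (B * km) * (Y * (1 - e1)) ≤ (B * km) * F :=
          mul_le_mul_of_nonneg_left k1 (mul_pos hB0 hk).le
        have k5 : (B * km) * (Y * (1 - e1)) = (Am - 1) * Y := by
          rw [← k2]
          ring
        linarith
      have k6 : Am * Y ≤ 2 * Y := mul_le_mul_of_nonneg_right hA2 hY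
      have k7 : km * (B * (km * Y - F)) = Am * Y - B * km * F := by
        rw [← hBk]
        ring
      rw [k7]
      have k8 : (1 - x) * (Am * Y - B * km * F) ≤ (1 - x) * Y :=
        mul_le_mul_of_nonneg_left k0 (by linarith)
      have k9 : x * (Am * Y - B * km * F) ≤ x * (2 * Y - B * km * F) :=
        mul_le_mul_of_nonneg_left (by linarith) hx
      linarith
    have hk2 : β * (km * (B * (km * Y - F))) ≤ β * (Y + x * (Y - B * km * F)) :=
      mul_le_mul_of_nonneg_left hkey hβ
    have hmain : (1 + km * β) * (B * (km * Y - F)) ≤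
        (1 + km * β) * (β * Y) + wm (Y - β * x) + β * x * Y := by
      have k10 : 0 ≤ km * β * (β * Y) := by positivity
      linarith
    have h3 : km * β / (1 + km * β) * x * Y * gm = β * x * Y / (1 + km * β) := by
      calc km * β / (1 + km * β) * x * Y * gm = (gm * km) * (β * x * Y) / (1 + km * β) := by ring
        _ = β * x * Y / (1 + km * β) := by rw [hgm, one_mul]
    rw [h3]
    have h4 : B * (km * Y - F) ≤
        ((1 + km * β) * (β * Y) + wm (Y - β * x) + β * x * Y) / (1 + km * β) := by
      rw [le_div_iff₀ hP]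
      linarith
    have h5 : ((1 + km * β) * (β * Y) + wm (Y - β * x) + β * x * Y) / (1 + km * β) =
        β * Y + 1 / (1 + km * β) * wm (Y - β * x) + β * x * Y / (1 + km * β) := by
      field_simp
    rw [← h5]
    exact h4

end MPacf82c.Br
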