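import Pool.Agent.Lib.MP_acf82c_lc.Br.SpecG

/-!
# A better lower bound for the clover constant: the memoryless hider (note 5556, helper17)

Every `S_X` is to be proved as `theorem tX : S_X` in the module
`Pool/Agent/Lib/MP_acf82c_lc/Br/X.lean` (namespace `MPacf82c.Br`), which imports this file and
modules of the landed library (named in the docstrings).  Statements which are used are hypotheses,
so all modules are independent.

The hider jumps at the constant rate `km = 1.594` (time in units of the total length) to a fresh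
random label.  In the block game with `n` labels and `B` labels in a block: `β = B / n`, the
probability of a jump in a block is `pm n B = km β / (1 + km β)`.  The value is at least
`gm n / B`, `gm = 1 / km = 0.627...`.
-/

set_option autoImplicit false

open Set MeasureTheory
open scoped NNReal ENNReal

namespace MPacf82c.Br

open MPacf82c.St (CloverC)

/-- The jump rate. -/
noncomputable def km : ℝ := 797 / 500

/-- The value, `1 / km`. -/
noncomputable def gm : ℝ := 500 / 797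

/-- The probability of a jump in a block. -/
noncomputable def pm (n B : ℕ) : ℝ := km * ((B : ℝ) / n) / (1 + km * ((B : ℝ) / n))

/-- The factor of the potential; at most `2` because `2 * (1 - exp (-km)) ≤ km`. -/
noncomputable def Am : ℝ := km / (km - 1 + Real.exp (-km))

/-- The potential. -/
noncomputable def wm (Y : ℝ) : ℝ :=
  if 0 ≤ Y then Am * (Y / km - (1 - Real.exp (-(km * Y))) / km ^ 2) else 0

/-- **Pot.**  `0 < Am ≤ 2` (`exp (-km) ≥ 0.203`, i.e. `exp 1.594 < 4.926`, from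
`Real.exp_one_lt_d9` or `Real.exp_bound`), `wm 1 = Am (km - 1 + exp (-km)) / km ^ 2 = gm`;
`φ Y = Y / km - (1 - exp (-km Y)) / km ^ 2` is convex with `φ 0 = φ' 0 = 0`, `φ' Y =
(1 - exp (-km Y)) / km`, `km φ + φ' = Y`.  Convexity of the exponential (`Real.add_one_le_exp`)
gives the tangent inequality `wm (Y - t) ≥ wm Y - t Am (1 - exp (-km Y)) / km` for `0 ≤ Y`, `0 ≤ t`
(for `t > Y` the right side is `≤ 0`: linear in `t`, at `t = Y` it is `≤ φ 0 = 0`). -/
def S_Pot : Prop := wm 1 = gm ∧ Monotone wm ∧ (∀ Y, 0 ≤ Y → Y ≤ 1 → wm Y ≤ gm * Y) ∧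
  ∀ β Y x : ℝ, 0 ≤ β → 0 ≤ Y → Y ≤ 1 → 0 ≤ x → x ≤ 1 →
    wm Y ≤ β * Y + 1 / (1 + km * β) * wm (Y - β * x) + km * β / (1 + km * β) * x * Y * gm

/-- Mixed hider strategies with `N` blocks, one for every first label `z`, with the same weights. -/
structure Mm (n B N : ℕ) (ι : Type) [Fintype ι] (q : ι → ℝ) (y : Fin n → ι → ℕ → Fin n)
    (b : Fin n → ι → ℕ → Bool) : Prop where
  nonneg : ∀ i, 0 ≤ q i
  sum : ∑ i, q i = 1
  start : ∀ z i, y z i 0 = z
  stay : ∀ z i j, b z i j = false → y z i j = y z i (j + 1)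
  after : ∀ z i j, N ≤ j → b z i j = false
  stars : ∀ z, ∑ i, q i * (((Finset.range N).filter fun j => b z i j = true).card : ℝ) ≤
    N * (km * ((B : ℝ) / n))
  pay : ∀ L : ℕ → Finset (Fin n), (∀ j, (L j).card ≤ B) → ∀ A : Finset (Fin n),
    (n : ℝ) / B * wm ((A.card : ℝ) / n) ≤
      1 / n * ∑ z ∈ A, ∑ i, q i * payoff B N L (y z i) (b z i) +
        n / B * gm * (1 / n * ∑ z ∈ A, ∑ i, q i * surv B L (y z i) (b z i) N)

/-- **StM.**  New block at the BEGINNING.  Index set `ι × Option (Fin n)`; weights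
`q i * (1 - pm)` for `(i, none)` and `q i * pm / n` for `(i, some z')`;
`y' z (i, o) j = if j = 0 then z else y (o.getD z) i (j - 1)`,
`b' z (i, o) j = if j = 0 then o.isSome else b (o.getD z) i (j - 1)`.
`surv B L (y' z (i, o)) (b' z (i, o)) (j + 1) = fac B (L 0) z o.isSome *
surv B (fun j => L (j + 1)) (y (o.getD z) i) (b (o.getD z) i) j` (`Finset.prod_range_succ'`), and
`payoff (N + 1) = 1 + ...` (`Finset.sum_range_succ'`).  With `x = |L 0| / B`,
`P z = ∑ i, q i * payoff B N L' (y z i) (b z i)`: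
`P' z = 1 + (1 - pm) (if z ∈ L 0 then 0 else P z) + pm x (1 / n) ∑_{z'} P z'`, the same without
`1` for `surv`.  `pay` for `A \ L 0` and for `univ`, `|A \ L 0| / n ≥ |A| / n - β x`
(`B x = |L 0|`), `wm` monotone, `wm 1 = gm`, and the last part of `S_Pot`
(`1 - pm = 1 / (1 + km β)`).  Stars: `N km β (1) + pm ≤ (N + 1) km β`. -/
def S_StM : Prop := S_Pot → ∀ n B N : ℕ, 1 ≤ B → B ≤ n →
  ∀ (ι : Type) [Fintype ι] (q : ι → ℝ) (y : Fin n → ι → ℕ → Fin n) (b : Fin n → ι → ℕ → Bool),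
  Mm n B N ι q y b → ∃ (ι' : Type) (_ : Fintype ι') (q' : ι' → ℝ)
    (y' : Fin n → ι' → ℕ → Fin n) (b' : Fin n → ι' → ℕ → Bool), Mm n B (N + 1) ι' q' y' b'

/-- **FwM.**  Induction from `S_StM`; `N = 0`: `ι = Unit`, `y z i j = z`, no stars
(`wm Y ≤ gm Y`). -/
def S_FwM : Prop := S_Pot → S_StM → ∀ n B N : ℕ, 1 ≤ B → B ≤ n →
  ∃ (ι : Type) (_ : Fintype ι) (q : ι → ℝ) (y : Fin n → ι → ℕ → Fin n)
    (b : Fin n → ι → ℕ → Bool), Mm n B N ι q y b

/-- **TrM.**  Fresh uniform first label: index set `Fin n × ι`, weights `q i / n`.  `A = univ` in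
`pay` (`wm 1 = gm`): `a = E payoff_N ≥ (n / B) gm (1 - s)`, `s = E surv_N`, and
`payoff B N ≥ N * surv N` (`surv` is nonincreasing, `B ≥ 1`), so `a (1 + gm n / (B N)) ≥ gm n / B`.
Truncation at `K` stars as in Br/Trc.lean (`y z i` constant and no stars if there are more than `K`;
loss at most `N` times the probability `≤ E stars / K`). -/
def S_TrM : Prop := S_Pot → ∀ (n B N : ℕ) (ι : Type) [Fintype ι] (q : ι → ℝ)
  (y : Fin n → ι → ℕ → Fin n) (b : Fin n → ι → ℕ → Bool), 1 ≤ B → B ≤ n → 1 ≤ N →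
  Mm n B N ι q y b → ∀ K M : ℕ, 1 ≤ K → N ≤ M →
  HiderVal n B M K (gm * ((n : ℝ) / B) / (1 + gm * n / (B * N)) -
    N * (N * (km * ((B : ℝ) / n))) / K)

/-- The block game has value at least `g n / B` for every `g < gm`. -/
def S_HvMC : Prop := ∀ g : ℝ, g < gm → ∃ K L : ℕ, 1 ≤ K ∧ 1 ≤ L ∧ ∀ n B M : ℕ, 1 ≤ B → B ≤ n →
  L * n ≤ M * B → HiderVal n B M K (g * ((n : ℝ) / B))

/-- **HvM.**  `N = L * n / B` (natural division): `1 ≤ N` (`B ≤ n`, `1 ≤ L`), `N ≤ M`,
`N B ≤ L n` and `N B ≥ L n - B + 1 ≥ (L - 1) n`; so `gm n / (B N) ≤ gm / (L - 1)`,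
`N * N * km * (B / n) ≤ L ^ 2 km (n / B)`.  Choose `L ≥ 2` with `gm / (1 + gm / (L - 1)) > g`, then
`K` large; `HiderVal` is monotone in the value (compare Br/Hv.lean). -/
def S_HvM : Prop := S_Pot → S_StM → S_FwM → S_TrM → S_HvMC

/-- Small networks. -/
def S_GSmMC : Prop := ∀ g : ℝ, 1 / 2 ≤ g → g ≤ 1 → g < gm → ∀ ε : ℝ, 0 < ε → ∃ δ : ℝ, 0 < δ ∧
  ∀ (Q : Type) [MetricSpace Q] (N : Network Q) (O : Q),
    (∀ x y : Q, dist x y ≤ δ * N.length) → ∀ w : ℝ≥0, 1 ≤ w →
    HiderGuarantees w O (ENNReal.ofReal ((g - ε) * (N.length + N.bridgeLength)))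

/-- **GSmM.**  Copy of Br/GSm.lean with `gm` instead of `Gc`. -/
def S_GSmM : Prop := S_HvMC → S_BrGC → S_GSmMC

/-- The clover constant is at least `gm`. -/
def S_GLeMC : Prop := ∀ c : ℝ, 1 / 2 ≤ c → c < 4 / 5 → CloverC c → gm ≤ c

/-- **GLeM.**  Copy of Br/GLe.lean with `gm` instead of `Gc`. -/
def S_GLeM : Prop := S_GSmMC → S_GLeMC

end MPacf82c.Br
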