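import Pool.Agent.Lib.MP_acf82c_lc.Br.SpecM

/-!
# Module StM: one step of the memoryless hider (helper6)
-/

set_option autoImplicit false

namespace MPacf82c.Br

private noncomputable def stmQ {n : ℕ} {ι : Type} (q : ι → ℝ) (P : ℝ) (p : ι × Option (Fin n)) : ℝ :=
  q p.1 * (match p.2 with
    | none => 1 - P
    | some _ => P / n)

private def stmY {n : ℕ} {ι : Type} (y : Fin n → ι → ℕ → Fin n) (z : Fin n) (p : ι × Option (Fin n))
    (j : ℕ) : Fin n :=
  match j with
  | 0 => z
  | j + 1 => y (p.2.getD z) p.1 j

private def stmB {n : ℕ} {ι : Type} (b : Fin n → ι → ℕ → Bool) (z : Fin n) (p : ι × Option (Fin n))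
    (j : ℕ) : Bool :=
  match j with
  | 0 => p.2.isSome
  | j + 1 => b (p.2.getD z) p.1 j

private theorem stm_sum {n : ℕ} {ι : Type} [Fintype ι] (q : ι → ℝ) (P : ℝ)
    (F : ι → Option (Fin n) → ℝ) :
    ∑ p : ι × Option (Fin n), stmQ q P p * F p.1 p.2 =
      (1 - P) * ∑ i, q i * F i none + P / n * ∑ z, ∑ i, q i * F i (some z) := by
  rw [Fintype.sum_prod_type_right, Fintype.sum_option]
  simp only [stmQ]
  rw [Finset.mul_sum, Finset.mul_sum]
  congr 1
  · exact Finset.sum_congr rfl fun i _ => by ring
  · refine Finset.sum_congr rfl fun z _ => ?_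
    rw [Finset.mul_sum]
    exact Finset.sum_congr rfl fun i _ => by ring

private theorem stm_surv {n : ℕ} {ι : Type} (B : ℕ) (L : ℕ → Finset (Fin n))
    (y : Fin n → ι → ℕ → Fin n) (b : Fin n → ι → ℕ → Bool) (z : Fin n) (p : ι × Option (Fin n))
    (m : ℕ) : surv B L (stmY y z p) (stmB b z p) (m + 1) =
      fac B (L 0) z p.2.isSome *
        surv B (fun j => L (j + 1)) (y (p.2.getD z) p.1) (b (p.2.getD z) p.1) m := by
  unfold surv
  rw [Finset.prod_range_succ', mul_comm]
  rfl

private theorem stm_pay {n : ℕ} {ι : Type} (B : ℕ) (L : ℕ → Finset (Fin n))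
    (y : Fin n → ι → ℕ → Fin n) (b : Fin n → ι → ℕ → Bool) (z : Fin n) (p : ι × Option (Fin n))
    (N : ℕ) : payoff B (N + 1) L (stmY y z p) (stmB b z p) =
      1 + fac B (L 0) z p.2.isSome *
        payoff B N (fun j => L (j + 1)) (y (p.2.getD z) p.1) (b (p.2.getD z) p.1) := by
  have h0 : surv B L (stmY y z p) (stmB b z p) 0 = 1 := by simp [surv]
  unfold payoff
  rw [Finset.sum_range_succ', Finset.mul_sum, add_comm, h0,
    Finset.sum_congr rfl fun m _ => stm_surv B L y b z p m]

private theorem stm_card {n : ℕ} {ι : Type} (b : Fin n → ι → ℕ → Bool) (z : Fin n)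
    (p : ι × Option (Fin n)) (N : ℕ) :
    (((Finset.range (N + 1)).filter fun j => stmB b z p j = true).card : ℝ) =
      (if p.2.isSome = true then 1 else 0) +
        (((Finset.range N).filter fun j => b (p.2.getD z) p.1 j = true).card : ℝ) := by
  rw [Finset.card_filter, Finset.sum_range_succ', Finset.card_filter, add_comm]
  push_cast
  rfl

private theorem stm_one {ι : Type} [Fintype ι] {q : ι → ℝ} (hq : ∑ i, q i = 1) (c : ℝ) (F : ι → ℝ) :
    ∑ i, q i * (1 + c * F i) = 1 + c * ∑ i, q i * F i := by
  have h : ∑ i, q i * (1 + c * F i) = ∑ i, q i + ∑ i, c * (q i * F i) := by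
    rw [← Finset.sum_add_distrib]
    exact Finset.sum_congr rfl fun i _ => by ring
  rw [h, hq, Finset.mul_sum]

theorem tStM : S_StM := by
  rintro ⟨hw1, hmon, -, hpot⟩ n B N hB hBn ι _ q y b hM
  obtain ⟨hq0, hq1, hst, hstay, haf, hstars, hpay⟩ := hM
  have hn : 0 < n := by omega
  have hnR : (0 : ℝ) < n := by exact_mod_cast hn
  have hBR : (0 : ℝ) < B := by exact_mod_cast hB
  have hk : (0 : ℝ) < km := by norm_num [km]
  set β : ℝ := (B : ℝ) / n with hβ
  have hβ0 : 0 < β := div_pos hBR hnR
  have hkβ : 0 < km * β := mul_pos hk hβ0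
  have h1k : 0 < 1 + km * β := by linarith
  set P : ℝ := km * β / (1 + km * β) with hP
  have hP0 : 0 ≤ P := (div_pos hkβ h1k).le
  have hP1 : P ≤ 1 := by
    rw [hP, div_le_one h1k]
    linarith
  have h1P : 1 - P = 1 / (1 + km * β) := by
    rw [hP]
    field_simp
    ring
  have hPk : P ≤ km * β := by
    rw [hP, div_le_iff₀ h1k]
    nlinarith
  refine ⟨ι × Option (Fin n), inferInstance, stmQ q P, stmY y, stmB b, ?_, ?_, ?_, ?_, ?_, ?_, ?_⟩
  · rintro ⟨i, o⟩
    unfold stmQ
    refine mul_nonneg (hq0 i) ?_
    cases o with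
    | none => simp only; linarith
    | some z => exact div_nonneg hP0 hnR.le
  · have h := stm_sum q P (fun (_ : ι) (_ : Option (Fin n)) => (1 : ℝ))
    simp only [mul_one] at h
    rw [h, hq1, Finset.sum_const, Finset.card_univ, Fintype.card_fin, nsmul_eq_mul]
    field_simp
    ring
  · intro z p
    rfl
  · rintro z ⟨i, o⟩ j hj
    cases j with
    | zero =>
      cases o with
      | none => exact (hst z i).symm
      | some z' => simp [stmB] at hj
    | succ j => exact hstay _ _ j hj
  · rintro z ⟨i, o⟩ j hj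
    cases j with
    | zero => omega
    | succ j => exact haf _ _ j (by omega)
  · intro z
    have h := stm_sum q P (fun (i : ι) (o : Option (Fin n)) =>
      ((if o.isSome = true then 1 else 0) +
        (((Finset.range N).filter fun j => b (o.getD z) i j = true).card : ℝ)))
    have h2 : ∑ p : ι × Option (Fin n), stmQ q P p *
        (((Finset.range (N + 1)).filter fun j => stmB b z p j = true).card : ℝ) =
        ∑ p : ι × Option (Fin n), stmQ q P p * ((if p.2.isSome = true then 1 else 0) +
        (((Finset.range N).filter fun j => b (p.2.getD z) p.1 j = true).card : ℝ)) :=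
      Finset.sum_congr rfl fun p _ => by rw [stm_card]
    rw [h2, h]
    simp only [Option.isSome_none, Option.getD_none, Option.isSome_some, Option.getD_some, if_true,
      Bool.false_eq_true, if_false, zero_add]
    have h3 : ∀ z' : Fin n, ∑ i, q i * (1 +
        (((Finset.range N).filter fun j => b z' i j = true).card : ℝ)) ≤ 1 + N * (km * β) := by
      intro z'
      have h4 := hstars z'
      have h5 : ∑ i, q i * (1 + (((Finset.range N).filter fun j => b z' i j = true).card : ℝ)) =
          ∑ i, q i + ∑ i, q i * (((Finset.range N).filter fun j => b z' i j = true).card : ℝ) := by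
        rw [← Finset.sum_add_distrib]
        exact Finset.sum_congr rfl fun i _ => by ring
      rw [h5, hq1]
      linarith
    have h6 : ∑ z' : Fin n, ∑ i, q i * (1 +
        (((Finset.range N).filter fun j => b z' i j = true).card : ℝ)) ≤ n * (1 + N * (km * β)) := by
      refine (Finset.sum_le_sum fun z' _ => h3 z').trans_eq ?_
      rw [Finset.sum_const, Finset.card_univ, Fintype.card_fin, nsmul_eq_mul]
    have h7 : P / n * ∑ z' : Fin n, ∑ i, q i * (1 +
        (((Finset.range N).filter fun j => b z' i j = true).card : ℝ)) ≤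
        P / n * (n * (1 + N * (km * β))) :=
      mul_le_mul_of_nonneg_left h6 (div_nonneg hP0 hnR.le)
    have h8 : P / n * (n * (1 + N * (km * β))) = P * (1 + N * (km * β)) := by
      field_simp
    have h9 : (1 - P) * ∑ i, q i * (((Finset.range N).filter fun j => b z i j = true).card : ℝ) ≤
        (1 - P) * (N * (km * β)) := mul_le_mul_of_nonneg_left (hstars z) (by linarith)
    push_cast
    nlinarith
  · intro L hL A
    have hx0 : (0 : ℝ) ≤ ((L 0).card : ℝ) / B := div_nonneg (Nat.cast_nonneg _) hBR.le
    have hx1 : ((L 0).card : ℝ) / B ≤ 1 := by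
      rw [div_le_one hBR]
      exact_mod_cast hL 0
    set x : ℝ := ((L 0).card : ℝ) / B with hx
    have hY0 : (0 : ℝ) ≤ (A.card : ℝ) / n := div_nonneg (Nat.cast_nonneg _) hnR.le
    have hY1 : (A.card : ℝ) / n ≤ 1 := by
      rw [div_le_one hnR]
      have := Finset.card_le_univ A
      rw [Fintype.card_fin] at this
      exact_mod_cast this
    set Y : ℝ := (A.card : ℝ) / n with hY
    set G : Fin n → ℝ := fun z => ∑ i, q i * payoff B N (fun j => L (j + 1)) (y z i) (b z i) with hG
    set S : Fin n → ℝ := fun z => ∑ i, q i * surv B (fun j => L (j + 1)) (y z i) (b z i) N with hS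
    have hpA := hpay (fun j => L (j + 1)) (fun j => hL (j + 1)) (A \ L 0)
    have hpU := hpay (fun j => L (j + 1)) (fun j => hL (j + 1)) Finset.univ
    have hU1 : ((Finset.univ : Finset (Fin n)).card : ℝ) / n = 1 := by
      rw [Finset.card_univ, Fintype.card_fin]
      exact div_self hnR.ne'
    rw [hU1, hw1] at hpU
    -- the payoffs
    have hG' : ∀ z, ∑ p : ι × Option (Fin n), stmQ q P p *
        payoff B (N + 1) L (stmY y z p) (stmB b z p) =
        1 + (1 - P) * (if z ∈ L 0 then 0 else G z) + P / n * x * ∑ z', G z' := by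
      intro z
      have h := stm_sum q P (fun (i : ι) (o : Option (Fin n)) => 1 + fac B (L 0) z o.isSome *
        payoff B N (fun j => L (j + 1)) (y (o.getD z) i) (b (o.getD z) i))
      have h2 : ∑ p : ι × Option (Fin n), stmQ q P p *
          payoff B (N + 1) L (stmY y z p) (stmB b z p) =
          ∑ p : ι × Option (Fin n), stmQ q P p * (1 + fac B (L 0) z p.2.isSome *
          payoff B N (fun j => L (j + 1)) (y (p.2.getD z) p.1) (b (p.2.getD z) p.1)) :=
        Finset.sum_congr rfl fun p _ => by rw [stm_pay]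
      rw [h2, h]
      simp only [Option.isSome_none, Option.getD_none, Option.isSome_some, Option.getD_some, fac,
        if_true, Bool.false_eq_true, if_false]
      have h3 : ∑ i, q i * (1 + (if z ∈ L 0 then (0 : ℝ) else 1) *
          payoff B N (fun j => L (j + 1)) (y z i) (b z i)) =
          1 + (if z ∈ L 0 then 0 else G z) := by
        rw [stm_one hq1]
        split_ifs with hz
        · rw [zero_mul]
        · rw [one_mul]
      have h4 : ∀ z' : Fin n, ∑ i, q i * (1 + ((L 0).card : ℝ) / B *
          payoff B N (fun j => L (j + 1)) (y z' i) (b z' i)) = 1 + x * G z' := fun z' =>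
        stm_one hq1 _ _
      rw [h3, Finset.sum_congr rfl fun z' _ => h4 z', Finset.sum_add_distrib, ← Finset.mul_sum,
        Finset.sum_const, Finset.card_univ, Fintype.card_fin, nsmul_eq_mul]
      field_simp
      ring
    have hS' : ∀ z, ∑ p : ι × Option (Fin n), stmQ q P p *
        surv B L (stmY y z p) (stmB b z p) (N + 1) =
        (1 - P) * (if z ∈ L 0 then 0 else S z) + P / n * x * ∑ z', S z' := by
      intro z
      have h := stm_sum q P (fun (i : ι) (o : Option (Fin n)) => fac B (L 0) z o.isSome *
        surv B (fun j => L (j + 1)) (y (o.getD z) i) (b (o.getD z) i) N)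
      have h2 : ∑ p : ι × Option (Fin n), stmQ q P p *
          surv B L (stmY y z p) (stmB b z p) (N + 1) =
          ∑ p : ι × Option (Fin n), stmQ q P p * (fac B (L 0) z p.2.isSome *
          surv B (fun j => L (j + 1)) (y (p.2.getD z) p.1) (b (p.2.getD z) p.1) N) :=
        Finset.sum_congr rfl fun p _ => by rw [stm_surv]
      rw [h2, h]
      simp only [Option.isSome_none, Option.getD_none, Option.isSome_some, Option.getD_some, fac,
        if_true, Bool.false_eq_true, if_false]
      have h3 : ∑ i, q i * ((if z ∈ L 0 then (0 : ℝ) else 1) *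
          surv B (fun j => L (j + 1)) (y z i) (b z i) N) = (if z ∈ L 0 then 0 else S z) := by
        split_ifs with hz
        · exact Finset.sum_eq_zero fun i _ => by ring
        · rw [hS]
          exact Finset.sum_congr rfl fun i _ => by ring
      have h4 : ∀ z' : Fin n, ∑ i, q i * (((L 0).card : ℝ) / B *
          surv B (fun j => L (j + 1)) (y z' i) (b z' i) N) = x * S z' := by
        intro z'
        rw [hS, Finset.mul_sum]
        exact Finset.sum_congr rfl fun i _ => by ring
      rw [h3, Finset.sum_congr rfl fun z' _ => h4 z', ← Finset.mul_sum]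
      ring
    have hite : ∀ F : Fin n → ℝ, ∑ z ∈ A, (if z ∈ L 0 then 0 else F z) = ∑ z ∈ A \ L 0, F z := by
      intro F
      rw [← Finset.filter_notMem_eq_sdiff, Finset.sum_filter]
      exact Finset.sum_congr rfl fun z _ => by
        split_ifs <;> rfl
    have e1 : ∑ z ∈ A, ∑ p : ι × Option (Fin n), stmQ q P p *
        payoff B (N + 1) L (stmY y z p) (stmB b z p) =
        A.card + (1 - P) * ∑ z ∈ A \ L 0, G z + A.card * (P / n * x * ∑ z', G z') := by
      rw [Finset.sum_congr rfl fun z _ => hG' z, Finset.sum_add_distrib, Finset.sum_add_distrib,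
        ← Finset.mul_sum, hite, Finset.sum_const, Finset.sum_const, nsmul_eq_mul, nsmul_eq_mul,
        mul_one]
    have e2 : ∑ z ∈ A, ∑ p : ι × Option (Fin n), stmQ q P p *
        surv B L (stmY y z p) (stmB b z p) (N + 1) =
        (1 - P) * ∑ z ∈ A \ L 0, S z + A.card * (P / n * x * ∑ z', S z') := by
      rw [Finset.sum_congr rfl fun z _ => hS' z, Finset.sum_add_distrib,
        ← Finset.mul_sum, hite, Finset.sum_const, nsmul_eq_mul]
    rw [e1, e2]
    have hcard : Y - β * x ≤ ((A \ L 0).card : ℝ) / n := by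
      have h1 : (A.card : ℝ) - (L 0).card ≤ ((A \ L 0).card : ℝ) := by
        have h2 := Finset.le_card_sdiff (L 0) A
        have h3 : A.card ≤ (A \ L 0).card + (L 0).card := by omega
        have h4 : (A.card : ℝ) ≤ (A \ L 0).card + (L 0).card := by exact_mod_cast h3
        linarith
      have h5 : Y - β * x = ((A.card : ℝ) - (L 0).card) / n := by
        rw [hY, hβ, hx]
        field_simp
      rw [h5]
      exact div_le_div_of_nonneg_right h1 hnR.le
    have hmw := hmon hcard
    have hp := hpot β Y x hβ0.le hY0 hY1 hx0 hx1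
    rw [← h1P, ← hP] at hp
    have hnB : (n : ℝ) / B * β = 1 := by
      rw [hβ]
      field_simp
    have hnB0 : (0 : ℝ) < (n : ℝ) / B := div_pos hnR hBR
    have hstep1 : (n : ℝ) / B * wm Y ≤
        Y + (1 - P) * ((n : ℝ) / B * wm (((A \ L 0).card : ℝ) / n)) +
          P * x * Y * ((n : ℝ) / B * gm) := by
      have h1 := mul_le_mul_of_nonneg_left hp hnB0.le
      have h2 : (1 - P) * wm (Y - β * x) ≤ (1 - P) * wm (((A \ L 0).card : ℝ) / n) :=
        mul_le_mul_of_nonneg_left hmw (by linarith)
      have h3 := mul_le_mul_of_nonneg_left h2 hnB0.le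
      have h4 : (n : ℝ) / B * (β * Y + (1 - P) * wm (Y - β * x) + P * x * Y * gm) =
          ((n : ℝ) / B * β) * Y + (n : ℝ) / B * ((1 - P) * wm (Y - β * x)) +
            P * x * Y * ((n : ℝ) / B * gm) := by ring
      rw [h4, hnB] at h1
      have h5 : (n : ℝ) / B * ((1 - P) * wm (((A \ L 0).card : ℝ) / n)) =
          (1 - P) * ((n : ℝ) / B * wm (((A \ L 0).card : ℝ) / n)) := by ring
      linarith
    have h6 := mul_le_mul_of_nonneg_left hpA (show (0 : ℝ) ≤ 1 - P by linarith)
    have h7 := mul_le_mul_of_nonneg_left hpU (show (0 : ℝ) ≤ P * x * Y by positivity)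
    refine hstep1.trans ((add_le_add (add_le_add le_rfl h6) h7).trans_eq ?_)
    rw [hY]
    ring

end MPacf82c.Br
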