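import Pool.Agent.Lib.MP_acf82c_lc.Br.SpecM

set_option autoImplicit false

namespace MPacf82c.Br

private theorem TrM_fac0 {n : ℕ} (B : ℕ) (L : Finset (Fin n)) (y : Fin n) (b : Bool) :
    0 ≤ fac B L y b := by
  unfold fac
  split_ifs <;> positivity

private theorem TrM_fac1 {n : ℕ} {B : ℕ} (hB : 1 ≤ B) {L : Finset (Fin n)} (hL : L.card ≤ B)
    (y : Fin n) (b : Bool) : fac B L y b ≤ 1 := by
  have hB0 : (0 : ℝ) < B := by exact_mod_cast hB
  unfold fac
  split_ifs
  · rw [div_le_one hB0]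
    exact_mod_cast hL
  · exact zero_le_one
  · exact le_refl _

private theorem TrM_surv0 {n : ℕ} (B : ℕ) (L : ℕ → Finset (Fin n)) (y : ℕ → Fin n)
    (b : ℕ → Bool) (m : ℕ) : 0 ≤ surv B L y b m :=
  Finset.prod_nonneg fun _ _ => TrM_fac0 _ _ _ _

private theorem TrM_surv1 {n : ℕ} {B : ℕ} (hB : 1 ≤ B) (L : ℕ → Finset (Fin n))
    (hL : ∀ j, (L j).card ≤ B) (y : ℕ → Fin n) (b : ℕ → Bool) (m : ℕ) : surv B L y b m ≤ 1 :=
  Finset.prod_le_one (fun _ _ => TrM_fac0 _ _ _ _) fun j _ => TrM_fac1 hB (hL j) _ _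

private theorem TrM_pay_mono {n : ℕ} (B : ℕ) (L : ℕ → Finset (Fin n)) (y : ℕ → Fin n)
    (b : ℕ → Bool) {k M : ℕ} (h : k ≤ M) : payoff B k L y b ≤ payoff B M L y b := by
  unfold payoff
  exact Finset.sum_le_sum_of_subset_of_nonneg (Finset.range_mono h)
    fun j _ _ => TrM_surv0 B L y b j

private theorem TrM_pay0 {n : ℕ} (B : ℕ) (L : ℕ → Finset (Fin n)) (y : ℕ → Fin n)
    (b : ℕ → Bool) (k : ℕ) : 0 ≤ payoff B k L y b :=
  Finset.sum_nonneg fun j _ => TrM_surv0 B L y b j

private theorem TrM_pay1 {n : ℕ} {B : ℕ} (hB : 1 ≤ B) (L : ℕ → Finset (Fin n))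
    (hL : ∀ j, (L j).card ≤ B) (y : ℕ → Fin n) (b : ℕ → Bool) (k : ℕ) :
    payoff B k L y b ≤ k := by
  unfold payoff
  calc ∑ m ∈ Finset.range k, surv B L y b m ≤ ∑ _m ∈ Finset.range k, (1 : ℝ) :=
        Finset.sum_le_sum fun j _ => TrM_surv1 hB L hL y b j
    _ = k := by rw [Finset.sum_const, Finset.card_range, nsmul_eq_mul, mul_one]

/-- number of stars -/
private def TrM_st (k : ℕ) (b : ℕ → Bool) : ℕ :=
  ((Finset.range k).filter fun j => b j = true).card

private def TrM_y {n : ℕ} (k K : ℕ) (y : ℕ → Fin n) (b : ℕ → Bool) : ℕ → Fin n :=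
  if K < TrM_st k b then fun _ => y 0 else y

private def TrM_b (k K : ℕ) (b : ℕ → Bool) : ℕ → Bool :=
  if K < TrM_st k b then fun _ => false else b

private theorem TrM_adm {n : ℕ} (k K M : ℕ) (y : ℕ → Fin n) (b : ℕ → Bool)
    (hs : ∀ j, b j = false → y j = y (j + 1)) (ha : ∀ j, k ≤ j → b j = false) :
    Adm M K (TrM_y k K y b) (TrM_b k K b) := by
  by_cases h : K < TrM_st k b
  · unfold TrM_y TrM_b
    rw [if_pos h, if_pos h]
    refine ⟨fun _ _ _ => rfl, ?_⟩
    have : ((Finset.range M).filter fun k => (false : Bool) = true) = ∅ := by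
      apply Finset.filter_false_of_mem
      intro x _ hx
      exact Bool.false_ne_true hx
    rw [this, Finset.card_empty]
    exact Nat.zero_le _
  · unfold TrM_y TrM_b
    rw [if_neg h, if_neg h]
    refine ⟨fun j _ hj => hs j hj, ?_⟩
    have hsub : ((Finset.range M).filter fun j => b j = true) ⊆
        ((Finset.range k).filter fun j => b j = true) := by
      intro j hj
      rw [Finset.mem_filter] at hj ⊢
      refine ⟨?_, hj.2⟩
      rw [Finset.mem_range]
      by_contra hk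
      have h1 := ha j (not_lt.1 hk)
      rw [hj.2] at h1
      exact Bool.false_ne_true h1.symm
    exact (Finset.card_le_card hsub).trans (not_lt.1 h)

private theorem TrM_loss {n B : ℕ} (hB : 1 ≤ B) (k K M : ℕ) (hK : 1 ≤ K) (hM : k ≤ M)
    (y : ℕ → Fin n) (b : ℕ → Bool) (L : ℕ → Finset (Fin n)) (hL : ∀ j, (L j).card ≤ B) :
    payoff B k L y b - k * ((TrM_st k b : ℕ) : ℝ) / K ≤
      payoff B M L (TrM_y k K y b) (TrM_b k K b) := by
  have hK0 : (0 : ℝ) < K := by exact_mod_cast hK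
  have hs0 : (0 : ℝ) ≤ ((TrM_st k b : ℕ) : ℝ) := Nat.cast_nonneg _
  have hk0 : (0 : ℝ) ≤ k := Nat.cast_nonneg _
  by_cases h : K < TrM_st k b
  · have h1 : (K : ℝ) ≤ ((TrM_st k b : ℕ) : ℝ) := by exact_mod_cast h.le
    have h2 : (k : ℝ) ≤ k * ((TrM_st k b : ℕ) : ℝ) / K := by
      rw [le_div_iff₀ hK0]
      exact mul_le_mul_of_nonneg_left h1 hk0
    have h3 := TrM_pay1 hB L hL y b k
    have h4 := TrM_pay0 B L (TrM_y k K y b) (TrM_b k K b) M
    linarith
  · have h0 : 0 ≤ k * ((TrM_st k b : ℕ) : ℝ) / K := by positivity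
    have e1 : TrM_y k K y b = y := by
      unfold TrM_y
      rw [if_neg h]
    have e2 : TrM_b k K b = b := by
      unfold TrM_b
      rw [if_neg h]
    rw [e1, e2]
    have h3 := TrM_pay_mono B L y b hM
    linarith

private theorem TrM_surv_anti {n B : ℕ} (hB : 1 ≤ B) (L : ℕ → Finset (Fin n))
    (hL : ∀ j, (L j).card ≤ B) (y : ℕ → Fin n) (b : ℕ → Bool) {j N : ℕ} (h : j ≤ N) :
    surv B L y b N ≤ surv B L y b j := by
  refine antitone_nat_of_succ_le (f := fun m => surv B L y b m) (fun m => ?_) h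
  change surv B L y b (m + 1) ≤ surv B L y b m
  have h0 : 0 ≤ surv B L y b m := TrM_surv0 B L y b m
  have h1 := TrM_fac1 hB (hL m) (y m) (b m)
  have e : surv B L y b (m + 1) = surv B L y b m * fac B (L m) (y m) (b m) := by
    unfold surv
    rw [Finset.prod_range_succ]
  rw [e]
  exact mul_le_of_le_one_right h0 h1

private theorem TrM_paysurv {n B : ℕ} (hB : 1 ≤ B) (L : ℕ → Finset (Fin n))
    (hL : ∀ j, (L j).card ≤ B) (y : ℕ → Fin n) (b : ℕ → Bool) (N : ℕ) :
    (N : ℝ) * surv B L y b N ≤ payoff B N L y b := by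
  unfold payoff
  calc (N : ℝ) * surv B L y b N = ∑ _m ∈ Finset.range N, surv B L y b N := by
        rw [Finset.sum_const, Finset.card_range, nsmul_eq_mul]
    _ ≤ ∑ m ∈ Finset.range N, surv B L y b m :=
        Finset.sum_le_sum fun j hj => TrM_surv_anti hB L hL y b (Finset.mem_range.1 hj).le

theorem tTrM : S_TrM := by
  intro hPot n B N ι _ q y b hB hBn hN h K M hK hM
  have hw1 : wm 1 = gm := hPot.1
  have hK0 : (0 : ℝ) < K := by exact_mod_cast hK
  have hB0 : (0 : ℝ) < B := by exact_mod_cast hB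
  have hN0 : (0 : ℝ) < N := by exact_mod_cast hN
  have hn1 : 1 ≤ n := hB.trans hBn
  have hn0 : (0 : ℝ) < n := by exact_mod_cast hn1
  have hgm : (0 : ℝ) < gm := by
    unfold gm
    norm_num
  refine ⟨Fin n × ι, inferInstance, fun p => q p.2 / n,
    fun p => TrM_y N K (y p.1 p.2) (b p.1 p.2), fun p => TrM_b N K (b p.1 p.2), ?_, ?_, ?_, ?_⟩
  · intro p
    exact div_nonneg (h.nonneg _) hn0.le
  · rw [Fintype.sum_prod_type]
    simp only
    have : ∀ _z : Fin n, ∑ i, q i / (n : ℝ) = 1 / n := by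
      intro _
      rw [← Finset.sum_div, h.sum]
    rw [Finset.sum_congr rfl (fun z _ => this z), Finset.sum_const, Finset.card_univ,
      Fintype.card_fin, nsmul_eq_mul]
    field_simp
  · intro p
    exact TrM_adm N K M _ _ (h.stay _ _) (h.after _ _)
  · intro L hL
    have h1 : ∑ z : Fin n, ∑ i, q i / n * (payoff B N L (y z i) (b z i) -
        N * ((TrM_st N (b z i) : ℕ) : ℝ) / K) ≤
        ∑ z : Fin n, ∑ i, q i / n * payoff B M L (TrM_y N K (y z i) (b z i))
          (TrM_b N K (b z i)) :=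
      Finset.sum_le_sum fun z _ => Finset.sum_le_sum fun i _ => mul_le_mul_of_nonneg_left
        (TrM_loss hB N K M hK hM (y z i) (b z i) L hL) (div_nonneg (h.nonneg i) hn0.le)
    rw [Fintype.sum_prod_type]
    simp only
    refine le_trans ?_ h1
    obtain ⟨a, ha⟩ : ∃ a : ℝ, a = 1 / n * ∑ z : Fin n, ∑ i, q i * payoff B N L (y z i) (b z i) :=
      ⟨_, rfl⟩
    obtain ⟨s, hs⟩ : ∃ s : ℝ, s = 1 / n * ∑ z : Fin n, ∑ i, q i * surv B L (y z i) (b z i) N :=
      ⟨_, rfl⟩
    obtain ⟨t, ht⟩ : ∃ t : ℝ, t = 1 / n * ∑ z : Fin n, ∑ i, q i * ((TrM_st N (b z i) : ℕ) : ℝ) :=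
      ⟨_, rfl⟩
    have e1 : ∑ z : Fin n, ∑ i, q i / n * (payoff B N L (y z i) (b z i) -
        N * ((TrM_st N (b z i) : ℕ) : ℝ) / K) = a - N * t / K := by
      rw [ha, ht]
      rw [show (N : ℝ) * (1 / n * ∑ z : Fin n, ∑ i, q i * ((TrM_st N (b z i) : ℕ) : ℝ)) / K =
        (N / K * (1 / n)) * ∑ z : Fin n, ∑ i, q i * ((TrM_st N (b z i) : ℕ) : ℝ) by ring]
      rw [Finset.mul_sum, Finset.mul_sum, ← Finset.sum_sub_distrib]
      refine Finset.sum_congr rfl fun z _ => ?_
      rw [Finset.mul_sum, Finset.mul_sum, ← Finset.sum_sub_distrib]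
      refine Finset.sum_congr rfl fun i _ => ?_
      ring
    have hpay := h.pay L hL Finset.univ
    have hcard : (((Finset.univ : Finset (Fin n)).card : ℕ) : ℝ) / n = 1 := by
      rw [Finset.card_univ, Fintype.card_fin]
      exact div_self hn0.ne'
    rw [hcard, hw1, ← ha, ← hs] at hpay
    have hNs : (N : ℝ) * s ≤ a := by
      rw [ha, hs]
      rw [show (N : ℝ) * (1 / n * ∑ z : Fin n, ∑ i, q i * surv B L (y z i) (b z i) N) =
        1 / n * (N * ∑ z : Fin n, ∑ i, q i * surv B L (y z i) (b z i) N) by ring]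
      refine mul_le_mul_of_nonneg_left ?_ (by positivity)
      rw [Finset.mul_sum]
      refine Finset.sum_le_sum fun z _ => ?_
      rw [Finset.mul_sum]
      refine Finset.sum_le_sum fun i _ => ?_
      have := TrM_paysurv hB L hL (y z i) (b z i) N
      calc (N : ℝ) * (q i * surv B L (y z i) (b z i) N) =
            q i * (N * surv B L (y z i) (b z i) N) := by ring
        _ ≤ q i * payoff B N L (y z i) (b z i) := mul_le_mul_of_nonneg_left this (h.nonneg i)
    have htb : t ≤ N * (km * ((B : ℝ) / n)) := by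
      rw [ht]
      have : ∑ z : Fin n, ∑ i, q i * ((TrM_st N (b z i) : ℕ) : ℝ) ≤
          ∑ _z : Fin n, (N : ℝ) * (km * ((B : ℝ) / n)) :=
        Finset.sum_le_sum fun z _ => h.stars z
      rw [Finset.sum_const, Finset.card_univ, Fintype.card_fin, nsmul_eq_mul] at this
      calc 1 / (n : ℝ) * ∑ z : Fin n, ∑ i, q i * ((TrM_st N (b z i) : ℕ) : ℝ) ≤
            1 / (n : ℝ) * (n * ((N : ℝ) * (km * ((B : ℝ) / n)))) :=
            mul_le_mul_of_nonneg_left this (by positivity)
        _ = N * (km * ((B : ℝ) / n)) := by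
            field_simp
    rw [e1]
    have hA : gm * ((n : ℝ) / B) / (1 + gm * n / (B * N)) ≤ a := by
      have hpos : (0 : ℝ) < 1 + gm * n / (B * N) := by positivity
      rw [div_le_iff₀ hpos]
      have hsa : s ≤ a / N := by
        rw [le_div_iff₀ hN0]
        linarith
      have h2 : (n : ℝ) / B * gm * s ≤ n / B * gm * (a / N) :=
        mul_le_mul_of_nonneg_left hsa (by positivity)
      have h3 : (n : ℝ) / B * gm * (a / N) = a * (gm * n / (B * N)) := by
        field_simp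
      nlinarith [hpay, h2, h3]
    have hT : (N : ℝ) * t / K ≤ N * (N * (km * ((B : ℝ) / n))) / K :=
      div_le_div_of_nonneg_right (mul_le_mul_of_nonneg_left htb hN0.le) hK0.le
    linarith

end MPacf82c.Br
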