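import Pool.Agent.Lib.MP_acf82c_lc.Br.Main
import Pool.Agent.Lib.MP_acf82c_lc.Br.SpecM
import Pool.Agent.Lib.MP_acf82c_lc.Br.Pot
import Pool.Agent.Lib.MP_acf82c_lc.Br.StM
import Pool.Agent.Lib.MP_acf82c_lc.Br.FwM
import Pool.Agent.Lib.MP_acf82c_lc.Br.TrM
import Pool.Agent.Lib.MP_acf82c_lc.Br.HvM
import Pool.Agent.Lib.MP_acf82c_lc.Br.GSmM
import Pool.Agent.Lib.MP_acf82c_lc.Br.GLeM

/-!
# Networks with bridges: the theorem, with both bounds for the clover constant (memoryless hider)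
-/

namespace MPacf82c.Br

open Set MeasureTheory
open scoped NNReal ENNReal

theorem hvMC : S_HvMC := tHvM tPot tStM tFwM tTrM

theorem gSmMC : S_GSmMC := tGSmM hvMC brGC

theorem gLeMC : S_GLeMC := tGLeM gSmMC

/-- The Alpern-Asic inequality for networks with many bridges, and bounds for the clover
constant. -/
theorem bridgesM : ∃ c : ℝ, 627 / 1000 < c ∧ c < 4 / 5 ∧
    (∀ ε : ℝ, 0 < ε → ∃ n₀ : ℕ, ∀ n : ℕ, n₀ ≤ n →
      ∀ (Q : Type) [MetricSpace Q] (N : Network Q) (O : Q), IsClover N O n →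
      ∀ w : ℝ≥0, 1 ≤ w →
        HiderGuarantees w O (ENNReal.ofReal ((c - ε) * n)) ∧
        SearcherGuarantees w O (ENNReal.ofReal ((c + ε) * n))) ∧
    (∀ (Q : Type) [MetricSpace Q] (N : Network Q) (O : Q),
      (2 * c - 1) * N.length < N.bridgeLength → ∀ w : ℝ≥0, 1 ≤ w →
        HiderGuarantees w O (ENNReal.ofReal (c * N.length))) ∧
    (∀ ε : ℝ, 0 < ε → ∃ δ : ℝ, 0 < δ ∧ ∀ (Q : Type) [MetricSpace Q] (N : Network Q) (O : Q),
      (∀ x y : Q, dist x y ≤ δ * N.length) → ∀ w : ℝ≥0, 1 ≤ w →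
      HiderGuarantees w O (ENNReal.ofReal ((c - ε) * (N.length + N.bridgeLength)))) := by
  obtain ⟨c, hc, hlt, h1, h2, h3⟩ := bridges
  have hG : gm ≤ c := gLeMC c hc hlt h1
  have h0 : (627 : ℝ) / 1000 < gm := by
    unfold gm
    norm_num
  exact ⟨c, lt_of_lt_of_le h0 hG, hlt, h1, h2, h3⟩

end MPacf82c.Br
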