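import Pool.Agent.Lib.MP_acf82c_lc.Br.SpecH

/-!
# A lower bound for the Euler-Gompertz constant
-/

set_option autoImplicit false

open Set MeasureTheory

namespace MPacf82c.Br

/-- the integrand -/
private noncomputable def gf (t : ℝ) : ℝ := Real.exp (1 - Real.exp t)

private theorem gf_cont : Continuous gf := by
  unfold gf
  fun_prop

private theorem gf_int : IntegrableOn gf (Ioi (0 : ℝ)) := by
  refine Integrable.mono' (g := fun t => Real.exp (-t)) ?_ gf_cont.aestronglyMeasurable ?_
  · have h := integrableOn_exp_mul_Ioi (show (-1 : ℝ) < 0 by norm_num) 0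
    refine h.congr_fun (fun t _ => ?_) measurableSet_Ioi
    simp
  · refine Filter.Eventually.of_forall fun t => ?_
    unfold gf
    rw [Real.norm_eq_abs, abs_of_pos (Real.exp_pos _)]
    refine Real.exp_le_exp.2 ?_
    have := Real.add_one_le_exp t
    linarith

private theorem gf_piece (a : ℝ) :
    Real.exp (1 - Real.exp (a + 1 / 8)) *
      (1 / 4 - Real.exp (a + 1 / 8) * (Real.exp (1 / 8) - Real.exp (-(1 / 8)) - 1 / 4)) ≤
      ∫ t in a..(a + 1 / 4), gf t := by
  have hle : a ≤ a + 1 / 4 := by linarith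
  have h1 : ∫ t in a..(a + 1 / 4), Real.exp (1 - Real.exp (a + 1 / 8)) * ((1 + Real.exp (a + 1 / 8)) - Real.exp t) ≤
      ∫ t in a..(a + 1 / 4), gf t := by
    refine intervalIntegral.integral_mono_on hle ?_ ?_ fun t _ => ?_
    · exact Continuous.intervalIntegrable (by fun_prop) _ _
    · exact gf_cont.intervalIntegrable _ _
    · have h2 : gf t = Real.exp (1 - Real.exp (a + 1 / 8)) * Real.exp (Real.exp (a + 1 / 8) - Real.exp t) := by
        unfold gf
        rw [← Real.exp_add]
        congr 1
        ring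
      rw [h2]
      refine mul_le_mul_of_nonneg_left ?_ (Real.exp_pos _).le
      have := Real.add_one_le_exp (Real.exp (a + 1 / 8) - Real.exp t)
      linarith
  refine le_trans (le_of_eq ?_) h1
  rw [intervalIntegral.integral_const_mul, intervalIntegral.integral_sub, intervalIntegral.integral_const, integral_exp]
  · have h3 : Real.exp (a + 1 / 4) = Real.exp (a + 1 / 8) * Real.exp (1 / 8) := by
      rw [← Real.exp_add]
      congr 1
      ring
    have h4 : Real.exp a = Real.exp (a + 1 / 8) * Real.exp (-(1 / 8)) := by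
      rw [← Real.exp_add]
      congr 1
      ring
    rw [h3, smul_eq_mul]
    rw [show Real.exp (1 - Real.exp (a + 1 / 8)) * ((a + 1 / 4 - a) * (1 + Real.exp (a + 1 / 8)) -
      (Real.exp (a + 1 / 8) * Real.exp (1 / 8) - Real.exp a)) = Real.exp (1 - Real.exp (a + 1 / 8)) *
      (1 / 4 + 1 / 4 * Real.exp (a + 1 / 8) - Real.exp (a + 1 / 8) * Real.exp (1 / 8) + Real.exp a) by ring, h4]
    rw [← h4]
    rw [show Real.exp a = Real.exp (a + 1 / 8) * Real.exp (-(1 / 8)) from h4]
    ring
  · exact intervalIntegrable_const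
  · exact Real.continuous_exp.intervalIntegrable _ _

private theorem q_le : Real.exp (1 / 8) ≤ 11331485 / 10000000 := by
  have h1 : Real.exp (1 / 8) ^ 8 = Real.exp 1 := by
    rw [← Real.exp_nat_mul]
    norm_num
  have h2 : Real.exp (1 / 8) ^ 8 ≤ (11331485 / 10000000) ^ 8 := by
    rw [h1]
    exact Real.exp_one_lt_d9.le.trans (by norm_num)
  exact le_of_pow_le_pow_left₀ (by norm_num) (by norm_num) h2

private theorem s_le : Real.exp (1 / 8) - Real.exp (-(1 / 8)) - 1 / 4 ≤ 652 / 1000000 := by
  have h1 := q_le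
  have h2 : (10000000 : ℝ) / 11331485 ≤ Real.exp (-(1 / 8)) := by
    rw [Real.exp_neg]
    rw [show (10000000 : ℝ) / 11331485 = (11331485 / 10000000)⁻¹ by norm_num]
    exact inv_anti₀ (Real.exp_pos _) h1
  have h3 : (11331485 : ℝ) / 10000000 - 10000000 / 11331485 - 1 / 4 ≤ 652 / 1000000 := by norm_num
  linarith

/-- `N` integer part, `r` rest of `U - 1`, `T` the Taylor bound for `exp r` -/
private theorem gf_num (k : ℕ) (U r l : ℝ) (N : ℕ) (hU : (11331485 / 10000000 : ℝ) ^ (2 * k + 1) ≤ U)
    (hr0 : 0 ≤ r) (hr1 : r ≤ 1) (hN : U - 1 = N + r) (hl : 0 ≤ l)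
    (hT : l * ((27182818286 / 10000000000 : ℝ) ^ N * (∑ m ∈ Finset.range 9, r ^ m / m.factorial + r ^ 9 * (9 + 1) / (Nat.factorial 9 * 9))) ≤ 1)
    (hpos : 0 ≤ 1 / 4 - U * (652 / 1000000)) :
    l * (1 / 4 - U * (652 / 1000000)) ≤ ∫ t in ((k : ℝ) * (1 / 4))..((k : ℝ) * (1 / 4) + 1 / 4), gf t := by
  refine le_trans ?_ (gf_piece _)
  have he : Real.exp ((k : ℝ) * (1 / 4) + 1 / 8) = Real.exp (1 / 8) ^ (2 * k + 1) := by
    rw [← Real.exp_nat_mul]
    congr 1
    push_cast
    ring
  have hEU : Real.exp ((k : ℝ) * (1 / 4) + 1 / 8) ≤ U := by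
    rw [he]
    exact (pow_le_pow_left₀ (Real.exp_pos _).le q_le _).trans hU
  set E := Real.exp ((k : ℝ) * (1 / 4) + 1 / 8) with hE
  have hE0 : 0 < E := Real.exp_pos _
  have h1 : l ≤ Real.exp (1 - E) := by
    have h2 : Real.exp (E - 1) ≤ (27182818286 / 10000000000 : ℝ) ^ N * (∑ m ∈ Finset.range 9, r ^ m / m.factorial + r ^ 9 * (9 + 1) / (Nat.factorial 9 * 9)) := by
      have h3 : Real.exp (E - 1) ≤ Real.exp (N + r) := Real.exp_le_exp.2 (by linarith)
      refine h3.trans ?_
      rw [Real.exp_add]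
      refine mul_le_mul ?_ ?_ (Real.exp_pos _).le (by positivity)
      · rw [← Real.exp_one_rpow, Real.rpow_natCast]
        exact pow_le_pow_left₀ (Real.exp_pos _).le (Real.exp_one_lt_d9.le.trans (by norm_num)) N
      · have := Real.exp_bound' hr0 hr1 (n := 9) (by norm_num)
        exact_mod_cast this
    have h4 : l * Real.exp (E - 1) ≤ 1 := (mul_le_mul_of_nonneg_left h2 hl).trans hT
    have h5 : Real.exp (1 - E) = (Real.exp (E - 1))⁻¹ := by
      rw [← Real.exp_neg]
      congr 1
      ring
    rw [h5, ← one_div, le_div_iff₀ (Real.exp_pos _)]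
    exact h4
  have h6 : 1 / 4 - U * (652 / 1000000) ≤ 1 / 4 - E * (Real.exp (1 / 8) - Real.exp (-(1 / 8)) - 1 / 4) := by
    have h7 := s_le
    have h8 : E * (Real.exp (1 / 8) - Real.exp (-(1 / 8)) - 1 / 4) ≤ E * (652 / 1000000) :=
      mul_le_mul_of_nonneg_left h7 hE0.le
    have h9 : E * (652 / 1000000) ≤ U * (652 / 1000000) := mul_le_mul_of_nonneg_right hEU (by norm_num)
    linarith
  exact mul_le_mul h1 h6 hpos (Real.exp_pos _).le

theorem tNum : S_Num := by
  unfold S_Num
  have h0 : ∫ t in Ioc (0 : ℝ) 2, gf t ≤ Gc := by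
    have : Gc = ∫ t in Ioi (0 : ℝ), gf t := rfl
    rw [this]
    refine setIntegral_mono_set gf_int ?_ ?_
    · exact Filter.Eventually.of_forall fun t => (Real.exp_pos _).le
    · exact (Ioc_subset_Ioi_self).eventuallyLE
  have h1 : ∫ t in Ioc (0 : ℝ) 2, gf t = ∑ k ∈ Finset.range 8, ∫ t in ((k : ℝ) * (1 / 4))..((k : ℝ) * (1 / 4) + 1 / 4), gf t := by
    rw [← intervalIntegral.integral_of_le (by norm_num : (0 : ℝ) ≤ 2)]
    have h2 := intervalIntegral.sum_integral_adjacent_intervals (f := gf) (μ := volume)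
      (a := fun k : ℕ => (k : ℝ) * (1 / 4)) (n := 8) (fun k _ => gf_cont.intervalIntegrable _ _)
    have h3 : ((8 : ℕ) : ℝ) * (1 / 4) = 2 := by norm_num
    simp only [h3, Nat.cast_zero, zero_mul] at h2
    rw [← h2]
    refine Finset.sum_congr rfl fun k _ => ?_
    congr 1
    push_cast
    ring
  rw [h1] at h0
  simp only [Finset.sum_range_succ, Finset.sum_range_zero, zero_add] at h0
  have g0 := gf_num 0 (22663/20000) (2663/20000) (875333/1000000) 0 (by norm_num) (by norm_num) (by norm_num) (by norm_num) (by norm_num) (by norm_num [Finset.sum_range_succ, Nat.factorial]) (by norm_num)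
  have g1 := gf_num 1 (291/200) (91/200) (634447/1000000) 0 (by norm_num) (by norm_num) (by norm_num) (by norm_num) (by norm_num) (by norm_num [Finset.sum_range_succ, Nat.factorial]) (by norm_num)
  have g2 := gf_num 2 (7473/4000) (3473/4000) (83937/200000) 0 (by norm_num) (by norm_num) (by norm_num) (by norm_num) (by norm_num) (by norm_num [Finset.sum_range_succ, Nat.factorial]) (by norm_num)
  have g3 := gf_num 3 (14993/6250) (2493/6250) (246873/1000000) 1 (by norm_num) (by norm_num) (by norm_num) (by norm_num) (by norm_num) (by norm_num [Finset.sum_range_succ, Nat.factorial]) (by norm_num)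
  have g4 := gf_num 4 (154011/50000) (4011/50000) (62451/500000) 2 (by norm_num) (by norm_num) (by norm_num) (by norm_num) (by norm_num) (by norm_num [Finset.sum_range_succ, Nat.factorial]) (by norm_num)
  have g5 := gf_num 5 (98877/25000) (23877/25000) (26037/500000) 2 (by norm_num) (by norm_num) (by norm_num) (by norm_num) (by norm_num) (by norm_num [Finset.sum_range_succ, Nat.factorial]) (by norm_num)
  have g6 := gf_num 6 (507843/100000) (7843/100000) (8467/500000) 4 (by norm_num) (by norm_num) (by norm_num) (by norm_num) (by norm_num) (by norm_num [Finset.sum_range_succ, Nat.factorial]) (by norm_num)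
  have g7 := gf_num 7 (652083/100000) (52083/100000) (2001/500000) 5 (by norm_num) (by norm_num) (by norm_num) (by norm_num) (by norm_num) (by norm_num [Finset.sum_range_succ, Nat.factorial]) (by norm_num)
  norm_num at g0 g1 g2 g3 g4 g5 g6 g7 h0 ⊢
  linarith

end MPacf82c.Br
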