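import Pool.Agent.Lib.MP_acf82c_lc.Br.SpecA

/-!
# Siblings in a laminar family

Take a member with at least two elements (or the whole set) of minimal cardinality and two different
elements of it.
-/

set_option autoImplicit false

open Set Finset
open scoped NNReal ENNReal

namespace MPacf82c.Br

/-- **Sib.** -/
theorem tSib : S_Sib := by
  classical
  intro X I _ _ Y A hY hA hL
  let F : Finset (Finset X) :=
    insert Y ((Finset.univ.image A).filter (fun W => 2 ≤ W.card))
  obtain ⟨W, hW, hmin⟩ := Finset.exists_min_image F Finset.card ⟨Y, Finset.mem_insert_self _ _⟩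
  have hF : ∀ i, 2 ≤ (A i).card → A i ∈ F := by
    intro i hi
    refine Finset.mem_insert_of_mem (Finset.mem_filter.mpr ⟨?_, hi⟩)
    exact Finset.mem_image.mpr ⟨i, Finset.mem_univ _, rfl⟩
  have hW2 : 2 ≤ W.card ∧ W ⊆ Y ∧ ∀ i, W ⊆ A i ∨ A i ⊆ W ∨ Disjoint W (A i) := by
    rcases Finset.mem_insert.mp hW with h | h
    · subst h
      exact ⟨hY, Finset.Subset.refl _, fun i => Or.inr (Or.inl (hA i).2)⟩
    · obtain ⟨h1, h2⟩ := Finset.mem_filter.mp h
      obtain ⟨j, _, rfl⟩ := Finset.mem_image.mp h1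
      exact ⟨h2, (hA j).2, fun i => hL j i⟩
  obtain ⟨hc, hWY, hLW⟩ := hW2
  obtain ⟨a, ha, b, hb, hab⟩ := Finset.one_lt_card.mp hc
  refine ⟨a, hWY ha, b, hWY hb, hab, fun i => ?_⟩
  by_cases h2 : 2 ≤ (A i).card
  · left
    rcases hLW i with h | h | h
    · exact ⟨fun _ => h hb, fun _ => h ha⟩
    · have h3 : A i = W := Finset.eq_of_subset_of_card_le h (hmin _ (hF i h2))
      rw [h3]
      exact ⟨fun _ => hb, fun _ => ha⟩
    · exact ⟨fun h3 => absurd h3 (Finset.disjoint_left.mp h ha),
        fun h3 => absurd h3 (Finset.disjoint_left.mp h hb)⟩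
  · have h1 : (A i).card = 1 := by
      have h3 := Finset.card_pos.mpr (hA i).1
      omega
    obtain ⟨c, hc⟩ := Finset.card_eq_one.mp h1
    by_cases hca : c = a
    · right; left
      rw [hc, hca]
    by_cases hcb : c = b
    · right; right
      rw [hc, hcb]
    left
    rw [hc, Finset.mem_singleton, Finset.mem_singleton]
    exact ⟨fun h => absurd h.symm hca, fun h => absurd h.symm hcb⟩

end MPacf82c.Br
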