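import Pool.Agent.Lib.MP_acf82c_lc.Br.Def

/-!
# Networks with bridges, part A: position functions, laminar families, immobile hiders

Every `S_X` is to be proved as `theorem tX : S_X` in the module
`Pool/Agent/Lib/MP_acf82c_lc/Br/X.lean` (namespace `MPacf82c.Br`), which imports this file (and
modules of the landed library `MP_acf82c_lc/*.lean`, `S/*.lean`, `U/*.lean` if useful).  Statements
which are used are hypotheses, so all modules are independent.
-/

set_option autoImplicit false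

open Set Finset
open scoped NNReal ENNReal

namespace MPacf82c.Br

/-! ## Position functions -/

/-- **Pos.**  `g z = 0` if `z` is off the open arc and joined to `pt e 0` in the complement of the
open arc, `g z = len e` for the other points off the open arc, and `g (pt e s) = s` on the open arc
(unique `s` by `N.simple`).  `pt e (len e)` is not joined because `e` is a bridge.  `const`: a closed
arc `c ≠ e` is in the complement of the open arc `e` (`N.simple`), and two of its points are joined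
along `c` (`N.dist_le`: `pt c` is continuous on `Icc`). -/
def S_Pos : Prop := ∀ (Q : Type) [MetricSpace Q] (N : Network Q) (e : N.Arc), N.IsBridge e →
  ∃ g : Q → ℝ, IsPos N e g

/-- **Cst.**  A function which is constant on every arc is constant.  Induction on `N.walk x y`
(`Walk`); the starting point `x = pt e s`. -/
def S_Cst : Prop := ∀ (Q : Type) [MetricSpace Q] (N : Network Q) (k : Q → ℝ),
  (∀ c, ∀ s ∈ Icc 0 (N.len c), ∀ t ∈ Icc 0 (N.len c), k (N.pt c s) = k (N.pt c t)) →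
  ∀ x y, k x = k y

/-- **Opp.**  `v = g (pt e' 0)`, `v' = g' (pt e 0)`; the function `k z = v'` if `g z = v` and
`k z = g' z` otherwise is constant on every arc (on `e`: `g' = v'`; on `e'`: `g = v`; on the other
arcs `g` and `g'` are constant), so constant by `S_Cst`, equal to `v'` (value on `e`). -/
def S_Opp : Prop := S_Cst → ∀ (Q : Type) [MetricSpace Q] (N : Network Q) (e e' : N.Arc)
  (g g' : Q → ℝ), e ≠ e' → IsPos N e g → IsPos N e' g' →
  ∀ z, g z ≠ g (N.pt e' 0) → g' z = g' (N.pt e 0)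

/-- **Lip.**  Induction on `N.walk x y`. -/
def S_Lip : Prop := ∀ (Q : Type) [MetricSpace Q] (N : Network Q) (k : Q → ℝ),
  (∀ c, ∀ s ∈ Icc 0 (N.len c), ∀ t ∈ Icc 0 (N.len c),
    |k (N.pt c s) - k (N.pt c t)| ≤ |s - t|) → ∀ x y, |k x - k y| ≤ dist x y

/-- **Sum.**  For `x, y` choose the signs `σ e` with `∑ σ e (g e x - g e y) = ∑ |g e x - g e y|` and
apply `S_Lip` to `∑ σ e * g e` (on an arc `c` only the term of `c` changes). -/
def S_Sum : Prop := S_Lip → ∀ (Q : Type) [MetricSpace Q] (N : Network Q) (E : Finset N.Arc)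
  (g : N.Arc → Q → ℝ), (∀ e ∈ E, IsPos N e (g e)) →
  ∀ x y, ∑ e ∈ E, |g e x - g e y| ≤ dist x y

/-- **Dis.**  `x` is a point whose ball of radius `r` lies in an open arc `c ∉ E`.
(1) `y` outside of the ball; (2) `y` another such point, `2 * r ≤ dist x y`.
`S_Lip` for `k z = ∑ σ e * g e z + max 0 (r - dist z x)` (in (2) minus `max 0 (r - dist z y)`): on an
arc of `E` the bumps vanish and only one `g e` changes; on another arc all `g e` are constant and
the (difference of the) bumps is 1-Lipschitz: if `u1 = bump_x z - bump_x z' > 0` and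
`u2 = bump_y z' - bump_y z > 0` then `u1 + u2 ≤ 2 r - dist z x - dist z' y ≤ dist z z'`. -/
def S_Dis : Prop := S_Lip → ∀ (Q : Type) [MetricSpace Q] (N : Network Q) (E : Finset N.Arc)
  (g : N.Arc → Q → ℝ) (r : ℝ), 0 ≤ r → (∀ e ∈ E, IsPos N e (g e)) → ∀ (c : N.Arc) (x : Q), c ∉ E →
  (∀ z, dist z x < r → z ∈ N.openArc c) →
  (∀ y, r ≤ dist x y → ∑ e ∈ E, |g e x - g e y| + r ≤ dist x y) ∧
  ∀ (c' : N.Arc) (y : Q), c' ∉ E → (∀ z, dist z y < r → z ∈ N.openArc c') → 2 * r ≤ dist x y →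
    ∑ e ∈ E, |g e x - g e y| + 2 * r ≤ dist x y

/-! ## Laminar families (equal branching density) -/

/-- Times on the finite set `Y` which are feasible for the root distances `r` and the distances
`d`. -/
def Feas {X : Type} (Y : Finset X) (r : X → ℝ) (d : X → X → ℝ) (T : X → ℝ) : Prop :=
  (∀ x ∈ Y, r x ≤ T x) ∧ ∀ x ∈ Y, ∀ y ∈ Y, x ≠ y → d x y ≤ |T x - T y|

/-- **Swp.**  The swap.  By symmetry (`a ↔ b`, `al ↔ be`) let `T a ≤ T b`.
`G = {g ∈ Y : g ≠ a, b, T a < T g < T b}`, `P = ∑_{G} p`.  `T1`: `T b := T a + al + be`,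
`T g += 2 be` for `g ∈ G`; `T2`: `T a := T b - al - be`, `T g -= 2 al` for `g ∈ G`.  Both are feasible
(`T b - T a ≥ al + be`; `T g - T a ≥ al + δ g`; `T b - T g ≥ be + δ g`; for `T m ≥ T b`:
`T m - T b ≥ be + δ m`; for `T m ≤ T a`: `T a - T m ≥ al + δ m`).  With `Z = T b - T a - al - be ≥ 0`
the changes of the cost are `Δ1 = - p b * Z + 2 be P`, `Δ2 = p a * Z - 2 al P`, and
`al Δ1 + be Δ2 = 0` because `p a * be = p b * al`; so `Δ1 ≤ 0` or `Δ2 ≤ 0` (if `al = 0` then
`be > 0`, `p a = 0`, `Δ2 = 0`; if `be = 0` then `Δ1 = 0`).  In `T1` no `g` is strictly between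
`T1 a` and `T1 b`: `T g + 2 be ≥ T a + al + 2 be`. -/
def S_Swp : Prop := ∀ (X : Type) (Y : Finset X) (a b : X) (r : X → ℝ) (d : X → X → ℝ)
  (al be C : ℝ) (δ p T : X → ℝ), a ∈ Y → b ∈ Y → a ≠ b → 0 ≤ al → 0 ≤ be → 0 < al + be →
  (∀ x, 0 ≤ p x) → p a * be = p b * al → (∀ x, 0 ≤ δ x) → 0 ≤ C →
  r a = C + al → r b = C + be → d a b = al + be → d b a = al + be →
  (∀ m ∈ Y, m ≠ a → m ≠ b → d a m = al + δ m ∧ d m a = al + δ m ∧ d b m = be + δ m ∧
    d m b = be + δ m ∧ r m ≤ C + δ m) →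
  (∀ g ∈ Y, ∀ m ∈ Y, g ≠ a → g ≠ b → m ≠ a → m ≠ b → g ≠ m → d g m ≤ δ g + δ m) →
  Feas Y r d T →
  ∃ T' : X → ℝ, Feas Y r d T' ∧ ∑ x ∈ Y, p x * T' x ≤ ∑ x ∈ Y, p x * T x ∧
    ((T' a ≤ T' b ∧ ∀ g ∈ Y, g ≠ a → g ≠ b → T' g ≤ T' a ∨ T' b ≤ T' g) ∨
      (T' b ≤ T' a ∧ ∀ g ∈ Y, g ≠ a → g ≠ b → T' g ≤ T' b ∨ T' a ≤ T' g))

/-- Root distance of a laminar family. -/
noncomputable def lr {X I : Type} [Fintype I] [DecidableEq X] (A : I → Finset X) (l : I → ℝ)
    (x : X) : ℝ := ∑ i, if x ∈ A i then l i else 0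

/-- Distance of a laminar family. -/
noncomputable def ld {X I : Type} [Fintype I] [DecidableEq X] (A : I → Finset X) (l : I → ℝ)
    (x y : X) : ℝ := ∑ i, if (x ∈ A i ↔ y ∈ A i) then 0 else l i

/-- **Sib.**  Siblings: let `W` be minimal (for `⊆`) among `Y` and the `A i` with at least two
elements, `a ≠ b` in `W`. -/
def S_Sib : Prop := ∀ (X I : Type) [Fintype I] [DecidableEq X] (Y : Finset X) (A : I → Finset X),
  2 ≤ Y.card → (∀ i, (A i).Nonempty ∧ A i ⊆ Y) →
  (∀ i j, A i ⊆ A j ∨ A j ⊆ A i ∨ Disjoint (A i) (A j)) →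
  ∃ a ∈ Y, ∃ b ∈ Y, a ≠ b ∧ ∀ i, (a ∈ A i ↔ b ∈ A i) ∨ A i = {a} ∨ A i = {b}

/-- **Lam.**  Induction on `Y.card`.  One point: every `A i = {x}`, `lr A l x = ∑ l i`.
Otherwise `a, b` from `S_Sib`, `al = ∑_{A i = {a}} l i`, `be = ∑_{A i = {b}} l i`; the family
`A' i = {a}` if `A i = {b}`, `A' i = (A i).erase b` otherwise, on `Y.erase b`, is laminar;
`p'` from the induction; `p a = p' a * al / (al + be)`, `p b = p' a * be / (al + be)` (`p b = 0` if
`al + be = 0`), `p x = p' x` otherwise.  If `al + be = 0`, `T` itself is feasible for `A'`.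
Otherwise use `S_Swp` with `C = ∑_{a, b ∈ A i} l i`,
`δ m = ∑ of the l i with a, b ∈ A i, m ∉ A i or a, b ∉ A i, m ∈ A i`, and then
`T'' a = (al * T' a + be * T' b) / (al + be)`, which is feasible for `A'`
(`lr A' l a = C + al + be`, `ld A' l a m = al + be + δ m`). -/
def S_Lam : Prop := S_Swp → S_Sib → ∀ (X I : Type) [Fintype I] [DecidableEq X] (Y : Finset X)
  (A : I → Finset X) (l : I → ℝ), Y.Nonempty → (∀ i, 0 ≤ l i) →
  (∀ i, (A i).Nonempty ∧ A i ⊆ Y) →
  (∀ i j, A i ⊆ A j ∨ A j ⊆ A i ∨ Disjoint (A i) (A j)) →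
  ∃ p : X → ℝ, (∀ x, 0 ≤ p x) ∧ (∀ x, x ∉ Y → p x = 0) ∧ ∑ x ∈ Y, p x = 1 ∧
    ∀ T : X → ℝ, Feas Y (lr A l) (ld A l) T → ∑ i, l i ≤ ∑ x ∈ Y, p x * T x

/-! ## Immobile hiders -/

/-- **Sta.**  The hider stays at the point `x` of the finite set `Y` with probability `p x`.  Let `S`
be a searcher path from `O`.  If some `x` with `p x > 0` is never visited, the expected capture time
is `∞`.  Otherwise `T x` = first time with `S t = x` for the visited `x ∈ Y`
(`|T x - T y| ≥ dist x y`, `T x ≥ dist O x` because `S` is 1-Lipschitz; the infimum is attained), and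
`T x = M + k x * M` for the others, `k` injective with values `≥ 1`, `M` larger than all visited
times and all distances. -/
def S_Sta : Prop := ∀ (Q : Type) [MetricSpace Q] [DecidableEq Q] (O : Q) (w : ℝ≥0) (Y : Finset Q)
  (p : Q → ℝ) (v : ℝ), (∀ x, 0 ≤ p x) → (∀ x, x ∉ Y → p x = 0) → ∑ x ∈ Y, p x = 1 →
  (∀ T : Q → ℝ, Feas Y (fun x => dist O x) dist T → v ≤ ∑ x ∈ Y, p x * T x) →
  HiderGuarantees w O (ENNReal.ofReal v)

/-- **Imm0.**  One value of `h`.  Conclusion of `samples` (landed, `Samples.lean`) for the arcs which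
are not bridges is a hypothesis here: `xs` the set of the samples.  `Y` = nodes and the samples `x`
with `h / 2 ≤ dist O x` (at most one sample is lost, the balls are disjoint).  `E` = set of the
bridges, `g e` from `S_Pos`.  Index set `I = (N.Arc × Bool) ⊕ Q`... restricted to the sets of
positive weight: for `e ∈ E` the sets `{x ∈ Y : g e x = 0}` with weight `g e O` and
`{x ∈ Y : g e x = len e}` with weight `len e - g e O`, and the singletons of the samples with weight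
`h / 2`.  Laminar by `S_Opp` (for `e ≠ e'`, `v = g e (pt e' 0)`: the set `g e ≠ v` is disjoint from
`g e' ≠ v'`; if `g e O ≠ v` then `g e' O = v'`), nonempty (they contain `pt e 0`, `pt e (len e)`).
`lr ≤ dist O x`, `ld ≤ dist` by `S_Dis`, `S_Sum` (for nodes); then `S_Lam` and `S_Sta`. -/
def S_Imm0C : Prop :=
  ∀ (Q : Type) [MetricSpace Q] (N : Network Q) (E : Finset N.Arc) (g : N.Arc → Q → ℝ) (O : Q)
  (w : ℝ≥0) (h : ℝ) (xs : Finset Q), 0 < h → (∀ e ∈ E, IsPos N e (g e)) →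
  (∀ x ∈ xs, ∃ c, c ∉ E ∧ ∀ z, dist z x < h / 2 → z ∈ N.openArc c) →
  (∀ x ∈ xs, ∀ y ∈ xs, x ≠ y → h ≤ dist x y) →
  HiderGuarantees w O (ENNReal.ofReal (∑ e ∈ E, N.len e + h / 2 * ((xs.card : ℝ) - 1)))

/-- See above. -/
def S_Imm0 : Prop := S_Cst → S_Opp → S_Lip → S_Sum → S_Dis → S_Swp → S_Sib → S_Lam → S_Sta →
  S_Imm0C

/-- **Smp.**  Samples on the arcs not in `E`: `⌊len e / h⌋₊` points on the arc `e`
(copy of `samples`, `Samples.lean`, for the arcs outside of `E`; arcs shorter than `h` get none). -/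
def S_Smp : Prop := ∀ (Q : Type) [MetricSpace Q] (N : Network Q) (E : Finset N.Arc) (h : ℝ),
  0 < h → ∃ xs : Finset Q,
  (∀ x ∈ xs, ∃ c, c ∉ E ∧ ∀ z, dist z x < h / 2 → z ∈ N.openArc c) ∧
  (∀ x ∈ xs, ∀ y ∈ xs, x ≠ y → h ≤ dist x y) ∧
  N.length - ∑ e ∈ E, N.len e - h * (Fintype.card N.Arc) ≤ h * xs.card

/-- **Imm.**  `E` = the bridges, `h → 0` in `S_Imm0` and `S_Smp`. -/
def S_ImmC : Prop := ∀ (Q : Type) [MetricSpace Q] (N : Network Q) (O : Q) (w : ℝ≥0) (v : ℝ),
  v < (N.length + N.bridgeLength) / 2 → HiderGuarantees w O (ENNReal.ofReal v)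

/-- See above. -/
def S_Imm : Prop := S_Pos → S_Smp → S_Imm0C → S_ImmC

end MPacf82c.Br
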