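import Pool.Agent.Lib.MP_acf82c_lc.Br.SpecE
import Pool.Agent.Lib.MP_acf82c_lc.Final

/-!
# Networks with bridges: assembly
-/

set_option autoImplicit false

open Set MeasureTheory
open scoped NNReal ENNReal

namespace MPacf82c.Br

theorem tThmS : S_ThmS := by
  intro hImm hSmall hC
  obtain ⟨c, hc, h1, _⟩ := main
  have hcc : c ≤ Cc := hC c h1
  have hlt : c < 4 / 5 := lt_of_le_of_lt hcc (by unfold Cc; norm_num)
  refine ⟨c, hc, hlt, h1, ?_, hSmall c h1⟩
  intro Q _ N O hβ w _
  have hpos : 0 < N.length := length_pos N O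
  refine hImm Q N O w (c * N.length) ?_
  have hc2 : c * N.length < 4 / 5 * N.length := mul_lt_mul_of_pos_right hlt hpos
  linarith

end MPacf82c.Br
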